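import Pool.Agent.P.MP_111ca2_co.C11b
import Pool.Agent.P.MP_111ca2_co.C11c0
import Pool.Agent.P.MP_111ca2_co.C11c1
import Pool.Agent.P.MP_111ca2_co.C11c2
import Pool.Agent.P.MP_111ca2_co.C11c3
import Pool.Agent.P.MP_111ca2_co.C11c4
import Pool.Agent.P.MP_111ca2_co.C11c5

/-! Generated certificate for the prime 11. -/

namespace Pool.Agent.P.MP_111ca2_co.C11

noncomputable section

set_option maxRecDepth 100000

theorem cert : Cert 11 := by
  refine cert_of par (by norm_num [par]) (by norm_num [par]) par_ok 1236 (mkTab bt) (fun x hx => ?_) big 1462 big_ok fix fix_ok (by decide +kernel)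
  by_cases h0 : x < 40
  · exact tabOk_spec _ _ _ _ _ tr0_ok x (by omega) (by rw [show tr0.length = 40 by decide +kernel]; omega)
  by_cases h1 : x < 80
  · exact tabOk_spec _ _ _ _ _ tr1_ok x (by omega) (by rw [show tr1.length = 40 by decide +kernel]; omega)
  by_cases h2 : x < 120
  · exact tabOk_spec _ _ _ _ _ tr2_ok x (by omega) (by rw [show tr2.length = 40 by decide +kernel]; omega)
  by_cases h3 : x < 160
  · exact tabOk_spec _ _ _ _ _ tr3_ok x (by omega) (by rw [show tr3.length = 40 by decide +kernel]; omega)
  by_cases h4 : x < 200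
  · exact tabOk_spec _ _ _ _ _ tr4_ok x (by omega) (by rw [show tr4.length = 40 by decide +kernel]; omega)
  by_cases h5 : x < 240
  · exact tabOk_spec _ _ _ _ _ tr5_ok x (by omega) (by rw [show tr5.length = 40 by decide +kernel]; omega)
  by_cases h6 : x < 280
  · exact tabOk_spec _ _ _ _ _ tr6_ok x (by omega) (by rw [show tr6.length = 40 by decide +kernel]; omega)
  by_cases h7 : x < 320
  · exact tabOk_spec _ _ _ _ _ tr7_ok x (by omega) (by rw [show tr7.length = 40 by decide +kernel]; omega)
  by_cases h8 : x < 360
  · exact tabOk_spec _ _ _ _ _ tr8_ok x (by omega) (by rw [show tr8.length = 40 by decide +kernel]; omega)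
  by_cases h9 : x < 400
  · exact tabOk_spec _ _ _ _ _ tr9_ok x (by omega) (by rw [show tr9.length = 40 by decide +kernel]; omega)
  by_cases h10 : x < 440
  · exact tabOk_spec _ _ _ _ _ tr10_ok x (by omega) (by rw [show tr10.length = 40 by decide +kernel]; omega)
  by_cases h11 : x < 480
  · exact tabOk_spec _ _ _ _ _ tr11_ok x (by omega) (by rw [show tr11.length = 40 by decide +kernel]; omega)
  by_cases h12 : x < 520
  · exact tabOk_spec _ _ _ _ _ tr12_ok x (by omega) (by rw [show tr12.length = 40 by decide +kernel]; omega)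
  by_cases h13 : x < 560
  · exact tabOk_spec _ _ _ _ _ tr13_ok x (by omega) (by rw [show tr13.length = 40 by decide +kernel]; omega)
  by_cases h14 : x < 600
  · exact tabOk_spec _ _ _ _ _ tr14_ok x (by omega) (by rw [show tr14.length = 40 by decide +kernel]; omega)
  by_cases h15 : x < 640
  · exact tabOk_spec _ _ _ _ _ tr15_ok x (by omega) (by rw [show tr15.length = 40 by decide +kernel]; omega)
  by_cases h16 : x < 680
  · exact tabOk_spec _ _ _ _ _ tr16_ok x (by omega) (by rw [show tr16.length = 40 by decide +kernel]; omega)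
  by_cases h17 : x < 720
  · exact tabOk_spec _ _ _ _ _ tr17_ok x (by omega) (by rw [show tr17.length = 40 by decide +kernel]; omega)
  by_cases h18 : x < 760
  · exact tabOk_spec _ _ _ _ _ tr18_ok x (by omega) (by rw [show tr18.length = 40 by decide +kernel]; omega)
  by_cases h19 : x < 800
  · exact tabOk_spec _ _ _ _ _ tr19_ok x (by omega) (by rw [show tr19.length = 40 by decide +kernel]; omega)
  by_cases h20 : x < 840
  · exact tabOk_spec _ _ _ _ _ tr20_ok x (by omega) (by rw [show tr20.length = 40 by decide +kernel]; omega)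
  by_cases h21 : x < 880
  · exact tabOk_spec _ _ _ _ _ tr21_ok x (by omega) (by rw [show tr21.length = 40 by decide +kernel]; omega)
  by_cases h22 : x < 920
  · exact tabOk_spec _ _ _ _ _ tr22_ok x (by omega) (by rw [show tr22.length = 40 by decide +kernel]; omega)
  by_cases h23 : x < 960
  · exact tabOk_spec _ _ _ _ _ tr23_ok x (by omega) (by rw [show tr23.length = 40 by decide +kernel]; omega)
  by_cases h24 : x < 1000
  · exact tabOk_spec _ _ _ _ _ tr24_ok x (by omega) (by rw [show tr24.length = 40 by decide +kernel]; omega)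
  by_cases h25 : x < 1040
  · exact tabOk_spec _ _ _ _ _ tr25_ok x (by omega) (by rw [show tr25.length = 40 by decide +kernel]; omega)
  by_cases h26 : x < 1080
  · exact tabOk_spec _ _ _ _ _ tr26_ok x (by omega) (by rw [show tr26.length = 40 by decide +kernel]; omega)
  by_cases h27 : x < 1120
  · exact tabOk_spec _ _ _ _ _ tr27_ok x (by omega) (by rw [show tr27.length = 40 by decide +kernel]; omega)
  by_cases h28 : x < 1160
  · exact tabOk_spec _ _ _ _ _ tr28_ok x (by omega) (by rw [show tr28.length = 40 by decide +kernel]; omega)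
  by_cases h29 : x < 1200
  · exact tabOk_spec _ _ _ _ _ tr29_ok x (by omega) (by rw [show tr29.length = 40 by decide +kernel]; omega)
  exact tabOk_spec _ _ _ _ _ tr30_ok x (by omega) (by rw [show tr30.length = 36 by decide +kernel]; omega)

end

end Pool.Agent.P.MP_111ca2_co.C11
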