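import Mathlib

/-! Digit automaton checker: definitions. -/

namespace Pool.Agent.P.MP_111ca2_co

noncomputable section

abbrev N2 := ℕ × ℕ
abbrev N3 := ℕ × ℕ × ℕ
abbrev E1 := ℕ × ℕ × List N2
abbrev E2 := ℕ × ℕ × List N3 × List N3
abbrev TW := List N3 × ℕ

structure Par where
  p : ℕ
  g : ℕ
  tb : ℕ
  lt : ℕ

structure St where
  e : ℕ
  lo : ℕ
  rn : ℕ
  rc : ℕ
  fl : List N2
  d1 : List E1
  d2 : List E2
  w : List TW

def frc {α : Type} (n : ℕ) (f : ℕ → α) : α := Nat.casesOn n (f 0) (fun m => f (Nat.succ m))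

def frcL {α β : Type} (h : β → (β → α) → α) (l : List β) : (List β → α) → α :=
  List.rec (fun k => k []) (fun x _ ih k => h x fun y => ih fun r => k (y :: r)) l

def frc2 {α : Type} (x : N2) (k : N2 → α) : α := frc x.1 fun a => frc x.2 fun b => k (a, b)
def frc3 {α : Type} (x : N3) (k : N3 → α) : α :=
  frc x.1 fun a => frc x.2.1 fun b => frc x.2.2 fun c => k (a, b, c)
def frcE1 {α : Type} (x : E1) (k : E1 → α) : α :=
  frc x.1 fun a => frc x.2.1 fun b => frcL frc2 x.2.2 fun c => k (a, b, c)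
def frcE2 {α : Type} (x : E2) (k : E2 → α) : α :=
  frc x.1 fun a => frc x.2.1 fun b => frcL frc3 x.2.2.1 fun c => frcL frc3 x.2.2.2 fun d =>
    k (a, b, c, d)
def frcTW {α : Type} (x : TW) (k : TW → α) : α :=
  frcL frc3 x.1 fun a => frc x.2 fun b => k (a, b)

def Par.od (P : Par) : ℕ := P.p * (P.p - 1)

def Par.row (P : Par) (n0 N : ℕ) : ℕ :=
  (P.tb >>> (16 * (P.p * P.p) * (n0 * P.p + N))) % 2 ^ (16 * (P.p * P.p))

def cel (p row m0 M : ℕ) : ℕ := (row >>> (16 * (m0 * p + M))) % 65536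

def Par.cd (P : Par) (n0 m0 N M : ℕ) : ℕ := cel P.p (P.row n0 N) m0 M

def st1l (p n0 e : ℕ) (l : List N2) : List N2 :=
  List.rec [] (fun x _ ih => frc (x.1 * e + x.2) fun y =>
    bif Nat.ble (y % p) n0 then (x.1, y / p) :: ih else ih) l

def st1 (p e : ℕ) (x : E1) : E1 :=
  (x.1, (x.1 * e + x.2.1) / p, frc ((x.1 * e + x.2.1) % p) fun n0 => st1l p n0 e x.2.2)

def tcd (p row e d : ℕ) (x : N3) : ℕ :=
  frc (x.1 * e + x.2.1) fun y => cel p row (y % p) ((x.1 * d + y / p) % p)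

def st2l (p row e d : ℕ) (l : List N3) : List N3 :=
  List.rec [] (fun x _ ih => frc (tcd p row e d x) fun c =>
    bif Nat.beq c 0 then ih else
    bif Nat.ble (x.2.2 + (c - 1) % 2) 1 then (x.1, (x.1 * e + x.2.1) / p, x.2.2 + (c - 1) % 2) :: ih
    else ih) l

def erow (P : Par) (e d : ℕ) (x : E2) : ℕ :=
  P.row ((x.1 * e + x.2.1) % P.p) ((x.1 * d + (x.1 * e + x.2.1) / P.p) % P.p)

def st2 (P : Par) (e d : ℕ) (x : E2) : E2 :=
  frc (erow P e d x) fun row =>
    (x.1, (x.1 * e + x.2.1) / P.p, st2l P.p row e d x.2.2.1, st2l P.p row e d x.2.2.2)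

def incs (P : Par) (e d : ℕ) (l : List E2) : List N3 :=
  List.rec [] (fun x _ ih => frc (erow P e d x) fun row =>
    x.2.2.1.map (fun y => (x.1, y.1, (tcd P.p row e d y - 1) / 2)) ++ ih) l

def look (S t : ℕ) (l : List N3) : Option ℕ :=
  List.rec none (fun x _ ih => bif Nat.beq x.2.1 t && Nat.beq x.1 S then some x.2.2 else ih) l

def evT (env : List N3) (tm : List N3) : Option ℕ :=
  List.rec (some 0) (fun x _ ih => (look x.1 x.2.1 env).bind fun a => ih.map fun b => x.2.2 * a + b) tm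

def stw (od : ℕ) (ic : List N3) (w : List TW) : List TW :=
  w.filterMap fun x => (evT ic x.1).map fun v => (x.1, (x.2 + v) % od)

def stB {α : Type} (P : Par) (e d : ℕ) (d2 : List E2) (w : List TW) (k : List E2 → List TW → α) : α :=
  frcL frcE2 (d2.map (st2 P e d)) fun d2' => frcL frc3 (incs P e d d2) fun ic =>
    frcL frcTW (stw P.od ic w) fun w' => k d2' w'

def child (P : Par) (fs : Bool) (B : St) (d : ℕ) (k : St → Bool) : Bool :=
  bif fs then k ⟨d, B.lo, B.rn, B.rc, B.fl, B.d1, B.d2, B.w⟩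
  else stB P B.e d B.d2 B.w fun d2 w => k ⟨d, B.lo, B.rn, B.rc, B.fl, B.d1, d2, w⟩

def stfl (p e : ℕ) (l : List N2) : List N2 :=
  l.filterMap fun x => bif Nat.beq ((x.1 * e + x.2) % p) 0 then some (x.1, (x.1 * e + x.2) / p) else none

def step1 (P : Par) (s : St) (k : St → Bool) : Bool :=
  frc ((s.lo - s.e + (P.p - 1)) / P.p) fun lo => frc ((s.rn * s.e + s.rc) / P.p) fun rc =>
    frcL frc2 (stfl P.p s.e s.fl) fun fl => frcL frcE1 (s.d1.map (st1 P.p s.e)) fun d1 =>
      k ⟨s.e, lo, s.rn, rc, fl, d1, s.d2, s.w⟩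

def sel {β : Type} (l : List β) : ℕ → List β :=
  List.rec (fun _ => []) (fun x r ih m =>
    bif Nat.beq m 0 then x :: r else bif Nat.beq (m % 2) 0 then x :: ih (m / 2) else ih (m / 2)) l

def mask (m : ℕ) (B : St) : St :=
  bif Nat.beq m 0 then B else
    ⟨B.e, B.lo, B.rn, B.rc, sel B.fl ((m >>> 24) % 2 ^ 40), sel B.d1 ((m >>> 64) % 2 ^ 128),
      sel B.d2 (m % 2 ^ 24), sel B.w (m >>> 192)⟩

def dead1 (p : ℕ) (B : St) (j d : ℕ) : Bool :=
  match B.d1[j]? with
  | none => false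
  | some x => (st1 p d x).2.2.isEmpty

def rqDead (p : ℕ) (B : St) (d : ℕ) : Bool :=
  !(Nat.beq B.rn 0) && !(Nat.beq ((B.rn * d + B.rc) % p) 0)

def weak (s t : St) : Bool :=
  Nat.beq s.e t.e && Nat.ble t.lo s.lo && Nat.beq s.rn t.rn && Nat.beq s.rc t.rc &&
    s.fl == t.fl && s.d1 == t.d1 && s.d2 == t.d2 && s.w == t.w

def notPow (p : ℕ) (fu : ℕ) : ℕ → Bool :=
  Nat.rec (fun _ => false) (fun _ ih c => !(Nat.beq c 1) && (!(Nat.beq (c % p) 0) || ih (c / p))) fu

def cf (q S t : ℕ) : ℕ :=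
  bif Nat.beq (t % 2) 0 then (bif Nat.beq (2 * t) S then 1 else 2)
  else (bif Nat.beq (2 * t) S then q - 1 else q - 2)

def badT (od : ℕ) (env : List N3) (ws : List TW) : Bool :=
  ws.any fun x => match evT env x.1 with
    | none => false
    | some v => !(Nat.beq (v % od) (x.2 % od))

def Par.lg (P : Par) (r : ℕ) : ℕ := (P.lt >>> (16 * r)) % 65536

def cands (P : Par) (q S t acc : ℕ) (la : Bool) (ws : List TW) : List ℕ :=
  match ws.find? (fun x => x.1 == [(S, t, 1)]) with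
  | some x => [x.2 % P.od]
  | none => frc (cf (P.p * P.p) S t ^ (P.od - 1) % (P.p * P.p)) fun ic =>
    bif la && Nat.beq (cf (P.p * P.p) S t * ic % (P.p * P.p)) 1 then
      frc ((P.p * P.p - acc) * ic % q) fun r => (List.range (P.p * P.p / q)).map fun j => P.lg (r + q * j)
    else List.range P.od

def goV (P : Par) (q : ℕ) (ws : List TW) (S : ℕ) (k : List N3 → Bool) (ts : List N3) :
    ℕ → List N3 → Bool :=
  List.rec (fun acc env => !(Nat.beq (acc % q) 0) || badT P.od env ws || k env)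
    (fun x r ih acc env => Nat.beq x.2.1 0 &&
      (cands P q S x.1 acc (r.isEmpty && Nat.beq x.2.2 0) ws).all fun L => frc L fun L =>
      (!r.isEmpty && badT P.od ((S, x.1, L) :: env) ws) ||
        frc ((acc + cf (P.p * P.p) S x.1 * P.p ^ x.2.2 * P.g ^ L) % (P.p * P.p)) fun a =>
          ih a ((S, x.1, L) :: env)) ts

def goE (P : Par) (ws : List TW) (l : List E2) : ℕ → List N3 → Bool :=
  List.rec (fun _ _ => false) (fun x _ ih m env =>
    Nat.beq x.2.1 0 &&
      bif Nat.beq (m % 2) 0 then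
        x.2.2.2.isEmpty && goV P (P.p * P.p) ws x.1 (ih (m / 2)) x.2.2.1 2 env
      else x.2.2.2.all (fun y => Nat.ble 1 y.2.2) &&
        goV P P.p ws x.1 (ih (m / 2)) (x.2.2.1.filter fun y => Nat.beq y.2.2 0) 2 env) l

def zr2 (P : Par) (m r : ℕ) : List E2 → List TW → Bool :=
  Nat.rec (fun d2 w => goE P w d2 m []) (fun _ ih d2 w => stB P 0 0 d2 w ih) r

def zr1 (p r : ℕ) : E1 → Bool :=
  Nat.rec (fun _ => false) (fun _ ih x => frcE1 (st1 p 0 x) fun y => y.2.2.isEmpty || ih y) r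

def flOk (p e : ℕ) (x : N2) : Bool :=
  (List.range (e + 1)).all fun j =>
    Nat.beq j 0 || !(Nat.beq ((j + x.1) % 2) 0) || !(Nat.beq ((x.1 * (x.1 * e + x.2)) % p) (j % p))

def fin (P : Par) (s B : St) (f : ℕ) : Bool :=
  match f % 8 with
  | 0 => Nat.beq s.e 0 || Nat.blt s.e s.lo
  | 1 => !(Nat.beq B.rn 0) && notPow P.p 12 B.rc
  | 2 => match s.fl[f / 8]? with
    | none => false
    | some x => flOk P.p s.e x
  | 3 => match B.d1[f / 8]? with
    | none => false
    | some x => zr1 P.p 6 x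
  | _ => stB P s.e 0 (sel s.d2 ((f / 8) % 2 ^ 32)) (sel s.w (f >>> 67)) (zr2 P ((f >>> 35) % 2 ^ 32) 5)

inductive T where
  | nil : T
  | dd (d j : ℕ) (r : T) : T
  | cl (d m j : ℕ) (r : T) : T
  | nd (d m f : ℕ) (k r : T) : T

def T.has (t : T) (x : ℕ) : Bool :=
  T.rec false (fun d _ _ ih => Nat.beq d x || ih) (fun d _ _ _ ih => Nat.beq d x || ih)
    (fun d _ _ _ _ _ ih => Nat.beq d x || ih) t

def cover (p : ℕ) (fs : Bool) (B : St) (t : T) : Bool :=
  (List.range p).all fun d => (fs && Nat.beq d 0) || rqDead p B d || t.has d || dead1 p B 0 d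

def chk (P : Par) (N : ℕ) (tab : ℕ → St) (t : T) : Bool → St → Bool :=
  T.rec (fun _ _ => true)
    (fun d j _ ih fs B => dead1 P.p B j d && ih fs B)
    (fun d m j _ ih fs B => Nat.blt j N && child P fs (mask m B) d (fun s => weak s (tab j)) && ih fs B)
    (fun d m f k _ ihk ih fs B => child P fs (mask m B) d (fun s => step1 P s fun B' =>
      fin P s B' f && cover P.p false B' k && ihk false B') && ih fs B) t

def nodeOk (P : Par) (N : ℕ) (tab : ℕ → St) (s : St) (f : ℕ) (k : T) : Bool :=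
  step1 P s fun B' => fin P s B' f && cover P.p false B' k && chk P N tab k false B'

def tabOk (P : Par) (N : ℕ) (tab : ℕ → St) (l : List (ℕ × T)) : ℕ → Bool :=
  List.rec (fun _ => true) (fun x _ ih j => nodeOk P N tab (tab j) x.1 x.2 && ih (j + 1)) l

/-! decoding of table states from numerals (no property of it is needed) -/

def decL {α β : Type} (h : ℕ → (β → ℕ → α) → α) (n : ℕ) : ℕ → (List β → ℕ → α) → α :=
  Nat.rec (fun c k => k [] c) (fun _ ih c k => h c fun x c => ih c fun r c => k (x :: r) c) n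

def dec1 {α : Type} (c : ℕ) (k : ℕ → ℕ → α) : α := frc (c % 16384) fun x => frc (c >>> 14) fun c => k x c
def dec2 {α : Type} (c : ℕ) (k : N2 → ℕ → α) : α := dec1 c fun a c => dec1 c fun b c => k (a, b) c
def dec3 {α : Type} (c : ℕ) (k : N3 → ℕ → α) : α :=
  dec1 c fun a c => dec1 c fun b c => dec1 c fun d c => k (a, b, d) c
def decN {α β : Type} (h : ℕ → (β → ℕ → α) → α) (c : ℕ) (k : List β → ℕ → α) : α :=
  dec1 c fun n c => decL h n c k
def decE1 {α : Type} (c : ℕ) (k : E1 → ℕ → α) : α :=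
  dec1 c fun a c => dec1 c fun b c => decN dec2 c fun l c => k (a, b, l) c
def decE2 {α : Type} (c : ℕ) (k : E2 → ℕ → α) : α :=
  dec1 c fun a c => dec1 c fun b c => decN dec3 c fun l c => decN dec3 c fun l' c => k (a, b, l, l') c
def decTW {α : Type} (c : ℕ) (k : TW → ℕ → α) : α :=
  decN dec3 c fun l c => dec1 c fun a c => k (l, a) c
def decSt (c : ℕ) : St :=
  dec1 c fun e c => dec1 c fun lo c => dec1 c fun rn c => dec1 c fun rc c =>
    decN dec2 c fun fl c => decN decE1 c fun d1 c => decN decE2 c fun d2 c =>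
      decN decTW c fun w _ => ⟨e, lo, rn, rc, fl, d1, d2, w⟩

inductive BT where
  | lf (c : ℕ) : BT
  | br (l r : BT) : BT

def BT.get (t : BT) : ℕ → ℕ :=
  BT.rec (fun c _ => c) (fun _ _ il ir j => bif Nat.beq (j % 2) 0 then il (j / 2) else ir (j / 2)) t

def mkTab (t : BT) (j : ℕ) : St := decSt (t.get j)

/-! roots -/

def init1 (s : ℕ) : E1 := (s, 0, (List.range' 1 (s / 2)).map fun t => (t, 0))

def init2 (p : ℕ) (x : ℕ × List ℕ) : E2 :=
  (p * x.1, 0, ((List.range' 1 (p * x.1 / 2)).filter fun t => x.2.contains t).map (fun t => (t, 0, 0)),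
    ((List.range' 1 (p * x.1 / 2)).filter fun t => !(x.2.contains t)).map (fun t => (t, 0, 0)))

structure Root where
  s1 : List ℕ
  s2 : List (ℕ × List ℕ)
  n0 : List ℕ
  tm : List (List N3)
  t : T

def Root.st (R : Root) (p lo rn rc : ℕ) : St :=
  ⟨0, lo, rn, rc, R.n0.map fun n => (n, 1), R.s1.map init1, R.s2.map (init2 p), R.tm.map fun t => (t, 0)⟩

def Root.run (P : Par) (N : ℕ) (tab : ℕ → St) (R : Root) (lo rn rc : ℕ) : Bool :=
  frcL frcE1 (R.st P.p lo rn rc).d1 fun d1 => frcL frcE2 (R.st P.p lo rn rc).d2 fun d2 =>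
    cover P.p true ⟨0, lo, rn, rc, (R.st P.p lo rn rc).fl, d1, d2, (R.st P.p lo rn rc).w⟩ R.t &&
    chk P N tab R.t true ⟨0, lo, rn, rc, (R.st P.p lo rn rc).fl, d1, d2, (R.st P.p lo rn rc).w⟩

/-- root for `n > b` -/
def Root.big (P : Par) (N : ℕ) (tab : ℕ → St) (R : Root) (b : ℕ) : Bool :=
  Nat.ble P.p b && (R.s1 ++ R.s2.map Prod.fst).all (fun s => Nat.beq (s % 2) 0 && Nat.blt 0 s && Nat.ble s b) &&
    R.n0.all (fun n => Nat.ble n b) && R.run P N tab (b + 2) 0 0

/-- root for a fixed `n` -/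
def Root.fix (P : Par) (N : ℕ) (tab : ℕ → St) (R : Root) (n : ℕ) : Bool :=
  (R.s1 ++ R.s2.map Prod.fst).all (fun s => Nat.beq (s % 2) 0 && !(Nat.beq (s % n) 0)) &&
    R.n0.isEmpty && R.run P N tab (n + 1) n 1

/-- roots for `n, n + 2, n + 4, ...`; multiples of `p` and members of `ex` are passed over -/
def fixOk (P : Par) (N : ℕ) (tab : ℕ → St) (ex : List ℕ) (l : List Root) : ℕ → Bool :=
  List.rec (fun _ => true) (fun R _ ih n =>
    (Nat.beq (n % P.p) 0 || ex.contains n || R.fix P N tab n) && ih (n + 2)) l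

def ch (n k : ℕ) : ℕ := n.descFactorial k / k.factorial

def cval (P : Par) (c : ℕ) : ℕ := bif Nat.beq c 0 then 0 else P.p ^ ((c - 1) % 2) * P.g ^ ((c - 1) / 2)

def Par.ok (P : Par) : Bool :=
  Nat.beq (P.g ^ P.od % (P.p * P.p)) 1 &&
  (List.range P.od).all (fun L => Nat.beq (P.lg (P.g ^ L % (P.p * P.p))) L) &&
  (List.range P.p).all fun n0 => (List.range P.p).all fun m0 =>
    frc (ch n0 m0) fun c => frc (ch (n0 + P.p) m0) fun A => frc (ch (n0 + P.p) (m0 + P.p)) fun B =>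
      (List.range P.p).all fun N => frc (P.row n0 N) fun row => (List.range P.p).all fun M =>
        Nat.beq ((cval P (cel P.p row m0 M) + N * c + M * A) % (P.p * P.p))
          ((c + N * A + M * B) % (P.p * P.p))

end

end Pool.Agent.P.MP_111ca2_co
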