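import Pool.Agent.P.MP_111ca2_co.Snd1

/-! Digit automaton checker: soundness. -/

namespace Pool.Agent.P.MP_111ca2_co

noncomputable section

theorem beq_false_of_ne {a b : ℕ} (h : a ≠ b) : Nat.beq a b = false := by
  cases hb : Nat.beq a b
  · rfl
  · exact absurd (Nat.eq_of_beq_eq_true hb) h

theorem nbeq_iff (a b : ℕ) : (!(Nat.beq a b)) = true ↔ a ≠ b := by
  cases hb : Nat.beq a b
  · simpa using Nat.ne_of_beq_eq_false hb
  · simpa using Nat.eq_of_beq_eq_true hb

theorem sel_mem {β : Type} (l : List β) : ∀ m, ∀ x ∈ sel l m, x ∈ l := by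
  induction l with
  | nil => intro m x hx; exact hx
  | cons a r ih =>
    intro m x hx
    change x ∈ (bif Nat.beq m 0 then a :: r else
      bif Nat.beq (m % 2) 0 then a :: sel r (m / 2) else sel r (m / 2)) at hx
    cases h1 : Nat.beq m 0
    · cases h2 : Nat.beq (m % 2) 0
      · rw [h1, h2] at hx; exact List.mem_cons_of_mem _ (ih _ x hx)
      · rw [h1, h2] at hx
        rcases List.mem_cons.1 hx with rfl | hx
        · exact List.mem_cons_self
        · exact List.mem_cons_of_mem _ (ih _ x hx)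
    · rw [h1] at hx; exact hx

theorem badT_false (od : ℕ) (F : ℕ → ℕ → ℕ) (env : List N3) (ws : List TW)
    (he : ∀ z ∈ env, z.2.2 ≡ F z.1 z.2.1 [MOD od]) (hw : ∀ x ∈ ws, tsum F x.1 ≡ x.2 [MOD od]) :
    badT od env ws = false := by
  rw [badT, List.any_eq_false]
  intro x hx
  cases hv : evT env x.1 with
  | none => simp
  | some v =>
    have : v % od = x.2 % od := (evT_spec F od env he _ v hv).trans (hw x hx)
    simp [this]

theorem dvd_of_cast_dvd (N q a : ℕ) [NeZero N] (hq : q ∣ N) (h : (q : ZMod N) ∣ (a : ZMod N)) :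
    q ∣ a := by
  obtain ⟨c, hc⟩ := h
  rw [← ZMod.natCast_zmod_val c, ← Nat.cast_mul, ZMod.natCast_eq_natCast_iff] at hc
  exact ((hc.of_dvd hq).dvd_iff dvd_rfl).2 (dvd_mul_right _ _)

theorem g_mod (P : Par) (h : P.ok = true) (a : ℕ) : (P.g : RR P) ^ (a % P.od) = (P.g : RR P) ^ a := by
  conv_rhs => rw [← Nat.div_add_mod a P.od, pow_add, pow_mul, ok_g P h, one_pow, one_mul]

theorem mem_cands (P : Par) (hp : P.p.Prime) (h : P.ok = true) (q : ℕ) (hq : q ∣ P.p * P.p)
    (F : ℕ → ℕ → ℕ) (ws : List TW) (hw : ∀ x ∈ ws, tsum F x.1 ≡ x.2 [MOD P.od]) (S t acc : ℕ)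
    (ha : acc < P.p * P.p) (la : Bool) (hl : la = true →
      (q : RR P) ∣ (acc : RR P) + (cf (P.p * P.p) S t : RR P) * (P.g : RR P) ^ F S t) :
    F S t % P.od ∈ cands P q S t acc la ws := by
  have ho : 0 < P.od := Nat.mul_pos hp.pos (by have := hp.two_le; omega)
  have hq2 : 0 < P.p * P.p := Nat.mul_pos hp.pos hp.pos
  have : NeZero (P.p * P.p) := ⟨hq2.ne'⟩
  unfold cands
  split
  · rename_i x hx
    have h1 := List.find?_some hx
    have h2 := hw x (List.mem_of_find?_eq_some hx)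
    rw [eq_of_beq h1] at h2
    simp only [tsum, List.map_cons, List.map_nil, List.sum_cons, List.sum_nil, one_mul,
      add_zero] at h2
    exact List.mem_singleton.2 h2
  · rw [frc_eq]
    generalize cf (P.p * P.p) S t ^ (P.od - 1) % (P.p * P.p) = ic
    cases hb : (la && Nat.beq (cf (P.p * P.p) S t * ic % (P.p * P.p)) 1)
    · exact List.mem_range.2 (Nat.mod_lt _ ho)
    · simp only [Bool.and_eq_true, Nat.beq_eq] at hb
      have h1 : (cf (P.p * P.p) S t : RR P) * ic = 1 := by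
        have := (ZMod.natCast_mod (cf (P.p * P.p) S t * ic) (P.p * P.p)).symm
        rw [hb.2] at this
        exact_mod_cast this
      set y := P.g ^ (F S t % P.od) % (P.p * P.p) with hy
      have h2 : (q : RR P) ∣ ((y + acc * ic : ℕ) : RR P) := by
        have := (hl hb.1).mul_right (ic : RR P)
        rw [hy]
        push_cast
        rw [ZMod.natCast_mod, Nat.cast_pow, g_mod P h]
        convert this using 1
        linear_combination (-(P.g : RR P) ^ F S t) * h1
      have h3 : y ≡ (P.p * P.p - acc) * ic [MOD q] := by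
        refine Nat.ModEq.add_right_cancel' (acc * ic) ?_
        rw [← add_mul, Nat.sub_add_cancel ha.le]
        exact ((Nat.modEq_zero_iff_dvd.2 (dvd_of_cast_dvd _ _ _ hq h2))).trans
          (Nat.modEq_zero_iff_dvd.2 (hq.mul_right _)).symm
      simp only [cond_true, frc_eq, List.mem_map, List.mem_range]
      refine ⟨y / q, Nat.div_lt_div_of_lt_of_dvd hq (Nat.mod_lt _ hq2), ?_⟩
      rw [← h3, Nat.mod_add_div, hy, ok_lg P h _ (Nat.mod_lt _ ho)]

theorem goV_false (P : Par) (hp : P.p.Prime) (h : P.ok = true) (q : ℕ) (hq' : q ∣ P.p * P.p)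
    (F : ℕ → ℕ → ℕ) (ws : List TW)
    (hw : ∀ x ∈ ws, tsum F x.1 ≡ x.2 [MOD P.od]) (S : ℕ) (kk : List N3 → Bool)
    (hk : ∀ env, (∀ z ∈ env, z.2.2 ≡ F z.1 z.2.1 [MOD P.od]) → kk env = false) (ts : List N3) :
    ∀ acc env, acc < P.p * P.p → (∀ z ∈ env, z.2.2 ≡ F z.1 z.2.1 [MOD P.od]) →
      (q : RR P) ∣ (acc : RR P) + msum P F S 0 0 ts → goV P q ws S kk ts acc env = false := by
  have hq : 0 < P.p * P.p := Nat.mul_pos hp.pos hp.pos
  have : NeZero (P.p * P.p) := ⟨hq.ne'⟩
  induction ts with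
  | nil =>
    intro acc env ha he hs
    show (!(Nat.beq (acc % q) 0) || badT P.od env ws || kk env) = false
    have : acc % q = 0 := by
      simp only [msum, List.map_nil, List.sum_nil, add_zero] at hs
      exact Nat.mod_eq_zero_of_dvd (dvd_of_cast_dvd _ _ _ hq' hs)
    rw [this, badT_false _ F env ws he hw, hk env he]; rfl
  | cons x r ih =>
    intro acc env ha he hs
    show (Nat.beq x.2.1 0 && (cands P q S x.1 acc (r.isEmpty && Nat.beq x.2.2 0) ws).all fun L =>
      frc L fun L => (!r.isEmpty && badT P.od ((S, x.1, L) :: env) ws) ||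
        frc ((acc + cf (P.p * P.p) S x.1 * P.p ^ x.2.2 * P.g ^ L) % (P.p * P.p)) fun a =>
          goV P q ws S kk r a ((S, x.1, L) :: env)) = false
    by_cases hb : x.2.1 = 0
    · rw [Bool.and_eq_false_iff]
      right
      rw [List.all_eq_false]
      refine ⟨_, mem_cands P hp h q hq' F ws hw S x.1 acc ha _ fun hl => ?_, ?_⟩
      · simp only [Bool.and_eq_true, List.isEmpty_iff, Nat.beq_eq] at hl
        simpa [msum, trm, hb, hl.1, hl.2] using hs
      have he' : ∀ z ∈ (S, x.1, F S x.1 % P.od) :: env, z.2.2 ≡ F z.1 z.2.1 [MOD P.od] := by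
        intro z hz
        rcases List.mem_cons.1 hz with rfl | hz
        · exact Nat.mod_modEq _ _
        · exact he z hz
      rw [frc_eq, badT_false _ F _ ws he' hw, frc_eq, ih _ _ (Nat.mod_lt _ hq) he']
      · simp
      · rw [ZMod.natCast_mod]
        simp only [msum, List.map_cons, List.sum_cons, trm, hb, mul_zero, add_zero,
          Nat.choose_self, Nat.cast_one, mul_one] at hs ⊢
        push_cast
        rw [g_mod P h]
        convert hs using 1
        ring
    · rw [beq_false_of_ne hb]; rfl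

theorem msum_filter (P : Par) (F : ℕ → ℕ → ℕ) (S : ℕ) (l : List N3) :
    (P.p : RR P) ∣ msum P F S 0 0 l - msum P F S 0 0 (l.filter fun y => Nat.beq y.2.2 0) := by
  induction l with
  | nil => simp [msum]
  | cons x r ih =>
    by_cases h0 : x.2.2 = 0
    · rw [List.filter_cons_of_pos (by simp [h0])]
      simpa [msum] using ih
    · rw [List.filter_cons_of_neg (by simp [h0])]
      simp only [msum, List.map_cons, List.sum_cons] at ih ⊢
      rw [add_sub_assoc]
      exact dvd_add (((dvd_pow_self _ h0).mul_right _).mul_left _) ih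

theorem goE_false (P : Par) (hp : P.p.Prime) (h : P.ok = true) (k i : ℕ) (hK : k / P.p ^ i = 0)
    (ws : List TW) (hw : ∀ x ∈ ws, tsum (Lf P k i) x.1 ≡ x.2 [MOD P.od]) (l : List E2)
    (hl : ∀ x ∈ l, Sem2 P k i x) :
    ∀ m env, (∀ z ∈ env, z.2.2 ≡ Lf P k i z.1 z.2.1 [MOD P.od]) → goE P ws l m env = false := by
  have h4 : 2 < P.p * P.p := by have := hp.two_le; nlinarith
  induction l with
  | nil => intro _ _ _; rfl
  | cons x r ih =>
    intro m env he
    show (Nat.beq x.2.1 0 && bif Nat.beq (m % 2) 0 then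
        x.2.2.2.isEmpty && goV P (P.p * P.p) ws x.1 (goE P ws r (m / 2)) x.2.2.1 2 env
      else x.2.2.2.all (fun y => Nat.ble 1 y.2.2) &&
        goV P P.p ws x.1 (goE P ws r (m / 2)) (x.2.2.1.filter fun y => Nat.beq y.2.2 0) 2 env) = false
    have ih' := ih (fun y hy => hl y (List.mem_cons_of_mem _ hy)) (m / 2)
    obtain ⟨_, _, h3⟩ := hl x List.mem_cons_self
    by_cases h1 : x.2.1 = 0
    · rw [hK, h1] at h3
      cases Nat.beq (m % 2) 0
      · by_cases h2 : (x.2.2.2.all fun y => Nat.ble 1 y.2.2) = true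
        · have h5 : osp P x.1 0 0 x.2.2.2 ≤ Ideal.span {(P.p : RR P)} := by
            rw [osp, Ideal.span_le]
            rintro z ⟨y, hy, rfl⟩
            have := Nat.le_of_ble_eq_true (List.all_eq_true.1 h2 y hy)
            exact Ideal.mem_span_singleton.2 ((dvd_pow_self _ (by omega)).mul_right _)
          have h6 := dvd_sub (Ideal.mem_span_singleton.1 (h5 h3)) (msum_filter P (Lf P k i) x.1 x.2.2.1)
          rw [goV_false P hp h _ (dvd_mul_right _ _) _ ws hw x.1 _ ih' _ 2 env h4 he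
            (by convert h6 using 1; push_cast; ring)]
          simp
        · simp [h2]
      · cases h2 : x.2.2.2 with
        | cons _ _ => simp
        | nil =>
          rw [h2] at h3
          have h5 : ((2 : ℕ) : RR P) + msum P (Lf P k i) x.1 0 0 x.2.2.1 = 0 := by simpa [osp] using h3
          rw [goV_false P hp h _ dvd_rfl _ ws hw x.1 _ ih' _ 2 env h4 he (h5 ▸ dvd_zero _)]
          simp
    · rw [beq_false_of_ne h1]; rfl

theorem zr2_false (P : Par) (hp : P.p.Prime) (h : P.ok = true) (k m r : ℕ) :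
    ∀ i d2 w, k / P.p ^ i = 0 → SemB P k i d2 w → zr2 P m r d2 w = false := by
  induction r with
  | zero =>
    intro i d2 w hK hs
    exact goE_false P hp h k i hK w hs.2 d2 hs.1 m [] (fun z hz => absurd hz List.not_mem_nil)
  | succ r ih =>
    intro i d2 w hK hs
    show stB P 0 0 d2 w (zr2 P m r) = false
    have hK' : k / P.p ^ (i + 1) = 0 := by rw [div_pow_succ, hK, Nat.zero_div]
    rw [stB_eq]
    exact ih (i + 1) _ _ hK' (semB_step P hp h k i d2 w hs 0 0 (by rw [hK]; simp) (by rw [hK']; simp))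

theorem notPow_false (p : ℕ) (hp : 0 < p) (fu : ℕ) : ∀ r, notPow p fu (p ^ r) = false := by
  induction fu with
  | zero => intro _; rfl
  | succ fu ih =>
    intro r
    show (!(Nat.beq (p ^ r) 1) && (!(Nat.beq (p ^ r % p) 0) || notPow p fu (p ^ r / p))) = false
    cases r with
    | zero => simp
    | succ r =>
      rw [pow_succ, Nat.mul_mod_left, Nat.mul_div_cancel _ hp, ih]
      simp

theorem flOk_false (p n k f i c n0 : ℕ) (hp : p.Prime) (hp2 : 2 < p) (hnk : n * k + 1 = p ^ f)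
    (hn : Even n) (hlt : n < k) (hpk : p ≤ k) (h0 : n0 < n) (hK : 0 < k / p ^ i)
    (hK' : k / p ^ i < p) (hf : n0 * k + 1 = p ^ i * (n0 * (k / p ^ i) + c)) :
    flOk p (k / p ^ i) (n0, c) = false := by
  set e := k / p ^ i with he
  have hpi : 0 < p ^ i := pow_pos hp.pos i
  have h1 : p ^ i ≤ k := by
    by_contra hc
    rw [he, Nat.div_eq_of_lt (not_le.1 hc)] at hK
    exact lt_irrefl _ hK
  have h2 : k < p ^ i * (e + 1) := Nat.lt_mul_div_succ k hpi
  have hif : i < f := by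
    have : p ^ i < p ^ f := by nlinarith
    exact (Nat.pow_lt_pow_iff_right hp.one_lt).1 this
  have hi : 0 < i := by
    rcases Nat.eq_zero_or_pos i with rfl | hi
    · simp at he; omega
    · exact hi
  obtain ⟨g, rfl⟩ : ∃ g, f = i + g + 1 := ⟨f - i - 1, by omega⟩
  obtain ⟨u, rfl⟩ : ∃ u, n = n0 + u := ⟨n - n0, by omega⟩
  have hcop : Nat.Coprime p k := by
    rw [Nat.Prime.coprime_iff_not_dvd hp]
    intro hd
    have : p ∣ (n0 + u) * k + 1 := by rw [hnk]; exact dvd_pow_self p (by omega)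
    exact hp.one_lt.ne' (Nat.dvd_one.1 ((Nat.dvd_add_right (hd.mul_left _)).1 this))
  have h3 : p ^ i ∣ u * k := by
    have a : p ^ i ∣ (n0 * k + 1) + u * k := by
      rw [show n0 * k + 1 + u * k = (n0 + u) * k + 1 by ring, hnk]
      exact pow_dvd_pow p (by omega)
    exact (Nat.dvd_add_right (by rw [hf]; exact dvd_mul_right _ _)).1 a
  obtain ⟨j, rfl⟩ : p ^ i ∣ u := (Nat.Coprime.pow_left i hcop).dvd_of_dvd_mul_right h3
  have hj0 : j ≠ 0 := by rintro rfl; simp at h0
  have hje : j < e + 1 := by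
    by_contra hc
    have : p ^ i * (e + 1) ≤ p ^ i * j := Nat.mul_le_mul_left _ (not_lt.1 hc)
    omega
  have hpar : (j + n0) % 2 = 0 := by
    have o : Odd (p ^ i) := (hp.odd_of_ne_two (by omega)).pow
    rw [← Nat.even_iff, add_comm]
    rw [Nat.even_add, Nat.even_mul] at hn
    rw [Nat.even_add, hn]
    simp [Nat.not_even_iff_odd.2 o]
  have h4 : n0 * e + c + j * k = p ^ g * p := by
    apply Nat.eq_of_mul_eq_mul_left hpi
    rw [← mul_assoc, ← pow_add, ← pow_succ, ← hnk, mul_add, ← hf]; ring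
  have h5 : (n0 * (n0 * e + c)) % p = j % p := by
    obtain ⟨i', rfl⟩ : ∃ i', i = i' + 1 := ⟨i - 1, by omega⟩
    have : n0 * (n0 * e + c) + p * (j * (p ^ i' * (n0 * e + c))) = j + p * (n0 * p ^ g) := by
      have a : p * (j * (p ^ i' * (n0 * e + c))) = j * (n0 * k + 1) := by rw [hf]; ring
      have b : p * (n0 * p ^ g) = n0 * (n0 * e + c + j * k) := by rw [h4]; ring
      rw [a, b]; ring
    have := congrArg (· % p) this
    simpa using this
  rw [flOk, List.all_eq_false]
  refine ⟨j, List.mem_range.2 hje, ?_⟩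
  simp [beq_false_of_ne hj0, hpar, h5]

def SemA (P : Par) (n k i : ℕ) (s : St) : Prop :=
  s.lo ≤ k / P.p ^ i ∧ (s.rn ≠ 0 → 1 < s.rn ∧ ∃ r, s.rn * (k / P.p ^ i) + s.rc = P.p ^ r) ∧
  (∀ x ∈ s.fl, P.p ≤ k ∧ x.1 < n ∧ x.1 * k + 1 = P.p ^ i * (x.1 * (k / P.p ^ i) + x.2)) ∧
  ∀ x ∈ s.d1, Sem1 P.p (k / P.p ^ i) x

def Sem (P : Par) (n k i : ℕ) (s : St) : Prop :=
  k / P.p ^ i % P.p = s.e ∧ SemA P n k i s ∧ SemB P k i s.d2 s.w

def Pre (P : Par) (n k : ℕ) (fs : Bool) (j : ℕ) (B : St) : Prop :=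
  SemA P n k j B ∧ (fs = true → SemB P k j B.d2 B.w) ∧
    (fs = false → ∃ i, j = i + 1 ∧ k / P.p ^ i % P.p = B.e ∧ SemB P k i B.d2 B.w)

theorem semB_sel (P : Par) (k i : ℕ) (d2 : List E2) (w : List TW) (a b : ℕ) (h : SemB P k i d2 w) :
    SemB P k i (sel d2 a) (sel w b) :=
  ⟨fun x hx => h.1 x (sel_mem _ _ x hx), fun x hx => h.2 x (sel_mem _ _ x hx)⟩

theorem pre_mask (P : Par) (n k : ℕ) (fs : Bool) (j : ℕ) (B : St) (m : ℕ) (h : Pre P n k fs j B) :
    Pre P n k fs j (mask m B) := by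
  unfold mask
  cases Nat.beq m 0
  · obtain ⟨⟨a1, a2, a3, a4⟩, b, c⟩ := h
    refine ⟨⟨a1, a2, fun x hx => a3 x (sel_mem _ _ x hx), fun x hx => a4 x (sel_mem _ _ x hx)⟩,
      fun hf => semB_sel _ _ _ _ _ _ _ (b hf), fun hf => ?_⟩
    obtain ⟨i, c1, c2, c3⟩ := c hf
    exact ⟨i, c1, c2, semB_sel _ _ _ _ _ _ _ c3⟩
  · exact h

theorem child_sound (P : Par) (hp : P.p.Prime) (h : P.ok = true) (n k : ℕ) (fs : Bool) (j : ℕ)
    (B : St) (hB : Pre P n k fs j B) (kk : St → Bool)
    (hc : child P fs B (k / P.p ^ j % P.p) kk = true) : ∃ s, Sem P n k j s ∧ kk s = true := by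
  cases fs
  · obtain ⟨i, rfl, c2, c3⟩ := hB.2.2 rfl
    simp only [child, cond_false, stB_eq] at hc
    refine ⟨_, ?_, hc⟩
    exact ⟨rfl, hB.1, semB_step P hp h k i _ _ c3 _ _ c2 rfl⟩
  · simp only [child, cond_true] at hc
    refine ⟨_, ?_, hc⟩
    exact ⟨rfl, hB.1, hB.2.1 rfl⟩

theorem rq_step (p rn rc K r : ℕ) (hp : 0 < p) (h1 : 1 < rn) (hK : 0 < K) (h : rn * K + rc = p ^ r) :
    (rn * (K % p) + rc) % p = 0 ∧ ∃ r, rn * (K / p) + (rn * (K % p) + rc) / p = p ^ r := by
  cases r with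
  | zero => rw [pow_zero] at h; nlinarith
  | succ r =>
    rw [← carry_mod, ← carry_div _ _ _ _ hp, h, pow_succ]
    exact ⟨Nat.mul_mod_left _ _, r, Nat.mul_div_cancel _ hp⟩

def nextB (P : Par) (s : St) : St :=
  ⟨s.e, (s.lo - s.e + (P.p - 1)) / P.p, s.rn, (s.rn * s.e + s.rc) / P.p, stfl P.p s.e s.fl,
    s.d1.map (st1 P.p s.e), s.d2, s.w⟩

theorem step1_eq (P : Par) (s : St) (kk : St → Bool) : step1 P s kk = kk (nextB P s) := by
  simp [step1, nextB]

theorem pre_next (P : Par) (hp : P.p.Prime) (n k i : ℕ) (s : St) (hs : Sem P n k i s)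
    (hK : 0 < k / P.p ^ i) : Pre P n k false (i + 1) (nextB P s) := by
  obtain ⟨he, ⟨a1, a2, a3, a4⟩, hb⟩ := hs
  refine ⟨⟨?_, fun h => ?_, fun x hx => ?_, fun x hx => ?_⟩, fun h => (by cases h),
    fun _ => ⟨i, rfl, he, hb⟩⟩
  · show (s.lo - s.e + (P.p - 1)) / P.p ≤ _
    rw [div_pow_succ, ← Nat.lt_succ_iff, Nat.div_lt_iff_lt_mul hp.pos, Nat.succ_mul]
    have := Nat.div_add_mod' (k / P.p ^ i) P.p
    have := hp.pos
    omega
  · obtain ⟨b1, r, b2⟩ := a2 h
    refine ⟨b1, ?_⟩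
    show ∃ r, s.rn * _ + (s.rn * s.e + s.rc) / P.p = _
    rw [div_pow_succ, ← he]
    exact (rq_step _ _ _ _ _ hp.pos b1 hK b2).2
  · simp only [nextB, stfl, List.mem_filterMap] at hx
    obtain ⟨y, hy, hx⟩ := hx
    obtain ⟨b1, b2, b3⟩ := a3 y hy
    cases hz : Nat.beq ((y.1 * s.e + y.2) % P.p) 0
    · rw [hz] at hx; cases hx
    · rw [hz] at hx
      cases hx
      refine ⟨b1, b2, ?_⟩
      have hz := Nat.eq_of_beq_eq_true hz
      simp only
      rw [div_pow_succ, ← he, ← carry_div _ _ _ _ hp.pos, b3, pow_succ, mul_assoc,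
        Nat.mul_div_cancel' (Nat.dvd_of_mod_eq_zero (by rw [carry_mod, he, hz]))]
  · obtain ⟨y, hy, rfl⟩ := List.mem_map.1 hx
    rw [div_pow_succ, ← he]
    exact sem1_step _ _ hp y (a4 y hy)

theorem dead1_false (P : Par) (hp : P.p.Prime) (n k j : ℕ) (B : St) (hB : SemA P n k j B) (a : ℕ) :
    dead1 P.p B a (k / P.p ^ j % P.p) = false := by
  unfold dead1
  split
  · rfl
  · rename_i x hx
    exact sem1_ne _ _ _ (sem1_step _ _ hp x (hB.2.2.2 x (List.mem_of_getElem? hx)))

theorem cover_has (P : Par) (hp : P.p.Prime) (n k j : ℕ) (fs : Bool) (B : St) (hB : SemA P n k j B)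
    (hK : 0 < k / P.p ^ j) (hf : fs = true → k / P.p ^ j % P.p ≠ 0) (t : T)
    (hc : cover P.p fs B t = true) : t.has (k / P.p ^ j % P.p) = true := by
  rw [cover, List.all_eq_true] at hc
  have := hc _ (List.mem_range.2 (Nat.mod_lt (k / P.p ^ j) hp.pos))
  rw [dead1_false P hp n k j B hB] at this
  have h1 : (fs && Nat.beq (k / P.p ^ j % P.p) 0) = false := by
    cases fs
    · rfl
    · exact beq_false_of_ne (hf rfl)
  have h2 : rqDead P.p B (k / P.p ^ j % P.p) = false := by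
    by_cases h0 : B.rn = 0
    · simp [rqDead, h0]
    · obtain ⟨b1, r, b2⟩ := hB.2.1 h0
      simp [rqDead, (rq_step _ _ _ _ _ hp.pos b1 hK b2).1]
  simpa [h1, h2] using this

theorem fin_false (P : Par) (hp : P.p.Prime) (hp2 : 2 < P.p) (h : P.ok = true) (n k f : ℕ)
    (hnk : n * k + 1 = P.p ^ f) (hn : Even n) (hlt : n < k) (i : ℕ) (s : St) (hs : Sem P n k i s)
    (hK : 0 < k / P.p ^ i) (hK' : k / P.p ^ (i + 1) = 0) (c : ℕ) :
    fin P s (nextB P s) c = false := by
  have hB := (pre_next P hp n k i s hs hK).1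
  have hlt' : k / P.p ^ i < P.p := by
    rw [div_pow_succ] at hK'
    exact (Nat.div_eq_zero_iff_lt hp.pos).1 hK'
  obtain ⟨he, ⟨a1, a2, a3, a4⟩, hb⟩ := hs
  have he' : k / P.p ^ i = s.e := by rw [← he, Nat.mod_eq_of_lt hlt']
  unfold fin
  split
  · have : Nat.blt s.e s.lo = false := by
      cases hx : Nat.blt s.e s.lo
      · rfl
      · rw [Nat.blt_eq] at hx; omega
    rw [this, beq_false_of_ne (by omega)]; rfl
  · by_cases h0 : (nextB P s).rn = 0
    · simp [h0]
    · obtain ⟨_, r, hr⟩ := hB.2.1 h0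
      rw [hK', mul_zero, zero_add] at hr
      rw [hr, notPow_false _ hp.pos]; simp
  · split
    · rfl
    · rename_i x hx
      obtain ⟨b1, b2, b3⟩ := a3 x (List.mem_of_getElem? hx)
      rw [← he']
      exact flOk_false P.p n k f i x.2 x.1 hp hp2 hnk hn hlt b1 b2 hK hlt' b3
  · split
    · rfl
    · rename_i x hx
      have := hB.2.2.2 x (List.mem_of_getElem? hx)
      rw [hK'] at this
      exact zr1_sound _ hp _ x this
  · rw [stB_eq]
    exact zr2_false P hp h k _ 5 (i + 1) _ _ hK'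
      (semB_step P hp h k i _ _ (semB_sel _ _ _ _ _ _ _ hb) _ _ he (by rw [hK']; simp))

theorem weak_sem (P : Par) (n k i : ℕ) (s t : St) (hs : Sem P n k i s) (hw : weak s t = true) :
    Sem P n k i t := by
  simp only [weak, Bool.and_eq_true, Nat.beq_eq, Nat.ble_eq, beq_iff_eq] at hw
  obtain ⟨⟨⟨⟨⟨⟨⟨w1, w2⟩, w3⟩, w4⟩, w5⟩, w6⟩, w7⟩, w8⟩ := hw
  obtain ⟨he, ⟨a1, a2, a3, a4⟩, hb⟩ := hs
  exact ⟨w1 ▸ he, ⟨w2.trans a1, w3 ▸ w4 ▸ a2, w5 ▸ a3, w6 ▸ a4⟩, w7 ▸ w8 ▸ hb⟩

theorem chk_false (P : Par) (hp : P.p.Prime) (hp2 : 2 < P.p) (h : P.ok = true) (n k f : ℕ)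
    (hnk : n * k + 1 = P.p ^ f) (hn : Even n) (hlt : n < k) (N : ℕ) (tab : ℕ → St) (j0 : ℕ)
    (IH : ∀ j, j0 ≤ j → 0 < k / P.p ^ j → ∀ x < N, ¬ Sem P n k j (tab x)) (t : T) :
    ∀ fs B j, j0 ≤ j → 0 < k / P.p ^ j → Pre P n k fs j B → t.has (k / P.p ^ j % P.p) = true →
      chk P N tab t fs B = false := by
  induction t with
  | nil => intro fs B j _ _ _ hh; cases hh
  | dd d a r ih =>
    intro fs B j hj hK hB hh
    show (dead1 P.p B a d && chk P N tab r fs B) = false
    change (Nat.beq d _ || r.has _) = true at hh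
    rcases Bool.or_eq_true_iff.1 hh with hh | hh
    · rw [Nat.eq_of_beq_eq_true hh, dead1_false P hp n k j B hB.1]; rfl
    · rw [ih fs B j hj hK hB hh]; simp
  | cl d m a r ih =>
    intro fs B j hj hK hB hh
    show (Nat.blt a N && child P fs (mask m B) d (fun s => weak s (tab a)) && chk P N tab r fs B) = false
    change (Nat.beq d _ || r.has _) = true at hh
    rcases Bool.or_eq_true_iff.1 hh with hh | hh
    · rw [Nat.eq_of_beq_eq_true hh, Bool.eq_false_iff]
      intro hc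
      simp only [Bool.and_eq_true, Nat.blt_eq] at hc
      obtain ⟨s, h1, h2⟩ := child_sound P hp h n k fs j _ (pre_mask P n k fs j B m hB) _ hc.1.2
      exact IH j hj hK a hc.1.1 (weak_sem P n k j s _ h1 h2)
    · rw [ih fs B j hj hK hB hh]; simp
  | nd d m c kd r ihk ih =>
    intro fs B j hj hK hB hh
    show (child P fs (mask m B) d (fun s => step1 P s fun B' =>
      fin P s B' c && cover P.p false B' kd && chk P N tab kd false B') && chk P N tab r fs B) = false
    change (Nat.beq d _ || r.has _) = true at hh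
    rcases Bool.or_eq_true_iff.1 hh with hh | hh
    · rw [Nat.eq_of_beq_eq_true hh, Bool.eq_false_iff]
      intro hc
      rw [Bool.and_eq_true] at hc
      obtain ⟨s, h1, h2⟩ := child_sound P hp h n k fs j _ (pre_mask P n k fs j B m hB) _ hc.1
      simp only [step1_eq, Bool.and_eq_true] at h2
      have hn' := pre_next P hp n k j s h1 hK
      rcases Nat.eq_zero_or_pos (k / P.p ^ (j + 1)) with h0 | h0
      · rw [fin_false P hp hp2 h n k f hnk hn hlt j s h1 hK h0] at h2
        exact absurd h2.1.1 (by simp)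
      · rw [ihk false _ (j + 1) (by omega) h0 hn'
          (cover_has P hp n k _ false _ hn'.1 h0 (by simp) kd h2.1.2)] at h2
        exact absurd h2.2 (by simp)
    · rw [ih fs B j hj hK hB hh]; simp

theorem tab_false (P : Par) (hp : P.p.Prime) (hp2 : 2 < P.p) (h : P.ok = true) (n k f : ℕ)
    (hnk : n * k + 1 = P.p ^ f) (hn : Even n) (hlt : n < k) (N : ℕ) (tab : ℕ → St)
    (ht : ∀ x < N, ∃ c t, nodeOk P N tab (tab x) c t = true) :
    ∀ j, 0 < k / P.p ^ j → ∀ x < N, ¬ Sem P n k j (tab x) := by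
  have key : ∀ m j, k < j + m → 0 < k / P.p ^ j → ∀ x < N, ¬ Sem P n k j (tab x) := by
    intro m
    induction m with
    | zero =>
      intro j hj hK
      rw [Nat.div_eq_of_lt (lt_trans (show k < j from hj) (Nat.lt_pow_self hp.one_lt))] at hK
      exact absurd hK (lt_irrefl _)
    | succ m ih =>
      intro j hj hK x hx h1
      obtain ⟨c, t, h2⟩ := ht x hx
      simp only [nodeOk, step1_eq, Bool.and_eq_true] at h2
      have hn' := pre_next P hp n k j _ h1 hK
      rcases Nat.eq_zero_or_pos (k / P.p ^ (j + 1)) with h0 | h0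
      · rw [fin_false P hp hp2 h n k f hnk hn hlt j _ h1 hK h0] at h2
        exact absurd h2.1.1 (by simp)
      · rw [chk_false P hp hp2 h n k f hnk hn hlt N tab (j + 1) (fun j' hj' => ih j' (by omega)) t
          false _ (j + 1) le_rfl h0 hn' (cover_has P hp n k _ false _ hn'.1 h0 (by simp) t h2.1.2)] at h2
        exact absurd h2.2 (by simp)
  intro j
  exact key (k + 1) j (by omega)

theorem tabOk_spec (P : Par) (N : ℕ) (tab : ℕ → St) (l : List (ℕ × T)) :
    ∀ j, tabOk P N tab l j = true → ∀ x, j ≤ x → x < j + l.length →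
      ∃ c t, nodeOk P N tab (tab x) c t = true := by
  induction l with
  | nil => intro j _ x h1 h2; simp at h2; omega
  | cons a r ih =>
    intro j hj x h1 h2
    change (nodeOk P N tab (tab j) a.1 a.2 && tabOk P N tab r (j + 1)) = true at hj
    rw [Bool.and_eq_true] at hj
    rcases h1.eq_or_lt with rfl | h1
    · exact ⟨_, _, hj.1⟩
    · exact ih _ hj.2 x h1 (by simp at h2; omega)

/-- the congruence modulo the square of `p` attached to `s` -/
def Eq2 (P : Par) (k s : ℕ) : Prop :=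
  2 + ((List.range' 1 (P.p * s / 2)).map fun t =>
    (cf (P.p * P.p) (P.p * s) t : RR P) * ((P.p * s * k).choose (t * k) : RR P)).sum = 0

/-- the consequence of the congruence modulo `p` attached to `s` -/
def Eq1 (p k s : ℕ) : Prop := ∃ t, 1 ≤ t ∧ t ≤ s / 2 ∧ ¬ p ∣ (s * k).choose (t * k)

theorem sem_init1 (p k s : ℕ) (h : Eq1 p k s) : Sem1 p k (init1 s) := by
  obtain ⟨t, h1, h2, h3⟩ := h
  exact ⟨(t, 0), List.mem_map.2 ⟨t, List.mem_range'_1.2 ⟨h1, by omega⟩, rfl⟩, h3⟩

theorem sem_init2 (P : Par) (k : ℕ) (x : ℕ × List ℕ) (h : Eq2 P k x.1) :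
    Sem2 P k 0 (init2 P.p x) := by
  refine ⟨by simp [init2], fun y hy => ?_, ?_⟩
  · obtain ⟨t, _, rfl⟩ := List.mem_map.1 hy
    simp
  · have key : ∀ l : List ℕ,
        msum P (Lf P k 0) (P.p * x.1) 0 k ((l.filter fun t => x.2.contains t).map fun t => (t, 0, 0)) -
        (l.map fun t => (cf (P.p * P.p) (P.p * x.1) t : RR P) *
          ((P.p * x.1 * k).choose (t * k) : RR P)).sum ∈
        osp P (P.p * x.1) 0 k ((l.filter fun t => !(x.2.contains t)).map fun t => (t, 0, 0)) := by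
      intro l
      induction l with
      | nil => simp [msum]
      | cons a r ih =>
        cases ha : x.2.contains a
        · simp only [List.filter_cons, ha, Bool.not_false, Bool.false_eq_true, if_false, if_true,
            List.map_cons, List.sum_cons]
          rw [sub_add_eq_sub_sub_swap]
          refine Ideal.sub_mem _ (Ideal.span_mono ?_ ih) (Ideal.mul_mem_left _ _
            (Ideal.subset_span ⟨_, List.mem_cons_self, by simp [trm]⟩))
          rintro z ⟨y, hy, rfl⟩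
          exact ⟨y, List.mem_cons_of_mem _ hy, rfl⟩
        · simp only [List.filter_cons, ha, Bool.not_true, Bool.false_eq_true, if_false, if_true,
            List.map_cons, List.sum_cons]
          convert ih using 1
          simp [msum, trm, Lf]
    have := key (List.range' 1 (P.p * x.1 / 2))
    rw [eq_neg_of_add_eq_zero_right h, sub_neg_eq_add, add_comm] at this
    simpa [init2] using this

theorem run_false (P : Par) (hp : P.p.Prime) (hp2 : 2 < P.p) (h : P.ok = true) (n k f : ℕ)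
    (hnk : n * k + 1 = P.p ^ f) (hn : Even n) (hlt : n < k) (N : ℕ) (tab : ℕ → St)
    (ht : ∀ x < N, ∃ c t, nodeOk P N tab (tab x) c t = true) (h2 : 2 < n) (R : Root) (lo rn rc : ℕ)
    (hlo : lo ≤ k) (hr : rn ≠ 0 → rn = n ∧ rc = 1) (h0 : ∀ x ∈ R.n0, P.p ≤ k ∧ x < n)
    (hs : ∀ s ∈ R.s1 ++ R.s2.map Prod.fst, Eq1 P.p k s ∧ Eq2 P k s) :
    R.run P N tab lo rn rc = false := by
  have hpre : Pre P n k true 0 (R.st P.p lo rn rc) := by
    refine ⟨⟨by simpa [Root.st] using hlo, fun hh => ?_, fun x hx => ?_, fun x hx => ?_⟩,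
      fun _ => ⟨fun x hx => ?_, fun x hx => ?_⟩, fun hh => by cases hh⟩
    · obtain ⟨a, b⟩ := hr hh
      exact ⟨by show 1 < rn; omega, f, by simpa [Root.st, a, b] using hnk⟩
    · obtain ⟨y, hy, rfl⟩ := List.mem_map.1 hx
      exact ⟨(h0 y hy).1, (h0 y hy).2, by simp⟩
    · obtain ⟨y, hy, rfl⟩ := List.mem_map.1 hx
      simpa using sem_init1 _ _ _ (hs y (List.mem_append_left _ hy)).1
    · obtain ⟨y, hy, rfl⟩ := List.mem_map.1 hx
      exact sem_init2 P k y (hs y.1 (List.mem_append_right _ (List.mem_map_of_mem hy))).2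
    · obtain ⟨y, hy, rfl⟩ := List.mem_map.1 hx
      simp [tsum, Lf, Nat.ModEq]
  have hK : 0 < k / P.p ^ 0 := by simp; omega
  rw [Bool.eq_false_iff]
  intro hc
  simp only [Root.run, frcLE1, frcLE2, Bool.and_eq_true] at hc
  have hd : k / P.p ^ 0 % P.p ≠ 0 := by
    rw [pow_zero, Nat.div_one]
    intro hd
    have hf : f ≠ 0 := by rintro rfl; rw [pow_zero] at hnk; nlinarith
    have : P.p ∣ n * k + 1 := by rw [hnk]; exact dvd_pow_self _ hf
    exact hp.one_lt.ne' (Nat.dvd_one.1 ((Nat.dvd_add_right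
      ((Nat.dvd_of_mod_eq_zero hd).mul_left _)).1 this))
  have := chk_false P hp hp2 h n k f hnk hn hlt N tab 0
    (fun j _ => tab_false P hp hp2 h n k f hnk hn hlt N tab ht j) R.t true _ 0 le_rfl hK hpre
    (cover_has P hp n k 0 true _ hpre.1 hK (fun _ => hd) R.t hc.1)
  exact absurd (hc.2.symm.trans this) (by simp)

theorem fixOk_spec (P : Par) (N : ℕ) (tab : ℕ → St) (ex : List ℕ) (l : List Root) :
    ∀ n0, fixOk P N tab ex l n0 = true → ∀ j < l.length, (n0 + 2 * j) % P.p ≠ 0 → n0 + 2 * j ∉ ex →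
      ∃ R : Root, R.fix P N tab (n0 + 2 * j) = true := by
  induction l with
  | nil => intro _ _ j hj; simp at hj
  | cons a r ih =>
    intro n0 hh j hj h1 h2
    change ((Nat.beq (n0 % P.p) 0 || ex.contains n0 || a.fix P N tab n0) &&
      fixOk P N tab ex r (n0 + 2)) = true at hh
    rw [Bool.and_eq_true] at hh
    cases j with
    | zero =>
      refine ⟨a, ?_⟩
      simpa [beq_false_of_ne (show n0 % P.p ≠ 0 from h1), (show n0 ∉ ex from h2)] using hh.1
    | succ j =>
      have e : n0 + 2 * (j + 1) = n0 + 2 + 2 * j := by ring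
      rw [e] at h1 h2 ⊢
      exact ih _ hh.2 j (by simpa using hj) h1 h2

theorem cert_sound (P : Par) (hp : P.p.Prime) (hp2 : 2 < P.p) (h : P.ok = true) (N : ℕ) (tab : ℕ → St)
    (ht : ∀ x < N, ∃ c t, nodeOk P N tab (tab x) c t = true) (big : Root) (b : ℕ)
    (hb : big.big P N tab b = true) (ex : List ℕ) (l : List Root) (hl : fixOk P N tab ex l 4 = true)
    (hlen : b < 4 + 2 * l.length) (n k f : ℕ) (hnk : n * k + 1 = P.p ^ f) (hn : Even n) (h2 : 2 < n)
    (hlt : n < k) (hs : ∀ s, Even s → ¬ n ∣ s → Eq1 P.p k s ∧ Eq2 P k s) : n ∈ ex := by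
  by_contra hex
  by_cases hc : b < n
  · simp only [Root.big, Bool.and_eq_true, Nat.ble_eq, List.all_eq_true, Nat.beq_eq, Nat.blt_eq] at hb
    obtain ⟨⟨⟨b1, b2⟩, b3⟩, b4⟩ := hb
    rw [run_false P hp hp2 h n k f hnk hn hlt N tab ht h2 big _ _ _ (by omega) (fun h => absurd rfl h)
      (fun x hx => ⟨by omega, by have := b3 x hx; omega⟩) fun s hx => hs s
        (Nat.even_iff.2 (b2 s hx).1.1) fun hd => by
          have := Nat.le_of_dvd (b2 s hx).1.2 hd
          have := (b2 s hx).2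
          omega] at b4
    cases b4
  · obtain ⟨m, hm⟩ := hn
    have e : n = 4 + 2 * (m - 2) := by omega
    have hnp : n % P.p ≠ 0 := by
      intro hd
      have hf : f ≠ 0 := by rintro rfl; rw [pow_zero] at hnk; nlinarith
      have : P.p ∣ n * k + 1 := by rw [hnk]; exact dvd_pow_self _ hf
      exact hp.one_lt.ne' (Nat.dvd_one.1 ((Nat.dvd_add_right
        ((Nat.dvd_of_mod_eq_zero hd).mul_right _)).1 this))
    obtain ⟨R, hR⟩ := fixOk_spec P N tab ex l 4 hl (m - 2) (by omega) (e ▸ hnp) (e ▸ hex)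
    rw [← e] at hR
    simp only [Root.fix, Bool.and_eq_true, List.all_eq_true, Nat.beq_eq, nbeq_iff,
      List.isEmpty_iff] at hR
    obtain ⟨⟨b2, b3⟩, b4⟩ := hR
    rw [run_false P hp hp2 h n k f hnk ⟨m, hm⟩ hlt N tab ht h2 R _ _ _ (by omega) (fun _ => ⟨rfl, rfl⟩)
      (fun x hx => by rw [b3] at hx; cases hx) fun s hx => hs s
        (Nat.even_iff.2 (b2 s hx).1) fun hd => (b2 s hx).2 (Nat.mod_eq_zero_of_dvd hd)] at b4
    cases b4

end

end Pool.Agent.P.MP_111ca2_co
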