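import Pool.Agent.P.MP_111ca2_co.DS1
import Pool.Agent.P.MP_111ca2_co.Snd2

/-! Folding the congruences, characteristic two, index four, and the reduction to certificates. -/

namespace Pool.Agent.P.MP_111ca2_co

open Finset

noncomputable section

theorem altS_fold (k h : ℕ) : altS k (2 * (h + 1)) = 2 + ∑ t ∈ range (h + 1),
    (if 2 * (1 + t) = 2 * (h + 1) then 1 else 2) * (-1) ^ (1 + t) *
      ((2 * (h + 1) * k).choose ((1 + t) * k) : ℤ) := by
  set F : ℕ → ℤ := fun t => (-1) ^ t * ((2 * (h + 1) * k).choose (t * k) : ℤ) with hF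
  have hsym : ∀ t, t ≤ h → F (h + 1 + 1 + (h + 1 - 1 - t)) = F t := by
    intro t ht
    obtain ⟨u, rfl⟩ := Nat.exists_eq_add_of_le ht
    simp only [hF]
    rw [show t + u + 1 + 1 + (t + u + 1 - 1 - t) = t + 2 * (u + 1) by omega, pow_add, pow_mul,
      Nat.choose_symm_of_eq_add (show 2 * (t + u + 1) * k = (t + 2 * (u + 1)) * k + t * k by ring)]
    ring
  have e1 : altS k (2 * (h + 1)) = ∑ t ∈ range (h + 1), F t + F (h + 1) + ∑ t ∈ range (h + 1), F t := by
    rw [altS, show 2 * (h + 1) + 1 = h + 1 + 1 + (h + 1) by ring, sum_range_add, sum_range_succ,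
      ← sum_range_reflect (fun x => F (h + 1 + 1 + x))]
    congr 1
    exact sum_congr rfl fun t ht => hsym t (by have := mem_range.1 ht; omega)
  have e2 : ∑ t ∈ range h, (if 2 * (1 + t) = 2 * (h + 1) then 1 else 2) * (-1) ^ (1 + t) *
      ((2 * (h + 1) * k).choose ((1 + t) * k) : ℤ) = 2 * ∑ t ∈ range h, F (t + 1) := by
    rw [mul_sum]
    refine sum_congr rfl fun t ht => ?_
    rw [if_neg (by have := mem_range.1 ht; omega), add_comm 1 t, mul_assoc]
  have e3 : F 0 = 1 := by simp [hF]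
  rw [e1, sum_range_succ', sum_range_succ _ h, e2, if_pos (by ring), e3, add_comm 1 h]
  simp only [hF]
  ring

theorem eq1_of (p k s : ℕ) (hp2 : 2 < p) (he : Even s) (h0 : s ≠ 0) (h : (p : ℤ) ∣ altS k s) :
    Eq1 p k s := by
  obtain ⟨m, rfl⟩ : ∃ m, s = 2 * (m + 1) := by
    obtain ⟨m, hm⟩ := he
    exact ⟨m - 1, by omega⟩
  by_contra hc
  rw [altS_fold] at h
  have : (p : ℤ) ∣ 2 := (dvd_add_left (dvd_sum fun t ht => Dvd.dvd.mul_left (by
    by_contra hd
    exact hc ⟨1 + t, by omega, by have := mem_range.1 ht; omega,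
      fun h => hd (Int.natCast_dvd_natCast.2 h)⟩) _)).1 h
  have := Int.le_of_dvd (by norm_num) this
  omega

theorem sum_range'_map {R : Type} [AddCommMonoid R] (f : ℕ → R) (h : ℕ) :
    ((List.range' 1 h).map f).sum = ∑ t ∈ range h, f (1 + t) := by
  induction h with
  | zero => simp
  | succ h ih => rw [List.range'_1_concat, List.map_append, List.sum_append, ih, sum_range_succ]; simp

theorem cf_cast (P : Par) (hp2 : 2 < P.p) (S t : ℕ) :
    (cf (P.p * P.p) S t : RR P) = (if 2 * t = S then 1 else 2) * (-1) ^ t := by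
  have h1 : 2 ≤ P.p * P.p := by nlinarith
  unfold cf
  rcases Nat.even_or_odd t with ht | ht
  · rw [ht.neg_one_pow, Nat.even_iff.1 ht]
    by_cases h : 2 * t = S
    · simp [h]
    · simp [h, beq_false_of_ne h]
  · rw [ht.neg_one_pow, Nat.odd_iff.1 ht]
    by_cases h : 2 * t = S
    · simp [h, Nat.cast_sub (show 1 ≤ P.p * P.p by omega), Nat.beq]
    · simp [h, beq_false_of_ne h, Nat.cast_sub h1, Nat.beq]

theorem eq2_of (P : Par) (k s : ℕ) (hp2 : 2 < P.p) (he : Even s) (h0 : s ≠ 0)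
    (h : (P.p : ℤ) ^ 2 ∣ altS k (P.p * s)) : Eq2 P k s := by
  obtain ⟨m, hm⟩ : ∃ m, P.p * s = 2 * (m + 1) := by
    obtain ⟨m, hm⟩ := he.mul_left P.p
    have : 0 < P.p * s := Nat.mul_pos (by omega) (Nat.pos_of_ne_zero h0)
    exact ⟨m - 1, by omega⟩
  have h1 : ((altS k (P.p * s) : ℤ) : RR P) = 0 := by
    rw [ZMod.intCast_zmod_eq_zero_iff_dvd]
    simpa [sq] using h
  rw [Eq2, sum_range'_map, hm, Nat.mul_div_cancel_left _ (by norm_num : 0 < 2), ← h1, hm, altS_fold]
  push_cast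
  simp only [cf_cast P hp2]

theorem two_case (k : ℕ) (hk : Odd k) (h1 : 1 < k) : ¬ ((2 : ℕ) : ℤ) ^ (1 + 1) ∣ altS k (2 ^ 1 * 1) := by
  intro h
  rw [show 2 ^ 1 * 1 = 2 * (0 + 1) by norm_num, altS_fold] at h
  obtain ⟨j, rfl⟩ := hk
  have := Fact.mk Nat.prime_two
  have a := Choose.choose_modEq_choose_mod_mul_choose_div_nat (n := 4 * j + 1) (k := 2 * j) (p := 2)
  rw [show (4 * j + 1) % 2 = 1 by omega, show 2 * j % 2 = 0 by omega,
    show (4 * j + 1) / 2 = 2 * j by omega, show 2 * j / 2 = j by omega] at a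
  have b : 2 ∣ (2 * j).choose j := Nat.two_dvd_centralBinom_of_one_le (by omega)
  obtain ⟨c, hc⟩ := (a.dvd_iff dvd_rfl).2 (b.mul_left _)
  have d : (2 * (2 * j + 1)).choose (2 * j + 1) = 2 * (2 * c) := by
    rw [show 2 * (2 * j + 1) = 4 * j + 1 + 1 by ring, Nat.choose_succ_succ',
      Nat.choose_symm_of_eq_add (show 4 * j + 1 = 2 * j + 1 + 2 * j by ring), hc]
    ring
  simp only [zero_add, range_one, sum_singleton, add_zero, mul_one, one_mul, if_true, d] at h
  push_cast at h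
  omega

/-! ### the equation `1 + b ^ 2 = p ^ f` -/

theorem gauss_pow (e : ℤ) (m : ℕ) : 0 < m → ∃ (v : ℕ) (x y : ℤ), Odd x ∧
    (⟨1, 2 * e⟩ : GaussianInt) ^ (2 * m) = ⟨1 + (2 * e) ^ 2 * 2 ^ v * x, 2 * e * 2 ^ (v + 1) * y⟩ := by
  have odd_case : ∀ j : ℕ, ∃ x y : ℤ, Odd x ∧
      (⟨1, 2 * e⟩ : GaussianInt) ^ (2 * (2 * j + 1)) = ⟨1 + (2 * e) ^ 2 * x, 2 * e * 2 * y⟩ := by
    intro j
    induction j with
    | zero => exact ⟨-1, 1, by norm_num, by ext <;> simp [sq]; ring⟩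
    | succ j ih =>
      obtain ⟨x, y, hx, h⟩ := ih
      refine ⟨x + 2 * (-3 + 2 * e ^ 2 + 2 * e ^ 2 * x * (4 * e ^ 2 - 6) - 4 * y * (1 - 4 * e ^ 2)),
        y * (1 + 4 * e ^ 2 * (4 * e ^ 2 - 6)) + 2 * (1 - 4 * e ^ 2) * (1 + 4 * e ^ 2 * x),
        hx.add_even (even_two_mul _), ?_⟩
      rw [show 2 * (2 * (j + 1) + 1) = 2 * (2 * j + 1) + 4 by ring, pow_add, h]
      ext <;> simp [pow_succ] <;> ring
  induction m using Nat.strong_induction_on with
  | _ m ih =>
    intro hm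
    rcases Nat.even_or_odd' m with ⟨j, rfl | rfl⟩
    · obtain ⟨v, x, y, hx, h⟩ := ih j (by omega) (by omega)
      refine ⟨v + 1, x + 2 * (e ^ 2 * 2 ^ v * x ^ 2 - 2 ^ v * y ^ 2),
        y * (1 + (2 * e) ^ 2 * 2 ^ v * x), hx.add_even (even_two_mul _), ?_⟩
      rw [show 2 * (2 * j) = 2 * j + 2 * j by ring, pow_add, h]
      ext <;> simp [pow_succ] <;> ring
    · obtain ⟨x, y, hx, h⟩ := odd_case j
      exact ⟨0, x, y, hx, by rw [h]; simp⟩

theorem lebesgue (p f : ℕ) (b : ℤ) (hp : Odd p) (hf : 2 ≤ f) (h : 1 + b ^ 2 = (p : ℤ) ^ f) : b = 0 := by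
  rcases Nat.even_or_odd' f with ⟨m, rfl | rfl⟩
  · rw [mul_comm, pow_mul] at h
    have h1 : ((p : ℤ) ^ m - b) * ((p : ℤ) ^ m + b) = 1 := by linear_combination (-1 : ℤ) * h
    rcases Int.eq_one_or_neg_one_of_mul_eq_one' h1 with h2 | h2 <;> omega
  by_contra hb
  set f := 2 * m + 1 with hf'
  have hfo : Odd f := ⟨m, rfl⟩
  have hq : Odd ((p : ℤ) ^ f) := ((Int.odd_coe_nat p).2 hp).pow
  have hm : (⟨1, b⟩ : GaussianInt) * ⟨1, -b⟩ = (p : GaussianInt) ^ f := by
    have : ((p : GaussianInt)) ^ f = (((p : ℤ) ^ f : ℤ) : GaussianInt) := by push_cast; rfl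
    rw [this, ← h]
    ext <;> simp [sq]
  have hcop : IsCoprime (⟨1, b⟩ : GaussianInt) ⟨1, -b⟩ := by
    obtain ⟨r, hr⟩ := hq
    refine ⟨⟨1, -b⟩ - (r : GaussianInt), -(r : GaussianInt), ?_⟩
    rw [← h] at hr
    ext
    · simp; linear_combination hr
    · simp; ring
  obtain ⟨d, u, hu⟩ := exists_associated_pow_of_mul_eq_pow' hcop hm
  have hu4 : (u : GaussianInt) ^ 4 = 1 := by
    have h1 : (u : GaussianInt).norm = 1 := (Zsqrtd.norm_eq_one_iff' (by norm_num) _).2 u.isUnit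
    rw [Zsqrtd.norm_def] at h1
    have h2 : (u : GaussianInt).re * (u : GaussianInt).im = 0 := by
      have a1 : (u : GaussianInt).re ^ 2 ≤ 1 := by nlinarith [sq_nonneg (u : GaussianInt).im]
      have a2 : -1 ≤ (u : GaussianInt).re ∧ (u : GaussianInt).re ≤ 1 := by constructor <;> nlinarith
      obtain ⟨a3, a4⟩ := a2
      generalize (u : GaussianInt).re = x at *
      generalize (u : GaussianInt).im = y at *
      interval_cases x <;> nlinarith
    ext
    · simp [pow_succ]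
      linear_combination ((u : GaussianInt).re ^ 2 + (u : GaussianInt).im ^ 2 + 1) * h1
        - 8 * (u : GaussianInt).re * (u : GaussianInt).im * h2
    · simp [pow_succ]
      linear_combination 4 * ((u : GaussianInt).re ^ 2 - (u : GaussianInt).im ^ 2) * h2
  have hz : (d * (u : GaussianInt) ^ f) ^ f = ⟨1, b⟩ := by
    rw [mul_pow, ← pow_mul, show f * f = 4 * (m * m + m) + 1 by rw [hf']; ring, pow_succ (u : GaussianInt),
      pow_mul (u : GaussianInt), hu4, one_pow, one_mul, hu]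
  generalize d * (u : GaussianInt) ^ f = z at hz
  obtain ⟨a, c⟩ := z
  have ha : a = 1 ∨ a = -1 := by
    have h1 := Odd.add_dvd_pow_add_pow (⟨a, c⟩ : GaussianInt) (star ⟨a, c⟩) hfo
    rw [← star_pow, hz] at h1
    obtain ⟨w, hw⟩ := h1
    have h2 := congrArg Zsqrtd.re hw
    simp at h2
    exact Int.eq_one_or_neg_one_of_mul_eq_one (v := w.re) (by linarith)
  have hn : (a * a + c * c) ^ f = (p : ℤ) ^ f := by
    have := congrArg Zsqrtd.norm hz
    rw [show ((⟨a, c⟩ : GaussianInt) ^ f).norm = (⟨a, c⟩ : GaussianInt).norm ^ f from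
      map_pow Zsqrtd.normMonoidHom _ _, Zsqrtd.norm_def, Zsqrtd.norm_def] at this
    simp at this
    rw [← h]; linear_combination this
  have haa : a * a = 1 := by rcases ha with rfl | rfl <;> norm_num
  have hc : Even c := by
    by_contra hc
    rw [Int.not_even_iff_odd] at hc
    have : Even ((a * a + c * c) ^ f) :=
      (Int.even_pow' (by omega)).2 (by rw [haa]; exact odd_one.add_odd (hc.mul hc))
    rw [hn] at this
    exact (Int.not_even_iff_odd.2 hq) this
  obtain ⟨e, rfl⟩ := hc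
  have he : e ≠ 0 := by
    rintro rfl
    rw [haa, ← h] at hn
    simp at hn
    exact hb hn
  obtain ⟨v, x, y, hx, hg⟩ := gauss_pow (a * e) m (by omega)
  have h3 : (⟨a, e + e⟩ : GaussianInt) = (a : GaussianInt) * ⟨1, 2 * (a * e)⟩ := by
    ext
    · simp
    · simp; linear_combination (-2 * e) * haa
  have h4 : (a : GaussianInt) ^ f = a := by
    rcases ha with rfl | rfl
    · simp
    · simp [hfo.neg_one_pow]
  rw [h3, mul_pow, h4, hf', pow_succ, hg] at hz
  have h5 := congrArg Zsqrtd.re hz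
  simp at h5
  have h6 : a * (1 + 4 * e ^ 2 * 2 ^ v * (x - 2 * y)) = 1 := by
    linear_combination h5 - (4 * a * e ^ 2 * 2 ^ v * (x - 2 * y)) * haa
  rcases ha with rfl | rfl
  · have : 4 * e ^ 2 * 2 ^ v * (x - 2 * y) = 0 := by linarith
    obtain ⟨r, hr⟩ := hx
    rcases mul_eq_zero.1 this with h7 | h7
    · have : 0 < 4 * e ^ 2 * 2 ^ v := by positivity
      omega
    · omega
  · have : 2 * (e ^ 2 * 2 ^ v * (x - 2 * y)) = -1 := by linarith
    omega

/-! ### index four -/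

variable {K : Type} [Field K] [Fintype K] [DecidableEq K]

theorem four_case {k lam : ℕ} (hk : 0 < k) (hq : Fintype.card K = 4 * k + 1) {g : K}
    (hg : IsPrimitiveRoot g (4 * k)) (hl : ∀ g : K, g ≠ 0 → rr k g = lam) :
    ∃ b : ℤ, 1 + b ^ 2 = Fintype.card K := by
  have hg0 : g ≠ 0 := hg.ne_zero (by positivity)
  have : NeZero (4 * k) := ⟨by positivity⟩
  have hgen : ∀ x : K, x ≠ 0 → ∃ m, g ^ m = x := fun x hx => by
    obtain ⟨m, _, hm⟩ := hg.eq_pow_of_pow_eq_one (ξ := x) (by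
      rw [← FiniteField.pow_card_sub_one_eq_one x hx, hq]; rfl)
    exact ⟨m, hm⟩
  have hgen' : ∀ x : Kˣ, x ∈ Subgroup.zpowers (Units.mk0 g hg0) := fun x => by
    obtain ⟨m, hm⟩ := hgen x x.ne_zero
    exact ⟨m, by ext; simp [hm]⟩
  have hI : Units.mk0 Complex.I Complex.I_ne_zero ∈ rootsOfUnity (Fintype.card Kˣ) ℂ := by
    rw [mem_rootsOfUnity, Fintype.card_units, hq]
    ext; simp [pow_mul]
  set χ : MulChar K ℂ := MulChar.ofRootOfUnity hI hgen' with hχ
  have c1 : χ g = Complex.I := MulChar.ofRootOfUnity_spec hI hgen'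
  have cp : ∀ j m : ℕ, (χ ^ j) (g ^ m) = (Complex.I ^ m) ^ j := fun j m => by
    have := MulChar.pow_apply_coe χ j (Units.mk0 g hg0 ^ m)
    simp only [Units.val_pow_eq_pow_val, Units.val_mk0] at this
    rw [this, map_pow, c1]
  have hI4 : IsPrimitiveRoot Complex.I 4 := Complex.isPrimitiveRoot_I
  have ne1 : ∀ j, ¬ 4 ∣ j → χ ^ j ≠ 1 := fun j hj h => by
    have := cp j 1
    rw [h, MulChar.one_apply (by simpa using hg0), pow_one] at this
    exact hj (hI4.dvd_of_pow_eq_one j this.symm)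
  have c4 : χ ^ 4 = 1 := by
    ext x
    obtain ⟨m, hm⟩ := hgen x x.ne_zero
    rw [← hm, cp, ← pow_mul, mul_comm, pow_mul, MulChar.one_apply (by simp [hg0])]
    simp
  have memD : ∀ m, g ^ m ∈ DD K k ↔ 4 ∣ m := fun m => by
    rw [mem_DD, ← pow_mul, hg.pow_eq_one_iff_dvd]
    exact Nat.mul_dvd_mul_iff_right hk
  have cm1 : (χ ^ 2) (-1) = 1 := by
    rw [MulChar.pow_apply' _ (by norm_num), ← map_pow]; simp
  have z := main_sum hk hl (fun y => (χ ^ 2) y) (MulChar.map_zero _) (fun d hd y => by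
    obtain ⟨m, rfl⟩ := hgen d (ne_zero_of_mem_DD hk hd)
    obtain ⟨t, rfl⟩ := (memD m).1 hd
    rw [map_mul, cp, pow_mul]; simp)
  rw [MulChar.sum_eq_zero_of_ne_one (ne1 2 (by norm_num)), smul_zero, card_DD hk (by norm_num) hg,
    nsmul_eq_mul, mul_eq_zero] at z
  have z0 : ∑ x ∈ DD K k, (χ ^ 2) (1 - x) = 0 := by
    rw [← z.resolve_left (by exact_mod_cast hk.ne')]
    refine sum_congr rfl fun x _ => ?_
    rw [← neg_sub, ← neg_one_mul, map_mul, cm1, one_mul]
  have z1 : jacobiSum (χ ^ 0) (χ ^ 2) + jacobiSum (χ ^ 1) (χ ^ 2) + jacobiSum (χ ^ 2) (χ ^ 2) +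
      jacobiSum (χ ^ 3) (χ ^ 2) = 4 * ∑ x ∈ DD K k, (χ ^ 2) (1 - x) := by
    simp only [jacobiSum, ← sum_add_distrib, ← add_mul]
    rw [DD, sum_filter, mul_sum]
    refine sum_congr rfl fun x _ => ?_
    by_cases hx : x = 0
    · simp [hx, MulChar.map_zero, hk.ne']
    · obtain ⟨m, rfl⟩ := hgen x hx
      simp only [cp, ← mem_DD, memD]
      split_ifs with h
      · obtain ⟨t, rfl⟩ := h
        rw [pow_mul]; simp; norm_num
      · have a : Complex.I ^ m - 1 ≠ 0 := sub_ne_zero.2 fun h' => h (hI4.dvd_of_pow_eq_one m h')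
        have b : (Complex.I ^ m) ^ 4 = 1 := by rw [← pow_mul, mul_comm, pow_mul]; simp
        have : (Complex.I ^ m) ^ 0 + (Complex.I ^ m) ^ 1 + (Complex.I ^ m) ^ 2 + (Complex.I ^ m) ^ 3 = 0 :=
          mul_left_cancel₀ a (by linear_combination b)
        rw [this]; simp
  have i2 : (χ ^ 2)⁻¹ = χ ^ 2 := inv_eq_of_mul_eq_one_right (by rw [← pow_add, c4])
  have i1 : (χ ^ 1)⁻¹ = χ ^ 3 := inv_eq_of_mul_eq_one_right (by rw [← pow_add, c4])
  have j2 : jacobiSum (χ ^ 2) (χ ^ 2) = -1 := by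
    have := jacobiSum_nontrivial_inv (ne1 2 (by norm_num))
    rwa [i2, cm1] at this
  have jj := jacobiSum_mul_jacobiSum_inv (F := K) (F' := ℂ) (by
    rw [ringChar.eq_zero]; exact (CharP.ringChar_ne_zero_of_finite K).symm)
    (ne1 1 (by norm_num)) (ne1 2 (by norm_num)) (by rw [← pow_add]; exact ne1 3 (by norm_num))
  rw [pow_zero, jacobiSum_one_nontrivial (ne1 2 (by norm_num)), j2, z0] at z1
  rw [i1, i2] at jj
  have hmem : ∀ j y, (χ ^ j) y ∈ GaussianInt.toComplex.range := fun j y => by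
    by_cases hy : y = 0
    · rw [hy, MulChar.map_zero]; exact zero_mem _
    · obtain ⟨m, rfl⟩ := hgen y hy
      rw [cp]
      exact pow_mem (pow_mem (RingHom.mem_range.2 ⟨⟨0, 1⟩, by simp [GaussianInt.toComplex_def']⟩) _) _
  obtain ⟨w, hw⟩ : jacobiSum (χ ^ 1) (χ ^ 2) ∈ GaussianInt.toComplex.range :=
    sum_mem fun x _ => mul_mem (hmem _ _) (hmem _ _)
  have e : w * (2 - w) = (Fintype.card K : GaussianInt) := by
    apply GaussianInt.toComplex_injective
    rw [map_mul, map_sub, hw, map_natCast, ← jj, map_ofNat]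
    congr 1
    linear_combination (-1 : ℂ) * z1
  have e1 := congrArg Zsqrtd.re e
  have e2 := congrArg Zsqrtd.im e
  simp at e1 e2
  have e3 : w.im * (1 - w.re) = 0 := by linarith
  rcases mul_eq_zero.1 e3 with h | h
  · rw [h, hq] at e1
    push_cast at e1
    nlinarith [sq_nonneg (w.re - 1)]
  · exact ⟨w.im, by rw [← e1, show w.re = 1 by linarith]; ring⟩

/-- what a certificate gives for the prime `p` -/
def Cert (p : ℕ) : Prop := ∀ n k f : ℕ, n * k + 1 = p ^ f → Even n → 2 < n → n < k →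
  (∀ s, Even s → ¬ n ∣ s → (p : ℤ) ∣ altS k s ∧ (p : ℤ) ^ 2 ∣ altS k (p * s)) → n = 4

theorem cert_of (P : Par) (hp : P.p.Prime) (hp2 : 2 < P.p) (h : P.ok = true) (N : ℕ) (tab : ℕ → St)
    (ht : ∀ x < N, ∃ c t, nodeOk P N tab (tab x) c t = true) (big : Root) (b : ℕ)
    (hb : big.big P N tab b = true) (l : List Root) (hl : fixOk P N tab [4] l 4 = true)
    (hlen : b < 4 + 2 * l.length) : Cert P.p := by
  intro n k f hnk hn h2 hlt hs
  refine List.mem_singleton.1 (cert_sound P hp hp2 h N tab ht big b hb [4] l hl hlen n k f hnk hn h2 hlt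
    fun s he hd => ?_)
  have h0 : s ≠ 0 := by rintro rfl; exact hd (dvd_zero n)
  exact ⟨eq1_of _ _ _ hp2 he h0 (hs s he hd).1, eq2_of P _ _ hp2 he h0 (hs s he hd).2⟩

theorem index_two (p : ℕ) [Fact p.Prime] [CharP K p] (hc : p = 2 ∨ Cert p) (hp : ∀ b : ℤ, 21 ≤ p → 1 + b ^ 2 ≠ p)
    {n k lam : ℕ} (hk : 1 < k) (hn : 2 ≤ n) (hq : Fintype.card K = n * k + 1)
    (hl : ∀ g : K, g ≠ 0 → rr k g = lam) : n = 2 ∧ Odd k := by
  have hpp : p.Prime := Fact.out
  obtain ⟨g, hg⟩ := exists_gen K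
  rw [hq, Nat.add_sub_cancel] at hg
  obtain ⟨f, _, hf⟩ := FiniteField.card K p
  by_cases h2 : p = 2
  · subst h2
    have hko : Odd k := by
      have : Even (n * k + 1) := by rw [← hq, hf]; exact (Nat.even_pow' f.ne_zero).2 even_two
      exact (Nat.odd_mul.1 (Nat.not_even_iff_odd.1 (Nat.even_add_one.1 this))).2
    exact absurd (cong_alt 2 hko (by omega) hq hg hl 1 1 (by norm_num)
      (fun h => by have := Nat.dvd_one.1 h; omega)) (two_case k hko hk)
  have hpo : Odd p := hpp.odd_of_ne_two h2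
  have h2K : (2 : K) ≠ 0 := fun h => h2 ((Nat.prime_dvd_prime_iff_eq hpp Nat.prime_two).1
    ((CharP.cast_eq_zero_iff K p 2).1 (by exact_mod_cast h)))
  have hko := odd_k (by omega) hn hq hg h2K hl
  refine ⟨?_, hko⟩
  by_contra hn2
  have hne : Even n := by
    have : Odd (n * k + 1) := by rw [← hq, hf]; exact hpo.pow
    exact (Nat.even_mul.1 (Nat.odd_add_one.1 this |> Nat.not_odd_iff_even.1)).resolve_right
      (Nat.not_even_iff_odd.2 hko)
  have hlt : n < k := by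
    have := count_eq (by omega) (by omega) hq hg hl
    rcases Nat.eq_zero_or_pos lam with rfl | h
    · omega
    · nlinarith
  have h4 := hc.resolve_left h2 n k f (by rw [← hq, hf]) hne (by omega) hlt fun s he hs =>
    ⟨by simpa using cong_alt p hko (by omega) hq hg hl 0 s (by simpa using he) hs,
      by simpa using cong_alt p hko (by omega) hq hg hl 1 s (he.mul_left _) hs⟩
  subst h4
  obtain ⟨b, hb⟩ := four_case (by omega) hq hg hl
  by_cases h1 : (f : ℕ) = 1
  · rw [h1, pow_one] at hf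
    exact hp b (by omega) (by rw [hb, hf])
  · have := lebesgue p f b hpo (by have := f.pos; omega) (by rw [hb, hf]; push_cast; rfl)
    rw [this, hq] at hb
    push_cast at hb
    omega

end

end Pool.Agent.P.MP_111ca2_co
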