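import Mathlib

/-! Arithmetic lemmas for the indices `4` and `8`. -/

namespace Pool.Agent.P.MP_111ca2_co.IF

open Finset

/-- no carries: a binomial coefficient prime to `p` -/
theorem not_dvd_choose {p d c r s : ℕ} (hp : p.Prime) (hd : 0 < d) (hc : p = d * c + 1) (hr : r ≤ s)
    (hs : s ≤ d) (f : ℕ) : ∀ k, p ^ f = d * k + 1 → ¬ p ∣ (s * k).choose (r * k) := by
  have := Fact.mk hp
  induction f with
  | zero =>
    intro k hk
    have : k = 0 := by
      rw [pow_zero] at hk
      have : d * k = 0 := by omega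
      exact (Nat.mul_eq_zero.1 this).resolve_left hd.ne'
    subst this
    simpa using hp.one_lt.ne'
  | succ f ih =>
    intro k hk
    have h1 : d ∣ p ^ f - 1 := by
      have : d ∣ p - 1 := ⟨c, by omega⟩
      exact this.trans (by simpa using Nat.sub_dvd_pow_sub_pow p 1 f)
    obtain ⟨k', hk'⟩ := h1
    have hpos : 0 < p ^ f := pow_pos hp.pos f
    have hk'' : p ^ f = d * k' + 1 := by omega
    have e : k = c + p * k' := by
      apply Nat.eq_of_mul_eq_mul_left hd
      rw [pow_succ, hk''] at hk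
      have : d * (c + p * k') = d * c + p * (d * k') := by ring
      nlinarith
    have hsc : s * c < p := by
      have := Nat.mul_le_mul_right c hs
      omega
    have hrc : r * c < p := lt_of_le_of_lt (Nat.mul_le_mul_right c hr) hsc
    have a := Choose.choose_modEq_choose_mod_mul_choose_div_nat (n := s * k) (k := r * k) (p := p)
    have e1 : ∀ t, t * c < p → t * k % p = t * c ∧ t * k / p = t * k' := by
      intro t ht
      have : t * k = t * c + p * (t * k') := by rw [e]; ring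
      rw [this]
      exact ⟨by rw [Nat.add_mul_mod_self_left, Nat.mod_eq_of_lt ht],
        by rw [Nat.add_mul_div_left _ _ hp.pos, Nat.div_eq_of_lt ht, zero_add]⟩
    rw [(e1 s hsc).1, (e1 s hsc).2, (e1 r hrc).1, (e1 r hrc).2] at a
    intro h
    rcases (hp.dvd_mul).1 ((a.dvd_iff dvd_rfl).1 h) with h' | h'
    · have h2 := (Nat.choose_mul_factorial_mul_factorial (Nat.mul_le_mul_right c hr))
      have h3 : p ∣ (s * c).factorial := by
        rw [← h2, mul_assoc]
        exact h'.mul_right _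
      have := (hp.dvd_factorial).1 h3
      omega
    · exact ih k' hk'' h'

theorem split_dvd {p : ℕ} (hp : p.Prime) (f : ℕ) {u v : ℤ} (h : (p : ℤ) ^ f ∣ u * v)
    (hn : ¬ (p : ℤ) ∣ u + v) : (p : ℤ) ^ f ∣ u ∨ (p : ℤ) ^ f ∣ v := by
  have hp' : Prime (p : ℤ) := Nat.prime_iff_prime_int.1 hp
  by_cases hu : (p : ℤ) ∣ u
  · have hv : ¬ (p : ℤ) ∣ v := fun hv => hn (hu.add hv)
    exact Or.inl (hp'.pow_dvd_of_dvd_mul_right f hv h)
  · exact Or.inr (hp'.pow_dvd_of_dvd_mul_left f hu h)

/-- primitive representations of an odd prime power by `x ^ 2 + D y ^ 2` -/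
theorem rep_unique {p f : ℕ} (hp : p.Prime) (h2 : p ≠ 2) (hf : 0 < f) {D x y c d : ℤ}
    (hD : D = 1 ∨ D = 2) (h1 : x ^ 2 + D * y ^ 2 = (p : ℤ) ^ f) (h3 : c ^ 2 + D * d ^ 2 = (p : ℤ) ^ f)
    (hx : ¬ ((p : ℤ) ∣ x ∧ (p : ℤ) ∣ y)) (hc : ¬ (p : ℤ) ∣ c) :
    x ^ 2 = c ^ 2 ∨ (D = 1 ∧ x ^ 2 = d ^ 2) := by
  have hp' : Prime (p : ℤ) := Nat.prime_iff_prime_int.1 hp
  have hq : (p : ℤ) ∣ (p : ℤ) ^ f := dvd_pow_self _ hf.ne'
  have hq0 : (0 : ℤ) < (p : ℤ) ^ f := pow_pos (by exact_mod_cast hp.pos) f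
  have hp2 : ¬ (p : ℤ) ∣ 2 := fun h => h2 ((Nat.prime_dvd_prime_iff_eq hp Nat.prime_two).1
    (by exact_mod_cast h))
  have hpD : ¬ (p : ℤ) ∣ D := by
    rcases hD with rfl | rfl
    · exact hp'.not_dvd_one
    · exact hp2
  have hy : ¬ (p : ℤ) ∣ y := by
    intro hy
    refine hx ⟨hp'.dvd_of_dvd_pow (n := 2) ?_, hy⟩
    have : x ^ 2 = (p : ℤ) ^ f - D * y * y := by linear_combination h1
    rw [this]
    exact hq.sub (hy.mul_left _)
  set q : ℤ := (p : ℤ) ^ f with hqdef
  have key : ∀ d : ℤ, c ^ 2 + D * d ^ 2 = q → q ∣ c * y - x * d →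
      x ^ 2 = c ^ 2 ∨ (D = 1 ∧ x ^ 2 = d ^ 2) := by
    rintro d h3 ⟨t, ht⟩
    have id1 : (x * c + D * y * d) ^ 2 + D * (q * t) ^ 2 = q ^ 2 := by
      rw [← ht]
      linear_combination (c ^ 2 + D * d ^ 2) * h1 + q * h3
    by_cases t0 : t = 0
    · left
      have e : c * y = x * d := by rw [t0] at ht; linear_combination ht
      have : q * (x ^ 2 - c ^ 2) = 0 := by
        linear_combination (-x ^ 2) * h3 + c ^ 2 * h1 - D * (c * y + x * d) * e
      linarith [(mul_eq_zero.1 this).resolve_left hq0.ne']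
    · have t1 : 1 ≤ t ^ 2 := by
        have : 0 < t ^ 2 := by positivity
        omega
      have hqq : 0 < q ^ 2 := by positivity
      have t2 : q ^ 2 ≤ (q * t) ^ 2 := by rw [mul_pow]; nlinarith
      rcases hD with rfl | rfl
      · right
        have e : x * c + y * d = 0 := by
          have : (x * c + 1 * y * d) ^ 2 ≤ 0 := by linarith
          have := pow_eq_zero_iff (two_ne_zero) |>.1 (le_antisymm this (sq_nonneg _))
          linarith
        have : q * (x ^ 2 - d ^ 2) = 0 := by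
          linear_combination (-x ^ 2) * h3 + d ^ 2 * h1 + (x * c - y * d) * e
        exact ⟨rfl, by linarith [(mul_eq_zero.1 this).resolve_left hq0.ne']⟩
      · exfalso
        nlinarith [sq_nonneg (x * c + 2 * y * d)]
  have hprod : q ∣ (c * y - x * d) * (c * y - x * (-d)) :=
    ⟨y ^ 2 - d ^ 2, by linear_combination y ^ 2 * h3 - d ^ 2 * h1⟩
  have hn : ¬ (p : ℤ) ∣ (c * y - x * d) + (c * y - x * (-d)) := by
    intro h
    have e : (c * y - x * d) + (c * y - x * (-d)) = 2 * (c * y) := by ring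
    rw [e] at h
    rcases hp'.dvd_or_dvd h with h | h
    · exact hp2 h
    · exact (hp'.dvd_or_dvd h).elim hc hy
  rcases split_dvd hp f hprod hn with h | h
  · exact key d h3 h
  · have := key (-d) (by linear_combination h3) h
    rwa [neg_sq] at this

variable {K : Type} [Field K] [Fintype K]

theorem sum_pow_all {i : ℕ} (hi : 0 < i) :
    ∑ x : K, x ^ i = if Fintype.card K - 1 ∣ i then -1 else 0 := by
  classical
  rw [← FiniteField.sum_pow_units K i, ← add_sum_erase _ _ (mem_univ (0 : K)), zero_pow hi.ne',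
    zero_add]
  symm
  refine sum_bij (fun (u : Kˣ) _ => (u : K)) (fun u _ => by simp) (fun u _ v _ h => Units.ext h)
    (fun x hx => ⟨Units.mk0 x (mem_erase.1 hx).1, mem_univ _, rfl⟩) (fun u _ => rfl)

/-- a Jacobi sum with values in the field itself -/
theorem sum_jac {A B C : ℕ} (hA : 0 < A) (h1 : A + C = Fintype.card K - 1) (h2 : C ≤ B)
    (h3 : B < C + (Fintype.card K - 1)) :
    ∑ x : K, x ^ A * (1 - x) ^ B = -((-1) ^ C * (B.choose C : K)) := by
  have e : ∀ x : K, x ^ A * (1 - x) ^ B =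
      ∑ m ∈ range (B + 1), x ^ (A + m) * ((-1) ^ m * (B.choose m : K)) := by
    intro x
    rw [sub_eq_neg_add, add_pow, mul_sum]
    refine sum_congr rfl fun m _ => ?_
    rw [neg_pow, pow_add, one_pow]
    ring
  rw [sum_congr rfl fun x _ => e x, sum_comm, sum_eq_single C]
  · rw [← sum_mul, sum_pow_all (by omega), if_pos (by rw [h1])]
    ring
  · intro m hm hne
    rw [← sum_mul, sum_pow_all (by omega), if_neg, zero_mul]
    rintro ⟨t, ht⟩
    have hm' := mem_range.1 hm
    rcases t with _ | _ | t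
    · omega
    · omega
    · have : (Fintype.card K - 1) * (t + 1 + 1) = (Fintype.card K - 1) * t + 2 * (Fintype.card K - 1) := by
        ring
      omega
  · intro h
    exact absurd (mem_range.2 (by omega)) h

end Pool.Agent.P.MP_111ca2_co.IF
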