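import Pool.Agent.K.MP_111ca2_co.C2
import Pool.Agent.P.MP_111ca2_co.Iff1

/-! The difference set condition in terms of Jacobi sums, both directions. -/

namespace Pool.Agent.P.MP_111ca2_co.IF

open Finset PR

variable {K : Type} [Field K] [Fintype K] [DecidableEq K] {n k : ℕ} [NeZero n]

/-- the character sum over the subgroup -/
noncomputable def SS (C : CS K n k) (u : ZMod n) : ℂ := ∑ h ∈ DD K k, C.X u (1 - h)

theorem rr_eq (hk : 0 < k) {g : K} (hg : g ≠ 0) :
    rr k g = ((DD K k).filter fun h => h ≠ 1 ∧ (g / (h - 1)) ^ k = 1).card := by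
  unfold rr
  refine card_nbij' (fun x => x.1 / x.2) (fun h => (h * (g / (h - 1)), g / (h - 1))) ?_ ?_ ?_ ?_
  · intro x hx
    simp only [coe_filter, mem_product, Set.mem_ofPred_eq] at hx ⊢
    obtain ⟨⟨a, b⟩, c⟩ := hx
    have b0 := ne_zero_of_mem_DD hk b
    rw [mem_DD] at a b ⊢
    have e : x.1 / x.2 - 1 = g / x.2 := by rw [← c]; field_simp
    refine ⟨by rw [div_pow, a, b, div_one], fun h => ?_, ?_⟩
    · rw [h, sub_self] at e
      exact div_ne_zero hg b0 e.symm
    · rw [e, div_div_cancel₀ hg, b]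
  · intro h hh
    simp only [coe_filter, mem_product, Set.mem_ofPred_eq, mem_DD] at hh ⊢
    obtain ⟨a, b, c⟩ := hh
    have := sub_ne_zero.2 b
    exact ⟨⟨by rw [mul_pow, a, c, one_mul], c⟩, by field_simp⟩
  · intro x hx
    simp only [coe_filter, mem_product, Set.mem_ofPred_eq] at hx
    obtain ⟨⟨_, b⟩, c⟩ := hx
    have b0 := ne_zero_of_mem_DD hk b
    have e : x.1 / x.2 - 1 = g / x.2 := by rw [← c]; field_simp
    simp only [e, div_div_cancel₀ hg]
    exact Prod.ext (div_mul_cancel₀ _ b0) rfl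
  · intro h hh
    simp only [coe_filter, Set.mem_ofPred_eq] at hh
    have := sub_ne_zero.2 hh.2.1
    simp only
    field_simp

theorem ds_of_SS (C : CS K n k) (hk : 0 < k) (h : ∀ u, u ≠ 0 → SS C u = 0) :
    ∃ lam, ∀ g : K, g ≠ 0 → rr k g = lam := by
  have key : ∀ g : K, g ≠ 0 → (n : ℂ) * rr k g = SS C 0 := by
    intro g hg
    rw [rr_eq hk hg, card_filter]
    push_cast
    rw [mul_sum]
    have e : ∀ h ∈ DD K k, (n : ℂ) * (if h ≠ 1 ∧ (g / (h - 1)) ^ k = 1 then 1 else 0) =
        ∑ a, C.X a (-g) * C.X (-a) (1 - h) := by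
      intro h _
      by_cases h1 : h = 1
      · simp [h1, MulChar.map_zero]
      · have h2 := sub_ne_zero.2 h1
        have h3 : ∀ a, C.X a (-g) * C.X (-a) (1 - h) = C.X a (g / (h - 1)) := by
          intro a
          rw [C.X_neg, MulChar.inv_apply', ← map_mul, ← neg_sub h 1, inv_neg, neg_mul_neg,
            div_eq_mul_inv]
        rw [sum_congr rfl fun a _ => h3 a, C.sum_X (div_ne_zero hg h2)]
        simp [h1]
    rw [sum_congr rfl e, sum_comm, sum_eq_single 0]
    · rw [← mul_sum, C.X_zero, MulChar.one_apply (Ne.isUnit (neg_ne_zero.2 hg)), one_mul, neg_zero,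
        SS]
    · intro a _ ha
      rw [← mul_sum]
      exact mul_eq_zero_of_right _ (h (-a) (neg_ne_zero.2 ha))
    · intro h
      exact absurd (mem_univ _) h
  refine ⟨rr k (1 : K), fun g hg => ?_⟩
  have := (key g hg).trans (key 1 one_ne_zero).symm
  exact_mod_cast mul_left_cancel₀ (Nat.cast_ne_zero.2 (NeZero.ne n)) this

theorem SS_jac (C : CS K n k) (hk : 0 < k) (u : ZMod n) :
    (n : ℂ) * SS C u = ∑ a, jacobiSum (C.X a) (C.X u) := by
  unfold jacobiSum SS
  rw [sum_comm, DD, sum_filter, mul_sum]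
  refine sum_congr rfl fun x _ => ?_
  rw [← sum_mul]
  by_cases hx : x = 0
  · subst hx
    rw [if_neg (by rw [zero_pow hk.ne']; exact zero_ne_one)]
    simp [MulChar.map_zero]
  · rw [C.sum_X hx]
    split_ifs <;> simp

theorem SS_count (C : CS K n k) (hk : 0 < k) :
    ∃ c : ZMod n → ℤ, (∀ j, c (j + C.ind (-1)) = c j) ∧
      ∀ u, SS C u = ∑ j, (c j : ℂ) * ZMod.stdAddChar (u * j) := by
  let T : Finset K := (DD K k).filter fun h => h ≠ 1
  refine ⟨fun j => ((T.filter fun h => C.ind (1 - h) = j).card : ℤ), fun j => ?_, fun u => ?_⟩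
  · have hi : ∀ h, h ∈ T → h⁻¹ ∈ T ∧ C.ind (1 - h⁻¹) = C.ind (1 - h) - C.ind (-1) ∧
        C.ind (1 - h⁻¹) = C.ind (1 - h) + C.ind (-1) := by
      intro h hh
      obtain ⟨a, b⟩ := mem_filter.1 hh
      have a0 := ne_zero_of_mem_DD hk a
      have a1 : h⁻¹ ^ k = 1 := by rw [inv_pow, mem_DD.1 a, inv_one]
      have b0 : 1 - h ≠ 0 := sub_ne_zero.2 b.symm
      have m0 : (-1 : K) ≠ 0 := neg_ne_zero.2 one_ne_zero
      have e : 1 - h⁻¹ = (1 - h) * -1 * h⁻¹ := by field_simp; ring
      have e1 : C.ind (1 - h⁻¹) = C.ind (1 - h) + C.ind (-1) := by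
        rw [e, C.ind_mul _ _ (mul_ne_zero b0 m0) (inv_ne_zero a0), C.ind_mul _ _ b0 m0,
          (C.ind_zero _ (inv_ne_zero a0)).2 a1, add_zero]
      have e2 : C.ind (-1) + C.ind (-1) = 0 := by
        rw [← C.ind_mul _ _ m0 m0, neg_mul_neg, one_mul]
        exact (C.ind_zero _ one_ne_zero).2 (one_pow k)
      exact ⟨mem_filter.2 ⟨mem_DD.2 a1, fun h => b (inv_eq_one.1 h)⟩, by
        linear_combination e1 + e2, e1⟩
    simp only [Nat.cast_inj]
    refine card_nbij' (fun h => h⁻¹) (fun h => h⁻¹) ?_ ?_ (fun h _ => inv_inv h) (fun h _ => inv_inv h)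
    · intro h hh
      simp only [coe_filter, Set.mem_ofPred_eq] at hh ⊢
      exact ⟨(hi h hh.1).1, by rw [(hi h hh.1).2.1, hh.2, add_sub_cancel_right]⟩
    · intro h hh
      simp only [coe_filter, Set.mem_ofPred_eq] at hh ⊢
      exact ⟨(hi h hh.1).1, by rw [(hi h hh.1).2.2, hh.2]⟩
  · have h1 : SS C u = ∑ h ∈ T, ZMod.stdAddChar (u * C.ind (1 - h)) := by
      rw [SS, sum_filter]
      refine sum_congr rfl fun h _ => ?_
      split_ifs with hh
      · exact C.X_apply _ _ (sub_ne_zero.2 hh.symm)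
      · rw [not_not.1 hh, sub_self, MulChar.map_zero]
    rw [h1, ← sum_fiberwise T (fun h => C.ind (1 - h))]
    refine sum_congr rfl fun j _ => ?_
    rw [sum_congr rfl (g := fun _ => ZMod.stdAddChar (u * j))
      (fun x hx => by rw [(mem_filter.1 hx).2]), sum_const, nsmul_eq_mul]
    simp

omit [DecidableEq K] in
theorem exists_eK (C : CS K n k) (hq : Fintype.card K = n * k + 1) :
    ∃ e : AddChar (ZMod n) K, (∀ j, e j = 1 → j = 0) ∧ ∀ x, x ≠ 0 → e (C.ind x) = x ^ k := by
  obtain ⟨g, hg, h1⟩ := C.ind_one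
  have hw : (g ^ k) ^ n = 1 := by
    rw [← pow_mul, mul_comm, show n * k = Fintype.card K - 1 by omega]
    exact FiniteField.pow_card_sub_one_eq_one g hg
  have hi : ∀ i : ℕ, C.ind (g ^ i) = i := by
    intro i
    induction i with
    | zero => simpa using (C.ind_zero _ one_ne_zero).2 (one_pow k)
    | succ i ih => rw [pow_succ, C.ind_mul _ _ (pow_ne_zero _ hg) hg, ih, h1, Nat.cast_succ]
  refine ⟨AddChar.zmodChar n hw, fun j hj => ?_, fun x hx => ?_⟩
  · rw [AddChar.zmodChar_apply, ← pow_mul, mul_comm, pow_mul] at hj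
    rw [← ZMod.natCast_zmod_val j, ← hi]
    exact (C.ind_zero _ (pow_ne_zero _ hg)).2 hj
  · have h0 : g ^ (C.ind x).val ≠ 0 := pow_ne_zero _ hg
    have h2 : C.ind (x / g ^ (C.ind x).val) = 0 := by
      have := C.ind_mul _ _ (div_ne_zero hx h0) h0
      rw [div_mul_cancel₀ _ h0, hi, ZMod.natCast_zmod_val] at this
      linear_combination -this
    have h3 := (C.ind_zero _ (div_ne_zero hx h0)).1 h2
    rw [div_pow, div_eq_one_iff_eq (pow_ne_zero _ h0)] at h3
    rw [AddChar.zmodChar_apply, h3, ← pow_mul, ← pow_mul, mul_comm]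

omit [DecidableEq K] in
theorem jac_both (C : CS K n k) (hk : 0 < k) (e : AddChar (ZMod n) K)
    (he : ∀ x, x ≠ 0 → e (C.ind x) = x ^ k) (a b : ZMod n) :
    ∃ N : ZMod n → ℤ,
      (∀ t, jacobiSum (C.X (t * a)) (C.X (t * b)) = ∑ j, (N j : ℂ) * ZMod.stdAddChar (t * j)) ∧
      ∀ (t : ZMod n) (A B : ℕ), 0 < A → 0 < B → t * a = A → t * b = B →
        ∑ x : K, x ^ (A * k) * (1 - x) ^ (B * k) = ∑ j, (N j : K) * e (t * j) := by
  classical
  let S : Finset K := univ.filter fun x => x ≠ 0 ∧ (1 - x) ≠ 0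
  let f : K → ZMod n := fun x => a * C.ind x + b * C.ind (1 - x)
  have gen : ∀ {R : Type} [CommRing R] (ψ : AddChar (ZMod n) R) (t : ZMod n),
      ∑ x ∈ S, ψ (t * f x) = ∑ j, (((S.filter fun x => f x = j).card : ℤ) : R) * ψ (t * j) := by
    intro R _ ψ t
    rw [← sum_fiberwise S f]
    refine sum_congr rfl fun j _ => ?_
    rw [sum_congr rfl (g := fun _ => ψ (t * j))
      (fun x hx => by rw [(mem_filter.1 hx).2]), sum_const, nsmul_eq_mul]
    simp
  refine ⟨fun j => ((S.filter fun x => f x = j).card : ℤ), fun t => ?_, fun t A B hA hB ha hb => ?_⟩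
  · rw [← gen, jacobiSum, sum_filter]
    refine sum_congr rfl fun x _ => ?_
    split_ifs with hx
    · rw [C.X_apply _ _ hx.1, C.X_apply _ _ hx.2, ← AddChar.map_add_eq_mul]
      congr 1
      simp only [f]
      ring
    · rcases not_and_or.1 hx with h | h
      · rw [not_not.1 h, MulChar.map_zero, zero_mul]
      · rw [not_not.1 h, MulChar.map_zero, mul_zero]
  · rw [← gen, sum_filter]
    refine sum_congr rfl fun x _ => ?_
    split_ifs with hx
    · have : t * f x = A • C.ind x + B • C.ind (1 - x) := by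
        simp only [f, nsmul_eq_mul]
        rw [← ha, ← hb]
        ring
      rw [this, AddChar.map_add_eq_mul, AddChar.map_nsmul_eq_pow, AddChar.map_nsmul_eq_pow,
        he _ hx.1, he _ hx.2, ← pow_mul, ← pow_mul, mul_comm k, mul_comm k]
    · rcases not_and_or.1 hx with h | h
      · rw [not_not.1 h, zero_pow (by positivity), zero_mul]
      · rw [not_not.1 h, zero_pow (n := B * k) (by positivity), mul_zero]

theorem jac_sym (C : CS K n k) (a b c : ZMod n) (h : a + b + c = 0) :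
    jacobiSum (C.X a) (C.X b) = C.X a (-1) * jacobiSum (C.X a) (C.X c) := by
  have inv : Function.Involutive fun x : K => if x = 1 then 1 else x / (x - 1) := by
    intro x
    by_cases hx : x = 1
    · simp [hx]
    · have h1 := sub_ne_zero.2 hx
      have h2 : x / (x - 1) - 1 = 1 / (x - 1) := by field_simp; ring
      have h3 : x / (x - 1) ≠ 1 := fun h => by
        rw [h, sub_self] at h2
        exact one_div_ne_zero h1 h2.symm
      simp only [if_neg hx, if_neg h3, h2]
      field_simp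
  unfold jacobiSum
  rw [← Equiv.sum_comp inv.toPerm, mul_sum]
  refine sum_congr rfl fun x _ => ?_
  simp only [Function.Involutive.coe_toPerm]
  split_ifs with hx
  · simp [hx, MulChar.map_zero]
  · have h1 := sub_ne_zero.2 hx
    have h2 : (1 : K) - x ≠ 0 := sub_ne_zero.2 (Ne.symm hx)
    have e1 : x / (x - 1) = -1 * x * (1 - x)⁻¹ := by field_simp; ring
    have e2 : 1 - -1 * x * (1 - x)⁻¹ = (1 - x)⁻¹ := by field_simp; ring
    have e3 : c = -a + -b := by linear_combination h
    rw [e1, e2, map_mul, map_mul, e3, C.X_add, MulChar.mul_apply, C.X_neg, C.X_neg,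
      MulChar.inv_apply', MulChar.inv_apply']
    ring

omit [DecidableEq K] in
theorem jac_norm (C : CS K n k) {a b a' b' : ZMod n} (ha : a ≠ 0) (hb : b ≠ 0) (hab : a + b ≠ 0)
    (h1 : a' = -a) (h2 : b' = -b) :
    jacobiSum (C.X a) (C.X b) * jacobiSum (C.X a') (C.X b') = Fintype.card K := by
  rw [h1, h2, C.X_neg, C.X_neg]
  refine jacobiSum_mul_jacobiSum_inv ?_ (C.X_ne_one ha) (C.X_ne_one hb)
    (by rw [← C.X_add]; exact C.X_ne_one hab)
  rw [ringChar.eq_zero]
  exact (CharP.ringChar_ne_zero_of_finite K).symm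

omit [DecidableEq K] in
theorem jac_zero (C : CS K n k) {u : ZMod n} (hu : u ≠ 0) : jacobiSum (C.X 0) (C.X u) = -1 := by
  rw [C.X_zero]
  exact jacobiSum_one_nontrivial (C.X_ne_one hu)

omit [DecidableEq K] in
theorem jac_neg (C : CS K n k) {u v : ZMod n} (hu : u ≠ 0) (hv : v = -u) :
    jacobiSum (C.X v) (C.X u) = -C.X u (-1) := by
  rw [hv, C.X_neg, jacobiSum_comm]
  exact jacobiSum_nontrivial_inv (C.X_ne_one hu)

theorem char_pow {R : Type} [CommRing R] (ψ : AddChar (ZMod n) R) (j : ZMod n) :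
    ψ j = ψ 1 ^ j.val := by
  rw [← AddChar.map_nsmul_eq_pow, nsmul_eq_mul, mul_one, ZMod.natCast_zmod_val]

end Pool.Agent.P.MP_111ca2_co.IF
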