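import Pool.Agent.P.MP_111ca2_co.Iff2

/-! The Jacobi sums of order `4` and `8`. -/

namespace Pool.Agent.P.MP_111ca2_co.IF

open Finset PR

theorem char_mul {n : ℕ} [NeZero n] {R : Type} [CommRing R] (ψ : AddChar (ZMod n) R) (t j : ZMod n) :
    ψ (t * j) = ψ t ^ j.val := by
  rw [← AddChar.map_nsmul_eq_pow, nsmul_eq_mul, ZMod.natCast_zmod_val, mul_comm]

theorem sum4 {R : Type} [CommRing R] (ψ : AddChar (ZMod 4) R) (N : ZMod 4 → R) (t : ZMod 4) :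
    ∑ j, N j * ψ (t * j) = N 0 + N 1 * ψ t + N 2 * ψ t ^ 2 + N 3 * ψ t ^ 3 := by
  simp only [char_mul]
  refine (Fin.sum_univ_four _).trans ?_
  show N 0 * ψ t ^ 0 + N 1 * ψ t ^ 1 + N 2 * ψ t ^ 2 + N 3 * ψ t ^ 3 = _
  ring

theorem sum8 {R : Type} [CommRing R] (ψ : AddChar (ZMod 8) R) (N : ZMod 8 → R) (t : ZMod 8) :
    ∑ j, N j * ψ (t * j) = N 0 + N 1 * ψ t + N 2 * ψ t ^ 2 + N 3 * ψ t ^ 3 + N 4 * ψ t ^ 4 +
      N 5 * ψ t ^ 5 + N 6 * ψ t ^ 6 + N 7 * ψ t ^ 7 := by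
  simp only [char_mul]
  refine (Fin.sum_univ_eight _).trans ?_
  show N 0 * ψ t ^ 0 + N 1 * ψ t ^ 1 + N 2 * ψ t ^ 2 + N 3 * ψ t ^ 3 + N 4 * ψ t ^ 4 +
      N 5 * ψ t ^ 5 + N 6 * ψ t ^ 6 + N 7 * ψ t ^ 7 = _
  ring

theorem sum4o {R : Type} [CommRing R] (ψ : AddChar (ZMod 4) R) (N : ZMod 4 → R) (t : ZMod 4) {w : R}
    (hw : ψ t = w) (h : w ^ 2 = -1) : ∑ j, N j * ψ (t * j) = (N 0 - N 2) + (N 1 - N 3) * w := by
  rw [sum4, hw]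
  linear_combination (N 2 + N 3 * w) * h

theorem sum8o {R : Type} [CommRing R] (ψ : AddChar (ZMod 8) R) (N : ZMod 8 → R) (t : ZMod 8) {w : R}
    (hw : ψ t = w) (h : w ^ 4 = -1) : ∑ j, N j * ψ (t * j) =
      (N 0 - N 4) + (N 1 - N 5) * w + (N 2 - N 6) * w ^ 2 + (N 3 - N 7) * w ^ 3 := by
  rw [sum8, hw]
  linear_combination (N 4 + N 5 * w + N 6 * w ^ 2 + N 7 * w ^ 3) * h

theorem sum8e {R : Type} [CommRing R] (ψ : AddChar (ZMod 8) R) (N : ZMod 8 → R) (t : ZMod 8) {w : R}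
    (hw : ψ t = w) (h : w ^ 2 = -1) : ∑ j, N j * ψ (t * j) =
      (N 0 - N 2 + N 4 - N 6) + (N 1 - N 3 + N 5 - N 7) * w := by
  rw [sum8, hw]
  linear_combination (N 2 + N 3 * w + (N 4 + N 5 * w) * (w ^ 2 - 1) +
    (N 6 + N 7 * w) * (w ^ 4 - w ^ 2 + 1)) * h

theorem vals4 {R : Type} [CommRing R] (ψ : AddChar (ZMod 4) R) (h : ψ 2 = -1) :
    ∃ z : R, z ^ 2 = -1 ∧ ψ 1 = z ∧ ψ 3 = -z := by
  have h2 : ψ 2 = ψ 1 ^ 2 := char_pow ψ 2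
  have h3 : ψ 3 = ψ 1 ^ 3 := char_pow ψ 3
  exact ⟨ψ 1, by rw [← h2, h], rfl, by linear_combination h3 + ψ 1 * (h - h2)⟩

theorem vals8 {R : Type} [CommRing R] (ψ : AddChar (ZMod 8) R) (h : ψ 4 = -1) :
    ∃ z : R, z ^ 4 = -1 ∧ ψ 1 = z ∧ ψ 2 = z ^ 2 ∧ ψ 3 = z ^ 3 ∧ ψ 5 = -z ∧ ψ 6 = -z ^ 2 ∧
      ψ 7 = -z ^ 3 := by
  have h4 : ψ 4 = ψ 1 ^ 4 := char_pow ψ 4
  have h5 : ψ 5 = ψ 1 ^ 5 := char_pow ψ 5
  have h6 : ψ 6 = ψ 1 ^ 6 := char_pow ψ 6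
  have h7 : ψ 7 = ψ 1 ^ 7 := char_pow ψ 7
  exact ⟨ψ 1, by rw [← h4, h], rfl, char_pow ψ 2, char_pow ψ 3,
    by linear_combination h5 + ψ 1 * (h - h4), by linear_combination h6 + ψ 1 ^ 2 * (h - h4),
    by linear_combination h7 + ψ 1 ^ 3 * (h - h4)⟩

theorem gauss_zero {u v : ℤ} {i : ℂ} (hi : i ^ 2 = -1) (h : (u : ℂ) + v * i = 0) : u = 0 ∧ v = 0 := by
  have h1 : ((u ^ 2 + v ^ 2 : ℤ) : ℂ) = 0 := by
    push_cast
    linear_combination (u - v * i) * h + (v : ℂ) ^ 2 * hi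
  have h2 : u ^ 2 + v ^ 2 = 0 := by exact_mod_cast h1
  constructor <;> nlinarith [sq_nonneg u, sq_nonneg v]

variable {K : Type} [Field K] [Fintype K] [DecidableEq K] {k : ℕ}

omit [Fintype K] [DecidableEq K] in
theorem ind_neg {n : ℕ} [NeZero n] (C : CS K n k) (h2 : (2 : K) ≠ 0) (hk : Odd k) :
    C.ind (-1) + C.ind (-1) = 0 ∧ C.ind (-1) ≠ 0 := by
  have m0 : (-1 : K) ≠ 0 := neg_ne_zero.2 one_ne_zero
  refine ⟨?_, fun h => ?_⟩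
  · rw [← C.ind_mul _ _ m0 m0, neg_mul_neg, one_mul]
    exact (C.ind_zero _ one_ne_zero).2 (one_pow k)
  · have h1 := (C.ind_zero _ m0).1 h
    rw [hk.neg_one_pow] at h1
    exact h2 (by linear_combination -h1)

theorem two_core (C : CS K 2 k) (h2 : (2 : K) ≠ 0) (hk : Odd k) : SS C 1 = 0 := by
  have m0 : (-1 : K) ≠ 0 := neg_ne_zero.2 one_ne_zero
  have hi : C.ind (-1) = 1 :=
    (by decide : ∀ m : ZMod 2, m ≠ 0 → m = 1) _ (ind_neg C h2 hk).2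
  have hz := C.X_one_neg h2 hk
  rw [C.X_apply _ _ m0, hi, one_mul] at hz
  obtain ⟨c, hc, hS⟩ := SS_count C hk.pos
  have c1 : c 1 = c 0 := by have := hc 0; rwa [hi] at this
  rw [hS]
  refine (Fin.sum_univ_two _).trans ?_
  show (c 0 : ℂ) * ZMod.stdAddChar (0 : ZMod 2) + c 1 * ZMod.stdAddChar (1 : ZMod 2) = 0
  rw [hz, c1, AddChar.map_zero_eq_one]
  ring

theorem four_core (C : CS K 4 k) (h2 : (2 : K) ≠ 0) (hk : Odd k) (hq : Fintype.card K = 4 * k + 1) :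
    ∃ x y c : ℤ, x ^ 2 + y ^ 2 = Fintype.card K ∧ x = 1 + 4 * c ∧ SS C 2 = 2 * c ∧ SS C 1 = 0 ∧
      SS C 3 = 0 ∧ ((x : K) = 0 → (y : K) = 0 → (((3 * k).choose (2 * k) : ℕ) : K) = 0) := by
  have m0 : (-1 : K) ≠ 0 := neg_ne_zero.2 one_ne_zero
  have hk0 := hk.pos
  have hi : C.ind (-1) = 2 :=
    (by decide : ∀ m : ZMod 4, m + m = 0 → m ≠ 0 → m = 2) _ (ind_neg C h2 hk).1 (ind_neg C h2 hk).2
  have hz := C.X_one_neg h2 hk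
  rw [C.X_apply _ _ m0, hi, one_mul] at hz
  obtain ⟨z, z2, z1, z3⟩ := vals4 _ hz
  have z2' : (-z) ^ 2 = -1 := by rw [neg_sq, z2]
  obtain ⟨c, hc, hS⟩ := SS_count C hk0
  rw [hi] at hc
  have c2 : c 2 = c 0 := hc 0
  have c3 : c 3 = c 1 := hc 1
  obtain ⟨e, -, he⟩ := exists_eK C hq
  have e2 : e 2 = -1 := by rw [← hi, he _ m0, hk.neg_one_pow]
  obtain ⟨w, w2, -, w3⟩ := vals4 e e2
  obtain ⟨N, hN, hK⟩ := jac_both C hk0 e he 2 1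
  have j1 : jacobiSum (C.X 2) (C.X 1) = _ := (hN 1).trans (sum4o _ _ _ z1 z2)
  have j3 : jacobiSum (C.X 2) (C.X 3) = _ := (hN 3).trans (sum4o _ _ _ z3 z2')
  have nrm := jac_norm C (a := 2) (b := 1) (a' := 2) (b' := 3) (by decide) (by decide) (by decide)
    (by decide) (by decide)
  have x2 : C.X 2 (-1) = 1 := by
    rw [C.X_apply _ _ m0, hi]
    exact AddChar.map_zero_eq_one _
  have s2 : SS C 2 = 2 * ((c 0 - c 1 : ℤ) : ℂ) := by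
    rw [hS, sum4, hz, c2, c3]
    push_cast
    ring
  have t2 : ((4 : ℕ) : ℂ) * SS C 2 = jacobiSum (C.X 0) (C.X 2) + jacobiSum (C.X 1) (C.X 2) +
      jacobiSum (C.X 2) (C.X 2) + jacobiSum (C.X 3) (C.X 2) :=
    (SS_jac C hk0 2).trans (Fin.sum_univ_four _)
  rw [jac_zero C (by decide), jac_neg C (u := 2) (v := 2) (by decide) (by decide), x2,
    jacobiSum_comm (C.X 1), jacobiSum_comm (C.X 3), j1, j3, s2] at t2
  refine ⟨N 0 - N 2, N 1 - N 3, c 0 - c 1, ?_, ?_, s2, ?_, ?_, fun hx hy => ?_⟩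
  · have : (((N 0 - N 2) ^ 2 + (N 1 - N 3) ^ 2 : ℤ) : ℂ) = ((Fintype.card K : ℤ) : ℂ) := by
      rw [j1, j3] at nrm
      push_cast
      linear_combination nrm + ((N 1 : ℂ) - N 3) ^ 2 * z2
    exact_mod_cast this
  · have : ((N 0 - N 2 : ℤ) : ℂ) = ((1 + 4 * (c 0 - c 1) : ℤ) : ℂ) := by
      push_cast at t2 ⊢
      linear_combination (-1 / 2 : ℂ) * t2
    exact_mod_cast this
  · rw [hS, sum4o _ _ _ z1 z2, c2, c3]
    ring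
  · rw [hS, sum4o _ _ _ z3 z2', c2, c3]
    ring
  · have a := hK 3 2 3 (by norm_num) (by norm_num) (by decide) (by decide)
    rw [sum4o _ _ _ w3 (by rw [neg_sq, w2]),
      sum_jac (C := 2 * k) (by omega) (by omega) (by omega) (by omega), pow_mul] at a
    push_cast at hx hy
    rw [hx, hy] at a
    linear_combination -a

end Pool.Agent.P.MP_111ca2_co.IF
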