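import Pool.Agent.P.MP_111ca2_co.Iff3

/-! The Jacobi sums of order `8`. -/

namespace Pool.Agent.P.MP_111ca2_co.IF

open Finset PR

variable {K : Type} [Field K] [Fintype K] [DecidableEq K] {k : ℕ}

theorem jac15 (C : CS K 8 k) (h2 : (2 : K) ≠ 0) :
    jacobiSum (C.X 1) (C.X 5) = C.X 7 4 * jacobiSum (C.X 2) (C.X 4) := by
  set ψ : AddChar K ℂ := AddChar.FiniteField.primitiveChar_to_Complex K
  have hψ : ψ.IsPrimitive := AddChar.FiniteField.primitiveChar_to_Complex_isPrimitive K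
  have d : gaussSum (C.X 1) ψ * gaussSum (C.X 5) ψ =
      C.X 7 4 * gaussSum (C.X 2) ψ * gaussSum (C.X 4) ψ := gauss_dup (m := 4) C h2 hψ 1
  have h6 : C.X 6 ≠ 1 := C.X_ne_one (by decide)
  have e1 : C.X 1 * C.X 5 = C.X 6 := (C.X_add 1 5).symm
  have e2 : C.X 2 * C.X 4 = C.X 6 := (C.X_add 2 4).symm
  have j1 := jacobiSum_mul_nontrivial (χ := C.X 1) (φ := C.X 5) (by rw [e1]; exact h6) ψ
  have j2 := jacobiSum_mul_nontrivial (χ := C.X 2) (φ := C.X 4) (by rw [e2]; exact h6) ψ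
  rw [e1] at j1
  rw [e2] at j2
  apply mul_left_cancel₀
    (gaussSum_ne_zero_of_nontrivial (Nat.cast_ne_zero.2 Fintype.card_ne_zero) h6 hψ)
  linear_combination j1 + d - C.X 7 4 * j2

theorem eight_core (C : CS K 8 k) (h2 : (2 : K) ≠ 0) (hk : Odd k) (hq : Fintype.card K = 8 * k + 1) :
    ∃ x y a b A B B' ε : ℤ, (ε = 1 ∨ ε = -1) ∧ x ^ 2 + y ^ 2 = Fintype.card K ∧
      a ^ 2 + 2 * b ^ 2 = Fintype.card K ∧ 16 * A = -2 + 2 * x + 4 * a ∧
      16 * B = -2 + 2 * (1 - ε) * x - 2 * ε * a ∧ 16 * B' = 2 * (1 - ε) * y ∧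
      ((∀ u, u ≠ 0 → SS C u = 0) ↔ A = 0 ∧ B = 0 ∧ B' = 0) ∧
      ((x : K) = 0 → (y : K) = 0 → (((6 * k).choose (4 * k) : ℕ) : K) = 0) ∧
      ((a : K) = 0 → (b : K) = 0 → (((7 * k).choose (4 * k) : ℕ) : K) = 0) := by
  have m0 : (-1 : K) ≠ 0 := neg_ne_zero.2 one_ne_zero
  have hk0 := hk.pos
  have hi : C.ind (-1) = 4 :=
    (by decide : ∀ m : ZMod 8, m + m = 0 → m ≠ 0 → m = 4) _ (ind_neg C h2 hk).1 (ind_neg C h2 hk).2
  have hz := C.X_one_neg h2 hk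
  rw [C.X_apply _ _ m0, hi, one_mul] at hz
  obtain ⟨z, z4, z1, z2, z3, z5, z6, z7⟩ := vals8 _ hz
  have q2 : (z ^ 2) ^ 2 = -1 := by linear_combination z4
  have q6 : (-z ^ 2) ^ 2 = -1 := by linear_combination z4
  have q3 : (z ^ 3) ^ 4 = -1 := by linear_combination (z ^ 8 - z ^ 4 + 1) * z4
  have q5 : (-z) ^ 4 = -1 := by linear_combination z4
  have q7 : (-z ^ 3) ^ 4 = -1 := by linear_combination (z ^ 8 - z ^ 4 + 1) * z4
  have z0 : z ≠ 0 := by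
    rintro rfl
    norm_num at z4
  obtain ⟨c, hc, hS⟩ := SS_count C hk0
  rw [hi] at hc
  have c4 : c 4 = c 0 := hc 0
  have c5 : c 5 = c 1 := hc 1
  have c6 : c 6 = c 2 := hc 2
  have c7 : c 7 = c 3 := hc 3
  obtain ⟨e, -, he⟩ := exists_eK C hq
  have e4 : e 4 = -1 := by rw [← hi, he _ m0, hk.neg_one_pow]
  obtain ⟨w, w4, -, -, -, -, w6, w7⟩ := vals8 e e4
  obtain ⟨N, hN, hK⟩ := jac_both C hk0 e he 2 1
  obtain ⟨M, hM, hL⟩ := jac_both C hk0 e he 4 1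
  have j2 : jacobiSum (C.X 4) (C.X 2) = _ := (hN 2).trans (sum8e _ _ _ z2 q2)
  have j6 : jacobiSum (C.X 4) (C.X 6) = _ := (hN 6).trans (sum8e _ _ _ z6 q6)
  have j1 : jacobiSum (C.X 4) (C.X 1) = _ := (hM 1).trans (sum8o _ _ _ z1 z4)
  have j3 : jacobiSum (C.X 4) (C.X 3) = _ := (hM 3).trans (sum8o _ _ _ z3 q3)
  have j5 : jacobiSum (C.X 4) (C.X 5) = _ := (hM 5).trans (sum8o _ _ _ z5 q5)
  have j7 : jacobiSum (C.X 4) (C.X 7) = _ := (hM 7).trans (sum8o _ _ _ z7 q7)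
  have kx := hK 6 4 6 (by norm_num) (by norm_num) (by decide) (by decide)
  have ka := hL 7 4 7 (by norm_num) (by norm_num) (by decide) (by decide)
  rw [sum8e _ _ _ w6 (by linear_combination w4),
    sum_jac (C := 4 * k) (by omega) (by omega) (by omega) (by omega), pow_mul] at kx
  rw [sum8o _ _ _ w7 (by linear_combination (w ^ 8 - w ^ 4 + 1) * w4),
    sum_jac (C := 4 * k) (by omega) (by omega) (by omega) (by omega), pow_mul] at ka
  obtain ⟨x, hx⟩ : ∃ x : ℤ, x = N 0 - N 2 + N 4 - N 6 := ⟨_, rfl⟩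
  obtain ⟨y, hy⟩ : ∃ y : ℤ, y = N 1 - N 3 + N 5 - N 7 := ⟨_, rfl⟩
  obtain ⟨a, ha⟩ : ∃ a : ℤ, a = M 0 - M 4 := ⟨_, rfl⟩
  obtain ⟨b, hb⟩ : ∃ b : ℤ, b = M 1 - M 5 := ⟨_, rfl⟩
  obtain ⟨b2, hb2⟩ : ∃ b : ℤ, b = M 2 - M 6 := ⟨_, rfl⟩
  obtain ⟨b3, hb3⟩ : ∃ b : ℤ, b = M 3 - M 7 := ⟨_, rfl⟩
  have cast : ∀ {R : Type} [CommRing R], (N 0 - N 2 + N 4 - N 6 : R) = x ∧
      (N 1 - N 3 + N 5 - N 7 : R) = y ∧ (M 0 - M 4 : R) = a ∧ (M 1 - M 5 : R) = b ∧
      (M 2 - M 6 : R) = b2 ∧ (M 3 - M 7 : R) = b3 := by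
    intro R _
    simp only [hx, hy, ha, hb, hb2, hb3, Int.cast_sub, Int.cast_add, and_self]
  simp only [cast] at j1 j2 j3 j5 j6 j7 kx ka
  have xe : ∀ t : ZMod 8, t * 4 = 0 → C.X t (-1) = 1 := by
    intro t ht
    rw [C.X_apply _ _ m0, hi, ht]
    exact AddChar.map_zero_eq_one _
  have xo : ∀ t : ZMod 8, t * 4 = 4 → C.X t (-1) = -1 := by
    intro t ht
    rw [C.X_apply _ _ m0, hi, ht, hz]
  have s13 := jac_sym C 4 1 3 (by decide)
  have s57 := jac_sym C 4 5 7 (by decide)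
  rw [xe 4 (by decide), one_mul] at s13 s57
  have hb20 : b2 = 0 := by
    have : (b2 : ℂ) * (4 * z ^ 2) = 0 := by
      rw [j1, j3] at s13
      rw [j5, j7] at s57
      linear_combination s13 + s57 + 2 * b2 * z ^ 2 * z4
    exact_mod_cast (mul_eq_zero.1 this).resolve_right (mul_ne_zero (by norm_num) (pow_ne_zero _ z0))
  have hb30 : b3 = b := by
    have : ((b3 - b : ℤ) : ℂ) * (2 * z) = 0 := by
      rw [j1, j3, hb20] at s13
      push_cast at s13 ⊢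
      linear_combination (-1 - z ^ 2) * s13 +
        (-(b3 : ℂ) * z * (z ^ 4 - 1) * (1 + z ^ 2) + (b3 - b) * z) * z4
    have := (mul_eq_zero.1 this).resolve_right (mul_ne_zero (by norm_num) z0)
    have : b3 - b = 0 := by exact_mod_cast this
    omega
  rw [hb20, hb30] at j1 j3 j5 j7 ka
  have i1 : jacobiSum (C.X 4) (C.X 1) = a + b * (z + z ^ 3) := by
    rw [j1]; push_cast; ring
  have i7 : jacobiSum (C.X 4) (C.X 7) = a - b * (z + z ^ 3) := by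
    rw [j7]; push_cast; linear_combination (-b * z * (z ^ 4 - 1)) * z4
  have n2 := jac_norm C (a := 4) (b := 2) (a' := 4) (b' := 6) (by decide) (by decide) (by decide)
    (by decide) (by decide)
  have n1 := jac_norm C (a := 4) (b := 1) (a' := 4) (b' := 7) (by decide) (by decide) (by decide)
    (by decide) (by decide)
  have hρ : C.X 4 * C.X 4 = 1 := (C.X_add 4 4).symm.trans C.X_zero
  have hρ1 : C.X 4 ≠ 1 := C.X_ne_one (by decide)
  have sq2 : IsSquare (2 : K) := FiniteField.isSquare_two_iff.2 (by omega)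
  have r2 : C.X 4 2 = 1 := pra2_sq hρ h2 sq2
  have four : ∀ s t : ZMod 8, s + s = t → C.X s 4 = C.X t 2 := by
    intro s t h
    rw [show (4 : K) = 2 * 2 by norm_num, map_mul, ← MulChar.mul_apply, ← C.X_add, h]
  have ee : C.X 2 2 * C.X 2 2 = 1 := by
    rw [← MulChar.mul_apply, ← C.X_add]
    exact r2
  have e6 : C.X 6 2 = C.X 2 2 := by
    have : C.X 6 = C.X 2 * C.X 4 := C.X_add 2 4
    rw [this, MulChar.mul_apply, r2, mul_one]
  obtain ⟨ε, hε, he2⟩ : ∃ ε : ℤ, (ε = 1 ∨ ε = -1) ∧ C.X 2 2 = ε := by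
    rcases mul_self_eq_one_iff.1 ee with h | h
    · exact ⟨1, Or.inl rfl, by rw [h, Int.cast_one]⟩
    · exact ⟨-1, Or.inr rfl, by rw [h, Int.cast_neg, Int.cast_one]⟩
  have u22 := jac_sym C 2 2 4 (by decide)
  have u25 := jac_sym C 2 5 1 (by decide)
  have u12 := jac_sym C 1 2 5 (by decide)
  have u32 := jac_sym C 3 2 3 (by decide)
  have u72 := jac_sym C 7 2 7 (by decide)
  have d3 := pra2_jac h2 (C.X_ne_one (a := 3) (by decide)) hρ hρ1
  have d7 := pra2_jac h2 (C.X_ne_one (a := 7) (by decide)) hρ hρ1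
  rw [← C.X_neg, four (-3) 2 (by decide), he2, ← s13, i1] at d3
  rw [← C.X_neg, four (-7) 2 (by decide), he2, i7] at d7
  rw [xe 2 (by decide), one_mul, jacobiSum_comm (C.X 2) (C.X 4), j2] at u22
  rw [xo 1 (by decide), jac15 C h2, four 7 6 (by decide), e6, he2,
    jacobiSum_comm (C.X 2) (C.X 4), j2] at u12
  rw [xe 2 (by decide), one_mul, jacobiSum_comm (C.X 2), jacobiSum_comm (C.X 2), u12] at u25
  rw [xo 3 (by decide), d3] at u32
  rw [xo 7 (by decide), d7] at u72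
  have tS : ∀ u, ((8 : ℕ) : ℂ) * SS C u = jacobiSum (C.X 0) (C.X u) + jacobiSum (C.X 1) (C.X u) +
      jacobiSum (C.X 2) (C.X u) + jacobiSum (C.X 3) (C.X u) + jacobiSum (C.X 4) (C.X u) +
      jacobiSum (C.X 5) (C.X u) + jacobiSum (C.X 6) (C.X u) + jacobiSum (C.X 7) (C.X u) :=
    fun u => (SS_jac C hk0 u).trans (Fin.sum_univ_eight _)
  have s4 : SS C 4 = 2 * ((c 0 - c 1 + c 2 - c 3 : ℤ) : ℂ) := by
    rw [hS, sum8, hz, c4, c5, c6, c7]
    push_cast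
    ring
  have s2 : SS C 2 = 2 * (((c 0 - c 2 : ℤ) : ℂ) + ((c 1 - c 3 : ℤ) : ℂ) * z ^ 2) := by
    rw [hS, sum8e _ _ _ z2 q2, c4, c5, c6, c7]
    push_cast
    ring
  have s6 : SS C 6 = 2 * (((c 0 - c 2 : ℤ) : ℂ) - ((c 1 - c 3 : ℤ) : ℂ) * z ^ 2) := by
    rw [hS, sum8e _ _ _ z6 q6, c4, c5, c6, c7]
    push_cast
    ring
  have so : ∀ (u : ZMod 8) (v : ℂ), ZMod.stdAddChar u = v → v ^ 4 = -1 → SS C u = 0 := by
    intro u v h1 h4
    rw [hS, sum8o _ _ _ h1 h4, c4, c5, c6, c7]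
    ring
  have t4 := tS 4
  have t2 := tS 2
  rw [jac_zero C (by decide), jac_neg C (u := 4) (v := 4) (by decide) (by decide), xe 4 (by decide),
    jacobiSum_comm (C.X 1), jacobiSum_comm (C.X 2), jacobiSum_comm (C.X 3), jacobiSum_comm (C.X 5),
    jacobiSum_comm (C.X 6), jacobiSum_comm (C.X 7), ← s13, s57, i1, i7, j2, j6, s4] at t4
  rw [jac_zero C (by decide), jac_neg C (u := 2) (v := 6) (by decide) (by decide), xe 2 (by decide),
    u12, u22, u32, j2, u25, u72, s2] at t2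
  have g2 := gauss_zero (u := 16 * (c 0 - c 2) - (-2 + 2 * (1 - ε) * x - 2 * ε * a))
    (v := 16 * (c 1 - c 3) - 2 * (1 - ε) * y) q2 (by
      push_cast at t2 ⊢
      linear_combination t2)
  refine ⟨x, y, a, b, c 0 - c 1 + c 2 - c 3, c 0 - c 2, c 1 - c 3, ε, hε, ?_, ?_, ?_,
    by linear_combination g2.1, by linear_combination g2.2, ⟨fun h => ?_, fun h u hu => ?_⟩,
    fun h1 h2 => ?_, fun h1 h2 => ?_⟩
  · have : ((x ^ 2 + y ^ 2 : ℤ) : ℂ) = ((Fintype.card K : ℤ) : ℂ) := by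
      rw [j2, j6] at n2
      push_cast
      linear_combination n2 + (y : ℂ) ^ 2 * z4
    exact_mod_cast this
  · have : ((a ^ 2 + 2 * b ^ 2 : ℤ) : ℂ) = ((Fintype.card K : ℤ) : ℂ) := by
      rw [i1, i7] at n1
      push_cast
      linear_combination n1 + (b : ℂ) ^ 2 * (z ^ 2 + 2) * z4
    exact_mod_cast this
  · have : ((16 * (c 0 - c 1 + c 2 - c 3) : ℤ) : ℂ) = ((-2 + 2 * x + 4 * a : ℤ) : ℂ) := by
      push_cast at t4 ⊢
      linear_combination t4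
    exact_mod_cast this
  · have a4 := h 4 (by decide)
    have a2 := h 2 (by decide)
    rw [s4] at a4
    rw [s2] at a2
    exact ⟨by exact_mod_cast (mul_eq_zero.1 a4).resolve_left two_ne_zero,
      gauss_zero q2 ((mul_eq_zero.1 a2).resolve_left two_ne_zero)⟩
  · rcases (by decide : ∀ u : ZMod 8, u ≠ 0 → u = 1 ∨ u = 2 ∨ u = 3 ∨ u = 4 ∨ u = 5 ∨ u = 6 ∨ u = 7)
      u hu with rfl | rfl | rfl | rfl | rfl | rfl | rfl
    · exact so _ _ z1 z4
    · rw [s2, h.2.1, h.2.2]; simp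
    · exact so _ _ z3 q3
    · rw [s4, h.1]; simp
    · exact so _ _ z5 q5
    · rw [s6, h.2.1, h.2.2]; simp
    · exact so _ _ z7 q7
  · rw [h1, h2] at kx
    linear_combination -kx
  · rw [h1, h2] at ka
    push_cast at ka
    linear_combination -ka

end Pool.Agent.P.MP_111ca2_co.IF
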