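import Pool.Agent.P.MP_111ca2_co.Iff4

/-! The indices `2`, `4`, `8` over every finite field, and the list for all large fields. -/

namespace Pool.Agent.P.MP_111ca2_co.IF

open Finset PR

variable {K : Type} [Field K] [Fintype K] [DecidableEq K] {k : ℕ}

omit [DecidableEq K] in
theorem two_ne (h : Odd (Fintype.card K)) : (2 : K) ≠ 0 := by
  intro h2
  have := Fact.mk Nat.prime_two
  have : CharP K 2 := (CharP.charP_iff_prime_eq_zero Nat.prime_two).2 (by exact_mod_cast h2)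
  have hp : 2 ∣ Fintype.card K := (CharP.cast_eq_zero_iff K 2 _).1 (by simp)
  exact (Nat.not_even_iff_odd.2 h) (even_iff_two_dvd.2 hp)

omit [DecidableEq K] in
theorem char_data (K : Type) [Field K] [Fintype K] : ∃ p f : ℕ, p.Prime ∧ 0 < f ∧
    Fintype.card K = p ^ f ∧ (∀ m : ℕ, (m : K) = 0 ↔ p ∣ m) ∧ ∀ m : ℤ, (p : ℤ) ∣ m → (m : K) = 0 := by
  obtain ⟨f, hp, hf⟩ := FiniteField.card K (ringChar K)
  exact ⟨ringChar K, f, hp, f.pos, hf, ringChar.spec K,
    fun m hm => (CharP.intCast_eq_zero_iff K (ringChar K) m).2 hm⟩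

theorem iff_two (hk : 1 < k) (hq : Fintype.card K = 2 * k + 1) :
    (∃ lam, ∀ g : K, g ≠ 0 → rr k g = lam) ↔ Fintype.card K % 4 = 3 := by
  constructor
  · rintro ⟨lam, hl⟩
    obtain ⟨j, hj⟩ := (neg_one_pow_ne le_rfl hk hq hl).2
    omega
  · intro h
    obtain ⟨C⟩ := exists_CS K (n := 2) (by omega : 0 < k) hq
    refine ds_of_SS C (by omega) fun u hu => ?_
    rw [(by decide : ∀ m : ZMod 2, m ≠ 0 → m = 1) u hu]
    exact two_core C (two_ne (Nat.odd_iff.2 (by omega))) (Nat.odd_iff.2 (by omega))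

theorem iff_four (hk : 1 < k) (hq : Fintype.card K = 4 * k + 1) :
    (∃ lam, ∀ g : K, g ≠ 0 → rr k g = lam) ↔
      (∃ x : ℕ, Fintype.card K = 4 * x ^ 2 + 1) ∧ Fintype.card K % 8 = 5 := by
  obtain ⟨C⟩ := exists_CS K (n := 4) (by omega : 0 < k) hq
  constructor
  · rintro ⟨lam, hl⟩
    obtain ⟨h2, ho⟩ := neg_one_pow_ne (by norm_num) hk hq hl
    obtain ⟨x, y, c, h1, h3, h4, -⟩ := four_core C h2 ho hq
    have s := pra3_sum C (by omega) hl (u := 2) (by decide)
    have c0 : c = 0 := by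
      have : (2 : ℂ) * c = 0 := h4.symm.trans s
      exact_mod_cast (mul_eq_zero.1 this).resolve_left two_ne_zero
    obtain ⟨j, hj⟩ := ho
    refine ⟨?_, by omega⟩
    have hy : y ^ 2 = 4 * k := by
      rw [h3, c0, hq] at h1
      push_cast at h1
      linear_combination h1
    obtain ⟨z, rfl⟩ : (2 : ℤ) ∣ y := Int.prime_two.dvd_of_dvd_pow (n := 2) ⟨2 * k, by linear_combination hy⟩
    refine ⟨z.natAbs, ?_⟩
    rw [hq]
    zify
    rw [sq_abs]
    linear_combination -hy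
  · rintro ⟨⟨z, hz⟩, h8⟩
    have ho : Odd k := Nat.odd_iff.2 (by omega)
    have h2 : (2 : K) ≠ 0 := two_ne (Nat.odd_iff.2 (by omega))
    obtain ⟨x, y, c, h1, h3, h4, h5, h6, h7⟩ := four_core C h2 ho hq
    obtain ⟨p, f, hp, hf, hpf, hc, hc'⟩ := char_data K
    have := Fact.mk hp
    have hp2 : p ≠ 2 := by
      rintro rfl
      exact h2 (by exact_mod_cast (hc 2).2 dvd_rfl)
    have hd : p ∣ 4 * z ^ 2 + 1 := by rw [← hz, hpf]; exact dvd_pow_self _ hf.ne'
    have h43 : p % 4 ≠ 3 := ZMod.mod_four_ne_three_of_sq_eq_neg_one (p := p) (y := 2 * z) (by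
      have := (ZMod.natCast_eq_zero_iff _ p).2 hd
      push_cast at this
      linear_combination this)
    have hodd := hp.eq_two_or_odd.resolve_left hp2
    have nd := not_dvd_choose (d := 4) (c := p / 4) (r := 2) (s := 3) hp (by norm_num) (by omega)
      (by norm_num) (by norm_num) f k (by rw [← hpf, hq])
    have u := rep_unique (D := 1) (x := x) (y := y) (c := 1) (d := 2 * z) hp hp2 hf (Or.inl rfl)
      (by rw [hpf] at h1; push_cast at h1; linear_combination h1)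
      (by rw [hpf] at hz; zify at hz; linear_combination -hz)
      (fun h => nd ((hc _).1 (h7 (hc' _ h.1) (hc' _ h.2))))
      (Nat.prime_iff_prime_int.1 hp).not_dvd_one
    have c0 : c = 0 := by
      rcases u with u | ⟨-, u⟩
      · rcases sq_eq_sq_iff_eq_or_eq_neg.1 u with u | u <;> omega
      · rcases sq_eq_sq_iff_eq_or_eq_neg.1 u with u | u <;> omega
    refine ds_of_SS C (by omega) fun u hu => ?_
    rcases (by decide : ∀ u : ZMod 4, u ≠ 0 → u = 1 ∨ u = 2 ∨ u = 3) u hu with rfl | rfl | rfl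
    · exact h5
    · rw [h4, c0]; simp
    · exact h6

theorem char_eight {p f u v : ℕ} (hp : p.Prime) (hf : 0 < f) (h1 : p ^ f = 1 + 8 * u ^ 2)
    (h2 : p ^ f = 9 + 64 * v ^ 2) (h9 : 9 < p ^ f) : p % 8 = 1 := by
  have := Fact.mk hp
  have hd : p ∣ p ^ f := dvd_pow_self _ hf.ne'
  have hp2 : p ≠ 2 := by
    rintro rfl
    omega
  have hp3 : p ≠ 3 := by
    rintro rfl
    have h3 : 3 ∣ v := by
      have : 3 ∣ 64 * v ^ 2 := by omega
      exact Nat.prime_three.dvd_of_dvd_pow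
        ((Nat.Coprime.dvd_mul_left (by norm_num : Nat.Coprime 3 64)).1 this)
    obtain ⟨w, rfl⟩ := h3
    have h27 : 27 ∣ 3 ^ f := by
      refine (pow_dvd_pow 3 (show 3 ≤ f from ?_))
      by_contra h
      interval_cases f <;> omega
    have e : (3 * w) ^ 2 = 9 * w ^ 2 := by ring
    have m : w ^ 2 % 3 = 0 ∨ w ^ 2 % 3 = 1 := by
      rw [Nat.pow_mod]
      rcases (by omega : w % 3 = 0 ∨ w % 3 = 1 ∨ w % 3 = 2) with h | h | h <;> simp [h]
    omega
  have z1 : ((1 + 8 * u ^ 2 : ℕ) : ZMod p) = 0 := (ZMod.natCast_eq_zero_iff _ p).2 (h1 ▸ hd)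
  have z2 : ((9 + 64 * v ^ 2 : ℕ) : ZMod p) = 0 := (ZMod.natCast_eq_zero_iff _ p).2 (h2 ▸ hd)
  push_cast at z1 z2
  have a := (ZMod.exists_sq_eq_neg_two_iff hp2).1 ⟨4 * u, by linear_combination -2 * z1⟩
  have b : p % 4 ≠ 3 := ZMod.mod_four_ne_three_of_sq_eq_neg_sq' (p := p) (x := 8 * v) (y := 3)
    (fun h => hp3 ((Nat.prime_dvd_prime_iff_eq hp Nat.prime_three).1
      ((ZMod.natCast_eq_zero_iff 3 p).1 (by exact_mod_cast h)))) (by linear_combination z2)
  omega

theorem iff_eight (hk : 1 < k) (hq : Fintype.card K = 8 * k + 1) :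
    (∃ lam, ∀ g : K, g ≠ 0 → rr k g = lam) ↔
      ∃ u v : ℕ, Fintype.card K = 1 + 8 * u ^ 2 ∧ Fintype.card K = 9 + 64 * v ^ 2 := by
  obtain ⟨C⟩ := exists_CS K (n := 8) (by omega : 0 < k) hq
  constructor
  · rintro ⟨lam, hl⟩
    obtain ⟨h2, ho⟩ := neg_one_pow_ne (by norm_num) hk hq hl
    obtain ⟨x, y, a, b, A, B, B', ε, hε, h1, h3, h4, h5, h6, h7, -⟩ := eight_core C h2 ho hq
    obtain ⟨rfl, rfl, rfl⟩ := h7.1 fun u hu => pra3_sum C (by omega) hl hu
    rcases hε with rfl | rfl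
    · obtain rfl : a = -1 := by omega
      obtain rfl : x = 3 := by omega
      rw [hq] at h1 h3 ⊢
      push_cast at h1 h3
      obtain ⟨u, rfl⟩ : (2 : ℤ) ∣ b :=
        Int.prime_two.dvd_of_dvd_pow (n := 2) ⟨2 * k, by linarith⟩
      have hu : u ^ 2 = k := by linarith
      obtain ⟨j, rfl⟩ : Odd u := by
        rw [← Int.odd_pow' two_ne_zero, hu]
        exact_mod_cast ho
      obtain ⟨t, ht⟩ := Int.even_mul_succ_self j
      obtain ⟨v, rfl⟩ : (8 : ℤ) ∣ y :=
        (Int.pow_dvd_pow_iff two_ne_zero).1 ⟨t, by linear_combination h1 - 8 * hu + 32 * ht⟩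
      refine ⟨(2 * j + 1).natAbs, v.natAbs, ?_, ?_⟩
      · zify
        rw [sq_abs]
        linear_combination -8 * hu
      · zify
        rw [sq_abs]
        linear_combination -h1
    · omega
  · rintro ⟨u, v, hu, hv⟩
    have ho : Odd k := Nat.odd_iff.2 (by omega)
    have h2 : (2 : K) ≠ 0 := two_ne (Nat.odd_iff.2 (by omega))
    obtain ⟨x, y, a, b, A, B, B', ε, hε, h1, h3, h4, h5, h6, h7, h8, h9⟩ := eight_core C h2 ho hq
    obtain ⟨p, f, hp, hf, hpf, hc, hc'⟩ := char_data K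
    have p8 := char_eight hp hf (hpf ▸ hu) (hpf ▸ hv) (by omega)
    have hp2 : p ≠ 2 := by omega
    have nd : ∀ s, 4 ≤ s → s ≤ 8 → ¬ p ∣ (s * k).choose (4 * k) := fun s a b =>
      not_dvd_choose (d := 8) (c := p / 8) hp (by norm_num) (by omega) a b f k (by rw [← hpf, hq])
    have u1 := rep_unique (D := 1) (x := x) (y := y) (c := 3) (d := 8 * v) hp hp2 hf (Or.inl rfl)
      (by rw [hpf] at h1; push_cast at h1; linear_combination h1)
      (by rw [hpf] at hv; zify at hv; linear_combination -hv)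
      (fun h => nd 6 (by norm_num) (by norm_num) ((hc _).1 (h8 (hc' _ h.1) (hc' _ h.2))))
      (fun h => by
        have := (Nat.prime_dvd_prime_iff_eq hp Nat.prime_three).1 (by exact_mod_cast h)
        omega)
    have u2 := rep_unique (D := 2) (x := a) (y := b) (c := 1) (d := 2 * u) hp hp2 hf (Or.inr rfl)
      (by rw [hpf] at h3; push_cast at h3; linear_combination h3)
      (by rw [hpf] at hu; zify at hu; linear_combination -hu)
      (fun h => nd 7 (by norm_num) (by norm_num) ((hc _).1 (h9 (hc' _ h.1) (hc' _ h.2))))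
      (Nat.prime_iff_prime_int.1 hp).not_dvd_one
    have v1 : x = 3 ∨ x = -3 := by
      rcases u1 with u1 | ⟨-, u1⟩
      · exact sq_eq_sq_iff_eq_or_eq_neg.1 u1
      · rcases sq_eq_sq_iff_eq_or_eq_neg.1 u1 with u1 | u1 <;> omega
    have v2 : a = 1 ∨ a = -1 :=
      sq_eq_sq_iff_eq_or_eq_neg.1 (u2.resolve_right fun h => by omega)
    refine ds_of_SS C (by omega) (h7.2 ?_)
    rcases hε with rfl | rfl <;> omega

theorem large (n : ℕ) :
    ∃ Q : ℕ, ∀ (K : Type) [Field K] [Finite K], Q < Nat.card K → n ∣ Nat.card K - 1 → 2 ≤ n →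
      n < Nat.card K - 1 →
      ((∃ lam : ℕ, ∀ g : K, g ≠ 0 →
        {x : K × K | (∃ y : K, y ≠ 0 ∧ x.1 = y ^ n) ∧ (∃ y : K, y ≠ 0 ∧ x.2 = y ^ n) ∧
          x.1 - x.2 = g}.ncard = lam) ↔
        (n = 2 ∧ Nat.card K % 4 = 3) ∨
        (n = 4 ∧ (∃ x : ℕ, Nat.card K = 4 * x ^ 2 + 1) ∧ Nat.card K % 8 = 5) ∨
        (n = 8 ∧ ∃ u v : ℕ, Nat.card K = 1 + 8 * u ^ 2 ∧ Nat.card K = 9 + 64 * v ^ 2)) := by
  classical
  by_cases h : n = 2 ∨ n = 4 ∨ n = 8
  · refine ⟨0, fun K _ _ _ hn hn2 hlt => ?_⟩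
    have := Fintype.ofFinite K
    rw [Nat.card_eq_fintype_card] at *
    obtain ⟨k, hk⟩ := hn
    have hk1 : 1 < k := by
      by_contra h
      interval_cases k <;> omega
    have hq : Fintype.card K = n * k + 1 := by omega
    simp only [ncard_eq_rr (by omega) (by omega) hq]
    rcases h with rfl | rfl | rfl
    · simpa using iff_two hk1 hq
    · simpa using iff_four hk1 hq
    · simpa using iff_eight hk1 hq
  · push Not at h
    obtain ⟨Q, hQ⟩ := finite_exc n h.1 h.2.1 h.2.2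
    refine ⟨Q, fun K _ _ a b c d => ⟨fun e => absurd (hQ K b c d e) (by omega), ?_⟩⟩
    rintro (e | e | e)
    · exact absurd e.1 h.1
    · exact absurd e.1 h.2.1
    · exact absurd e.1 h.2.2

end Pool.Agent.P.MP_111ca2_co.IF
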