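import Mathlib

/-! One step of the Lucas recursion modulo the square of a prime. -/

namespace Pool.Agent.P.MP_111ca2_co

open Polynomial

section
variable {R : Type} [CommRing R]

theorem coeff_low (p m N : ℕ) (hm : m < p) (u : R[X]) :
    ((1 + X ^ p) ^ N * u).coeff m = u.coeff m := by
  induction N with
  | zero => simp
  | succ N ih =>
    have : (1 + X ^ p : R[X]) ^ (N + 1) * u = (1 + X ^ p) ^ N * u + X ^ p * ((1 + X ^ p) ^ N * u) := by
      ring
    rw [this, coeff_add, ih, coeff_X_pow_mul', if_neg (by omega), add_zero]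

theorem coeff_high (p m : ℕ) (hm : m < p) (u : R[X]) (hu : ∀ j, 2 * p ≤ j → u.coeff j = 0) (N : ℕ) :
    ∀ M : ℕ, ((1 + X ^ p) ^ N * u).coeff (p * (M + 1) + m) =
      (N.choose (M + 1) : R) * u.coeff m + (N.choose M : R) * u.coeff (m + p) := by
  induction N with
  | zero =>
    intro M
    cases M with
    | zero => simp [add_comm]
    | succ M =>
      rw [pow_zero, one_mul, hu _ (by nlinarith)]
      simp
  | succ N ih =>
    intro M
    have : (1 + X ^ p : R[X]) ^ (N + 1) * u = (1 + X ^ p) ^ N * u + X ^ p * ((1 + X ^ p) ^ N * u) := by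
      ring
    rw [this, coeff_add, ih, coeff_X_pow_mul', if_pos (by nlinarith)]
    have e : p * (M + 1) + m - p = p * M + m := by rw [Nat.mul_succ]; omega
    rw [e]
    cases M with
    | zero =>
      rw [show p * 0 + m = m by simp, coeff_low p m N hm]
      simp only [Nat.zero_add, Nat.choose_one_right, Nat.choose_zero_right]
      push_cast; ring
    | succ M =>
      rw [ih, Nat.choose_succ_succ' N (M + 1), Nat.choose_succ_succ' N M]
      push_cast; ring

theorem pow_expand (p : ℕ) (hp : p.Prime) (h2 : (p : R) * p = 0) (N n0 : ℕ) :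
    ((1 + X : R[X])) ^ (p * (N + 1) + n0) =
      (1 + X ^ p) ^ (N + 1) * (1 + X) ^ n0 * (-(N : R[X])) +
        ((N : R[X]) + 1) * ((1 + X ^ p) ^ N * (1 + X) ^ (n0 + p)) := by
  obtain ⟨r, hr⟩ := exists_add_pow_prime_eq hp (1 : R[X]) X
  have hz : ((p : R[X]) * (p : R[X])) = 0 := by
    have := congrArg (C : R → R[X]) h2
    simpa using this
  set a : R[X] := 1 + X ^ p with ha
  set b : R[X] := (p : R[X]) * 1 * X * r with hb
  have hab : (1 + X : R[X]) ^ p = a + b := by rw [hr, ha, hb]; simp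
  have hbb : b ^ 2 = 0 := by
    have : b ^ 2 = ((p : R[X]) * (p : R[X])) * (X * r) ^ 2 := by rw [hb]; ring
    rw [this, hz, zero_mul]
  have key : ∀ n : ℕ, (a + b) ^ (n + 1) = a ^ (n + 1) + ((n : R[X]) + 1) * a ^ n * b := by
    intro n
    induction n with
    | zero => simp
    | succ n ih =>
      rw [pow_succ (a + b), ih]
      push_cast
      linear_combination (((n : R[X]) + 1) * a ^ n) * hbb
  rw [pow_add _ (p * (N + 1)), pow_mul, pow_add _ n0 p, hab, key]
  ring

theorem lucas_sq (p : ℕ) (hp : p.Prime) (h2 : (p : R) * p = 0) (n0 m0 : ℕ) (hn : n0 < p) (hm : m0 < p)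
    (N M : ℕ) :
    ((p * N + n0).choose (p * M + m0) : R) = (N.choose M : R) *
      ((n0.choose m0 : R) + N * ((n0 + p).choose m0 : R) + M * ((n0 + p).choose (m0 + p) : R)
        - N * (n0.choose m0 : R) - M * ((n0 + p).choose m0 : R)) := by
  have hc : ∀ a b : ℕ, ((1 + X : R[X]) ^ a).coeff b = (a.choose b : R) := fun a b =>
    coeff_one_add_X_pow R a b
  cases N with
  | zero =>
    cases M with
    | zero => simp
    | succ M =>
      rw [Nat.choose_eq_zero_of_lt (by nlinarith)]
      simp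
  | succ N =>
    rw [← hc, pow_expand p hp h2, coeff_add]
    have e1 : (-(N : R[X])) = C (-(N : R)) := by simp
    have e2 : ((N : R[X]) + 1) = C ((N : R) + 1) := by simp
    rw [e1, e2, coeff_mul_C, coeff_C_mul]
    have hu1 : ∀ j, 2 * p ≤ j → ((1 + X : R[X]) ^ n0).coeff j = 0 := fun j hj => by
      rw [hc, Nat.choose_eq_zero_of_lt (by omega)]; simp
    have hu2 : ∀ j, 2 * p ≤ j → ((1 + X : R[X]) ^ (n0 + p)).coeff j = 0 := fun j hj => by
      rw [hc, Nat.choose_eq_zero_of_lt (by omega)]; simp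
    cases M with
    | zero =>
      rw [show p * 0 + m0 = m0 by simp, coeff_low p m0 _ hm, coeff_low p m0 _ hm, hc, hc]
      simp only [Nat.choose_zero_right]
      push_cast; ring
    | succ M =>
      rw [coeff_high p m0 hm _ hu1, coeff_high p m0 hm _ hu2, hc, hc, hc, hc,
        Nat.choose_eq_zero_of_lt (show n0 < m0 + p by omega)]
      have a1 : ((N : R) + 1) * (N.choose M : R) = ((N + 1).choose (M + 1) : R) * ((M : R) + 1) := by
        exact_mod_cast congrArg (Nat.cast : ℕ → R) (Nat.add_one_mul_choose_eq N M)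
      have a2 : ((N + 1).choose (M + 1) : R) = (N.choose M : R) + (N.choose (M + 1) : R) := by
        exact_mod_cast congrArg (Nat.cast : ℕ → R) (Nat.choose_succ_succ' N M)
      push_cast
      linear_combination (((n0 + p).choose (m0 + p) : R) - ((n0 + p).choose m0 : R)) * a1
        - (((N : R) + 1) * ((n0 + p).choose m0 : R)) * a2

end

theorem dvd_choose_sub1 (p : ℕ) (hp : p.Prime) (n0 m0 : ℕ) (hn : n0 < p) (hm : m0 < p) :
    (n0 + p).choose m0 ≡ n0.choose m0 [MOD p] := by
  have := Fact.mk hp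
  have h := Choose.choose_modEq_choose_mod_mul_choose_div_nat (n := n0 + p) (k := m0) (p := p)
  rwa [Nat.add_mod_right, Nat.mod_eq_of_lt hn, Nat.mod_eq_of_lt hm, Nat.div_eq_of_lt hm,
    Nat.choose_zero_right, mul_one] at h

theorem dvd_choose_sub2 (p : ℕ) (hp : p.Prime) (n0 m0 : ℕ) (hn : n0 < p) (hm : m0 < p) :
    (n0 + p).choose (m0 + p) ≡ n0.choose m0 [MOD p] := by
  have := Fact.mk hp
  have h := Choose.choose_modEq_choose_mod_mul_choose_div_nat (n := n0 + p) (k := m0 + p) (p := p)
  rwa [Nat.add_mod_right, Nat.add_mod_right, Nat.mod_eq_of_lt hn, Nat.mod_eq_of_lt hm,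
    Nat.add_div_right _ hp.pos, Nat.add_div_right _ hp.pos, Nat.div_eq_of_lt hm, Nat.div_eq_of_lt hn,
    Nat.choose_self, mul_one] at h

/-- the factor depends on the higher parts only through their last digits -/
theorem lucas_dig {R : Type} [CommRing R] (p : ℕ) (hp : p.Prime) (h2 : (p : R) * p = 0) (x y : ℕ) :
    (x.choose y : R) = ((x / p).choose (y / p) : R) *
      (((x % p).choose (y % p) : R) + ((x / p % p : ℕ) : R) * ((x % p + p).choose (y % p) : R)
        + ((y / p % p : ℕ) : R) * ((x % p + p).choose (y % p + p) : R)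
        - ((x / p % p : ℕ) : R) * ((x % p).choose (y % p) : R)
        - ((y / p % p : ℕ) : R) * ((x % p + p).choose (y % p) : R)) := by
  have hn := Nat.mod_lt x hp.pos
  have hm := Nat.mod_lt y hp.pos
  have h := lucas_sq p hp h2 _ _ hn hm (x / p) (y / p)
  rw [Nat.div_add_mod, Nat.div_add_mod] at h
  obtain ⟨u, hu⟩ := (dvd_choose_sub1 p hp _ _ hn hm).dvd
  obtain ⟨v, hv⟩ := (dvd_choose_sub2 p hp _ _ hn hm).dvd
  have hu' := congrArg (Int.cast : ℤ → R) hu
  have hv' := congrArg (Int.cast : ℤ → R) hv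
  push_cast at hu' hv'
  have hx : ((x / p : ℕ) : R) = p * ((x / p / p : ℕ) : R) + ((x / p % p : ℕ) : R) := by
    exact_mod_cast congrArg (Nat.cast : ℕ → R) (Nat.div_add_mod (x / p) p).symm
  have hy : ((y / p : ℕ) : R) = p * ((y / p / p : ℕ) : R) + ((y / p % p : ℕ) : R) := by
    exact_mod_cast congrArg (Nat.cast : ℕ → R) (Nat.div_add_mod (y / p) p).symm
  rw [h, hx, hy]
  congr 1
  linear_combination (-(p : R) * ((x / p / p : ℕ) : R) + p * ((y / p / p : ℕ) : R)) * hu'
    - ((p : R) * ((y / p / p : ℕ) : R)) * hv'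
    + (-(u : R) * ((x / p / p : ℕ) : R) + u * ((y / p / p : ℕ) : R) - v * ((y / p / p : ℕ) : R)) * h2

end Pool.Agent.P.MP_111ca2_co
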