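import Pool.Agent.P.MP_111ca2_co.PrB

/-! Discrete logarithm and the characters of order dividing `n`. -/

namespace Pool.Agent.P.MP_111ca2_co.PR

open Finset

theorem pra1_ind (K : Type) [Field K] [Fintype K] {n k : ℕ} [NeZero n] (hk : 0 < k)
    (hq : Fintype.card K = n * k + 1) :
    ∃ ind : K → ZMod n, (∀ x y, x ≠ 0 → y ≠ 0 → ind (x * y) = ind x + ind y) ∧
      (∀ x, x ≠ 0 → (ind x = 0 ↔ x ^ k = 1)) ∧ ∃ x, x ≠ 0 ∧ ind x = 1 := by
  classical
  obtain ⟨g, hg⟩ := IsCyclic.exists_generator (α := Kˣ)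
  have ho : orderOf g = n * k := by
    rw [orderOf_eq_card_of_forall_mem_zpowers hg, Nat.card_eq_fintype_card, Fintype.card_units, hq,
      Nat.add_sub_cancel]
  have hex : ∀ x : K, ∃ i : ℕ, x ≠ 0 → ((g ^ i : Kˣ) : K) = x := by
    intro x
    by_cases hx : x = 0
    · exact ⟨0, fun h => absurd hx h⟩
    · obtain ⟨i, hi⟩ := (mem_powers_iff_mem_zpowers.2 (hg (Units.mk0 x hx)) :
        Units.mk0 x hx ∈ Submonoid.powers g)
      exact ⟨i, fun _ => by
        have : g ^ i = Units.mk0 x hx := hi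
        rw [this, Units.val_mk0]⟩
  choose l hl using hex
  have key : ∀ i j : ℕ, ((g ^ i : Kˣ) : K) = ((g ^ j : Kˣ) : K) → (i : ZMod n) = (j : ZMod n) := by
    intro i j h
    have h1 : g ^ i = g ^ j := Units.ext h
    rw [pow_eq_pow_iff_modEq, ho] at h1
    exact (ZMod.natCast_eq_natCast_iff i j n).2 (h1.of_mul_right k)
  refine ⟨fun x => (l x : ZMod n), ?_, ?_, ?_⟩
  · intro x y hx hy
    have h := key (l (x * y)) (l x + l y)
      (by rw [hl _ (mul_ne_zero hx hy), pow_add, Units.val_mul, hl x hx, hl y hy])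
    simpa using h
  · intro x hx
    have e : x ^ k = ((g ^ (l x * k) : Kˣ) : K) := by
      rw [pow_mul, Units.val_pow_eq_pow_val (g ^ l x), hl x hx]
    rw [e, Units.val_eq_one, ← orderOf_dvd_iff_pow_eq_one, ho, Nat.mul_dvd_mul_iff_right hk]
    exact ZMod.natCast_eq_zero_iff _ _
  · refine ⟨g, g.ne_zero, ?_⟩
    have h := key (l g) 1 (by rw [hl _ g.ne_zero, pow_one])
    simpa using h

theorem exists_CS (K : Type) [Field K] [Fintype K] {n k : ℕ} [NeZero n] (hk : 0 < k)
    (hq : Fintype.card K = n * k + 1) : Nonempty (CS K n k) := by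
  classical
  obtain ⟨ind, h1, h2, h3⟩ := pra1_ind K hk hq
  have h0 : ind 1 = 0 := (h2 1 one_ne_zero).2 (one_pow k)
  let X : ZMod n → MulChar K ℂ := fun a =>
    { toFun := fun x => if x = 0 then 0 else ZMod.stdAddChar (a * ind x)
      map_one' := by simp [h0]
      map_mul' := by
        intro x y
        by_cases hx : x = 0
        · simp [hx]
        by_cases hy : y = 0
        · simp [hy]
        rw [if_neg (mul_ne_zero hx hy), if_neg hx, if_neg hy, h1 x y hx hy, mul_add,
          AddChar.map_add_eq_mul]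
      map_nonunit' := by
        intro x hx
        have : x = 0 := by simpa using hx
        simp [this] }
  exact ⟨⟨ind, X, h1, h2, h3, fun a x hx => if_neg hx⟩⟩

namespace CS

variable {K : Type} [Field K] {n k : ℕ} [NeZero n] (C : CS K n k)

theorem X_add (a b : ZMod n) : C.X (a + b) = C.X a * C.X b := by
  refine MulChar.ext fun x => ?_
  rw [MulChar.mul_apply, C.X_apply _ _ x.ne_zero, C.X_apply _ _ x.ne_zero,
    C.X_apply _ _ x.ne_zero, add_mul, AddChar.map_add_eq_mul]

theorem X_zero : C.X 0 = 1 := by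
  refine MulChar.ext fun x => ?_
  rw [C.X_apply _ _ x.ne_zero, zero_mul, AddChar.map_zero_eq_one, MulChar.one_apply_coe]

theorem X_neg (a : ZMod n) : C.X (-a) = (C.X a)⁻¹ := by
  refine eq_inv_of_mul_eq_one_left ?_
  rw [← C.X_add, neg_add_cancel, C.X_zero]

theorem X_ne_one {a : ZMod n} (ha : a ≠ 0) : C.X a ≠ 1 := by
  intro h
  obtain ⟨x, hx, h1⟩ := C.ind_one
  have e := C.X_apply a x hx
  rw [h, h1, mul_one, MulChar.one_apply (Ne.isUnit hx)] at e
  exact ha (ZMod.injective_stdAddChar (by rw [← e, AddChar.map_zero_eq_one]))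

theorem X_of_pow (a : ZMod n) {d : K} (hd : d ≠ 0) (h : d ^ k = 1) : C.X a d = 1 := by
  rw [C.X_apply a d hd, (C.ind_zero d hd).2 h, mul_zero, AddChar.map_zero_eq_one]

theorem sum_X [DecidableEq K] {x : K} (hx : x ≠ 0) :
    ∑ a, C.X a x = if x ^ k = 1 then (n : ℂ) else 0 := by
  rw [sum_congr rfl (fun a _ => C.X_apply a x hx),
    AddChar.sum_mulShift (C.ind x) (ZMod.isPrimitive_stdAddChar n), ZMod.card]
  by_cases h : x ^ k = 1
  · rw [if_pos h, if_pos ((C.ind_zero x hx).2 h)]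
  · rw [if_neg h, if_neg (fun h' => h ((C.ind_zero x hx).1 h')), Nat.cast_zero]

theorem X_one_neg (h2 : (2 : K) ≠ 0) (hk : Odd k) : C.X 1 (-1) = -1 := by
  have hm : (-1 : K) ≠ 0 := neg_ne_zero.2 one_ne_zero
  have hsq : C.X 1 (-1) * C.X 1 (-1) = 1 := by
    rw [← map_mul, neg_mul_neg, one_mul, map_one]
  rcases mul_self_eq_one_iff.1 hsq with h | h
  · exfalso
    rw [C.X_apply 1 _ hm, one_mul] at h
    have h0 : C.ind (-1) = 0 := ZMod.injective_stdAddChar (by rw [h, AddChar.map_zero_eq_one])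
    have h1 := (C.ind_zero _ hm).1 h0
    rw [hk.neg_one_pow] at h1
    exact h2 (by linear_combination -h1)
  · exact h

end CS

end Pool.Agent.P.MP_111ca2_co.PR
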