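import Pool.Agent.P.MP_111ca2_co.PrA1

/-! The duplication formula for Gauss sums. -/

namespace Pool.Agent.P.MP_111ca2_co.PR

open Finset

variable {K : Type} [Field K] [Fintype K] [DecidableEq K]

omit [Fintype K] [DecidableEq K] in
theorem pra2_sq {ρ : MulChar K ℂ} (h : ρ * ρ = 1) {v : K} (hv : v ≠ 0) (hs : IsSquare v) :
    ρ v = 1 := by
  obtain ⟨w, rfl⟩ := hs
  have hw : w ≠ 0 := by
    rintro rfl
    exact hv (mul_zero _)
  have h1 : (ρ * ρ) w = 1 := by
    rw [h]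
    exact MulChar.one_apply (Ne.isUnit hw)
  rw [map_mul, ← MulChar.mul_apply]
  exact h1

theorem pra2_rho {ρ : MulChar K ℂ} (h : ρ * ρ = 1) (h1 : ρ ≠ 1) (v : K) :
    ρ v = ((quadraticChar K v : ℤ) : ℂ) := by
  by_cases hv : v = 0
  · subst hv
    rw [MulChar.map_zero, MulChar.map_zero, Int.cast_zero]
  by_cases hs : IsSquare v
  · rw [pra2_sq h hv hs, (quadraticChar_one_iff_isSquare hv).2 hs]
    simp
  · obtain ⟨y, hy⟩ := MulChar.ne_one_iff.1 h1
    have hy0 : (y : K) ≠ 0 := y.ne_zero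
    have hys : ¬ IsSquare (y : K) := fun hh => hy (pra2_sq h hy0 hh)
    have hyy : ρ y * ρ y = 1 := by
      rw [← map_mul]
      exact pra2_sq h (mul_ne_zero hy0 hy0) ⟨y, rfl⟩
    have hym : ρ y = -1 := by
      rcases mul_self_eq_one_iff.1 hyy with h' | h'
      · exact absurd h' hy
      · exact h'
    have hq1 := quadraticChar_neg_one_iff_not_isSquare.2 hs
    have hq2 := quadraticChar_neg_one_iff_not_isSquare.2 hys
    have hvy : IsSquare (v * y) := by
      rw [← quadraticChar_one_iff_isSquare (mul_ne_zero hv hy0), map_mul, hq1, hq2]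
      norm_num
    have h3 := pra2_sq h (mul_ne_zero hv hy0) hvy
    rw [map_mul, hym] at h3
    rw [hq1]
    push_cast
    linear_combination -h3

theorem pra2_sum (h2 : (2 : K) ≠ 0) (f : K → ℂ) :
    ∑ y, f (y ^ 2) = ∑ v, (((quadraticChar K v : ℤ) : ℂ) + 1) * f v := by
  have hF : ringChar K ≠ 2 := by
    intro hc
    apply h2
    have := ringChar.Nat.cast_ringChar (R := K)
    rw [hc] at this
    exact_mod_cast this
  rw [← sum_fiberwise (s := univ) (g := fun y : K => y ^ 2)]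
  refine sum_congr rfl fun v _ => ?_
  have hc := quadraticChar_card_sqrts hF v
  have h1 : ∑ i ∈ univ.filter (fun y : K => y ^ 2 = v), f (i ^ 2) =
      ∑ i ∈ univ.filter (fun y : K => y ^ 2 = v), f v :=
    sum_congr rfl fun i hi => by rw [(mem_filter.1 hi).2]
  rw [h1, sum_const, nsmul_eq_mul]
  congr 1
  have h3 : (univ.filter (fun y : K => y ^ 2 = v)) = {x : K | x ^ 2 = v}.toFinset := by
    ext x
    simp
  rw [h3]
  exact_mod_cast congrArg (fun z : ℤ => (z : ℂ)) hc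

theorem pra2_jac (h2 : (2 : K) ≠ 0) {χ ρ : MulChar K ℂ} (hχ : χ ≠ 1) (h : ρ * ρ = 1)
    (h1 : ρ ≠ 1) : jacobiSum χ χ = χ⁻¹ 4 * jacobiSum ρ χ := by
  have h4 : (4 : K) ≠ 0 := by
    have : (4 : K) = 2 * 2 := by norm_num
    rw [this]
    exact mul_ne_zero h2 h2
  let e : K ≃ K :=
    { toFun := fun y => (1 + y) / 2
      invFun := fun x => 2 * x - 1
      left_inv := fun y => by field_simp; ring
      right_inv := fun x => by field_simp; ring }
  have e1 : jacobiSum χ χ = ∑ y : K, χ⁻¹ 4 * χ (1 - y ^ 2) := by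
    unfold jacobiSum
    rw [← Equiv.sum_comp e]
    refine sum_congr rfl fun y _ => ?_
    rw [MulChar.inv_apply', ← map_mul, ← map_mul]
    congr 1
    show (1 + y) / 2 * (1 - (1 + y) / 2) = 4⁻¹ * (1 - y ^ 2)
    have : (4 : K) = 2 * 2 := by norm_num
    rw [this]
    field_simp
    ring
  rw [e1, ← mul_sum, pra2_sum h2 (fun v => χ (1 - v))]
  congr 1
  have e2 : ∑ v : K, χ (1 - v) = 0 := by
    rw [← MulChar.sum_eq_zero_of_ne_one hχ]
    exact Equiv.sum_comp (Equiv.subLeft (1 : K)) (fun v => χ v)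
  unfold jacobiSum
  simp only [add_mul, one_mul, sum_add_distrib, e2, add_zero]
  exact sum_congr rfl fun v _ => by rw [pra2_rho h h1 v]

theorem gauss_dup {m k : ℕ} [NeZero m] (C : CS K (2 * m) k) (h2 : (2 : K) ≠ 0)
    {ψ : AddChar K ℂ} (hψ : ψ.IsPrimitive) (a : ZMod (2 * m)) :
    gaussSum (C.X a) ψ * gaussSum (C.X (a + (m : ZMod (2 * m)))) ψ =
      C.X (-a) 4 * gaussSum (C.X (a + a)) ψ * gaussSum (C.X (m : ZMod (2 * m))) ψ := by
  have h4e : (4 : K) = 2 * 2 := by norm_num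
  have h4 : (4 : K) ≠ 0 := by
    rw [h4e]
    exact mul_ne_zero h2 h2
  have hρ : C.X (m : ZMod (2 * m)) * C.X (m : ZMod (2 * m)) = 1 := by
    rw [← C.X_add, m_add_m, C.X_zero]
  have hρ1 : C.X (m : ZMod (2 * m)) ≠ 1 := C.X_ne_one m_ne
  by_cases ha0 : a = 0
  · subst ha0
    rw [neg_zero, add_zero, zero_add, C.X_zero, MulChar.one_apply (Ne.isUnit h4), one_mul]
  by_cases ham : a = m
  · subst ham
    rw [neg_m, m_add_m, pra2_sq hρ h4 ⟨2, h4e⟩, one_mul, mul_comm]
  have haa : a + a ≠ 0 := fun hh => by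
    rcases (add_self_eq_zero a).1 hh with h' | h'
    · exact ha0 h'
    · exact ham h'
  have ham' : (m : ZMod (2 * m)) + a ≠ 0 := fun hh => by
    apply ham
    have := neg_eq_of_add_eq_zero_right hh
    rw [neg_m] at this
    exact this.symm
  have hχ : C.X a ≠ 1 := C.X_ne_one ha0
  have j1 := jacobiSum_mul_nontrivial (χ := C.X a) (φ := C.X a)
    (by rw [← C.X_add]; exact C.X_ne_one haa) ψ
  have j2 := jacobiSum_mul_nontrivial (χ := C.X (m : ZMod (2 * m))) (φ := C.X a)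
    (by rw [← C.X_add]; exact C.X_ne_one ham') ψ
  have j3 := pra2_jac h2 hχ hρ hρ1
  have hg : gaussSum (C.X a) ψ ≠ 0 :=
    gaussSum_ne_zero_of_nontrivial (Nat.cast_ne_zero.2 Fintype.card_ne_zero) hχ hψ
  rw [← C.X_add] at j1 j2
  rw [add_comm (m : ZMod (2 * m)) a] at j2
  rw [C.X_neg]
  apply mul_left_cancel₀ hg
  rw [j3] at j1
  linear_combination (-gaussSum (C.X (a + (m : ZMod (2 * m)))) ψ) * j1 +
    ((C.X a)⁻¹ 4 * gaussSum (C.X (a + a)) ψ) * j2

end Pool.Agent.P.MP_111ca2_co.PR
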