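import Mathlib

/-! Counting, parity and congruences for multiplicative subgroups that are difference sets
(the files DS1 and DS2 of this folder, repeated in a namespace of their own). -/

namespace Pool.Agent.P.MP_111ca2_co.PR

open Finset

noncomputable section

variable {K : Type} [Field K] [Fintype K] [DecidableEq K]

def DD (K : Type) [Field K] [Fintype K] [DecidableEq K] (k : ℕ) : Finset K :=
  univ.filter fun x => x ^ k = 1

def rr (k : ℕ) (g : K) : ℕ := ((DD K k ×ˢ DD K k).filter fun x => x.1 - x.2 = g).card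

theorem mem_DD {k : ℕ} {x : K} : x ∈ DD K k ↔ x ^ k = 1 := by simp [DD]

theorem ne_zero_of_mem_DD {k : ℕ} (hk : 0 < k) {x : K} (h : x ∈ DD K k) : x ≠ 0 := by
  rintro rfl
  rw [mem_DD, zero_pow hk.ne'] at h
  exact zero_ne_one h

omit [DecidableEq K] in
theorem exists_gen (K : Type) [Field K] [Fintype K] :
    ∃ g : K, IsPrimitiveRoot g (Fintype.card K - 1) := by
  classical
  obtain ⟨g, hg⟩ := IsCyclic.exists_ofOrder_eq_natCard (α := Kˣ)
  refine ⟨g, IsPrimitiveRoot.coe_units_iff.2 ?_⟩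
  rw [← Fintype.card_units, ← Nat.card_eq_fintype_card, ← hg]
  exact IsPrimitiveRoot.orderOf g

theorem card_DD {n k : ℕ} (hk : 0 < k) (hn : 0 < n) {g : K} (hg : IsPrimitiveRoot g (n * k)) :
    (DD K k).card = k := by
  have h := (hg.pow (Nat.mul_pos hn hk) rfl).card_nthRootsFinset
  rw [← h]
  congr 1
  ext x
  rw [mem_DD, h, Polynomial.mem_nthRootsFinset hk]

theorem sum_mul_DD {R : Type} [AddCommMonoid R] {k : ℕ} (hk : 0 < k) {d : K} (hd : d ∈ DD K k)
    (F : K → R) : ∑ x ∈ DD K k, F (d * x) = ∑ x ∈ DD K k, F x := by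
  have h0 := ne_zero_of_mem_DD hk hd
  refine sum_nbij' (fun x => d * x) (fun x => d⁻¹ * x) ?_ ?_ ?_ ?_ ?_
  · intro x hx
    rw [mem_DD] at *
    rw [mul_pow, hd, hx, one_mul]
  · intro x hx
    rw [mem_DD] at *
    rw [mul_pow, inv_pow, hd, hx, inv_one, one_mul]
  · intro x _; field_simp
  · intro x _; field_simp
  · intro x _; rfl

theorem main_sum {R : Type} [AddCommMonoid R] {k lam : ℕ} (hk : 0 < k)
    (hl : ∀ g : K, g ≠ 0 → rr k g = lam) (φ : K → R) (h0 : φ 0 = 0)
    (hi : ∀ d ∈ DD K k, ∀ y, φ (d * y) = φ y) :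
    (DD K k).card • ∑ x ∈ DD K k, φ (x - 1) = lam • ∑ g, φ g := by
  have h1 : ∑ x ∈ DD K k ×ˢ DD K k, φ (x.1 - x.2) = lam • ∑ g, φ g := by
    rw [← sum_fiberwise (DD K k ×ˢ DD K k) (fun x => x.1 - x.2), smul_sum]
    refine sum_congr rfl fun g _ => ?_
    rw [sum_congr rfl (g := fun _ => φ g) (fun x hx => by rw [(mem_filter.1 hx).2]), sum_const]
    by_cases hg : g = 0
    · simp [hg, h0]
    · rw [← hl g hg, rr]
  rw [← h1, sum_product_right, ← sum_const]
  refine sum_congr rfl fun d hd => ?_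
  rw [← sum_mul_DD hk hd (fun x => φ (x - d))]
  refine sum_congr rfl fun x _ => ?_
  rw [← hi d hd (x - 1), mul_sub, mul_one]

theorem count_eq {n k lam : ℕ} (hk : 0 < k) (hn : 0 < n) (hq : Fintype.card K = n * k + 1) {g : K}
    (hg : IsPrimitiveRoot g (n * k)) (hl : ∀ g : K, g ≠ 0 → rr k g = lam) : k = lam * n + 1 := by
  have h := main_sum hk hl (fun y : K => if y = 0 then (0 : ℕ) else 1) (by simp)
    (fun d hd y => by simp [ne_zero_of_mem_DD hk hd])
  have h1 : (1 : K) ∈ DD K k := mem_DD.2 (one_pow k)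
  have e1 : ∑ x ∈ DD K k, (if x - 1 = 0 then (0 : ℕ) else 1) = k - 1 := by
    rw [← add_sum_erase _ _ h1, sum_congr rfl (g := fun _ => 1)
      (fun x hx => if_neg (sub_ne_zero.2 (mem_erase.1 hx).1))]
    simp [card_erase_of_mem h1, card_DD hk hn hg]
  have e2 : ∑ x : K, (if x = 0 then (0 : ℕ) else 1) = n * k := by
    rw [← add_sum_erase _ _ (mem_univ (0 : K)), sum_congr rfl (g := fun _ => 1)
      (fun x hx => if_neg (mem_erase.1 hx).1)]
    simp [hq]
  rw [e1, e2, card_DD hk hn hg, smul_eq_mul, smul_eq_mul] at h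
  have : k - 1 = lam * n := Nat.eq_of_mul_eq_mul_left hk (by rw [h]; ring)
  omega

theorem odd_k {n k lam : ℕ} (hk : 0 < k) (hn : 2 ≤ n) (hq : Fintype.card K = n * k + 1) {g : K}
    (hg : IsPrimitiveRoot g (n * k)) (h2 : (2 : K) ≠ 0) (hl : ∀ g : K, g ≠ 0 → rr k g = lam) :
    Odd k := by
  by_contra hc
  rw [Nat.not_odd_iff_even] at hc
  have hc1 := count_eq hk (by omega) hq hg hl
  have hg0 : g ≠ 0 := hg.ne_zero (by positivity)
  have hgD : g ∉ DD K k := by
    rw [mem_DD]
    intro h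
    have := Nat.le_of_dvd hk (hg.dvd_of_pow_eq_one k h)
    nlinarith
  have hs : ∑ _x ∈ (DD K k ×ˢ DD K k).filter (fun x => x.1 - x.2 = 2 * g), (1 : ZMod 2) = 0 := by
    refine sum_involution (fun x _ => (-x.2, -x.1)) (fun _ _ => rfl) ?_ ?_ (fun x _ => by simp)
    · intro x hx _ he
      simp only [mem_filter, mem_product] at hx
      have a : -x.2 = x.1 := congrArg Prod.fst he
      have : x.1 = g := mul_left_cancel₀ h2 (by rw [← hx.2]; linear_combination (-1 : K) * a)
      exact hgD (this ▸ hx.1.1)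
    · intro x hx
      simp only [mem_filter, mem_product, mem_DD] at hx ⊢
      rw [hc.neg_pow, hc.neg_pow]
      exact ⟨⟨hx.1.2, hx.1.1⟩, by rw [← hx.2]; ring⟩
  rw [sum_const, nsmul_eq_mul, mul_one, ← rr, hl _ (mul_ne_zero h2 hg0),
    ZMod.natCast_eq_zero_iff_even] at hs
  have : Even (lam * n) := hs.mul_right n
  rw [hc1] at hc
  exact (Nat.even_add_one.1 hc) this

/-! ### the congruences -/

theorem sum_multiples {R : Type} [AddCommMonoid R] (S k : ℕ) (hk : 0 < k) (F : ℕ → R) :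
    ∑ j ∈ range (S * k + 1), (if k ∣ j then F j else 0) = ∑ t ∈ range (S + 1), F (t * k) := by
  rw [← sum_filter]
  symm
  refine sum_nbij (fun t => t * k) ?_ ?_ ?_ (fun _ _ => rfl)
  · intro t ht
    simp only [mem_filter, mem_range] at ht ⊢
    exact ⟨Nat.lt_succ_of_le (Nat.mul_le_mul_right k (Nat.le_of_lt_succ ht)), dvd_mul_left _ _⟩
  · intro a _ b _ h
    exact Nat.eq_of_mul_eq_mul_right hk h
  · intro j hj
    simp only [coe_filter, mem_range, Set.mem_ofPred_eq] at hj
    obtain ⟨h, t, rfl⟩ := hj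
    refine ⟨t, ?_, mul_comm _ _⟩
    simp only [coe_range, Set.mem_Iio]
    by_contra hc
    have : (S + 1) * k ≤ t * k := Nat.mul_le_mul_right k (not_lt.1 hc)
    nlinarith

variable (p : ℕ) [Fact p.Prime] [CharP K p]

omit [Fintype K] [DecidableEq K] [CharP K p] in
theorem teich_eq_one {x : K} (h : WittVector.teichmuller p x = 1) : x = 1 := by
  have := congrArg (fun z => WittVector.coeff z 0) h
  simpa using this

omit [Fintype K] [DecidableEq K] in
theorem int_dvd_of_witt (j : ℕ) : ∀ m : ℤ, (p : WittVector p K) ^ j ∣ (m : WittVector p K) →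
    (p : ℤ) ^ j ∣ m := by
  induction j with
  | zero => intro m _; simp
  | succ j ih =>
    intro m hm
    have h1 : (p : ℤ) ∣ m := by
      have := map_dvd (WittVector.constantCoeff : WittVector p K →+* K)
        ((dvd_pow_self _ j.succ_ne_zero).trans hm)
      rw [map_natCast, map_intCast, CharP.cast_eq_zero, zero_dvd_iff] at this
      exact (CharP.intCast_eq_zero_iff K p m).1 this
    obtain ⟨m, rfl⟩ := h1
    rw [pow_succ'] at hm ⊢
    push_cast at hm
    exact mul_dvd_mul_left _ (ih m ((mul_dvd_mul_iff_left (WittVector.p_nonzero p K)).1 hm))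

theorem pow_sum_DD {n k : ℕ} (hk : 0 < k) (hn : 0 < n) {g : K} (hg : IsPrimitiveRoot g (n * k)) (j : ℕ) :
    ∑ x ∈ DD K k, WittVector.teichmuller p x ^ j = if k ∣ j then (k : WittVector p K) else 0 := by
  split_ifs with h
  · obtain ⟨t, rfl⟩ := h
    rw [sum_congr rfl (g := fun _ => 1) (fun x hx => by
      rw [pow_mul, ← map_pow, mem_DD.1 hx, map_one, one_pow])]
    simp [card_DD hk hn hg]
  · have hd : g ^ n ∈ DD K k := mem_DD.2 (by rw [← pow_mul, hg.pow_eq_one])
    have := sum_mul_DD hk hd (fun x => WittVector.teichmuller p x ^ j)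
    simp only [map_mul, mul_pow, ← mul_sum] at this
    by_contra hc
    have h1 := teich_eq_one p (x := (g ^ n) ^ j) (by
      rw [map_pow]; exact mul_right_cancel₀ hc (this.trans (one_mul _).symm))
    exact h ((hg.pow (Nat.mul_pos hn hk) rfl).dvd_of_pow_eq_one j h1)

/-- the alternating sum of binomial coefficients -/
def altS (k S : ℕ) : ℤ := ∑ t ∈ range (S + 1), (-1) ^ t * ((S * k).choose (t * k) : ℤ)

theorem expand_sum {n k : ℕ} (hk : Odd k) (hn : 0 < n) {g : K} (hg : IsPrimitiveRoot g (n * k)) (S : ℕ)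
    (he : Even S) : ∑ x ∈ DD K k, (WittVector.teichmuller p x - 1) ^ (S * k) =
      (k : WittVector p K) * ((altS k S : ℤ) : WittVector p K) := by
  have hk0 := hk.pos
  have h1 : ∀ x : K, (WittVector.teichmuller p x - 1) ^ (S * k) = ∑ m ∈ range (S * k + 1),
      WittVector.teichmuller p x ^ m * ((-1) ^ m * ((S * k).choose m : WittVector p K)) := by
    intro x
    rw [sub_pow]
    refine sum_congr rfl fun m _ => ?_
    rw [pow_add, (he.mul_right k).neg_one_pow, one_pow]
    ring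
  rw [sum_congr rfl fun x _ => h1 x, sum_comm]
  have h2 : ∀ m ∈ range (S * k + 1), ∑ x ∈ DD K k,
      WittVector.teichmuller p x ^ m * ((-1) ^ m * ((S * k).choose m : WittVector p K)) =
      if k ∣ m then (k : WittVector p K) * ((-1) ^ m * ((S * k).choose m : WittVector p K)) else 0 := by
    intro m _
    rw [← sum_mul, pow_sum_DD p hk0 hn hg, ite_mul, zero_mul]
  rw [sum_congr rfl h2, sum_multiples _ _ hk0, altS, Int.cast_sum, mul_sum]
  refine sum_congr rfl fun t _ => ?_
  rw [mul_comm t k, pow_mul, hk.neg_one_pow, Int.cast_mul, Int.cast_pow, Int.cast_neg, Int.cast_one,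
    Int.cast_natCast]

theorem cong_alt {n k lam : ℕ} (hk : Odd k) (hn : 0 < n) (hq : Fintype.card K = n * k + 1) {g : K}
    (hg : IsPrimitiveRoot g (n * k)) (hl : ∀ g : K, g ≠ 0 → rr k g = lam) (j s : ℕ)
    (he : Even (p ^ j * s)) (hs : ¬ n ∣ s) : (p : ℤ) ^ (j + 1) ∣ altS k (p ^ j * s) := by
  have hk0 := hk.pos
  have hp : p.Prime := Fact.out
  have hs0 : 0 < s := Nat.pos_of_ne_zero (by rintro rfl; exact hs (dvd_zero n))
  have hpq : p ∣ n * k + 1 := by rw [← hq]; exact (CharP.cast_eq_zero_iff K p _).1 (by simp)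
  have hpk : ¬ p ∣ k := fun h =>
    hp.one_lt.ne' (Nat.dvd_one.1 ((Nat.dvd_add_right (h.mul_left n)).1 hpq))
  set w : K →* WittVector p K := WittVector.teichmuller p with hw
  have hg0 : g ≠ 0 := hg.ne_zero (by positivity)
  have z1 : ∑ y : K, w y ^ (k * s) = 0 := by
    have := Equiv.sum_comp (Equiv.mulLeft₀ g hg0) (fun y => w y ^ (k * s))
    simp only [Equiv.mulLeft₀_apply, map_mul, mul_pow, ← mul_sum] at this
    by_contra hc
    have h1 := teich_eq_one p (x := g ^ (k * s)) (by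
      rw [map_pow]; exact mul_right_cancel₀ hc (this.trans (one_mul _).symm))
    have := hg.dvd_of_pow_eq_one _ h1
    rw [mul_comm n k] at this
    exact hs (Nat.dvd_of_mul_dvd_mul_left hk0 this)
  have z1' : ∑ y : K, w y ^ (p ^ j * s * k) = 0 := by
    rw [← z1, ← Equiv.sum_comp (iterateFrobeniusEquiv K p j).toEquiv (fun y => w y ^ (k * s))]
    refine sum_congr rfl fun y _ => ?_
    show _ = w (y ^ p ^ j) ^ (k * s)
    rw [map_pow, ← pow_mul]; congr 1; ring
  have z2 := main_sum hk0 hl (fun y => w y ^ (p ^ j * s * k))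
    (by rw [hw, WittVector.teichmuller_zero, zero_pow (by have := hp.pos; positivity)])
    (fun d hd y => by rw [map_mul, mul_pow, mul_comm _ k, pow_mul, ← map_pow, mem_DD.1 hd]; simp)
  rw [z1', smul_zero, card_DD hk0 hn hg, nsmul_eq_mul] at z2
  have z3 : (p : WittVector p K) ^ (j + 1) ∣ ∑ x ∈ DD K k, (w x - 1) ^ (p ^ j * s * k) -
      ∑ x ∈ DD K k, w (x - 1) ^ (p ^ j * s * k) := by
    rw [← sum_sub_distrib]
    refine dvd_sum fun x _ => ?_
    have a : (p : WittVector p K) ∣ (w x - 1) - w (x - 1) := by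
      rw [← Ideal.mem_span_singleton, WittVector.mem_span_p_iff_coeff_zero_eq_zero]
      rw [← WittVector.constantCoeff_apply, map_sub, map_sub, map_one]
      simp only [WittVector.constantCoeff_apply, hw, WittVector.teichmuller_coeff_zero, sub_self]
    rw [mul_assoc, pow_mul (w x - 1), pow_mul (w (x - 1))]
    exact (dvd_sub_pow_of_dvd_sub a j).trans (sub_dvd_pow_sub_pow _ _ _)
  have z4 := expand_sum p hk hn hg _ he
  have z5 : (p : WittVector p K) ^ (j + 1) ∣ (((k : ℤ) * (k * altS k (p ^ j * s)) : ℤ) : WittVector p K) := by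
    have := z3.mul_left (k : WittVector p K)
    rw [mul_sub, z2, sub_zero, z4] at this
    push_cast
    exact this
  have hc : IsCoprime ((p : ℤ) ^ (j + 1)) (k : ℤ) :=
    (Nat.isCoprime_iff_coprime.2 ((Nat.Prime.coprime_iff_not_dvd hp).2 hpk)).pow_left
  exact hc.dvd_of_dvd_mul_left (hc.dvd_of_dvd_mul_left (int_dvd_of_witt p _ _ z5))

theorem altS_fold (k h : ℕ) : altS k (2 * (h + 1)) = 2 + ∑ t ∈ range (h + 1),
    (if 2 * (1 + t) = 2 * (h + 1) then 1 else 2) * (-1) ^ (1 + t) *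
      ((2 * (h + 1) * k).choose ((1 + t) * k) : ℤ) := by
  set F : ℕ → ℤ := fun t => (-1) ^ t * ((2 * (h + 1) * k).choose (t * k) : ℤ) with hF
  have hsym : ∀ t, t ≤ h → F (h + 1 + 1 + (h + 1 - 1 - t)) = F t := by
    intro t ht
    obtain ⟨u, rfl⟩ := Nat.exists_eq_add_of_le ht
    simp only [hF]
    rw [show t + u + 1 + 1 + (t + u + 1 - 1 - t) = t + 2 * (u + 1) by omega, pow_add, pow_mul,
      Nat.choose_symm_of_eq_add (show 2 * (t + u + 1) * k = (t + 2 * (u + 1)) * k + t * k by ring)]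
    ring
  have e1 : altS k (2 * (h + 1)) = ∑ t ∈ range (h + 1), F t + F (h + 1) + ∑ t ∈ range (h + 1), F t := by
    rw [altS, show 2 * (h + 1) + 1 = h + 1 + 1 + (h + 1) by ring, sum_range_add, sum_range_succ,
      ← sum_range_reflect (fun x => F (h + 1 + 1 + x))]
    congr 1
    exact sum_congr rfl fun t ht => hsym t (by have := mem_range.1 ht; omega)
  have e2 : ∑ t ∈ range h, (if 2 * (1 + t) = 2 * (h + 1) then 1 else 2) * (-1) ^ (1 + t) *
      ((2 * (h + 1) * k).choose ((1 + t) * k) : ℤ) = 2 * ∑ t ∈ range h, F (t + 1) := by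
    rw [mul_sum]
    refine sum_congr rfl fun t ht => ?_
    rw [if_neg (by have := mem_range.1 ht; omega), add_comm 1 t, mul_assoc]
  have e3 : F 0 = 1 := by simp [hF]
  rw [e1, sum_range_succ', sum_range_succ _ h, e2, if_pos (by ring), e3, add_comm 1 h]
  simp only [hF]
  ring

theorem two_case (k : ℕ) (hk : Odd k) (h1 : 1 < k) : ¬ ((2 : ℕ) : ℤ) ^ (1 + 1) ∣ altS k (2 ^ 1 * 1) := by
  intro h
  rw [show 2 ^ 1 * 1 = 2 * (0 + 1) by norm_num, altS_fold] at h
  obtain ⟨j, rfl⟩ := hk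
  have := Fact.mk Nat.prime_two
  have a := Choose.choose_modEq_choose_mod_mul_choose_div_nat (n := 4 * j + 1) (k := 2 * j) (p := 2)
  rw [show (4 * j + 1) % 2 = 1 by omega, show 2 * j % 2 = 0 by omega,
    show (4 * j + 1) / 2 = 2 * j by omega, show 2 * j / 2 = j by omega] at a
  have b : 2 ∣ (2 * j).choose j := Nat.two_dvd_centralBinom_of_one_le (by omega)
  obtain ⟨c, hc⟩ := (a.dvd_iff dvd_rfl).2 (b.mul_left _)
  have d : (2 * (2 * j + 1)).choose (2 * j + 1) = 2 * (2 * c) := by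
    rw [show 2 * (2 * j + 1) = 4 * j + 1 + 1 by ring, Nat.choose_succ_succ',
      Nat.choose_symm_of_eq_add (show 4 * j + 1 = 2 * j + 1 + 2 * j by ring), hc]
    ring
  simp only [zero_add, range_one, sum_singleton, add_zero, mul_one, one_mul, if_true, d] at h
  push_cast at h
  omega

/-- `-1` is not in a multiplicative subgroup that is a nontrivial difference set. -/
theorem neg_one_pow_ne {n k lam : ℕ} (hn : 2 ≤ n) (hk : 1 < k) (hq : Fintype.card K = n * k + 1)
    (hl : ∀ g : K, g ≠ 0 → rr k g = lam) : (2 : K) ≠ 0 ∧ Odd k := by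
  obtain ⟨γ, hγ⟩ := exists_gen K
  rw [hq, Nat.add_sub_cancel] at hγ
  have h2 : (2 : K) ≠ 0 := by
    intro h2
    have := Fact.mk Nat.prime_two
    have : CharP K 2 := (CharP.charP_iff_prime_eq_zero Nat.prime_two).2 (by exact_mod_cast h2)
    have hpq : 2 ∣ n * k + 1 := by rw [← hq]; exact (CharP.cast_eq_zero_iff K 2 _).1 (by simp)
    have hko : Odd k := by
      rcases Nat.even_or_odd k with h | h
      · have := (h.mul_left n).two_dvd
        omega
      · exact h
    exact two_case k hko hk (cong_alt 2 hko (by omega) hq hγ hl 1 1 (by norm_num)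
      (fun h => by have := Nat.le_of_dvd one_pos h; omega))
  exact ⟨h2, odd_k (by omega) hn hq hγ h2 hl⟩

omit [DecidableEq K] in
theorem pow_iff {n k : ℕ} (hn : 0 < n) (hk : 0 < k) (hq : Fintype.card K = n * k + 1) (x : K) :
    (∃ y : K, y ≠ 0 ∧ x = y ^ n) ↔ x ^ k = 1 := by
  obtain ⟨γ, hγ⟩ := exists_gen K
  have hk' : Fintype.card K - 1 = n * k := by omega
  rw [hk'] at hγ
  have : NeZero (n * k) := ⟨by positivity⟩
  constructor
  · rintro ⟨y, hy, rfl⟩
    rw [← pow_mul, ← hk', FiniteField.pow_card_sub_one_eq_one y hy]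
  · intro hx
    obtain ⟨m, _, rfl⟩ := hγ.eq_pow_of_pow_eq_one (ξ := x) (by rw [mul_comm, pow_mul, hx, one_pow])
    rw [← pow_mul, hγ.pow_eq_one_iff_dvd, Nat.mul_dvd_mul_iff_right (by omega)] at hx
    obtain ⟨t, rfl⟩ := hx
    exact ⟨γ ^ t, pow_ne_zero _ (hγ.ne_zero (NeZero.ne _)), by rw [← pow_mul, mul_comm]⟩

theorem ncard_eq_rr {n k : ℕ} (hn : 0 < n) (hk : 0 < k) (hq : Fintype.card K = n * k + 1) (g : K) :
    {x : K × K | (∃ y : K, y ≠ 0 ∧ x.1 = y ^ n) ∧ (∃ y : K, y ≠ 0 ∧ x.2 = y ^ n) ∧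
      x.1 - x.2 = g}.ncard = rr k g := by
  rw [rr, ← Set.ncard_coe_finset]
  congr 1
  ext x
  simp [pow_iff hn hk hq, mem_DD, and_assoc]

end

end Pool.Agent.P.MP_111ca2_co.PR
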