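import Pool.Agent.P.MP_111ca2_co.PrA1
import Pool.Agent.P.MP_111ca2_co.PrDS

/-! The quadratic equations for the Gauss sums of a difference set. -/

namespace Pool.Agent.P.MP_111ca2_co.PR

open Finset

variable {K : Type} [Field K] [Fintype K] [DecidableEq K]

omit [DecidableEq K] in
theorem pra3_term {n k : ℕ} [NeZero n] (C : CS K n k) (ψ : AddChar K ℂ) (u a : ZMod n) :
    C.X a (-1) * (gaussSum (C.X a) ψ * gaussSum (C.X (u - a)) ψ) =
      ∑ h : K, C.X a h * ∑ y : K, C.X u y * ψ (y * (1 - h)) := by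
  simp only [mul_sum]
  rw [sum_comm]
  simp only [gaussSum]
  rw [mul_sum, mul_sum]
  refine sum_congr rfl fun y _ => ?_
  by_cases hy : y = 0
  · subst hy
    simp [MulChar.map_zero]
  · have hy' : -y ≠ 0 := neg_ne_zero.2 hy
    rw [← Equiv.sum_comp (Equiv.mulLeft₀ (-y) hy') (fun x => C.X a x * ψ x), sum_mul, mul_sum]
    refine sum_congr rfl fun h _ => ?_
    have e1 : C.X u y = C.X a y * C.X (u - a) y := by
      rw [← MulChar.mul_apply, ← C.X_add, add_sub_cancel]
    have e2 : C.X a (-1) * C.X a (-y * h) = C.X a h * C.X a y := by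
      rw [← map_mul, ← map_mul]; congr 1; ring
    have e3 : ψ (y * (1 - h)) = ψ (-y * h) * ψ y := by
      rw [← AddChar.map_add_eq_mul]; congr 1; ring
    rw [Equiv.mulLeft₀_apply, e1, e3]
    linear_combination (ψ (-y * h) * C.X (u - a) y * ψ y) * e2

omit [DecidableEq K] in
theorem pra3_inner {n k : ℕ} [NeZero n] (C : CS K n k) (ψ : AddChar K ℂ) {u : ZMod n}
    (hu : u ≠ 0) (c : K) :
    ∑ y : K, C.X u y * ψ (y * c) = C.X (-u) c * gaussSum (C.X u) ψ := by
  by_cases hc : c = 0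
  · subst hc
    simp only [mul_zero, AddChar.map_zero_eq_one, mul_one, MulChar.map_zero, zero_mul]
    exact MulChar.sum_eq_zero_of_ne_one (C.X_ne_one hu)
  · have h := gaussSum_mulShift_eq (C.X u) ψ (Units.mk0 c hc)
    rw [C.X_neg]
    simp only [Units.val_mk0] at h
    rw [← h, gaussSum]
    refine sum_congr rfl fun y _ => ?_
    rw [AddChar.mulShift_apply, mul_comm c y]

theorem pra3_sum {n k lam : ℕ} [NeZero n] (C : CS K n k) (hk : 0 < k)
    (hl : ∀ g : K, g ≠ 0 → rr k g = lam) {u : ZMod n} (hu : u ≠ 0) :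
    ∑ h ∈ DD K k, C.X u (1 - h) = 0 := by
  have h := main_sum hk hl (fun y => C.X u y) (MulChar.map_zero _) (fun d hd y => by
    rw [map_mul, C.X_of_pow u (ne_zero_of_mem_DD hk hd) (mem_DD.1 hd), one_mul])
  rw [MulChar.sum_eq_zero_of_ne_one (C.X_ne_one hu), smul_zero, nsmul_eq_mul] at h
  have h1 : ((DD K k).card : ℂ) ≠ 0 := by
    exact_mod_cast (card_pos.2 ⟨1, mem_DD.2 (one_pow k)⟩).ne'
  have h2 := (mul_eq_zero.1 h).resolve_left h1
  calc ∑ h ∈ DD K k, C.X u (1 - h) = C.X u (-1) * ∑ h ∈ DD K k, C.X u (h - 1) := by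
        rw [mul_sum]
        refine sum_congr rfl fun h _ => ?_
        rw [← map_mul]; congr 1; ring
    _ = 0 := by rw [h2, mul_zero]

theorem gauss_eqn {n k lam : ℕ} [NeZero n] (C : CS K n k) (hk : 0 < k)
    (hq : Fintype.card K = n * k + 1) (hl : ∀ g : K, g ≠ 0 → rr k g = lam)
    (ψ : AddChar K ℂ) (u : ZMod n) (hu : u ≠ 0) :
    ∑ a, C.X a (-1) * (gaussSum (C.X a) ψ * gaussSum (C.X (u - a)) ψ) = 0 := by
  have _ := hq
  rw [sum_congr rfl fun a _ => pra3_term C ψ u a, sum_comm]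
  have e : ∀ h : K, ∑ a, C.X a h * ∑ y : K, C.X u y * ψ (y * (1 - h)) =
      if h ^ k = 1 then (n : ℂ) * gaussSum (C.X u) ψ * C.X (-u) (1 - h) else 0 := by
    intro h
    rw [← sum_mul, pra3_inner C ψ hu]
    by_cases h0 : h = 0
    · subst h0
      rw [if_neg (by rw [zero_pow hk.ne']; exact zero_ne_one)]
      simp [MulChar.map_zero]
    · rw [C.sum_X h0]
      split_ifs
      · ring
      · rw [zero_mul]
  rw [sum_congr rfl fun h _ => e h, ← sum_filter, ← mul_sum]
  exact mul_eq_zero_of_right _ (pra3_sum C hk hl (neg_ne_zero.2 hu))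

end Pool.Agent.P.MP_111ca2_co.PR
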