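import Pool.Agent.P.MP_111ca2_co.PrA2
import Pool.Agent.P.MP_111ca2_co.PrA3

/-! The complex system attached to a difference set. -/

namespace Pool.Agent.P.MP_111ca2_co.PR

open Finset

variable {K : Type} [Field K] [Fintype K] [DecidableEq K]

omit [DecidableEq K] in
theorem jac_int {n k : ℕ} [NeZero n] (C : CS K n k) (a b : ZMod n) :
    ∃ N : ZMod n → ℤ, (∀ j, |N j| ≤ Fintype.card K) ∧
      ∀ t, jacobiSum (C.X (t * a)) (C.X (t * b)) = ∑ j, (N j : ℂ) * ZMod.stdAddChar (t * j) := by
  classical
  let S : Finset K := univ.filter fun x => x ≠ 0 ∧ (1 - x) ≠ 0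
  let f : K → ZMod n := fun x => a * C.ind x + b * C.ind (1 - x)
  refine ⟨fun j => ((S.filter fun x => f x = j).card : ℤ), fun j => ?_, fun t => ?_⟩
  · rw [abs_of_nonneg (Int.natCast_nonneg _)]
    exact_mod_cast Finset.card_le_univ _
  · have h1 : jacobiSum (C.X (t * a)) (C.X (t * b)) = ∑ x ∈ S, ZMod.stdAddChar (t * f x) := by
      rw [jacobiSum, sum_filter]
      refine sum_congr rfl fun x _ => ?_
      split_ifs with hx
      · rw [C.X_apply _ _ hx.1, C.X_apply _ _ hx.2, ← AddChar.map_add_eq_mul]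
        congr 1
        simp only [f]
        ring
      · rcases not_and_or.1 hx with h | h
        · rw [not_not.1 h, MulChar.map_zero, zero_mul]
        · rw [not_not.1 h, MulChar.map_zero, mul_zero]
    rw [h1, ← sum_fiberwise S f]
    refine sum_congr rfl fun j _ => ?_
    rw [sum_congr rfl (g := fun _ => ZMod.stdAddChar (t * j))
      (fun x hx => by rw [(mem_filter.1 hx).2]), sum_const, nsmul_eq_mul]
    simp

theorem exists_act {m k lam : ℕ} [NeZero m] (h2 : (2 : K) ≠ 0) (hk : Odd k)
    (hq : Fintype.card K = 2 * m * k + 1) (hl : ∀ g : K, g ≠ 0 → rr k g = lam) :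
    Nonempty (Act m (Fintype.card K)) := by
  have hk0 : 0 < k := hk.pos
  obtain ⟨C⟩ := exists_CS K (n := 2 * m) hk0 hq
  set ψ : AddChar K ℂ := AddChar.FiniteField.primitiveChar_to_Complex K with hψdef
  have hψ : ψ.IsPrimitive := AddChar.FiniteField.primitiveChar_to_Complex_isPrimitive K
  have hψ1 : ψ ≠ 1 := by
    have := hψ (a := 1) one_ne_zero
    rwa [AddChar.mulShift_one] at this
  have hq0 : (Fintype.card K : ℂ) ≠ 0 := Nat.cast_ne_zero.2 Fintype.card_ne_zero
  have hg0 : gaussSum (C.X 0) ψ = -1 := by rw [C.X_zero, gaussSum_one_left hψ1]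
  have hgne : ∀ c, gaussSum (C.X c) ψ ≠ 0 := by
    intro c
    by_cases hc : c = 0
    · rw [hc, hg0]; norm_num
    · exact gaussSum_ne_zero_of_nontrivial hq0 (C.X_ne_one hc) hψ
  have hsq : ∀ a : ZMod (2 * m), C.X a (-1) * C.X a (-1) = 1 := by
    intro a
    rw [← map_mul]
    simp
  have hneg : ∀ a : ZMod (2 * m), C.X (-a) (-1) = C.X a (-1) := by
    intro a
    rw [C.X_neg, MulChar.inv_apply', inv_neg_one]
  let S : GS ℂ m :=
    { g := fun a => gaussSum (C.X a) ψ / 2
      s := fun a => C.X a (-1)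
      W := fun a => C.X (-a) 4
      τ := (Fintype.card K : ℂ) / 4
      τ0 := div_ne_zero hq0 (by norm_num)
      g0 := by rw [hg0]; ring
      s_add := fun a b => by rw [C.X_add, MulChar.mul_apply]
      s_one := C.X_one_neg h2 hk
      W_add := fun a b => by rw [neg_add, C.X_add, MulChar.mul_apply]
      W_m := by
        have h4 : (4 : K) = 2 * 2 := by norm_num
        rw [neg_m, h4, map_mul, ← MulChar.mul_apply, ← C.X_add, m_add_m, C.X_zero,
          MulChar.one_apply (Ne.isUnit h2)]
      rfx := fun a ha => by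
        have e1 := gaussSum_mul_gaussSum_eq_card (C.X_ne_one ha) hψ
        have e2 := mul_gaussSum_inv_eq_gaussSum (C.X (-a)) ψ
        rw [hneg] at e2
        rw [← C.X_neg] at e1
        rw [← e2, ← e1]
        ring
      dup := fun a => by
        have := gauss_dup C h2 hψ a
        linear_combination this / 4
      eqn := fun u hu => by
        have := gauss_eqn C hk0 hq hl ψ u hu
        have e : ∑ a, C.X a (-1) * (gaussSum (C.X a) ψ / 2 * (gaussSum (C.X (u - a)) ψ / 2)) =
            (∑ a, C.X a (-1) * (gaussSum (C.X a) ψ * gaussSum (C.X (u - a)) ψ)) / 4 := by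
          rw [sum_div]
          exact sum_congr rfl fun a _ => by ring
        rw [e, this, zero_div] }
  have hJ : ∀ a b, S.Jac a b = jacobiSum (C.X a) (C.X b) := by
    intro a b
    unfold GS.Jac GS.jj
    split_ifs with h1 h3
    · have e := jacobiSum_mul_nontrivial (χ := C.X a) (φ := C.X b)
        (by rw [← C.X_add]; exact C.X_ne_one h1) ψ
      rw [← C.X_add] at e
      have hne := hgne (a + b)
      show 2 * (gaussSum (C.X a) ψ / 2 * (gaussSum (C.X b) ψ / 2) /
        (gaussSum (C.X (a + b)) ψ / 2)) = _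
      field_simp
      linear_combination -e
    · have hb : b = -a := eq_neg_of_add_eq_zero_right (not_not.1 h1)
      rw [hb, C.X_neg, jacobiSum_nontrivial_inv (C.X_ne_one h3)]
    · have ha : a = 0 := not_not.1 h3
      have hb : b = 0 := by simpa [ha] using not_not.1 h1
      rw [ha, hb, C.X_zero, jacobiSum_one_one]
      show 4 * ((Fintype.card K : ℂ) / 4) - 2 = _
      ring
  refine ⟨{ toGS := S, hτ := rfl, int := fun a b => ?_ }⟩
  obtain ⟨N, hN1, hN2⟩ := jac_int C a b
  exact ⟨N, hN1, fun t => by rw [hJ, hN2]⟩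

end Pool.Agent.P.MP_111ca2_co.PR
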