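import Pool.Agent.P.MP_111ca2_co.PrDefs

/-! Basic facts on the system of halved Gauss sums. -/

namespace Pool.Agent.P.MP_111ca2_co.PR

open Finset

variable {m : ℕ} [NeZero m]

omit [NeZero m] in
theorem m_add_m : (m : ZMod (2 * m)) + m = 0 := by
  rw [← Nat.cast_add, ← two_mul, ZMod.natCast_self]

omit [NeZero m] in
theorem cast_ne {i : ℕ} (h0 : 0 < i) (h : i < 2 * m) : (i : ZMod (2 * m)) ≠ 0 := by
  rw [Ne, ZMod.natCast_eq_zero_iff]
  intro hd
  have := Nat.le_of_dvd h0 hd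
  omega

theorem m_ne : (m : ZMod (2 * m)) ≠ 0 :=
  cast_ne (NeZero.pos m) (by have := NeZero.pos m; omega)

omit [NeZero m] in
theorem neg_m : -(m : ZMod (2 * m)) = m := neg_eq_of_add_eq_zero_left m_add_m

theorem add_self_eq_zero (a : ZMod (2 * m)) : a + a = 0 ↔ a = 0 ∨ a = m := by
  rw [← neg_eq_iff_add_eq_zero, ZMod.neg_eq_self_iff]
  refine or_congr Iff.rfl ⟨fun h => ?_, fun h => ?_⟩
  · rw [← ZMod.natCast_zmod_val a, show a.val = m by omega]
  · rw [h, ZMod.val_cast_of_lt (by have := NeZero.pos m; omega)]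

namespace GS

variable {Ω : Type} [Field Ω] (S : GS Ω m)

theorem s_zero : S.s 0 = 1 := by
  have := S.s_add 0 1
  rw [zero_add, S.s_one] at this
  linear_combination this

theorem s_nat (i : ℕ) : S.s i = (-1) ^ i := by
  induction i with
  | zero => simp [S.s_zero]
  | succ i ih => rw [Nat.cast_succ, S.s_add, ih, S.s_one, pow_succ]

theorem s_val (a : ZMod (2 * m)) : S.s a = (-1) ^ a.val := by
  rw [← S.s_nat, ZMod.natCast_zmod_val]

theorem s_sq (a : ZMod (2 * m)) : S.s a * S.s a = 1 := by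
  rw [S.s_val, ← mul_pow]; simp

theorem s_neg (a : ZMod (2 * m)) : S.s (-a) = S.s a := by
  have := S.s_add a (-a)
  rw [add_neg_cancel, S.s_zero] at this
  linear_combination (-S.s (-a)) * S.s_sq a - S.s a * this

theorem W_zero : S.W 0 = 1 := by
  have := S.W_add 0 m
  rw [zero_add, S.W_m] at this
  linear_combination -this

theorem W_nat (i : ℕ) (a : ZMod (2 * m)) : S.W (i * a) = S.W a ^ i := by
  induction i with
  | zero => simp [S.W_zero]
  | succ i ih => rw [Nat.cast_succ, add_mul, one_mul, S.W_add, ih, pow_succ]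

theorem W_pow (a : ZMod (2 * m)) : S.W a ^ m = 1 := by
  rw [← S.W_nat, mul_comm, ← ZMod.natCast_zmod_val a, S.W_nat, S.W_m, one_pow]

theorem g_ne (a : ZMod (2 * m)) : S.g a ≠ 0 := by
  intro h
  by_cases ha : a = 0
  · have := S.g0
    rw [← ha, h] at this
    simp at this
  · have := S.rfx a ha
    rw [h, zero_mul] at this
    apply S.τ0
    linear_combination (-S.τ) * S.s_sq a - S.s a * this

theorem g_m_sq : S.g m ^ 2 = S.s m * S.τ := by
  rw [← S.rfx _ m_ne, neg_m, sq]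

variable {Γ : Type} [LinearOrderedCommGroupWithZero Γ] (v : Valuation Ω Γ)

theorem v_s (a : ZMod (2 * m)) : v (S.s a) = 1 := by
  rw [S.s_val]; simp

theorem v_W (a : ZMod (2 * m)) : v (S.W a) = 1 := by
  have := congrArg v (S.W_pow a)
  rw [map_pow, map_one] at this
  exact (pow_eq_one_iff_left (NeZero.ne m)).1 this

theorem v_g_ne (a : ZMod (2 * m)) : v (S.g a) ≠ 0 := (map_ne_zero v).2 (S.g_ne a)

theorem psi_ne (a : ZMod (2 * m)) : S.psi v a ≠ 0 := by
  unfold psi
  split_ifs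
  · exact one_ne_zero
  · exact S.v_g_ne v a

theorem psi_zero : S.psi v 0 = 1 := if_pos rfl

theorem psi_of_ne {a : ZMod (2 * m)} (h : a ≠ 0) : S.psi v a = v (S.g a) := if_neg h

theorem psi_neg {a : ZMod (2 * m)} (h : a ≠ 0) : S.psi v a * S.psi v (-a) = v S.τ := by
  rw [S.psi_of_ne v h, S.psi_of_ne v (neg_ne_zero.2 h), ← map_mul, S.rfx a h, map_mul, S.v_s, one_mul]

theorem v_g_m : v (S.g m) ^ 2 = v S.τ := by
  rw [← map_pow, S.g_m_sq, map_mul, S.v_s, one_mul]

end GS

end Pool.Agent.P.MP_111ca2_co.PR
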