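import Mathlib

/-! Power residue difference sets, finiteness: the structures used in the proof. -/

namespace Pool.Agent.P.MP_111ca2_co.PR

open Finset

noncomputable section

/-- The system of equations satisfied by the halved Gauss sums of a difference set of index `2 m`. -/
structure GS (Ω : Type) [Field Ω] (m : ℕ) [NeZero m] where
  g : ZMod (2 * m) → Ω
  s : ZMod (2 * m) → Ω
  W : ZMod (2 * m) → Ω
  τ : Ω
  τ0 : τ ≠ 0
  g0 : 2 * g 0 = -1
  s_add : ∀ a b, s (a + b) = s a * s b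
  s_one : s 1 = -1
  W_add : ∀ a b, W (a + b) = W a * W b
  W_m : W (m : ZMod (2 * m)) = 1
  rfx : ∀ a, a ≠ 0 → g a * g (-a) = s a * τ
  dup : ∀ a, g a * g (a + (m : ZMod (2 * m))) = W a * g (a + a) * g (m : ZMod (2 * m))
  eqn : ∀ u, u ≠ 0 → ∑ a, s a * (g a * g (u - a)) = 0

namespace GS

variable {Ω : Type} [Field Ω] {m : ℕ} [NeZero m] (S : GS Ω m)

/-- halved Jacobi sums -/
def jj (a b : ZMod (2 * m)) : Ω := S.g a * S.g b / S.g (a + b)

/-- Jacobi sums -/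
def Jac (a b : ZMod (2 * m)) : Ω :=
  if a + b ≠ 0 then 2 * S.jj a b else if a ≠ 0 then -S.s a else 4 * S.τ - 2

/-- values of the Gauss sums, normalised at `0` -/
def psi {Γ : Type} [LinearOrderedCommGroupWithZero Γ] (v : Valuation Ω Γ) (a : ZMod (2 * m)) : Γ :=
  if a = 0 then 1 else v (S.g a)

end GS

/-- discrete logarithm modulo `n` and the characters of order dividing `n` -/
structure CS (K : Type) [Field K] (n k : ℕ) [NeZero n] where
  ind : K → ZMod n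
  X : ZMod n → MulChar K ℂ
  ind_mul : ∀ x y, x ≠ 0 → y ≠ 0 → ind (x * y) = ind x + ind y
  ind_zero : ∀ x, x ≠ 0 → (ind x = 0 ↔ x ^ k = 1)
  ind_one : ∃ x, x ≠ 0 ∧ ind x = 1
  X_apply : ∀ a x, x ≠ 0 → X a x = ZMod.stdAddChar (a * ind x)

/-- the complex system of a field with `q` elements, with the integrality of its Jacobi sums -/
structure Act (m : ℕ) [NeZero m] (q : ℕ) extends GS ℂ m where
  hτ : τ = (q : ℂ) / 4
  int : ∀ a b, ∃ N : ZMod (2 * m) → ℤ, (∀ k, |N k| ≤ q) ∧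
    ∀ t, toGS.Jac (t * a) (t * b) = ∑ k, (N k : ℂ) * ZMod.stdAddChar (t * k)

/-- the system in an ultrapower: `O` bounded elements, `B` elements with bounded denominator -/
structure Ult (Ω : Type) [Field Ω] [CharZero Ω] (m : ℕ) [NeZero m] extends GS Ω m where
  O : Subalgebra ℚ Ω
  B : Subalgebra ℚ Ω
  inv_mem : τ⁻¹ ∈ O
  τ_mem : τ ∈ B
  sep : ∀ x ∈ B, x * τ ∈ O → x = 0
  ε : ZMod (2 * m) → Ω
  ε_add : ∀ a b, ε (a + b) = ε a * ε b
  ε_zero : ε 0 = 1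
  ε_sum : ∀ b, b ≠ 0 → ∑ t, ε (t * b) = 0
  int : ∀ a b, ∃ N : ZMod (2 * m) → Ω, (∀ k, N k ∈ B ∧ N k * τ⁻¹ ∈ O) ∧
    ∀ t, toGS.Jac (t * a) (t * b) = ∑ k, N k * ε (t * k)

/-- the ultrapower of the complex numbers -/
abbrev Om : Type := Filter.Germ (Filter.hyperfilter ℕ : Filter ℕ) ℂ

/-- constants -/
def cst : ℂ →+* Om := (Filter.Germ.coeRingHom _).comp (Pi.constRingHom ℕ ℂ)

instance omCharZero : CharZero Om := charZero_of_injective_ringHom cst.injective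

/-- the local system before reduction: the additive equation holds up to value `D` -/
structure Pre {Ω Γ : Type} [Field Ω] [LinearOrderedCommGroupWithZero Γ] (v : Valuation Ω Γ)
    (D : Γ) (m : ℕ) where
  y : ℕ → Ω
  ω : Ω
  unit : ∀ i, 0 < i → i < 2 * m → v (y i) = 1
  ωm : ω ^ m = 1
  y1 : y 1 = 1
  star : ∀ c, 0 < c → c < m →
    v (y (2 * c) + ∑ a ∈ Ioo 0 (2 * c), (-1) ^ a * (y a * y (2 * c - a))) ≤ D
  dup : ∀ a, 0 < a → a < m → y a * y (a + m) = ω ^ a * y (2 * a) * y m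
  rfx : ∀ a, 0 < a → a < 2 * m → y a * y (2 * m - a) = (-1) ^ (a + m) * y m ^ 2

/-- the local system: units in a ring in which `2` is neither zero nor a unit -/
structure Loc (R : Type) [CommRing R] (m : ℕ) where
  z : ℕ → Rˣ
  w : Rˣ
  two_ne : (2 : R) ≠ 0
  two_nu : ¬ IsUnit (2 : R)
  wm : w ^ m = 1
  z1 : z 1 = 1
  star : ∀ c, 0 < c → c < m →
    (z (2 * c) : R) + ∑ a ∈ Ioo 0 (2 * c), (-1) ^ a * ((z a : R) * z (2 * c - a)) = 0
  dup : ∀ a, 0 < a → a < m → z a * z (a + m) = w ^ a * z (2 * a) * z m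
  rfx : ∀ a, 0 < a → a < 2 * m → z a * z (2 * m - a) = (-1) ^ (a + m) * z m ^ 2

namespace Loc

variable {R : Type} [CommRing R] {m : ℕ} (L : Loc R m)

def D (a : ℕ) : Rˣ := L.z (2 * a) / L.z a ^ 2

def Z (c j : ℕ) : Rˣ := L.z j * L.z (2 * c - j) / L.z (2 * c)

def U (c i : ℕ) : Rˣ := L.z i * L.z (2 * c) / L.z (2 * c + i)

/-- the key identity, for `m = 2 M` -/
def Key (M c : ℕ) : Prop :=
  ∑ j ∈ Ioo 0 c, (-1) ^ j * ((L.Z c j : R) - ((L.Z c j * L.D j * L.D (2 * c - j))⁻¹ : Rˣ)) =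
    (1 + (-(L.w : R)) ^ c) * ((L.D (2 * c))⁻¹ : Rˣ) +
      ∑ i ∈ Ioo 0 (M - c), (L.U c i : R) * (1 + (L.D i / L.D (i + 2 * c) : Rˣ))

end Loc

/-- sums of the first `2 a` terms -/
def QQ {R : Type} [CommRing R] (ν : ℕ → R) (a : ℕ) : R := ∑ j ∈ range (2 * a), ν j

/-- the two sides of the last congruence -/
def EL {R : Type} [CommRing R] (ν : ℕ → R) (c : ℕ) : R :=
  ∑ j ∈ Ioo 0 c, (QQ ν j + ν j ^ 2 + (QQ ν (2 * c - j) + ν (2 * c - j) ^ 2))

def ER {R : Type} [CommRing R] (ν : ℕ → R) (M c : ℕ) : R :=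
  (((M - c) / 2 : ℕ) : R) + ∑ i ∈ Ioo 0 (M - c), (QQ ν i + QQ ν (i + 2 * c))

/-- the residual system in a field of characteristic two -/
structure Res (k : Type) [Field k] (M : ℕ) where
  ν : ℕ → k
  two : (2 : k) = 0
  even : ∀ a, ν (2 * a) = 0
  per : ∀ a, ν (a + 2 * M) = ν a
  rfx : ∀ a, a ≤ 2 * M → ν a + ν (2 * M - a) = a
  E : ∀ c, 0 < c → c < M → EL ν c = ER ν M c

end

end Pool.Agent.P.MP_111ca2_co.PR
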