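import Pool.Agent.P.MP_111ca2_co.PrB

/-! Folding the quadratic equations. -/

namespace Pool.Agent.P.MP_111ca2_co.PR

open Finset

theorem sum_fold {α M : Type} [DecidableEq α] [AddCommMonoid M] (s : Finset α) (ι : α → α)
    (f : α → M) (h1 : ∀ a ∈ s, ι a ∈ s) (h2 : ∀ a ∈ s, ι (ι a) = a) (h3 : ∀ a ∈ s, ι a ≠ a)
    (h4 : ∀ a ∈ s, f (ι a) = f a) : ∃ A ⊆ s, ∑ a ∈ s, f a = 2 • ∑ a ∈ A, f a := by
  induction s using Finset.strongInduction with
  | H s ih =>
    rcases s.eq_empty_or_nonempty with rfl | ⟨a, ha⟩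
    · exact ⟨∅, Subset.refl _, by simp⟩
    · have hb : ι a ∈ s.erase a := mem_erase.2 ⟨h3 a ha, h1 a ha⟩
      have hsub : (s.erase a).erase (ι a) ⊆ s := (erase_subset _ _).trans (erase_subset _ _)
      have hss : (s.erase a).erase (ι a) ⊂ s :=
        (erase_subset _ _).trans_ssubset (erase_ssubset ha)
      obtain ⟨A, hA, hsum⟩ := ih _ hss
        (fun x hx => by
          have hx1 := mem_erase.1 hx
          have hx2 := mem_erase.1 hx1.2
          refine mem_erase.2 ⟨fun h => hx2.1 ?_, mem_erase.2 ⟨fun h => hx1.1 ?_, h1 x hx2.2⟩⟩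
          · rw [← h2 x hx2.2, h, h2 a ha]
          · rw [← h, h2 x hx2.2])
        (fun x hx => h2 x (hsub hx)) (fun x hx => h3 x (hsub hx)) (fun x hx => h4 x (hsub hx))
      have haA : a ∉ A := fun h => (mem_erase.1 (mem_erase.1 (hA h)).2).1 rfl
      refine ⟨insert a A, insert_subset ha (hA.trans hsub), ?_⟩
      rw [← add_sum_erase s f ha, ← add_sum_erase _ f hb, hsum, h4 a ha, sum_insert haA, smul_add,
        two_smul ℕ (f a), add_assoc]

variable {Ω : Type} [Field Ω] {m : ℕ} [NeZero m] (S : GS Ω m)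

theorem GS.fold [CharZero Ω] {c : ZMod (2 * m)} (hc : c + c ≠ 0) :
    ∃ A : Finset (ZMod (2 * m)), (∀ a ∈ A, a ≠ 0 ∧ c + c - a ≠ 0) ∧
      S.s c * S.g c ^ 2 + S.s (c + m) * S.g (c + m) ^ 2 - S.g (c + c) +
        2 * ∑ a ∈ A, S.s a * (S.g a * S.g (c + c - a)) = 0 := by
  classical
  have hc0 : c ≠ 0 := fun h => hc (by rw [h, add_zero])
  have hcm : c + m ≠ 0 := fun h => hc (by
    have : c = m := by rw [← neg_m]; exact eq_neg_of_add_eq_zero_left h
    rw [this, m_add_m])
  have hmm : (m : ZMod (2 * m)) + m = 0 := m_add_m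
  have hm0 : (m : ZMod (2 * m)) ≠ 0 := m_ne
  let f : ZMod (2 * m) → Ω := fun a => S.s a * (S.g a * S.g (c + c - a))
  let T : Finset (ZMod (2 * m)) := {0, c + c, c, c + m}
  have hsym : ∀ a, S.s (c + c - a) = S.s a := by
    intro a
    rw [sub_eq_add_neg, S.s_add, S.s_add, S.s_sq, S.s_neg, one_mul]
  have hmem : ∀ a, a ∈ univ \ T ↔ a ≠ 0 ∧ a ≠ c + c ∧ a ≠ c ∧ a ≠ c + m := by
    intro a
    simp [T]
  obtain ⟨A, hA, hsum⟩ := sum_fold (univ \ T) (fun a => c + c - a) f
    (fun a ha => by
      obtain ⟨a1, a2, a3, a4⟩ := (hmem a).1 ha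
      refine (hmem _).2 ⟨fun h => a2 ?_, fun h => a1 ?_, fun h => a3 ?_, fun h => a4 ?_⟩
      · linear_combination -h
      · linear_combination -h
      · linear_combination -h
      · linear_combination -h - hmm)
    (fun a _ => by ring)
    (fun a ha h => by
      obtain ⟨a1, a2, a3, a4⟩ := (hmem a).1 ha
      have h' : c + c - a = a := h
      rcases (add_self_eq_zero (a - c)).1 (by linear_combination -h') with h5 | h5
      · exact a3 (by linear_combination h5)
      · exact a4 (by linear_combination h5))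
    (fun a _ => by
      simp only [f]
      rw [hsym, sub_sub_cancel, mul_comm (S.g a)])
  refine ⟨A, fun a ha => ?_, ?_⟩
  · obtain ⟨a1, a2, -, -⟩ := (hmem a).1 (hA ha)
    exact ⟨a1, fun h => a2 (by linear_combination -h)⟩
  · have e := S.eqn (c + c) hc
    have e1 : ∑ a ∈ univ \ T, f a + ∑ a ∈ T, f a = 0 := by
      rw [sum_sdiff (subset_univ T)]
      exact e
    have n1 : (0 : ZMod (2 * m)) ∉ ({c + c, c, c + m} : Finset (ZMod (2 * m))) := by
      simp only [mem_insert, mem_singleton, not_or]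
      exact ⟨hc.symm, hc0.symm, hcm.symm⟩
    have n2 : c + c ∉ ({c, c + m} : Finset (ZMod (2 * m))) := by
      simp only [mem_insert, mem_singleton, not_or]
      exact ⟨fun h => hc0 (by linear_combination h), fun h => hcm (by linear_combination h + hmm)⟩
    have n3 : c ∉ ({c + m} : Finset (ZMod (2 * m))) := by
      simp only [mem_singleton]
      exact fun h => hm0 (by linear_combination -h)
    have e2 : ∑ a ∈ T, f a = f 0 + (f (c + c) + (f c + f (c + m))) := by
      simp only [T]
      rw [sum_insert n1, sum_insert n2, sum_insert n3, sum_singleton]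
    have f0 : f 0 = S.g 0 * S.g (c + c) := by
      simp only [f]
      rw [S.s_zero, sub_zero, one_mul]
    have f1 : f (c + c) = S.g (c + c) * S.g 0 := by
      simp only [f]
      rw [S.s_add, S.s_sq, sub_self, one_mul]
    have f2 : f c = S.s c * S.g c ^ 2 := by
      simp only [f]
      rw [add_sub_cancel_right, sq]
    have f3 : f (c + m) = S.s (c + m) * S.g (c + m) ^ 2 := by
      simp only [f]
      rw [show c + c - (c + m) = c + m by linear_combination -hmm, sq]
    rw [hsum, e2, f0, f1, f2, f3, two_smul] at e1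
    have g0 := S.g0
    change _ + 2 * ∑ a ∈ A, f a = 0
    linear_combination e1 - S.g (c + c) * g0

end Pool.Agent.P.MP_111ca2_co.PR
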