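import Pool.Agent.P.MP_111ca2_co.PrG1

/-! A maximum principle at the valuations above `2` for which `τ` is a unit. -/

namespace Pool.Agent.P.MP_111ca2_co.PR

open Finset

variable {Ω : Type} [Field Ω] {m : ℕ} [NeZero m] (S : GS Ω m)
  {Γ : Type} [LinearOrderedCommGroupWithZero Γ] (v : Valuation Ω Γ)

theorem prg1b_le [CharZero Ω] (h2 : v 2 < 1) (hτ : v S.τ = 1) {a : ZMod (2 * m)} (ha : a ≠ 0) :
    v (S.g a) ≤ 1 := by
  have hm : v (S.g m) = 1 := by
    have := S.v_g_m v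
    rw [hτ] at this
    exact (pow_eq_one_iff_left two_ne_zero).1 this
  obtain ⟨c, hc, hmax⟩ := Finset.exists_max_image (univ.filter fun a : ZMod (2 * m) => a ≠ 0)
    (fun a => v (S.g a)) ⟨a, by simp [ha]⟩
  have hc0 : c ≠ 0 := (mem_filter.1 hc).2
  have hle : ∀ b : ZMod (2 * m), b ≠ 0 → v (S.g b) ≤ v (S.g c) := fun b hb =>
    hmax b (by simp [hb])
  refine (hle a ha).trans (not_lt.1 fun hμ => ?_)
  have hpos : 0 < v (S.g c) := zero_lt_one.trans hμ
  have hcm : c ≠ m := by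
    rintro rfl
    rw [hm] at hμ
    exact lt_irrefl _ hμ
  have hcc : c + c ≠ 0 := fun h => ((add_self_eq_zero c).1 h).elim hc0 hcm
  have hcm' : c + m ≠ 0 := fun h => hcm (by rw [eq_neg_of_add_eq_zero_left h, neg_m])
  have hsq : v (S.g c) < v (S.g c) ^ 2 := by
    rw [sq]
    exact lt_mul_of_one_lt_right hpos hμ
  obtain ⟨A, hA, hf⟩ := S.fold hcc
  have h1 : v (S.g (c + c)) < v (S.g c) ^ 2 := (hle _ hcc).trans_lt hsq
  have h3 : v (∑ a ∈ A, S.s a * (S.g a * S.g (c + c - a))) ≤ v (S.g c) ^ 2 := by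
    refine v.map_sum_le fun b hb => ?_
    rw [map_mul, map_mul, S.v_s, one_mul, sq]
    exact mul_le_mul' (hle _ (hA b hb).1) (hle _ (hA b hb).2)
  have h4 : v (2 * ∑ a ∈ A, S.s a * (S.g a * S.g (c + c - a))) < v (S.g c) ^ 2 := by
    rw [map_mul]
    calc v 2 * v (∑ a ∈ A, S.s a * (S.g a * S.g (c + c - a))) ≤ v 2 * v (S.g c) ^ 2 :=
          mul_le_mul' le_rfl h3
      _ < v (S.g c) ^ 2 := mul_lt_of_lt_one_left (pow_pos hpos 2) h2
  have h5 : v (S.g (c + m)) = v (S.g c) := by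
    refine le_antisymm (hle _ hcm') (not_lt.1 fun hlt => ?_)
    have h6 : v (S.s (c + m) * S.g (c + m) ^ 2) < v (S.g c) ^ 2 := by
      rw [map_mul, S.v_s, one_mul, map_pow]
      exact pow_lt_pow_left₀ hlt zero_le two_ne_zero
    have e : S.s c * S.g c ^ 2 = S.g (c + c) - S.s (c + m) * S.g (c + m) ^ 2 -
        2 * ∑ a ∈ A, S.s a * (S.g a * S.g (c + c - a)) := by linear_combination hf
    have h7 : v (S.s c * S.g c ^ 2) < v (S.g c) ^ 2 := by
      rw [e]
      exact v.map_sub_lt (v.map_sub_lt h1 h6) h4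
    rw [map_mul, S.v_s, one_mul, map_pow] at h7
    exact lt_irrefl _ h7
  have h8 := congrArg v (S.dup c)
  rw [map_mul, map_mul, map_mul, S.v_W, hm, one_mul, mul_one, h5, ← sq] at h8
  exact h1.ne h8.symm

theorem GS.all_unit [CharZero Ω] (h2 : v 2 < 1) (hτ : v S.τ = 1) {a : ZMod (2 * m)} (ha : a ≠ 0) :
    v (S.g a) = 1 := by
  have h1 := prg1b_le S v h2 hτ ha
  have h3 := prg1b_le S v h2 hτ (neg_ne_zero.2 ha)
  have h4 := congrArg v (S.rfx a ha)
  rw [map_mul, map_mul, S.v_s, one_mul, hτ] at h4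
  refine le_antisymm h1 ?_
  calc (1 : Γ) = v (S.g a) * v (S.g (-a)) := h4.symm
    _ ≤ v (S.g a) * 1 := mul_le_mul' le_rfl h3
    _ = v (S.g a) := mul_one _

end Pool.Agent.P.MP_111ca2_co.PR
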