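import Pool.Agent.P.MP_111ca2_co.PrDefs

/-! Integrality over the polynomial ring localised at `2`. -/

namespace Pool.Agent.P.MP_111ca2_co.PR

open Polynomial

theorem prg2_clear {Ω : Type} [Field Ω] (τ y : Ω) (hτ : τ ≠ 0) (s : Ω)
    (hs : s ∈ Subring.closure ({τ, τ⁻¹, y} : Set Ω)) :
    ∃ (k : ℕ) (P : ℤ[X][X]), τ ^ k * s = eval₂ (aeval τ : ℤ[X] →ₐ[ℤ] Ω).toRingHom y P := by
  induction hs using Subring.closure_induction with
  | mem z hz =>
    simp only [Set.mem_insert_iff, Set.mem_singleton_iff] at hz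
    rcases hz with rfl | rfl | rfl
    · exact ⟨0, C X, by simp⟩
    · exact ⟨1, 1, by simp [hτ]⟩
    · exact ⟨0, X, by simp⟩
  | zero => exact ⟨0, 0, by simp⟩
  | one => exact ⟨0, 1, by simp⟩
  | add a b _ _ ha hb =>
    obtain ⟨k, P, hP⟩ := ha
    obtain ⟨l, Q, hQ⟩ := hb
    refine ⟨k + l, C (X ^ l) * P + C (X ^ k) * Q, ?_⟩
    rw [eval₂_add, eval₂_mul, eval₂_mul, ← hP, ← hQ, eval₂_C, eval₂_C]
    simp only [AlgHom.toRingHom_eq_coe, RingHom.coe_coe, map_pow, aeval_X]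
    ring
  | neg a _ ha =>
    obtain ⟨k, P, hP⟩ := ha
    exact ⟨k, -P, by rw [eval₂_neg, ← hP]; ring⟩
  | mul a b _ _ ha hb =>
    obtain ⟨k, P, hP⟩ := ha
    obtain ⟨l, Q, hQ⟩ := hb
    exact ⟨k + l, P * Q, by rw [eval₂_mul, ← hP, ← hQ]; ring⟩

theorem prg2_not_dvd (k : ℕ) (a : ℤ[X]) : ¬ (2 : ℤ[X]) ∣ X ^ k - 2 * a := by
  intro h
  have h1 : (2 : ℤ[X]) ∣ X ^ k := by
    have := dvd_add h (dvd_mul_right (2 : ℤ[X]) a)
    simpa using this
  obtain ⟨c, hc⟩ := h1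
  have h2 := congrArg (eval 1) hc
  simp only [eval_pow, eval_X, one_pow, eval_mul, eval_ofNat] at h2
  omega

theorem prg2_int {Ω : Type} [Field Ω] (τ y : Ω)
    (h : (aeval τ : ℤ[X] →ₐ[ℤ] Ω).toRingHom.IsIntegralElem y) :
    IsIntegral (Algebra.adjoin ℤ {τ}) y := by
  obtain ⟨p, hp, hy⟩ := h
  let ψ : ℤ[X] →+* Algebra.adjoin ℤ {τ} :=
    ((aeval τ : ℤ[X] →ₐ[ℤ] Ω).toRingHom).codRestrict (Algebra.adjoin ℤ {τ})
      (fun q => aeval_mem_adjoin_singleton ℤ τ)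
  refine ⟨p.map ψ, hp.map ψ, ?_⟩
  rw [eval₂_map]
  exact hy

theorem int_loc {Ω : Type} [Field Ω] (τ x : Ω)
    (h : ∀ V : ValuationSubring Ω, V.valuation 2 < 1 → V.valuation τ = 1 → x ∈ V) :
    ∃ f : ℤ[X], ¬ (2 : ℤ[X]) ∣ f ∧ IsIntegral (Algebra.adjoin ℤ {τ}) (aeval τ f * x) := by
  by_cases hτ : τ = 0
  · refine ⟨X ^ 1 - 2 * 0, prg2_not_dvd 1 0, ?_⟩
    have : aeval τ (X ^ 1 - 2 * 0 : ℤ[X]) * x = 0 := by simp [hτ]
    rw [this]
    exact isIntegral_zero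
  by_cases hx : x = 0
  · refine ⟨X ^ 0 - 2 * 0, prg2_not_dvd 0 0, ?_⟩
    rw [hx, mul_zero]
    exact isIntegral_zero
  set S := Subring.closure ({τ, τ⁻¹, x⁻¹} : Set Ω) with hS
  have hτS : τ ∈ S := Subring.subset_closure (by simp)
  have hτS' : τ⁻¹ ∈ S := Subring.subset_closure (by simp)
  have hxS : x⁻¹ ∈ S := Subring.subset_closure (by simp)
  let I : Ideal S := Ideal.span {2, ⟨x⁻¹, hxS⟩}
  have hI : I = ⊤ := by
    by_contra hI
    obtain ⟨V, hV, hn⟩ := Ideal.image_subset_nonunits_valuationSubring I hI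
    have h2 : V.valuation 2 < 1 := by
      have : (2 : Ω) ∈ V.nonunits :=
        hn ⟨2, Ideal.subset_span (by simp), rfl⟩
      exact V.mem_nonunits_iff.mp this
    have hy : V.valuation x⁻¹ < 1 := by
      have : x⁻¹ ∈ V.nonunits :=
        hn ⟨⟨x⁻¹, hxS⟩, Ideal.subset_span (by simp), rfl⟩
      exact V.mem_nonunits_iff.mp this
    have h3 : V.valuation τ = 1 := by
      have a1 : V.valuation τ ≤ 1 := (V.valuation_le_one_iff τ).mpr (hV hτS)
      have a2 : V.valuation τ⁻¹ ≤ 1 := (V.valuation_le_one_iff τ⁻¹).mpr (hV hτS')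
      refine le_antisymm a1 ?_
      have a3 : V.valuation τ * V.valuation τ⁻¹ = 1 := by
        rw [← map_mul, mul_inv_cancel₀ hτ, map_one]
      calc (1 : V.ValueGroup) = V.valuation τ * V.valuation τ⁻¹ := a3.symm
        _ ≤ V.valuation τ * 1 := by gcongr
        _ = V.valuation τ := mul_one _
    have h4 : V.valuation x ≤ 1 := (V.valuation_le_one_iff x).mpr (h V h2 h3)
    have a3 : V.valuation x * V.valuation x⁻¹ = 1 := by
      rw [← map_mul, mul_inv_cancel₀ hx, map_one]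
    have a4 : V.valuation x * V.valuation x⁻¹ ≤ 1 * V.valuation x⁻¹ := by gcongr
    rw [a3, one_mul] at a4
    exact absurd hy (not_lt.mpr a4)
  have h1 : (1 : S) ∈ I := hI ▸ Submodule.mem_top
  obtain ⟨a, b, hab⟩ := Ideal.mem_span_pair.mp h1
  have hab' : (a : Ω) * 2 + (b : Ω) * x⁻¹ = 1 := by
    have := congrArg (S.subtype) hab
    rw [map_add, map_mul, map_mul, map_ofNat, map_one] at this
    exact this
  obtain ⟨k, P, hP⟩ := prg2_clear τ x⁻¹ hτ a a.2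
  obtain ⟨l, Q, hQ⟩ := prg2_clear τ x⁻¹ hτ b b.2
  set φ := (aeval τ : ℤ[X] →ₐ[ℤ] Ω).toRingHom with hφ
  let R : ℤ[X][X] := C (X ^ (k + l)) - C (2 * X ^ l) * P - C (X ^ k) * Q * X
  have hR : eval₂ φ x⁻¹ R = 0 := by
    simp only [R]
    rw [eval₂_sub, eval₂_sub, eval₂_mul, eval₂_mul, eval₂_mul, ← hP, ← hQ, eval₂_C, eval₂_C,
      eval₂_C, eval₂_X]
    simp only [hφ, AlgHom.toRingHom_eq_coe, RingHom.coe_coe, map_pow, aeval_X, map_mul, map_ofNat]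
    linear_combination (-(τ ^ (k + l))) * hab'
  have hc : R.coeff 0 = X ^ (k + l) - 2 * (X ^ l * P.coeff 0) := by
    simp only [R, coeff_sub, coeff_C_zero, mul_coeff_zero, coeff_X_zero]
    ring
  have hnd : ¬ (2 : ℤ[X]) ∣ R.coeff 0 := hc ▸ prg2_not_dvd _ _
  have hc0 : R.coeff 0 ≠ 0 := fun h0 => hnd (h0 ▸ dvd_zero _)
  refine ⟨R.coeff 0, hnd, prg2_int τ _ ?_⟩
  let _ : Invertible x⁻¹ := invertibleOfNonzero (inv_ne_zero hx)
  have hrev : eval₂ φ x R.reverse = 0 := by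
    have := (eval₂_reverse_eq_zero_iff φ x⁻¹ R).mpr hR
    rwa [invOf_eq_inv, inv_inv] at this
  have := φ.isIntegralElem_leadingCoeff_mul R.reverse x hrev
  rwa [reverse_leadingCoeff, trailingCoeff_eq_coeff_zero hc0] at this

end Pool.Agent.P.MP_111ca2_co.PR
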