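import Pool.Agent.P.MP_111ca2_co.PrDefs

/-! Combining the two integrality statements. -/

namespace Pool.Agent.P.MP_111ca2_co.PR

open Polynomial

theorem prg3_step {R S : Type*} [CommRing R] [CommRing S] [IsDomain R] [IsDomain S] [Algebra R S]
    [IsIntegrallyClosed R] [Module.IsTorsionFree R S] {p f : R} (hp : Prime p) (hf : ¬ p ∣ f)
    {y : S} (h1 : IsIntegral R (p • y)) (h2 : IsIntegral R (f • y)) : IsIntegral R y := by
  have hf0 : f ≠ 0 := by rintro rfl; exact hf (dvd_zero _)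
  have e1 := IsIntegrallyClosed.minpoly_smul hf0 h1
  have e2 := IsIntegrallyClosed.minpoly_smul hp.ne_zero h2
  have e3 : f • p • y = p • f • y := smul_comm _ _ _
  rw [e3, e2] at e1
  set P := minpoly R (p • y) with hP
  set Q := minpoly R (f • y) with hQ
  have hdeg : Q.natDegree = P.natDegree := by
    have := congrArg natDegree e1
    simpa [natDegree_scaleRoots] using this
  have hdv : ∀ i, p ^ (P.natDegree - i) ∣ P.coeff i := by
    intro i
    have := congrArg (fun q => coeff q i) e1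
    simp only [coeff_scaleRoots, hdeg] at this
    refine hp.pow_dvd_of_dvd_mul_right _ (b := f ^ (P.natDegree - i))
      (fun h => hf (hp.dvd_of_dvd_pow h)) ?_
    rw [← this]
    exact dvd_mul_left _ _
  choose c hc using hdv
  have hPm : P.Monic := minpoly.monic h1
  let q : R[X] := ∑ i ∈ Finset.range (P.natDegree + 1), monomial i (c i)
  have hqc : ∀ i, q.coeff i = if i < P.natDegree + 1 then c i else 0 := by
    intro i
    simp only [q, finsetSum_coeff, coeff_monomial, Finset.sum_ite_eq', Finset.mem_range]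
  have hctop : c P.natDegree = 1 := by
    have := hc P.natDegree
    rw [Nat.sub_self, pow_zero, one_mul] at this
    rw [← this]
    exact hPm.coeff_natDegree
  have hqle : q.natDegree ≤ P.natDegree := by
    rw [natDegree_le_iff_coeff_eq_zero]
    intro N hN
    rw [hqc, if_neg (by omega)]
  have hqtop : q.coeff P.natDegree = 1 := by
    rw [hqc, if_pos (by omega), hctop]
  have hqm : q.Monic := monic_of_natDegree_le_of_coeff_eq_one _ hqle hqtop
  have hqd : q.natDegree = P.natDegree :=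
    le_antisymm hqle (le_natDegree_of_ne_zero (by rw [hqtop]; exact one_ne_zero))
  have hsc : q.scaleRoots p = P := by
    ext i
    rw [coeff_scaleRoots, hqd, hqc]
    split_ifs with hi
    · rw [mul_comm]; exact (hc i).symm
    · rw [zero_mul, coeff_eq_zero_of_natDegree_lt (by omega)]
  refine ⟨q, hqm, ?_⟩
  have h0 : eval₂ (algebraMap R S) (algebraMap R S p * y) (q.scaleRoots p) = 0 := by
    rw [hsc, ← Algebra.smul_def, ← aeval_def]
    exact minpoly.aeval _ _
  rw [scaleRoots_eval₂_mul] at h0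
  rcases mul_eq_zero.1 h0 with h | h
  · exfalso
    have hz : algebraMap R S p = 0 := eq_zero_of_pow_eq_zero h
    exact hp.ne_zero ((FaithfulSMul.algebraMap_eq_zero_iff R S).1 hz)
  · exact h

theorem prg3_pow {R S : Type*} [CommRing R] [CommRing S] [IsDomain R] [IsDomain S] [Algebra R S]
    [IsIntegrallyClosed R] [Module.IsTorsionFree R S] {p f : R} (hp : Prime p) (hf : ¬ p ∣ f)
    {y : S} (s : ℕ) (h1 : IsIntegral R (p ^ s • y)) (h2 : IsIntegral R (f • y)) :
    IsIntegral R y := by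
  induction s with
  | zero => simpa using h1
  | succ s ih =>
    apply ih
    refine prg3_step hp hf ?_ ?_
    · rw [← mul_smul, ← pow_succ']; exact h1
    · rw [smul_comm]; exact h2.smul _

variable {Ω : Type} [Field Ω] [CharZero Ω]

theorem prg3_trans {τ : Ω} (hτ : Transcendental ℚ τ) : Transcendental ℤ τ := by
  intro h
  exact hτ (h.extendScalars (algebraMap ℤ ℚ).injective_int)

theorem prg3_le {τ : Ω} {b : Ω} (hb : b ∈ Algebra.adjoin ℤ {τ}) : b ∈ Algebra.adjoin ℚ {τ} := by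
  induction hb using Algebra.adjoin_induction with
  | mem x hx => exact Algebra.subset_adjoin hx
  | algebraMap r => simp
  | add x y _ _ hx hy => exact add_mem hx hy
  | mul x y _ _ hx hy => exact mul_mem hx hy

theorem prg3_den {τ : Ω} {b : Ω} (hb : b ∈ Algebra.adjoin ℚ {τ}) :
    ∃ n : ℤ, n ≠ 0 ∧ (n : Ω) * b ∈ Algebra.adjoin ℤ {τ} := by
  induction hb using Algebra.adjoin_induction with
  | mem x hx => exact ⟨1, one_ne_zero, by simpa using Algebra.subset_adjoin hx⟩
  | algebraMap r =>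
    refine ⟨r.den, by exact_mod_cast r.den_ne_zero, ?_⟩
    have : ((r.den : ℤ) : Ω) * algebraMap ℚ Ω r = (r.num : Ω) := by
      rw [eq_ratCast]
      exact_mod_cast Rat.den_mul_eq_num r
    rw [this]
    exact intCast_mem _ _
  | add x y _ _ hx hy =>
    obtain ⟨n, hn, hx⟩ := hx
    obtain ⟨k, hk, hy⟩ := hy
    refine ⟨n * k, mul_ne_zero hn hk, ?_⟩
    have : ((n * k : ℤ) : Ω) * (x + y) = (k : Ω) * ((n : Ω) * x) + (n : Ω) * ((k : Ω) * y) := by
      push_cast; ring
    rw [this]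
    exact add_mem (mul_mem (intCast_mem _ _) hx) (mul_mem (intCast_mem _ _) hy)
  | mul x y _ _ hx hy =>
    obtain ⟨n, hn, hx⟩ := hx
    obtain ⟨k, hk, hy⟩ := hy
    refine ⟨n * k, mul_ne_zero hn hk, ?_⟩
    have : ((n * k : ℤ) : Ω) * (x * y) = ((n : Ω) * x) * ((k : Ω) * y) := by
      push_cast; ring
    rw [this]
    exact mul_mem hx hy

theorem prg3_mult {τ x : Ω} (hq : IsIntegral (Algebra.adjoin ℚ {τ}) x) :
    ∃ n : ℤ, n ≠ 0 ∧ IsIntegral (Algebra.adjoin ℤ {τ}) ((n : Ω) * x) := by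
  obtain ⟨p, hm, hp⟩ := hq
  choose d hd0 hd using fun i : ℕ => prg3_den (p.coeff i).2
  let n : ℤ := ∏ i ∈ Finset.range (p.natDegree + 1), d i
  have hn0 : n ≠ 0 := Finset.prod_ne_zero_iff.2 fun i _ => hd0 i
  have hn : ∀ i, i < p.natDegree → (n : Ω) * (p.coeff i : Ω) ∈ Algebra.adjoin ℤ {τ} := by
    intro i hi
    obtain ⟨k, hk⟩ : d i ∣ n := Finset.dvd_prod_of_mem _ (Finset.mem_range.2 (by omega))
    have : (n : Ω) * (p.coeff i : Ω) = (k : Ω) * ((d i : Ω) * (p.coeff i : Ω)) := by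
      rw [hk]; push_cast; ring
    rw [this]
    exact mul_mem (intCast_mem _ _) (hd i)
  let P : Polynomial Ω := p.map (algebraMap (Algebra.adjoin ℚ {τ}) Ω)
  have hPm : P.Monic := hm.map _
  have hPd : P.natDegree = p.natDegree := hm.natDegree_map _
  have hl : P.scaleRoots (n : Ω) ∈ lifts (algebraMap (Algebra.adjoin ℤ {τ}) Ω) := by
    rw [lifts_iff_coeff_lifts]
    intro i
    have key : (P.scaleRoots (n : Ω)).coeff i ∈ Algebra.adjoin ℤ {τ} := by
      rw [coeff_scaleRoots]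
      rcases lt_trichotomy i P.natDegree with h | h | h
      · obtain ⟨j, hj⟩ : ∃ j, P.natDegree - i = j + 1 := ⟨P.natDegree - i - 1, by omega⟩
        have hc : P.coeff i = (p.coeff i : Ω) := by simp [P]
        have : P.coeff i * (n : Ω) ^ (P.natDegree - i)
            = ((n : Ω) * (p.coeff i : Ω)) * (n : Ω) ^ j := by
          rw [hj, hc]; ring
        rw [this]
        exact mul_mem (hn i (by omega)) (pow_mem (intCast_mem _ _) _)
      · rw [h, hPm.coeff_natDegree, Nat.sub_self, pow_zero, one_mul]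
        exact one_mem _
      · rw [coeff_eq_zero_of_natDegree_lt h, zero_mul]
        exact zero_mem _
    exact ⟨⟨_, key⟩, rfl⟩
  obtain ⟨q, hq, -, hqm⟩ :=
    lifts_and_natDegree_eq_and_monic hl ((monic_scaleRoots_iff _).2 hPm)
  refine ⟨n, hn0, q, hqm, ?_⟩
  rw [← eval_map, hq, scaleRoots_eval_mul, eval_map, hp, mul_zero]

omit [CharZero Ω] in
theorem prg3_mem (τ : Ω) (f : ℤ[X]) : aeval τ f ∈ Algebra.adjoin ℤ {τ} :=
  aeval_mem_adjoin_singleton ℤ τ

theorem alg_of_int {τ x : Ω} (hτ : Transcendental ℚ τ) {f : ℤ[X]} (hf : ¬ (2 : ℤ[X]) ∣ f)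
    (h : IsIntegral (Algebra.adjoin ℤ {τ}) (aeval τ f * x)) :
    IsAlgebraic (Algebra.adjoin ℚ {τ}) x := by
  have hf0 : f ≠ 0 := by rintro rfl; exact hf (dvd_zero _)
  have hne : aeval τ f ≠ 0 := fun h0 => prg3_trans hτ ⟨f, hf0, h0⟩
  let φ : Algebra.adjoin ℤ {τ} →+* Algebra.adjoin ℚ {τ} :=
    RingHom.codRestrict (algebraMap (Algebra.adjoin ℤ {τ}) Ω) (Algebra.adjoin ℚ {τ})
      (fun b => prg3_le b.2)
  have h2 : IsIntegral (Algebra.adjoin ℚ {τ}) (aeval τ f * x) :=
    IsIntegral.map_of_comp_eq φ (RingHom.id Ω) (by ext b; rfl) h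
  let c : Algebra.adjoin ℚ {τ} := ⟨aeval τ f, prg3_le (prg3_mem τ f)⟩
  have hc : c ≠ 0 := fun h0 => hne (congrArg Subtype.val h0)
  refine IsAlgebraic.of_smul_isIntegral (y := c) (by rwa [isNilpotent_iff_eq_zero]) ?_
  exact h2

theorem odd_int {τ x : Ω} (hτ : Transcendental ℚ τ) {f : ℤ[X]} (hf : ¬ (2 : ℤ[X]) ∣ f)
    (h : IsIntegral (Algebra.adjoin ℤ {τ}) (aeval τ f * x))
    (hq : IsIntegral (Algebra.adjoin ℚ {τ}) x) :
    ∃ N : ℤ, Odd N ∧ IsIntegral (Algebra.adjoin ℤ {τ}) ((N : Ω) * x) := by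
  obtain ⟨n, hn0, hn⟩ := prg3_mult hq
  obtain ⟨s, N, hN, hs⟩ : ∃ (s : ℕ) (N : ℤ), ¬ (2 : ℤ) ∣ N ∧ n = 2 ^ s * N :=
    WfDvdMonoid.max_power_factor hn0 Int.prime_two.irreducible
  refine ⟨N, Int.not_even_iff_odd.1 (fun he => hN he.two_dvd), ?_⟩
  let e := Polynomial.algEquivOfTranscendental ℤ τ (prg3_trans hτ)
  have : IsIntegrallyClosed (Algebra.adjoin ℤ {τ}) := IsIntegrallyClosed.of_equiv e.toRingEquiv
  have hp2 : Prime (2 : ℤ[X]) := by
    have := (Polynomial.prime_C_iff (r := (2 : ℤ))).2 Int.prime_two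
    simpa using this
  have hp : Prime (e 2) := (MulEquiv.prime_iff e).2 hp2
  have hfe : ¬ e 2 ∣ e f := fun hd => hf ((map_dvd_iff e).1 hd)
  have hef : ((e f : Algebra.adjoin ℤ {τ}) : Ω) = aeval τ f := by
    simp [e, algEquivOfTranscendental_apply]
  have he2 : ((e 2 : Algebra.adjoin ℤ {τ}) : Ω) = 2 := by
    rw [map_ofNat]; rfl
  refine prg3_pow hp hfe s ?_ ?_
  · have : (e 2) ^ s • ((N : Ω) * x) = (n : Ω) * x := by
      rw [Subalgebra.smul_def, smul_eq_mul, hs]
      push_cast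
      rw [he2]; ring
    rw [this]; exact hn
  · have : (e f) • ((N : Ω) * x) = (N : Ω) * (aeval τ f * x) := by
      rw [Subalgebra.smul_def, smul_eq_mul, hef]; ring
    rw [this]
    have hNi : IsIntegral (Algebra.adjoin ℤ {τ}) (N : Ω) := by
      have := isIntegral_algebraMap (R := Algebra.adjoin ℤ {τ}) (A := Ω)
        (x := (N : Algebra.adjoin ℤ {τ}))
      simpa using this
    exact hNi.mul h

end Pool.Agent.P.MP_111ca2_co.PR
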