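import Pool.Agent.P.MP_111ca2_co.PrB

/-! Finite Fourier inversion and integrality. -/

namespace Pool.Agent.P.MP_111ca2_co.PR

open Finset

variable {Ω : Type} [Field Ω] [CharZero Ω]

theorem pru3_mem (A : Subalgebra ℚ Ω) {x : Ω} (hx : x ∈ A) : IsIntegral A x :=
  isIntegral_algebraMap (x := (⟨x, hx⟩ : A))

theorem pru3_eps {n : ℕ} [NeZero n] (A : Subalgebra ℚ Ω) (ε : ZMod n → Ω)
    (ε_add : ∀ a b, ε (a + b) = ε a * ε b) (ε_zero : ε 0 = 1) (k : ZMod n) :
    IsIntegral A (ε k) := by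
  have h : ∀ i : ℕ, ε (i * k) = ε k ^ i := by
    intro i
    induction i with
    | zero => simp [ε_zero]
    | succ i ih => rw [Nat.cast_succ, add_mul, one_mul, ε_add, ih, pow_succ]
  have h1 : ε k ^ n = 1 := by rw [← h, ZMod.natCast_self, zero_mul, ε_zero]
  refine IsIntegral.of_pow (NeZero.pos n) ?_
  rw [h1]
  exact isIntegral_one

theorem dft_int {n : ℕ} [NeZero n] (A : Subalgebra ℚ Ω) (ε J N : ZMod n → Ω)
    (ε_add : ∀ a b, ε (a + b) = ε a * ε b) (ε_zero : ε 0 = 1)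
    (ε_sum : ∀ b, b ≠ 0 → ∑ t, ε (t * b) = 0) (hJ : ∀ t, J t = ∑ k, N k * ε (t * k))
    (halg : ∀ t, IsAlgebraic A (J t)) (hN : ∀ k, IsAlgebraic A (N k) → IsIntegral A (N k)) :
    IsIntegral A (J 1) := by
  have hε := pru3_eps A ε ε_add ε_zero
  have hn : (n : Ω) ≠ 0 := Nat.cast_ne_zero.2 (NeZero.ne n)
  have inv : ∀ k, N k = (n : Ω)⁻¹ * ∑ t, J t * ε (-(t * k)) := by
    intro k
    have e : ∑ t, J t * ε (-(t * k)) = ∑ l, N l * ∑ t, ε (t * (l - k)) := by
      simp only [hJ, sum_mul, mul_sum]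
      rw [sum_comm]
      refine sum_congr rfl fun l _ => sum_congr rfl fun t _ => ?_
      rw [mul_assoc, ← ε_add, mul_sub, sub_eq_add_neg]
    rw [e, sum_eq_single k]
    · simp only [sub_self, mul_zero, ε_zero, sum_const, card_univ, ZMod.card, nsmul_eq_mul, mul_one]
      field_simp
    · intro l _ hl
      rw [ε_sum _ (sub_ne_zero.2 hl), mul_zero]
    · intro h
      exact absurd (mem_univ k) h
  have hNa : ∀ k, IsAlgebraic A (N k) := by
    intro k
    rw [inv k]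
    refine IsAlgebraic.mul ?_ ?_
    · refine (pru3_mem A ?_).isAlgebraic
      have : (n : Ω)⁻¹ = algebraMap ℚ Ω ((n : ℚ)⁻¹) := by simp
      rw [this]
      exact A.algebraMap_mem _
    · refine sum_induction _ (fun x => IsAlgebraic A x) (fun a b ha hb => ha.add hb)
        isAlgebraic_zero fun t _ => (halg t).mul (hε _).isAlgebraic
  rw [hJ 1]
  exact IsIntegral.sum _ fun k _ => (hN k (hNa k)).mul (hε _)

theorem alg_jac {m : ℕ} [NeZero m] (S : GS Ω m)
    (h : ∀ a b, a ≠ 0 → b ≠ 0 → a + b ≠ 0 → IsAlgebraic (Algebra.adjoin ℚ {S.τ}) (S.jj a b))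
    (a b : ZMod (2 * m)) : IsAlgebraic (Algebra.adjoin ℚ {S.τ}) (S.Jac a b) := by
  have h2 : (2 : Ω) ∈ Algebra.adjoin ℚ {S.τ} := ofNat_mem _ 2
  have h4 : (4 : Ω) ∈ Algebra.adjoin ℚ {S.τ} := ofNat_mem _ 4
  have h1 : (-1 : Ω) ∈ Algebra.adjoin ℚ {S.τ} := neg_mem (one_mem _)
  have hτ : S.τ ∈ Algebra.adjoin ℚ {S.τ} := Algebra.subset_adjoin rfl
  unfold GS.Jac
  split_ifs with hab ha
  · by_cases ha : a = 0
    · have : 2 * S.jj a b = -1 := by
        unfold GS.jj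
        rw [ha, zero_add, mul_div_assoc, div_self (S.g_ne b), mul_one, S.g0]
      rw [this]
      exact (pru3_mem _ h1).isAlgebraic
    · by_cases hb : b = 0
      · have : 2 * S.jj a b = -1 := by
          unfold GS.jj
          rw [hb, add_zero, mul_comm (S.g a), mul_div_assoc, div_self (S.g_ne a), mul_one, S.g0]
        rw [this]
        exact (pru3_mem _ h1).isAlgebraic
      · exact (pru3_mem _ h2).isAlgebraic.mul (h a b ha hb hab)
  · rw [S.s_val]
    exact (pru3_mem _ (neg_mem (pow_mem h1 _))).isAlgebraic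
  · exact (pru3_mem _ (sub_mem (mul_mem h4 hτ) h2)).isAlgebraic

theorem int_jj {m : ℕ} [NeZero m] (S : GS Ω m) {a b : ZMod (2 * m)} (hab : a + b ≠ 0)
    (h : IsIntegral (Algebra.adjoin ℚ {S.τ}) (S.Jac a b)) :
    IsIntegral (Algebra.adjoin ℚ {S.τ}) (S.jj a b) := by
  have e : S.jj a b = (2 : Ω)⁻¹ * S.Jac a b := by
    unfold GS.Jac
    rw [if_pos hab]
    field_simp
  rw [e]
  refine IsIntegral.mul (pru3_mem _ ?_) h
  have : (2 : Ω)⁻¹ = algebraMap ℚ Ω ((2 : ℚ)⁻¹) := by simp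
  rw [this]
  exact Subalgebra.algebraMap_mem _ _

end Pool.Agent.P.MP_111ca2_co.PR
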