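import Pool.Agent.P.MP_111ca2_co.PrDefs

/-! The valuation above `2` for which `τ` is infinitely divisible by `2`. -/

namespace Pool.Agent.P.MP_111ca2_co.PR

open Polynomial

variable {Ω : Type} [Field Ω] [CharZero Ω]

theorem exists_V {τ : Ω} (hτ : Transcendental ℚ τ) : ∃ V : ValuationSubring Ω,
    V.valuation 2 < 1 ∧ ∀ k : ℕ, V.valuation τ ≤ V.valuation 2 ^ k := by
  let T : Subring ℚ[X] := (Int.castRingHom ℚ).range.comap (constantCoeff : ℚ[X] →+* ℚ)
  let S : Subring Ω := T.map (aeval τ : ℚ[X] →ₐ[ℚ] Ω).toRingHom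
  have hinj : Function.Injective (aeval τ : ℚ[X] →ₐ[ℚ] Ω) := transcendental_iff_injective.1 hτ
  have hI : Ideal.span {(2 : S)} ≠ ⊤ := by
    rw [Ne, Ideal.span_singleton_eq_top]
    intro h
    obtain ⟨⟨y, p, hp, rfl⟩, hy⟩ := h.exists_right_inv
    obtain ⟨z, hz⟩ : constantCoeff p ∈ (Int.castRingHom ℚ).range := hp
    have h1 : (2 : Ω) * aeval τ p = 1 := congrArg Subtype.val hy
    have h2 : 2 * p = 1 := hinj (by rw [map_mul, map_ofNat, map_one, h1])
    have h3 : (2 : ℚ) * constantCoeff p = 1 := by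
      have := congrArg (constantCoeff : ℚ[X] →+* ℚ) h2
      rwa [map_mul, map_ofNat, map_one] at this
    rw [← hz, eq_intCast] at h3
    have h4 : 2 * z = 1 := by exact_mod_cast h3
    omega
  obtain ⟨V, hSV, hV⟩ := Ideal.image_subset_nonunits_valuationSubring _ hI
  have h2 : V.valuation 2 < 1 :=
    V.mem_nonunits_iff.1 (hV ⟨2, Ideal.mem_span_singleton_self _, rfl⟩)
  refine ⟨V, h2, fun k => ?_⟩
  have hm : τ / 2 ^ k ∈ S := by
    refine ⟨C (1 / 2 ^ k) * X, ⟨0, by simp⟩, ?_⟩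
    simp [div_eq_inv_mul]
  have h1 : V.valuation (τ / 2 ^ k) ≤ 1 := (V.valuation_le_one_iff _).2 (hSV hm)
  have h0 : (0 : V.ValueGroup) < V.valuation 2 ^ k :=
    pow_pos (zero_lt_iff.2 ((Valuation.ne_zero_iff _).2 two_ne_zero)) k
  rwa [map_div₀, map_pow, div_le_one₀ h0] at h1

omit [CharZero Ω] in
theorem le_one_of_odd_int (V : ValuationSubring Ω) (h2 : V.valuation 2 < 1) {τ x : Ω}
    (hτ : V.valuation τ ≤ 1) {N : ℤ} (hN : Odd N)
    (h : IsIntegral (Algebra.adjoin ℤ {τ}) ((N : Ω) * x)) : V.valuation x ≤ 1 := by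
  have hle : ∀ y ∈ Algebra.adjoin ℤ {τ}, y ∈ V := by
    intro y hy
    induction hy using Algebra.adjoin_induction with
    | mem y hy => rw [Set.mem_singleton_iff.1 hy]; exact (V.valuation_le_one_iff _).1 hτ
    | algebraMap r => simp
    | add _ _ _ _ h1 h2 => exact add_mem h1 h2
    | mul _ _ _ _ h1 h2 => exact mul_mem h1 h2
  let φ : Algebra.adjoin ℤ {τ} →+* V :=
    (Algebra.adjoin ℤ {τ}).val.toRingHom.codRestrict V (fun y => hle y y.2)
  have h1 : IsIntegral V ((N : Ω) * x) :=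
    IsIntegral.map_of_comp_eq φ (RingHom.id Ω) (by ext y; rfl) h
  obtain ⟨y, hy⟩ := IsIntegrallyClosed.isIntegral_iff.1 h1
  have h3 : V.valuation ((N : Ω) * x) ≤ 1 := by
    rw [← hy]
    exact (V.valuation_le_one_iff _).2 y.2
  obtain ⟨j, rfl⟩ := hN
  have hj : V.valuation (j : Ω) ≤ 1 := (V.valuation_le_one_iff _).2 (intCast_mem V j)
  have h4 : V.valuation ((2 * j + 1 : ℤ) : Ω) = 1 := by
    have : V.valuation (2 * (j : Ω)) < 1 := by
      rw [map_mul]
      exact lt_of_le_of_lt (mul_le_of_le_one_right' hj) h2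
    push_cast
    rw [add_comm]
    exact Valuation.map_one_add_of_lt _ this
  rwa [map_mul, h4, one_mul] at h3

end Pool.Agent.P.MP_111ca2_co.PR
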