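import Pool.Agent.P.MP_111ca2_co.PrG1

/-! Values of the Gauss sums when all Jacobi sums are integral. -/

namespace Pool.Agent.P.MP_111ca2_co.PR

open Finset

variable {Ω : Type} [Field Ω] {m : ℕ} [NeZero m] (S : GS Ω m)
  {Γ : Type} [LinearOrderedCommGroupWithZero Γ] (v : Valuation Ω Γ)

theorem GS.psi_le (hτ : v S.τ ≤ 1)
    (hj : ∀ a b, a ≠ 0 → b ≠ 0 → a + b ≠ 0 → v (S.jj a b) ≤ 1) (a b : ZMod (2 * m)) :
    S.psi v a * S.psi v b ≤ S.psi v (a + b) := by
  by_cases ha : a = 0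
  · rw [ha, S.psi_zero, one_mul, zero_add]
  by_cases hb : b = 0
  · rw [hb, S.psi_zero, mul_one, add_zero]
  by_cases hab : a + b = 0
  · rw [hab, S.psi_zero, eq_neg_of_add_eq_zero_right hab, S.psi_neg v ha]
    exact hτ
  have h := hj a b ha hb hab
  rw [GS.jj, map_div₀, map_mul, div_le_one₀ (zero_lt_iff.2 (S.v_g_ne v _))] at h
  rw [S.psi_of_ne v ha, S.psi_of_ne v hb, S.psi_of_ne v hab]
  exact h

theorem GS.le_psi (hτ : v S.τ ≤ 1)
    (hj : ∀ a b, a ≠ 0 → b ≠ 0 → a + b ≠ 0 → v (S.jj a b) ≤ 1) (a b : ZMod (2 * m)) :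
    v S.τ * S.psi v (a + b) ≤ S.psi v a * S.psi v b := by
  by_cases hb : b = 0
  · rw [hb, S.psi_zero, mul_one, add_zero]
    calc v S.τ * S.psi v a ≤ 1 * S.psi v a := by gcongr
      _ = S.psi v a := one_mul _
  have h := S.psi_le v hτ hj (a + b) (-b)
  rw [add_neg_cancel_right] at h
  calc v S.τ * S.psi v (a + b) = S.psi v (a + b) * S.psi v (-b) * S.psi v b := by
        rw [← S.psi_neg v hb]; ac_rfl
    _ ≤ S.psi v a * S.psi v b := by gcongr

theorem GS.psi_shift [CharZero Ω] (h2 : v 2 < 1)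
    (hj : ∀ a b, a ≠ 0 → b ≠ 0 → a + b ≠ 0 → v (S.jj a b) ≤ 1) (c : ZMod (2 * m)) :
    S.psi v (c + m) = S.psi v c * v (S.g m) ∨ S.psi v (c + m) * v (S.g m) = S.psi v c := by
  by_cases hc0 : c = 0
  · left
    rw [hc0, zero_add, S.psi_zero, one_mul, S.psi_of_ne v m_ne]
  by_cases hcm : c = m
  · right
    rw [hcm, m_add_m, S.psi_zero, one_mul, S.psi_of_ne v m_ne]
  have hcc : c + c ≠ 0 := fun h => ((add_self_eq_zero c).1 h).elim hc0 hcm
  have hcm' : c + (m : ZMod (2 * m)) ≠ 0 := fun h =>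
    hcm ((eq_neg_of_add_eq_zero_left h).trans neg_m)
  have hsum : c + (m : ZMod (2 * m)) + (c + m) = c + c := by
    linear_combination (m_add_m : (m : ZMod (2 * m)) + m = 0)
  obtain ⟨A, hA, hf⟩ := S.fold hcc
  have hg := S.g_ne (c + c)
  have hT : v (∑ a ∈ A, S.s a * S.jj a (c + c - a)) ≤ 1 := by
    refine v.map_sum_le fun a ha => ?_
    rw [map_mul, S.v_s, one_mul]
    refine hj a _ (hA a ha).1 (hA a ha).2 ?_
    rwa [add_sub_cancel]
  have hT2 : v (-(2 * ∑ a ∈ A, S.s a * S.jj a (c + c - a))) < 1 := by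
    rw [Valuation.map_neg, map_mul]
    calc v 2 * v (∑ a ∈ A, S.s a * S.jj a (c + c - a)) ≤ v 2 * 1 := by gcongr
      _ = v 2 := mul_one _
      _ < 1 := h2
  have hs : ∑ a ∈ A, S.s a * (S.g a * S.g (c + c - a)) =
      (∑ a ∈ A, S.s a * S.jj a (c + c - a)) * S.g (c + c) := by
    rw [sum_mul]
    refine sum_congr rfl fun a _ => ?_
    rw [GS.jj, add_sub_cancel, mul_assoc, div_mul_cancel₀ _ hg]
  have he : S.s c * S.jj c c + S.s (c + m) * S.jj (c + m) (c + m) =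
      1 + -(2 * ∑ a ∈ A, S.s a * S.jj a (c + c - a)) := by
    rw [hs] at hf
    apply mul_right_cancel₀ hg
    rw [GS.jj, GS.jj, hsum, add_mul, mul_assoc, mul_assoc, div_mul_cancel₀ _ hg,
      div_mul_cancel₀ _ hg]
    linear_combination hf
  have hv : v (S.s c * S.jj c c + S.s (c + m) * S.jj (c + m) (c + m)) = 1 := by
    rw [he]
    exact v.map_one_add_of_lt hT2
  have hd : v (S.g c) * v (S.g (c + m)) = v (S.g (c + c)) * v (S.g m) := by
    have := congrArg v (S.dup c)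
    rwa [map_mul, map_mul, map_mul, S.v_W, one_mul] at this
  have h1 := hj c c hc0 hc0 hcc
  have h1' := hj (c + m) (c + m) hcm' hcm' (hsum ▸ hcc)
  rw [S.psi_of_ne v hcm', S.psi_of_ne v hc0]
  rcases h1.eq_or_lt with h | h
  · left
    rw [GS.jj, map_div₀, map_mul, div_eq_one_iff_eq (S.v_g_ne v _)] at h
    rw [← h, mul_assoc] at hd
    exact mul_left_cancel₀ (S.v_g_ne v c) hd
  rcases h1'.eq_or_lt with h' | h'
  · right
    rw [GS.jj, map_div₀, map_mul, div_eq_one_iff_eq (S.v_g_ne v _), hsum] at h'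
    rw [← h', mul_assoc, mul_comm] at hd
    exact (mul_left_cancel₀ (S.v_g_ne v (c + m)) hd).symm
  exfalso
  have hlt : v (S.s c * S.jj c c + S.s (c + m) * S.jj (c + m) (c + m)) < 1 := by
    refine v.map_add_lt ?_ ?_
    · rwa [map_mul, S.v_s, one_mul]
    · rwa [map_mul, S.v_s, one_mul]
  exact absurd hv hlt.ne

end Pool.Agent.P.MP_111ca2_co.PR
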