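import Pool.Agent.P.MP_111ca2_co.PrDefs

/-! Two lemmas on functions with values in an ordered group. -/

namespace Pool.Agent.P.MP_111ca2_co.PR

open Finset

variable {Γ : Type} [LinearOrderedCommGroupWithZero Γ]

theorem triple {A : Type} [AddCommGroup A] (ψ : A → Γ) (μ : A) (κ : Γ) (hμ : μ + μ = 0)
    (h0 : ∀ a, ψ a ≠ 0) (hκ : κ ≠ 0)
    (hs : ∀ c, ψ (c + μ) = ψ c * κ ∨ ψ (c + μ) * κ = ψ c)
    (hu : ∀ a b, ψ a * ψ b ≤ ψ (a + b)) (hl : ∀ a b, κ ^ 2 * ψ (a + b) ≤ ψ a * ψ b) (a b : A) :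
    ψ a * ψ b = ψ (a + b) ∨ ψ a * ψ b = κ ^ 2 * ψ (a + b) := by
  have hk : 0 < κ := zero_lt_iff.2 hκ
  have e1 : a + μ + (b + μ) = a + b := by
    rw [add_add_add_comm, hμ, add_zero]
  have mixed : ∀ a b : A, ψ (a + μ) = ψ a * κ → ψ (b + μ) * κ = ψ b →
      ψ a * ψ b = ψ (a + b) ∨ ψ a * ψ b = κ ^ 2 * ψ (a + b) := by
    intro a b ha hb
    rcases hs (a + b) with h | h
    · right
      refine le_antisymm ?_ (hl a b)
      have := mul_le_mul_left (hu a (b + μ)) κ
      rw [← add_assoc, h, mul_assoc, hb] at this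
      calc ψ a * ψ b ≤ ψ (a + b) * κ * κ := this
        _ = κ ^ 2 * ψ (a + b) := by rw [sq]; ac_rfl
    · left
      refine le_antisymm (hu a b) ?_
      have := hl (a + μ) b
      rw [add_right_comm, ha] at this
      refine le_of_mul_le_mul_right ?_ hk
      calc ψ (a + b) * κ = κ ^ 2 * ψ (a + b + μ) := by rw [← h, sq]; ac_rfl
        _ ≤ ψ a * κ * ψ b := this
        _ = ψ a * ψ b * κ := by ac_rfl
  rcases hs a with ha | ha <;> rcases hs b with hb | hb
  · left
    refine le_antisymm (hu a b) ?_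
    have := hl (a + μ) (b + μ)
    rw [e1, ha, hb] at this
    refine le_of_mul_le_mul_left ?_ (pow_pos hk 2)
    calc κ ^ 2 * ψ (a + b) ≤ ψ a * κ * (ψ b * κ) := this
      _ = κ ^ 2 * (ψ a * ψ b) := by rw [sq]; ac_rfl
  · exact mixed a b ha hb
  · rw [mul_comm, add_comm]; exact mixed b a hb ha
  · right
    refine le_antisymm ?_ (hl a b)
    have := mul_le_mul_right (hu (a + μ) (b + μ)) (κ ^ 2)
    rw [e1] at this
    calc ψ a * ψ b = κ ^ 2 * (ψ (a + μ) * ψ (b + μ)) := by rw [← ha, ← hb, sq]; ac_rfl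
      _ ≤ _ := this

theorem exists_t {n : ℕ} [NeZero n] (hn : 1 < n) (ψ : ZMod n → Γ) (D : Γ) (hD0 : D ≠ 0) (hD : D < 1)
    (h0 : ψ 0 = 1) (hneg : ∀ a, a ≠ 0 → ψ a * ψ (-a) = D)
    (hd : ∀ a b, ψ a * ψ b = ψ (a + b) ∨ ψ a * ψ b = D * ψ (a + b)) :
    ∃ t : ZMod n, IsUnit t ∧ ψ t ^ n = D ∧ ∀ i : ℕ, i < n → ψ (i * t) = ψ t ^ i := by
  have hDpos : 0 < D := zero_lt_iff.2 hD0
  have inj : ∀ {i j : ℕ}, D ^ i = D ^ j → i = j := fun h =>
    (pow_right_strictAnti₀ hDpos hD).injective h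
  have hpow : ∀ (a : ZMod n) (j : ℕ), ∃ e : ℕ, ψ a ^ j = D ^ e * ψ (j * a) := by
    intro a j
    induction j with
    | zero => exact ⟨0, by simp [h0]⟩
    | succ j ih =>
      obtain ⟨e, he⟩ := ih
      rw [pow_succ, he, Nat.cast_succ, add_mul, one_mul, mul_assoc]
      rcases hd (j * a) a with h | h
      · exact ⟨e, by rw [h]⟩
      · exact ⟨e + 1, by rw [h, pow_succ, mul_assoc]⟩
  have hk : ∀ a : ZMod n, ∃ e : ℕ, ψ a ^ n = D ^ e := fun a => by
    obtain ⟨e, he⟩ := hpow a n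
    exact ⟨e, by simpa [h0] using he⟩
  choose k hk using hk
  have k0 : k 0 = 0 := inj (by rw [← hk, h0]; simp)
  have kadd : ∀ a b, k a + k b = k (a + b) ∨ k a + k b = k (a + b) + n := by
    intro a b
    rcases hd a b with h | h
    · left; apply inj; rw [pow_add, ← hk, ← hk, ← hk, ← mul_pow, h]
    · right; apply inj; rw [pow_add, pow_add, ← hk, ← hk, ← hk, ← mul_pow, h, mul_pow, mul_comm]
  have kneg : ∀ a, a ≠ 0 → k a + k (-a) = n := fun a ha => by
    apply inj; rw [pow_add, ← hk, ← hk, ← mul_pow, hneg a ha]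
  have kne : ∀ a, a ≠ 0 → k a ≠ 0 := by
    intro a ha h
    have : ∀ j : ℕ, k (j * a) = 0 := by
      intro j
      induction j with
      | zero => simpa using k0
      | succ j ih =>
        rw [Nat.cast_succ, add_mul, one_mul]
        rcases kadd (j * a) a with h1 | h1 <;> omega
    have h1 := this (n - 1)
    rw [Nat.cast_sub hn.le, ZMod.natCast_self, Nat.cast_one, zero_sub, neg_one_mul] at h1
    have := kneg a ha
    omega
  have klt : ∀ a, k a < n := by
    intro a
    by_cases ha : a = 0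
    · rw [ha, k0]; omega
    · have := kneg a ha
      have := kne (-a) (neg_ne_zero.2 ha)
      omega
  let φ : ZMod n →+ ZMod n := AddMonoidHom.mk' (fun a => (k a : ZMod n)) fun a b => by
    rcases kadd a b with h | h
    · rw [← h, Nat.cast_add]
    · have := congrArg (Nat.cast : ℕ → ZMod n) h
      simpa using this.symm
  have φinj : Function.Injective φ := by
    rw [injective_iff_map_eq_zero]
    intro a ha
    by_contra h
    have h1 : n ∣ k a := (ZMod.natCast_eq_zero_iff _ _).1 ha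
    have := Nat.le_of_dvd (Nat.pos_of_ne_zero (kne a h)) h1
    have := klt a
    omega
  obtain ⟨t, ht⟩ := Finite.surjective_of_injective φinj 1
  have φm : ∀ i : ℕ, φ (i * t) = i := fun i => by
    rw [← nsmul_eq_mul, map_nsmul, ht, nsmul_eq_mul, mul_one]
  have ki : ∀ i : ℕ, i < n → k (i * t) = i := fun i hi => by
    have := (ZMod.natCast_eq_natCast_iff' _ _ _).1 (φm i)
    rwa [Nat.mod_eq_of_lt (klt _), Nat.mod_eq_of_lt hi] at this
  have k1 : ψ t ^ n = D := by
    have := ki 1 hn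
    rw [Nat.cast_one, one_mul] at this
    rw [hk, this, pow_one]
  refine ⟨t, ?_, k1, fun i hi => ?_⟩
  · have : Function.Injective fun x : ZMod n => x * t := by
      intro x y hxy
      have := congrArg φ hxy
      simp only at this
      rw [← ZMod.natCast_zmod_val x, ← ZMod.natCast_zmod_val y, φm, φm] at this
      rw [← ZMod.natCast_zmod_val x, ← ZMod.natCast_zmod_val y, this]
    obtain ⟨x, hx⟩ := Finite.surjective_of_injective this 1
    exact IsUnit.of_mul_eq_one_right x hx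
  · refine pow_left_injective (NeZero.ne n) ?_
    simp only
    rw [hk, ki i hi, ← pow_mul, mul_comm, pow_mul, k1]

end Pool.Agent.P.MP_111ca2_co.PR
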