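import Pool.Agent.P.MP_111ca2_co.PrDefs

/-! The quotient of a valuation ring by the elements infinitely divisible by `2`. -/

namespace Pool.Agent.P.MP_111ca2_co.PR

open Finset

variable {Ω : Type} [Field Ω] [CharZero Ω]

/-- elements infinitely divisible by `2` -/
def prv3a_ideal (V : ValuationSubring Ω) : Ideal V where
  carrier := {x | ∀ k : ℕ, V.valuation x ≤ V.valuation 2 ^ k}
  add_mem' := fun {x y} hx hy k => by
    rw [AddMemClass.coe_add]
    exact V.valuation.map_add_le (hx k) (hy k)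
  zero_mem' := fun k => by simp
  smul_mem' := fun c x hx k => by
    rw [smul_eq_mul, MulMemClass.coe_mul, map_mul]
    exact (mul_le_of_le_one_left' (V.valuation_le_one c)).trans (hx k)

omit [CharZero Ω] in
theorem prv3a_mem (V : ValuationSubring Ω) (x : V) :
    x ∈ prv3a_ideal V ↔ ∀ k : ℕ, V.valuation x ≤ V.valuation 2 ^ k := Iff.rfl

theorem exists_quot (V : ValuationSubring Ω) (h2 : V.valuation 2 < 1) :
    ∃ (R : Type) (_ : CommRing R) (_ : IsDomain R) (_ : ValuationRing R) (π : V →+* R),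
      (2 : R) ≠ 0 ∧ ¬ IsUnit (2 : R) ∧
        ∀ x : V, (∀ k : ℕ, V.valuation x ≤ V.valuation 2 ^ k) → π x = 0 := by
  have h0 : 0 < V.valuation 2 := by
    rw [zero_lt_iff, Valuation.ne_zero_iff]
    exact two_ne_zero
  have hprime : (prv3a_ideal V).IsPrime := by
    refine ⟨fun h => ?_, fun {x y} hxy => ?_⟩
    · have h1 : (1 : V) ∈ prv3a_ideal V := by rw [h]; trivial
      have h3 := (prv3a_mem V 1).1 h1 1
      rw [OneMemClass.coe_one, map_one, pow_one] at h3
      exact absurd h2 (not_lt.2 h3)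
    · by_contra hne
      rw [not_or, prv3a_mem, prv3a_mem] at hne
      push Not at hne
      obtain ⟨⟨k, hk⟩, ⟨l, hl⟩⟩ := hne
      have h3 := (prv3a_mem V _).1 hxy (k + l)
      rw [MulMemClass.coe_mul, map_mul, pow_add] at h3
      exact absurd (mul_lt_mul'' hk hl zero_le zero_le) (not_lt.2 h3)
  have hc2 : ((2 : V) : Ω) = 2 := rfl
  refine ⟨V ⧸ prv3a_ideal V, inferInstance, inferInstance,
    Function.Surjective.valuationRing (Ideal.Quotient.mk _) Ideal.Quotient.mk_surjective,
    Ideal.Quotient.mk _, ?_, ?_, fun x hx => Ideal.Quotient.eq_zero_iff_mem.2 hx⟩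
  · intro h
    have h1 : Ideal.Quotient.mk (prv3a_ideal V) 2 = 0 := by rw [map_ofNat]; exact h
    have h3 := (prv3a_mem V _).1 (Ideal.Quotient.eq_zero_iff_mem.1 h1) 2
    rw [hc2, sq] at h3
    have h4 := mul_lt_mul_of_pos_left h2 h0
    rw [mul_one] at h4
    exact absurd h4 (not_lt.2 h3)
  · intro h
    obtain ⟨b, hb⟩ := h.exists_right_inv
    obtain ⟨a, rfl⟩ := Ideal.Quotient.mk_surjective b
    have h1 : Ideal.Quotient.mk (prv3a_ideal V) (1 + -(2 * a)) = 0 := by
      rw [map_add, map_neg, map_mul, map_ofNat, hb, map_one, add_neg_cancel]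
    have h3 := (prv3a_mem V _).1 (Ideal.Quotient.eq_zero_iff_mem.1 h1) 1
    have h4 : V.valuation (-(2 * (a : Ω))) < 1 := by
      rw [Valuation.map_neg, map_mul]
      exact lt_of_le_of_lt (mul_le_of_le_one_right' (V.valuation_le_one a)) h2
    have h5 : ((1 + -(2 * a) : V) : Ω) = 1 + -(2 * (a : Ω)) := rfl
    rw [h5, Valuation.map_one_add_of_lt _ h4, pow_one] at h3
    exact absurd h2 (not_lt.2 h3)

end Pool.Agent.P.MP_111ca2_co.PR
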