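import Pool.Agent.P.MP_111ca2_co.PrB

/-! The normalised Gauss sums along an extremal generator. -/

namespace Pool.Agent.P.MP_111ca2_co.PR

open Finset

variable {Ω : Type} [Field Ω] {m : ℕ} [NeZero m] (S : GS Ω m)
  {Γ : Type} [LinearOrderedCommGroupWithZero Γ] (v : Valuation Ω Γ)

theorem prv3b_odd {t : ZMod (2 * m)} (ht : IsUnit t) : ∃ k : ℕ, t.val = 2 * k + 1 := by
  have h : IsUnit ((t.val : ℕ) : ZMod (2 * m)) := by rwa [ZMod.natCast_zmod_val]
  rw [ZMod.isUnit_iff_coprime] at h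
  exact Nat.coprime_two_right.1 (Nat.Coprime.coprime_mul_right_right h)

theorem prv3b_s {t : ZMod (2 * m)} (ht : IsUnit t) (i : ℕ) : S.s (i * t) = (-1) ^ i := by
  obtain ⟨k, hk⟩ := prv3b_odd ht
  have h1 : S.s t = -1 := by rw [S.s_val, hk, pow_succ, pow_mul]; simp
  induction i with
  | zero => simp [S.s_zero]
  | succ i ih => rw [Nat.cast_succ, add_mul, one_mul, S.s_add, ih, h1, pow_succ]

theorem prv3b_m {t : ZMod (2 * m)} (ht : IsUnit t) : (m : ZMod (2 * m)) * t = m := by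
  obtain ⟨k, hk⟩ := prv3b_odd ht
  have h : t = 2 * (k : ZMod (2 * m)) + 1 := by
    rw [← ZMod.natCast_zmod_val t, hk]; push_cast; ring
  rw [h]
  linear_combination (k : ZMod (2 * m)) * (m_add_m (m := m))

omit [NeZero m] in
theorem prv3b_ne {t : ZMod (2 * m)} (ht : IsUnit t) {i : ℕ} (h0 : 0 < i) (h : i < 2 * m) :
    (i : ZMod (2 * m)) * t ≠ 0 := fun h' => cast_ne h0 h (ht.mul_left_eq_zero.1 h')

theorem prv3b_sum {M : Type} [AddCommMonoid M] {t : ZMod (2 * m)} (ht : IsUnit t)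
    (f : ZMod (2 * m) → M) : ∑ a, f a = ∑ i ∈ range (2 * m), f ((i : ZMod (2 * m)) * t) := by
  have h1 : ∑ a, f a = ∑ a, f (a * t) := (Equiv.sum_comp ht.unit.mulRight f).symm
  rw [h1]
  refine Finset.sum_nbij' (fun a => a.val) (fun i => (i : ZMod (2 * m))) ?_ ?_ ?_ ?_ ?_
  · intro a _
    exact mem_range.2 (ZMod.val_lt a)
  · intro i _
    exact mem_univ _
  · intro a _
    exact ZMod.natCast_zmod_val a
  · intro i hi
    exact ZMod.val_cast_of_lt (mem_range.1 hi)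
  · intro a _
    rw [ZMod.natCast_zmod_val]

theorem prv3b_split {M : Type} [AddCommMonoid M] {c N : ℕ} (h0 : 0 < c) (h : c < N) (f : ℕ → M) :
    ∑ i ∈ range N, f i = f 0 + ∑ i ∈ Ioo 0 c, f i + f c + ∑ i ∈ Ioo c N, f i := by
  rw [range_eq_Ico, ← sum_Ico_consecutive f (Nat.zero_le c) h.le,
    sum_eq_sum_Ico_succ_bot h0, sum_eq_sum_Ico_succ_bot h, Finset.Ico_add_one_left_eq_Ioo,
    Finset.Ico_add_one_left_eq_Ioo, ← add_assoc]

theorem GS.exists_pre {t : ZMod (2 * m)} (ht : IsUnit t) (hD : S.psi v t ^ (2 * m) = v S.τ)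
    (hi : ∀ i : ℕ, i < 2 * m → S.psi v (i * t) = S.psi v t ^ i) : Nonempty (Pre v (v S.τ) m) := by
  have hm : 0 < m := Nat.pos_of_ne_zero (NeZero.ne m)
  have ht0 : t ≠ 0 := by simpa using prv3b_ne ht (i := 1) one_pos (by omega)
  have hG : (-S.g t) ≠ 0 := neg_ne_zero.2 (S.g_ne t)
  have hvG : v (-S.g t) ≠ 0 := (map_ne_zero v).2 hG
  have hv : ∀ i : ℕ, 0 < i → i < 2 * m → v (S.g (i * t)) = v (-S.g t) ^ i := by
    intro i h0 h
    rw [← S.psi_of_ne v (prv3b_ne ht h0 h), hi i h, S.psi_of_ne v ht0, Valuation.map_neg]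
  have hD' : v (-S.g t) ^ (2 * m) = v S.τ := by
    rw [← hD, S.psi_of_ne v ht0, Valuation.map_neg]
  have h2m : ((2 * m : ℕ) : ZMod (2 * m)) = 0 := ZMod.natCast_self _
  refine ⟨⟨fun i => -S.g (i * t) / (-S.g t) ^ i, S.W t, ?_, S.W_pow t, ?_, ?_, ?_, ?_⟩⟩
  · intro i h0 h
    rw [map_div₀, Valuation.map_neg, hv i h0 h, map_pow, div_self (pow_ne_zero _ hvG)]
  · simp [S.g_ne t]
  · intro c h0 hc
    have e := S.eqn _ (prv3b_ne ht (i := 2 * c) (by omega) (by omega))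
    rw [prv3b_sum ht, prv3b_split (c := 2 * c) (by omega) (by omega)] at e
    simp only [prv3b_s S ht] at e
    have e1 : ∑ a ∈ Ioo 0 (2 * c), (-1 : Ω) ^ a * (-S.g ((a : ZMod (2 * m)) * t) / (-S.g t) ^ a *
        (-S.g (((2 * c - a : ℕ) : ZMod (2 * m)) * t) / (-S.g t) ^ (2 * c - a))) =
        (∑ a ∈ Ioo 0 (2 * c), (-1 : Ω) ^ a * (S.g ((a : ZMod (2 * m)) * t) *
          S.g (((2 * c : ℕ) : ZMod (2 * m)) * t - (a : ZMod (2 * m)) * t))) / (-S.g t) ^ (2 * c) := by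
      rw [Finset.sum_div]
      refine Finset.sum_congr rfl fun a ha => ?_
      have ha' := (mem_Ioo.1 ha).2.le
      rw [Nat.cast_sub ha', sub_mul, div_mul_div_comm, ← pow_add, Nat.add_sub_cancel' ha',
        neg_mul_neg, ← mul_div_assoc]
    have e2 : -S.g (((2 * c : ℕ) : ZMod (2 * m)) * t) / (-S.g t) ^ (2 * c) +
        (∑ a ∈ Ioo 0 (2 * c), (-1 : Ω) ^ a * (S.g ((a : ZMod (2 * m)) * t) *
          S.g (((2 * c : ℕ) : ZMod (2 * m)) * t - (a : ZMod (2 * m)) * t))) / (-S.g t) ^ (2 * c) =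
        -∑ a ∈ Ioo (2 * c) (2 * m), ((-1 : Ω) ^ a * (S.g ((a : ZMod (2 * m)) * t) *
          S.g (((2 * c : ℕ) : ZMod (2 * m)) * t - (a : ZMod (2 * m)) * t))) / (-S.g t) ^ (2 * c) := by
      rw [← Finset.sum_div, ← neg_div, ← add_div]
      congr 1
      have e3 : (-1 : Ω) ^ (2 * c) = 1 := by rw [pow_mul]; simp
      rw [e3] at e
      simp only [Nat.cast_zero, zero_mul, sub_zero, sub_self, pow_zero, one_mul] at e
      linear_combination e - S.g (((2 * c : ℕ) : ZMod (2 * m)) * t) * S.g0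
    show v (-S.g (((2 * c : ℕ) : ZMod (2 * m)) * t) / (-S.g t) ^ (2 * c) + _) ≤ _
    rw [e1, e2, Valuation.map_neg]
    refine Valuation.map_sum_le v fun a ha => le_of_eq ?_
    obtain ⟨ha1, ha2⟩ := mem_Ioo.1 ha
    have e4 : ((2 * c : ℕ) : ZMod (2 * m)) * t - (a : ZMod (2 * m)) * t =
        ((2 * m + 2 * c - a : ℕ) : ZMod (2 * m)) * t := by
      rw [Nat.cast_sub (by omega), Nat.cast_add, h2m, zero_add, sub_mul]
    rw [e4, map_div₀, map_mul, map_mul, map_pow, map_pow, Valuation.map_neg, map_one, one_pow,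
      one_mul, hv a (by omega) ha2, hv _ (by omega) (by omega), ← pow_add,
      show a + (2 * m + 2 * c - a) = 2 * m + 2 * c by omega, pow_add, hD',
      mul_div_assoc, div_self (pow_ne_zero _ hvG), mul_one]
  · intro a h0 ha
    have e := S.dup (a * t)
    have e1 : ((a + m : ℕ) : ZMod (2 * m)) * t = a * t + m := by
      rw [Nat.cast_add, add_mul, prv3b_m ht]
    have e2 : ((2 * a : ℕ) : ZMod (2 * m)) * t = a * t + a * t := by push_cast; ring
    rw [S.W_nat] at e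
    show -S.g (a * t) / _ * (-S.g (((a + m : ℕ) : ZMod (2 * m)) * t) / _) =
      _ * (-S.g (((2 * a : ℕ) : ZMod (2 * m)) * t) / _) * (-S.g ((m : ZMod (2 * m)) * t) / _)
    rw [e1, e2, prv3b_m ht, div_mul_div_comm, neg_mul_neg, e, mul_assoc (S.W t ^ a) (_ / _),
      div_mul_div_comm, neg_mul_neg, ← pow_add, ← pow_add,
      show a + (a + m) = 2 * a + m by omega, mul_assoc, mul_div_assoc]
  · intro a h0 ha
    have e := S.rfx (a * t) (prv3b_ne ht h0 ha)
    have e1 : ((2 * m - a : ℕ) : ZMod (2 * m)) * t = -(a * t) := by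
      rw [Nat.cast_sub ha.le, h2m, zero_sub, neg_mul]
    show -S.g (a * t) / _ * (-S.g (((2 * m - a : ℕ) : ZMod (2 * m)) * t) / _) =
      _ * (-S.g ((m : ZMod (2 * m)) * t) / _) ^ 2
    rw [e1, prv3b_m ht, div_mul_div_comm, neg_mul_neg, e, div_pow, neg_sq, S.g_m_sq, S.s_nat,
      prv3b_s S ht, ← pow_add, ← pow_mul, Nat.add_sub_cancel' ha.le, mul_comm m 2,
      ← mul_div_assoc, ← mul_assoc, ← pow_add, add_assoc, pow_add, ← two_mul, pow_mul]
    simp

end Pool.Agent.P.MP_111ca2_co.PR
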