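import Pool.Agent.P.MP_111ca2_co.PrDefs

/-! Reduction of the local system. -/

namespace Pool.Agent.P.MP_111ca2_co.PR

open Finset

theorem prv3c_unit {Ω : Type} [Field Ω] (V : ValuationSubring Ω) (x : Ω)
    (hx : V.valuation x = 1) : ∃ u : Vˣ, ((u : V) : Ω) = x := by
  have hmem : x ∈ V := (V.valuation_le_one_iff x).mp hx.le
  have hu : IsUnit (⟨x, hmem⟩ : V) := (V.valuation_eq_one_iff ⟨x, hmem⟩).mpr hx
  obtain ⟨u, hu⟩ := hu
  exact ⟨u, by rw [hu]⟩

theorem prv3c_inj {Ω : Type} [Field Ω] (V : ValuationSubring Ω) {u w : Vˣ}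
    (h : ((u : V) : Ω) = ((w : V) : Ω)) : u = w :=
  Units.ext (Subtype.ext h)

theorem loc_of_pre {Ω R : Type} [Field Ω] [CommRing R] (V : ValuationSubring Ω) (π : V →+* R)
    (h2 : (2 : R) ≠ 0) (h2u : ¬ IsUnit (2 : R)) {D : V.ValueGroup}
    (hπ : ∀ x : V, V.valuation x ≤ D → π x = 0) {m : ℕ} (hm : 0 < m) (P : Pre V.valuation D m) :
    Nonempty (Loc R m) := by
  have hY : ∀ i : ℕ, ∃ u : Vˣ, 0 < i → i < 2 * m → ((u : V) : Ω) = P.y i := by
    intro i
    by_cases h : 0 < i ∧ i < 2 * m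
    · obtain ⟨u, hu⟩ := prv3c_unit V (P.y i) (P.unit i h.1 h.2)
      exact ⟨u, fun _ _ => hu⟩
    · exact ⟨1, fun h1 h2 => absurd ⟨h1, h2⟩ h⟩
  choose Y hY using hY
  have hω : V.valuation P.ω = 1 := by
    have h1 : V.valuation P.ω ^ m = 1 := by rw [← map_pow, P.ωm, map_one]
    exact (pow_eq_one_iff_left hm.ne').mp h1
  obtain ⟨W, hW⟩ := prv3c_unit V P.ω hω
  have hneg : Units.map (π : V →* R) (-1) = -1 := by
    apply Units.ext
    simp
  refine ⟨{ z := fun i => Units.map (π : V →* R) (Y i), w := Units.map (π : V →* R) W,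
            two_ne := h2, two_nu := h2u, wm := ?_, z1 := ?_, star := ?_, dup := ?_, rfx := ?_ }⟩
  · have : W ^ m = 1 := by
      apply prv3c_inj V
      push_cast
      rw [hW, P.ωm]
    rw [← map_pow, this, map_one]
  · have : Y 1 = 1 := by
      apply prv3c_inj V
      rw [hY 1 one_pos (by omega), P.y1]
      simp
    rw [this, map_one]
  · intro c hc hcm
    have h1 := hπ ((Y (2 * c) : V) + ∑ a ∈ Ioo 0 (2 * c), (-1) ^ a * ((Y a : V) * Y (2 * c - a))) (by
      have h3 : (((Y (2 * c) : V) + ∑ a ∈ Ioo 0 (2 * c),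
          (-1) ^ a * ((Y a : V) * Y (2 * c - a)) : V) : Ω) =
          P.y (2 * c) + ∑ a ∈ Ioo 0 (2 * c), (-1) ^ a * (P.y a * P.y (2 * c - a)) := by
        push_cast
        rw [hY (2 * c) (by omega) (by omega)]
        congr 1
        refine Finset.sum_congr rfl fun a ha => ?_
        rw [Finset.mem_Ioo] at ha
        rw [hY a ha.1 (by omega), hY (2 * c - a) (by omega) (by omega)]
      rw [h3]
      exact P.star c hc hcm)
    rw [map_add, map_sum] at h1
    simpa using h1
  · intro a ha ham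
    have : Y a * Y (a + m) = W ^ a * Y (2 * a) * Y m := by
      apply prv3c_inj V
      push_cast
      rw [hY a ha (by omega), hY (a + m) (by omega) (by omega), hY (2 * a) (by omega) (by omega),
        hY m hm (by omega), hW]
      exact P.dup a ha ham
    simp only [← map_mul, ← map_pow, this]
  · intro a ha ham
    have : Y a * Y (2 * m - a) = (-1) ^ (a + m) * Y m ^ 2 := by
      apply prv3c_inj V
      push_cast
      rw [hY a ha ham, hY (2 * m - a) (by omega) (by omega), hY m hm (by omega)]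
      exact P.rfx a ha ham
    rw [← map_mul, this, map_mul, map_pow, map_pow, hneg]

end Pool.Agent.P.MP_111ca2_co.PR
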