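import Pool.Agent.P.MP_111ca2_co.PrU1c
import Pool.Agent.P.MP_111ca2_co.PrU3
import Pool.Agent.P.MP_111ca2_co.PrG1b
import Pool.Agent.P.MP_111ca2_co.PrG2
import Pool.Agent.P.MP_111ca2_co.PrG3
import Pool.Agent.P.MP_111ca2_co.PrV1
import Pool.Agent.P.MP_111ca2_co.PrV2a
import Pool.Agent.P.MP_111ca2_co.PrV2b
import Pool.Agent.P.MP_111ca2_co.PrV3a
import Pool.Agent.P.MP_111ca2_co.PrV3b
import Pool.Agent.P.MP_111ca2_co.PrV3c
import Pool.Agent.P.MP_111ca2_co.PrLoc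

/-! The system in an ultrapower has no solution for `m` other than `1, 2, 4`. -/

namespace Pool.Agent.P.MP_111ca2_co.PR

open Polynomial

theorem Ult.false_of {Ω : Type} [Field Ω] [CharZero Ω] {m : ℕ} [NeZero m] (S : Ult Ω m)
    (h1 : m ≠ 1) (h2 : m ≠ 2) (h4 : m ≠ 4) : False := by
  have hm := NeZero.pos m
  have htr : Transcendental ℚ S.τ := trans_of_sep S.O S.B S.τ0 S.inv_mem S.sep
  have hloc : ∀ a b, a ≠ 0 → b ≠ 0 → a + b ≠ 0 → ∃ f : ℤ[X], ¬ (2 : ℤ[X]) ∣ f ∧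
      IsIntegral (Algebra.adjoin ℤ {S.τ}) (aeval S.τ f * S.toGS.jj a b) := by
    intro a b ha hb hab
    refine int_loc _ _ fun V hV hτ => (V.valuation_le_one_iff _).1 (le_of_eq ?_)
    rw [GS.jj, map_div₀, map_mul, S.toGS.all_unit _ hV hτ ha, S.toGS.all_unit _ hV hτ hb,
      S.toGS.all_unit _ hV hτ hab, one_mul, div_one]
  have halg := alg_jac S.toGS fun a b ha hb hab => by
    obtain ⟨f, hf, h⟩ := hloc a b ha hb hab
    exact alg_of_int htr hf h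
  have hint : ∀ a b, IsIntegral (Algebra.adjoin ℚ {S.τ}) (S.toGS.Jac a b) := by
    intro a b
    obtain ⟨N, hN, hJ⟩ := S.int a b
    have := dft_int (Algebra.adjoin ℚ {S.τ}) S.ε (fun t => S.toGS.Jac (t * a) (t * b)) N S.ε_add
      S.ε_zero S.ε_sum hJ (fun t => halg _ _)
      (fun k hk => runge S.O S.B S.τ0 S.inv_mem S.τ_mem S.sep (hN k).1 (hN k).2 hk)
    simpa using this
  obtain ⟨V, hV, hτ⟩ := exists_V htr
  have hτ1 : V.valuation S.τ < 1 := lt_of_le_of_lt (by simpa using hτ 1) hV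
  have hj : ∀ a b, a ≠ 0 → b ≠ 0 → a + b ≠ 0 → V.valuation (S.toGS.jj a b) ≤ 1 := by
    intro a b ha hb hab
    obtain ⟨f, hf, h⟩ := hloc a b ha hb hab
    obtain ⟨N, hN, h'⟩ := odd_int htr hf h (int_jj S.toGS hab (hint a b))
    exact le_one_of_odd_int V hV hτ1.le hN h'
  have hd := triple (S.toGS.psi V.valuation) (m : ZMod (2 * m)) (V.valuation (S.g m)) m_add_m
    (S.toGS.psi_ne _) (S.toGS.v_g_ne _ _) (S.toGS.psi_shift _ hV hj) (S.toGS.psi_le _ hτ1.le hj)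
    (by rw [S.toGS.v_g_m]; exact S.toGS.le_psi _ hτ1.le hj)
  rw [S.toGS.v_g_m] at hd
  obtain ⟨t, ht, hD, hi⟩ := exists_t (by omega) (S.toGS.psi V.valuation) _
    ((_root_.map_ne_zero _).2 S.τ0) hτ1 (S.toGS.psi_zero _) (fun a ha => S.toGS.psi_neg _ ha) hd
  obtain ⟨P⟩ := S.toGS.exists_pre _ ht hD hi
  obtain ⟨R, _, _, _, π, a, b, c⟩ := exists_quot V hV
  obtain ⟨L⟩ := loc_of_pre V π a b (fun x hx => c x fun k => hx.trans (hτ k)) hm P
  exact L.false_of hm h1 h2 h4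

end Pool.Agent.P.MP_111ca2_co.PR
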