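import Pool.Agent.P.MP_111ca2_co.PrDefs

/-! Local system: first consequences. -/

namespace Pool.Agent.P.MP_111ca2_co.PR

open Finset

theorem prl1_fold {R : Type} [CommRing R] {c : ℕ} (h0 : 0 < c) (f : ℕ → R)
    (hf : ∀ j, j < c → f (2 * c - j) = f j) :
    ∑ a ∈ Ioo 0 (2 * c), f a = f c + 2 * ∑ j ∈ Ioo 0 c, f j := by
  have e : Ioo 0 (2 * c) = insert c (Ioo 0 c ∪ Ioo c (2 * c)) := by
    ext a; simp only [mem_Ioo, mem_insert, mem_union]; omega
  rw [e, sum_insert (by simp), sum_union (by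
    rw [disjoint_left]; intro a ha hb; simp only [mem_Ioo] at ha hb; omega)]
  have : ∑ a ∈ Ioo c (2 * c), f a = ∑ j ∈ Ioo 0 c, f j := by
    refine sum_nbij' (fun a => 2 * c - a) (fun a => 2 * c - a) ?_ ?_ ?_ ?_ ?_
    · intro a ha; simp only [mem_Ioo] at ha ⊢; omega
    · intro a ha; simp only [mem_Ioo] at ha ⊢; omega
    · intro a ha; simp only [mem_Ioo] at ha ⊢; omega
    · intro a ha; simp only [mem_Ioo] at ha ⊢; omega
    · intro a ha
      simp only [mem_Ioo] at ha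
      rw [← hf (2 * c - a) (by omega), show 2 * c - (2 * c - a) = a by omega]
  rw [this]; ring

namespace Loc

variable {R : Type} [CommRing R] {m : ℕ} (L : Loc R m)

theorem prl1_star {c : ℕ} (h0 : 0 < c) (hc : c < m) :
    (L.z (2 * c) : R) + (-1) ^ c * (L.z c : R) ^ 2 +
      2 * ∑ j ∈ Ioo 0 c, (-1) ^ j * ((L.z j : R) * L.z (2 * c - j)) = 0 := by
  have := L.star c h0 hc
  rw [prl1_fold h0 (fun a => (-1) ^ a * ((L.z a : R) * L.z (2 * c - a))) (fun j hj => by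
    have e : (-1 : R) ^ (2 * c - j) = (-1) ^ j := by
      have h1 : (-1 : R) ^ (2 * c - j) * (-1) ^ j = 1 := by
        rw [← pow_add, show 2 * c - j + j = 2 * c by omega, pow_mul]; simp
      have h2 : (-1 : R) ^ j * (-1) ^ j = 1 := by rw [← mul_pow]; simp
      linear_combination (-1) ^ j * h1 - (-1) ^ (2 * c - j) * h2
    simp only [e, show 2 * c - (2 * c - j) = j by omega]; ring)] at this
  simp only [show 2 * c - c = c by omega] at this
  linear_combination this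

theorem star1 {c : ℕ} (h0 : 0 < c) (hc : c < m) :
    1 + (-1) ^ c * (((L.D c)⁻¹ : Rˣ) : R) + 2 * ∑ j ∈ Ioo 0 c, (-1) ^ j * (L.Z c j : R) = 0 := by
  have h := L.prl1_star h0 hc
  have e : ∑ j ∈ Ioo 0 c, (-1) ^ j * (L.Z c j : R) =
      (∑ j ∈ Ioo 0 c, (-1) ^ j * ((L.z j : R) * L.z (2 * c - j))) * ((L.z (2 * c))⁻¹ : Rˣ) := by
    rw [sum_mul]
    refine sum_congr rfl fun j _ => ?_
    simp only [Z, div_eq_mul_inv, Units.val_mul]; ring
  have e2 : (((L.D c)⁻¹ : Rˣ) : R) = (L.z c : R) ^ 2 * ((L.z (2 * c))⁻¹ : Rˣ) := by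
    rw [D, inv_div, div_eq_mul_inv, Units.val_mul, Units.val_pow_eq_pow_val]
  rw [e, e2]
  linear_combination (((L.z (2 * c))⁻¹ : Rˣ) : R) * h - (L.z (2 * c)).mul_inv

theorem star0 {c : ℕ} (h0 : 0 < c) (hc : c < m) : (L.D c : R) + (-1) ^ c +
    2 * ∑ j ∈ Ioo 0 c, (-1) ^ j * ((L.z j * L.z (2 * c - j) / L.z c ^ 2 : Rˣ) : R) = 0 := by
  have h := L.prl1_star h0 hc
  have e : ∑ j ∈ Ioo 0 c, (-1) ^ j * ((L.z j * L.z (2 * c - j) / L.z c ^ 2 : Rˣ) : R) =
      (∑ j ∈ Ioo 0 c, (-1) ^ j * ((L.z j : R) * L.z (2 * c - j))) * ((L.z c ^ 2)⁻¹ : Rˣ) := by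
    rw [sum_mul]
    refine sum_congr rfl fun j _ => ?_
    simp only [div_eq_mul_inv, Units.val_mul]; ring
  have e2 : (L.D c : R) = (L.z (2 * c) : R) * ((L.z c ^ 2)⁻¹ : Rˣ) := by
    rw [D, div_eq_mul_inv, Units.val_mul]
  have e3 := (L.z c ^ 2).mul_inv
  rw [Units.val_pow_eq_pow_val] at e3
  rw [e, e2]
  linear_combination (((L.z c ^ 2)⁻¹ : Rˣ) : R) * h - (-1) ^ c * e3

theorem z_two (hm : 1 < m) : L.z 2 = 1 := by
  have h := L.prl1_star one_pos hm
  rw [show Ioo 0 1 = (∅ : Finset ℕ) by decide, sum_empty, L.z1] at h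
  ext
  simp only [Units.val_one, mul_one] at h ⊢
  linear_combination h

theorem D_one (hm : 1 < m) : L.D 1 = 1 := by
  rw [D, mul_one, L.z_two hm, L.z1]; simp

theorem D_cong {a : ℕ} (h0 : 0 < a) (ha : a < m) : (2 : R) ∣ (L.D a : R) - 1 := by
  have h := L.star0 h0 ha
  generalize ∑ j ∈ Ioo 0 a, (-1) ^ j * ((L.z j * L.z (2 * a - j) / L.z a ^ 2 : Rˣ) : R) = T at h
  rcases neg_one_pow_eq_or R a with e | e <;> rw [e] at h
  · exact ⟨-1 - T, by linear_combination h⟩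
  · exact ⟨-T, by linear_combination h⟩

theorem z_dbl (a : ℕ) : L.z (2 * a) = L.D a * L.z a ^ 2 := by
  rw [D, div_mul_cancel]

theorem up {a : ℕ} (h0 : 0 < a) (ha : a < m) : L.z (a + m) = L.w ^ a * L.D a * L.z a * L.z m := by
  refine mul_left_cancel (a := L.z a) ?_
  rw [L.dup a h0 ha, L.z_dbl, sq]; ac_rfl

theorem down {a : ℕ} (h0 : 0 < a) (ha : a < m) :
    L.z a * L.z (m - a) * L.w ^ a * L.D a = (-1) ^ a * L.z m := by
  have h := L.rfx (a + m) (by omega) (by omega)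
  rw [L.up h0 ha, show 2 * m - (a + m) = m - a by omega, show a + m + m = a + 2 * m by omega,
    pow_add, pow_mul, neg_one_sq, one_pow, mul_one] at h
  refine mul_right_cancel (b := L.z m) ?_
  rw [mul_assoc ((-1) ^ a), ← sq, ← h]; ac_rfl

end Loc

end Pool.Agent.P.MP_111ca2_co.PR
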