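import Pool.Agent.P.MP_111ca2_co.PrL1

/-! Local system: the reflected equations. -/

namespace Pool.Agent.P.MP_111ca2_co.PR

open Finset

theorem prl2_sq {R : Type} [CommRing R] :
    (2 : ℕ) • Additive.ofMul (-1 : Rˣ) = 0 := by
  rw [← ofMul_pow]
  simp

namespace Loc

variable {R : Type} [CommRing R] {m : ℕ} (L : Loc R m)

theorem prl2_ZU {c j : ℕ} (h0 : 0 < c) (hc : c < m) (hj : j < 2 * (m - c)) :
    (-1) ^ j * L.Z (m - c) j = L.U c j := by
  have h1 := L.rfx (2 * c) (by omega) (by omega)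
  have h2 := L.rfx (2 * c + j) (by omega) (by omega)
  have e1 : 2 * m - 2 * c = 2 * (m - c) := by omega
  have e2 : 2 * m - (2 * c + j) = 2 * (m - c) - j := by omega
  rw [e1] at h1
  rw [e2] at h2
  have hs := prl2_sq (R := R)
  have h1' := congrArg Additive.ofMul h1
  have h2' := congrArg Additive.ofMul h2
  apply Additive.ofMul.injective
  simp only [Z, U, ofMul_mul, ofMul_div, ofMul_pow] at h1' h2' ⊢
  linear_combination (norm := module) h2' - h1' + j • hs

theorem prl2_mid {c : ℕ} (h0 : 0 < c) (hc : c < m) :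
    L.U c (m - c) = (-1) ^ c * (L.w ^ (2 * c) * L.D c)⁻¹ := by
  have h1 := L.down h0 hc
  have h2 := L.up h0 hc
  have h3 := L.z_dbl c
  have e1 : 2 * c + (m - c) = c + m := by omega
  have h1' := congrArg Additive.ofMul h1
  have h2' := congrArg Additive.ofMul h2
  have h3' := congrArg Additive.ofMul h3
  apply Additive.ofMul.injective
  simp only [U, e1, ofMul_mul, ofMul_div, ofMul_pow, ofMul_inv] at h1' h2' h3' ⊢
  linear_combination (norm := module) h1' - h2' + h3'

theorem star2 {c : ℕ} (h0 : 0 < c) (hc : c < m) :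
    1 + (-1) ^ c * (((L.w ^ (2 * c) * L.D c)⁻¹ : Rˣ) : R) +
      2 * ∑ a ∈ Ioo 0 (m - c), (L.U c a : R) = 0 := by
  have h := L.star1 (c := m - c) (by omega) (by omega)
  have hZ : L.Z (m - c) (m - c) = (L.D (m - c))⁻¹ := by
    have e : 2 * (m - c) - (m - c) = m - c := by omega
    simp only [Z, D, e, inv_div, pow_two]
  have h1 : (-1) ^ (m - c) * (L.D (m - c))⁻¹ = (-1) ^ c * (L.w ^ (2 * c) * L.D c)⁻¹ := by
    rw [← hZ, L.prl2_ZU h0 hc (by omega), L.prl2_mid h0 hc]
  have h2 := congrArg (fun u : Rˣ => (u : R)) h1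
  simp only [Units.val_mul, Units.val_pow_eq_pow_val, Units.val_neg, Units.val_one] at h2
  have h3 : ∑ j ∈ Ioo 0 (m - c), (-1) ^ j * (L.Z (m - c) j : R) =
      ∑ a ∈ Ioo 0 (m - c), (L.U c a : R) := by
    refine sum_congr rfl fun j hj => ?_
    have hj' := (mem_Ioo.1 hj).2
    rw [← L.prl2_ZU h0 hc (j := j) (by omega)]
    simp only [Units.val_mul, Units.val_pow_eq_pow_val, Units.val_neg, Units.val_one]
  rw [h2, h3] at h
  exact h

theorem U_sym {c a : ℕ} (h0 : 0 < a) (ha : a + 2 * c < m) :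
    L.U c (m - 2 * c - a) = L.U c a * L.D a / (L.w ^ (2 * c) * L.D (a + 2 * c)) := by
  have h1 := L.down h0 (by omega)
  have h2 := L.down (a := a + 2 * c) (by omega) ha
  have e1 : m - 2 * c - a = m - (a + 2 * c) := by omega
  have e2 : 2 * c + (m - (a + 2 * c)) = m - a := by omega
  have e3 : 2 * c + a = a + 2 * c := by omega
  have hs := prl2_sq (R := R)
  have h1' := congrArg Additive.ofMul h1
  have h2' := congrArg Additive.ofMul h2
  apply Additive.ofMul.injective
  simp only [U, e1, e2, e3, ofMul_mul, ofMul_div, ofMul_pow] at h1' h2' ⊢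
  linear_combination (norm := module) h2' - h1' + c • hs

theorem U_end {c : ℕ} (h0 : 0 < c) (hc : 2 * c < m) :
    L.U c (m - 2 * c) = (L.w ^ (2 * c) * L.D (2 * c))⁻¹ := by
  have h1 := L.down (a := 2 * c) (by omega) hc
  have e1 : 2 * c + (m - 2 * c) = m := by omega
  have hs := prl2_sq (R := R)
  have h1' := congrArg Additive.ofMul h1
  apply Additive.ofMul.injective
  simp only [U, e1, ofMul_mul, ofMul_div, ofMul_pow, ofMul_inv] at h1' ⊢
  linear_combination (norm := module) h1' + c • hs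

theorem U_top {c j : ℕ} (h0 : 0 < j) (hj : j < 2 * c) (hc : 2 * c < m) :
    L.U c (m - j) = (-1) ^ j * (L.w ^ (2 * c) * (L.Z c j * L.D j * L.D (2 * c - j)))⁻¹ := by
  obtain ⟨i, hi⟩ : ∃ i, 2 * c = j + i := ⟨2 * c - j, by omega⟩
  have h1 := L.down h0 (by omega)
  have h2 := L.up (a := i) (by omega) (by omega)
  have e1 : 2 * c + (m - j) = i + m := by omega
  have e2 : 2 * c - j = i := by omega
  have h3 : L.w ^ (2 * c) = L.w ^ j * L.w ^ i := by rw [hi, pow_add]
  have h1' := congrArg Additive.ofMul h1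
  have h2' := congrArg Additive.ofMul h2
  apply Additive.ofMul.injective
  simp only [U, Z, e1, e2, h3, ofMul_mul, ofMul_div, ofMul_pow, ofMul_inv] at h1' h2' ⊢
  linear_combination (norm := module) h1' - h2'

end Loc

namespace Loc

variable {R : Type} [CommRing R] {M : ℕ} (L : Loc R (2 * M))

theorem neg_w_pow (hM : 0 < M) : (-L.w) ^ M = 1 := by
  have h1 := L.down (a := M) hM (by omega)
  have h2 := L.z_dbl M
  have e1 : 2 * M - M = M := by omega
  have hs := prl2_sq (R := R)
  have h1' := congrArg Additive.ofMul h1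
  have h2' := congrArg Additive.ofMul h2
  rw [neg_eq_neg_one_mul]
  apply Additive.ofMul.injective
  simp only [e1, ofMul_mul, ofMul_pow, ofMul_one] at h1' h2' ⊢
  linear_combination (norm := module) h1' + h2' + M • hs

theorem U_mid (hw : L.w ^ 2 = 1) {c : ℕ} (h0 : 0 < c) (hc : c < M) :
    L.U c (M - c) = (-L.w) ^ c / L.D (2 * c) := by
  obtain ⟨d, hd⟩ : ∃ d, M = c + d := ⟨M - c, by omega⟩
  have e0 : M - c = d := by omega
  have h1 := L.down (a := d) (by omega) (by omega)
  have h2 := L.z_dbl d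
  have h3 := L.down (a := 2 * c) (by omega) (by omega)
  have h4 := L.neg_w_pow (by omega)
  have e1 : 2 * M - d = 2 * c + d := by omega
  have e2 : 2 * M - 2 * c = 2 * d := by omega
  have h5 : (-L.w) ^ M = (-L.w) ^ c * (-L.w) ^ d := by rw [← pow_add, ← hd]
  rw [h5, neg_eq_neg_one_mul] at h4
  rw [e1] at h1
  rw [e2] at h3
  have hs := prl2_sq (R := R)
  have h1' := congrArg Additive.ofMul h1
  have h2' := congrArg Additive.ofMul h2
  have h3' := congrArg Additive.ofMul h3
  have h4' := congrArg Additive.ofMul h4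
  have hw' := congrArg Additive.ofMul hw
  rw [e0, neg_eq_neg_one_mul]
  apply Additive.ofMul.injective
  simp only [U, ofMul_mul, ofMul_div, ofMul_pow, ofMul_one] at h1' h2' h3' h4' hw' ⊢
  linear_combination (norm := module) h3' - h1' - h2' + h4' - (2 * c) • hw' - d • hs

end Loc

end Pool.Agent.P.MP_111ca2_co.PR
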