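import Pool.Agent.P.MP_111ca2_co.PrL2

/-! Local system: odd `m`. -/

namespace Pool.Agent.P.MP_111ca2_co.PR

open Finset

variable {R : Type} [CommRing R] [IsDomain R] [ValuationRing R]

theorem prl3_unit (h2 : ¬ IsUnit (2 : R)) {x : R} (hx : (2 : R) ∣ x - 1) : IsUnit x := by
  obtain ⟨y, hy⟩ := hx
  rcases IsLocalRing.isUnit_or_isUnit_one_sub_self x with h | h
  · exact h
  · have : 1 - x = 2 * (-y) := by linear_combination -hy
    rw [this] at h
    exact absurd (isUnit_of_mul_isUnit_left h) h2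

theorem prl3_w {m : ℕ} (h2 : ¬ IsUnit (2 : R)) (hm : Odd m) {w : R} (hw : w ^ m = 1)
    (h : (2 : R) ∣ w ^ 2 - 1) : w = 1 := by
  obtain ⟨j, rfl⟩ := hm
  have h1 : (2 : R) ∣ w - 1 := by
    have a : (2 : R) ∣ (w ^ 2) ^ j - 1 := by
      have := sub_dvd_pow_sub_pow (w ^ 2) 1 j
      rw [one_pow] at this
      exact h.trans this
    have b : w - 1 = -(w * ((w ^ 2) ^ j - 1)) := by linear_combination hw
    rw [b]
    exact (a.mul_left w).neg_right
  have h3 : (2 : R) ∣ ∑ i ∈ range (2 * j + 1), w ^ i - 1 := by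
    have a : (2 : R) ∣ ∑ i ∈ range (2 * j + 1), (w ^ i - 1) := dvd_sum fun i _ => by
      have := sub_dvd_pow_sub_pow w 1 i
      rw [one_pow] at this
      exact h1.trans this
    rw [sum_sub_distrib, sum_const, card_range, nsmul_eq_mul, mul_one] at a
    have b : ∑ i ∈ range (2 * j + 1), w ^ i - 1 =
        (∑ i ∈ range (2 * j + 1), w ^ i - ((2 * j + 1 : ℕ) : R)) + 2 * j := by
      push_cast
      ring
    rw [b]
    exact a.add (dvd_mul_right _ _)
  have h4 := geom_sum_mul w (2 * j + 1)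
  rw [hw, sub_self] at h4
  exact sub_eq_zero.1 ((prl3_unit h2 h3).mul_right_eq_zero.1 h4)

theorem Loc.odd_false {m : ℕ} (L : Loc R m) (hm : Odd m) (h3 : 3 ≤ m) : False := by
  have hs := L.star2 (c := 1) one_pos (by omega)
  rw [L.D_one (by omega), mul_one, mul_one, pow_one] at hs
  have hw : L.w = 1 := by
    refine Units.ext (prl3_w L.two_nu hm (by rw [← Units.val_pow_eq_pow_val, L.wm]; rfl) ?_)
    have e : ((L.w ^ 2 : Rˣ) : R) * (((L.w ^ 2)⁻¹ : Rˣ) : R) = 1 := Units.mul_inv _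
    rw [← Units.val_pow_eq_pow_val]
    exact ⟨-((L.w ^ 2 : Rˣ) * ∑ a ∈ Ioo 0 (m - 1), (L.U 1 a : R)), by
      linear_combination ((L.w ^ 2 : Rˣ) : R) * hs + e⟩
  have hT : ∑ a ∈ Ioo 0 (m - 1), (L.U 1 a : R) = 0 := by
    rw [hw, one_pow, inv_one, Units.val_one] at hs
    exact (mul_eq_zero.1 (show 2 * ∑ a ∈ Ioo 0 (m - 1), (L.U 1 a : R) = 0 by
      linear_combination hs)).resolve_left L.two_ne
  have hI : Ioo 0 (m - 1) = insert (m - 2) (Ioo 0 (m - 2)) := by
    ext a
    simp only [mem_Ioo, mem_insert]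
    omega
  rw [hI, sum_insert (by simp)] at hT
  set π := Ideal.Quotient.mk (Ideal.span {(2 : R)}) with hπ
  have hz : ∀ x : R, π x = 0 ↔ (2 : R) ∣ x := fun x => by
    rw [hπ, Ideal.Quotient.eq_zero_iff_mem, Ideal.mem_span_singleton]
  have hD : ∀ a, 0 < a → a < m → π (L.D a) = 1 := fun a h0 ha => by
    have := (hz _).2 (L.D_cong h0 ha)
    rwa [map_sub, map_one, sub_eq_zero] at this
  have h0 : ∑ a ∈ Ioo 0 (m - 2), π (L.U 1 a) = 0 := by
    refine sum_involution (fun a _ => m - 2 - a) ?_ ?_ ?_ ?_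
    · intro a ha
      rw [mem_Ioo] at ha
      have e := L.U_sym (c := 1) ha.1 (by omega)
      rw [hw, one_pow, one_mul, eq_div_iff_mul_eq'] at e
      have e' := congrArg (fun u : Rˣ => π (u : R)) e
      simp only [Units.val_mul, map_mul, mul_one] at e'
      rw [hD a ha.1 (by omega), hD (a + 2) (by omega) (by omega), mul_one, mul_one] at e'
      rw [e', ← map_add, hz]
      exact ⟨_, (two_mul _).symm⟩
    · intro a ha _
      rw [mem_Ioo] at ha
      obtain ⟨j, rfl⟩ := hm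
      omega
    · intro a ha
      rw [mem_Ioo] at ha ⊢
      omega
    · intro a ha
      rw [mem_Ioo] at ha
      omega
  have h1 := congrArg π hT
  rw [map_add, map_sum, h0, add_zero, map_zero, hz] at h1
  exact L.two_nu (isUnit_of_dvd_unit h1 (Units.isUnit _))

end Pool.Agent.P.MP_111ca2_co.PR
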