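import Pool.Agent.P.MP_111ca2_co.PrL2

/-! Local system: the root of unity is a sign. -/

namespace Pool.Agent.P.MP_111ca2_co.PR

open Finset

variable {R : Type} [CommRing R] [IsDomain R] [ValuationRing R]

theorem prl4_two (h : ¬ IsUnit (2 : R)) : (2 : IsLocalRing.ResidueField R) = 0 := by
  have h1 : IsLocalRing.residue R 2 = 0 :=
    (IsLocalRing.residue_eq_zero_iff _).2 ((IsLocalRing.mem_maximalIdeal _).2 h)
  rwa [map_ofNat] at h1

theorem prl4_dvd (h : ¬ IsUnit (2 : R)) {x : R} (hx : (2 : R) ∣ x - 1) :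
    IsLocalRing.residue R x = 1 := by
  obtain ⟨y, hy⟩ := hx
  have : x = 1 + 2 * y := by linear_combination hy
  rw [this, map_add, map_mul, map_ofNat, prl4_two h, map_one, zero_mul, add_zero]

theorem prl4_root (h2 : (2 : R) ≠ 0) (h : ¬ IsUnit (2 : R)) (N : ℕ) :
    ∀ u : R, 0 < N → u ^ N = 1 → (4 : R) ∣ u - 1 → u = 1 := by
  induction N using Nat.strong_induction_on with
  | _ N ih =>
    intro u hN hu h4
    rcases Nat.even_or_odd' N with ⟨n, rfl | rfl⟩
    · have hn : 0 < n := by omega
      have h5 : u ^ 2 = 1 := by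
        refine ih n (by omega) (u ^ 2) hn (by rw [← pow_mul, hu]) ?_
        have : u ^ 2 - 1 = (u - 1) * (u + 1) := by ring
        rw [this]
        exact h4.mul_right _
      rcases sq_eq_one_iff.1 h5 with h6 | h6
      · exact h6
      · exfalso
        obtain ⟨y, hy⟩ := h4
        rw [h6] at hy
        have h7 : (2 : R) * (2 * (-y) - 1) = 0 := by linear_combination hy
        rcases mul_eq_zero.1 h7 with h8 | h8
        · exact h2 h8
        · exact h (IsUnit.of_mul_eq_one (-y) (by linear_combination h8))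
    · have h5 : IsLocalRing.residue R u = 1 := by
        refine prl4_dvd h (Dvd.dvd.trans ⟨2, by norm_num⟩ h4)
      have h6 : (∑ i ∈ range (2 * n + 1), u ^ i) * (u - 1) = 0 := by
        rw [geom_sum_mul, hu, sub_self]
      rcases mul_eq_zero.1 h6 with h7 | h7
      · exfalso
        have h8 := congrArg (IsLocalRing.residue R) h7
        rw [map_sum, map_zero] at h8
        simp only [map_pow, h5, one_pow, sum_const, card_range, nsmul_eq_mul, mul_one] at h8
        push_cast at h8
        rw [prl4_two h, zero_mul, zero_add] at h8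
        exact one_ne_zero h8
      · exact sub_eq_zero.1 h7

theorem prl4_sq {k : Type} [Field k] (h : (2 : k) = 0) {x : k} (hx : x ^ 2 = 1) : x = 1 := by
  have h1 : (x - 1) ^ 2 = 0 := by linear_combination hx + (1 - x) * h
  exact sub_eq_zero.1 (pow_eq_zero_iff (two_ne_zero) |>.1 h1)

theorem Loc.w_sq {M : ℕ} (L : Loc R (2 * M)) (hM : 2 ≤ M) : L.w ^ 2 = 1 := by
  have hs := L.star2 (c := 1) one_pos (by omega)
  rw [L.D_one (by omega), mul_one, mul_one, pow_one] at hs
  set T := ∑ a ∈ Ioo 0 (2 * M - 1), (L.U 1 a : R) with hT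
  have hinv : ((L.w : R) ^ 2) * (((L.w ^ 2)⁻¹ : Rˣ) : R) = 1 := by
    rw [← Units.val_pow_eq_pow_val, Units.mul_inv]
  have hw2 : (L.w : R) ^ 2 - 1 = 2 * (-((L.w : R) ^ 2 * T)) := by
    linear_combination ((L.w : R) ^ 2) * hs + hinv
  have hwm : (L.w : R) ^ (2 * M) = 1 := by
    rw [← Units.val_pow_eq_pow_val, L.wm, Units.val_one]
  have hw4 : ((L.w : R) ^ 2) ^ 2 = 1 := by
    refine prl4_root L.two_ne L.two_nu M _ (by omega) ?_ ?_
    · rw [← pow_mul, ← pow_mul, pow_mul', hwm, one_pow]
    · set y := -((L.w : R) ^ 2 * T)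
      refine ⟨y + y ^ 2, ?_⟩
      have : (L.w : R) ^ 2 = 1 + 2 * y := by linear_combination hw2
      rw [this]; ring
  rcases sq_eq_one_iff.1 hw4 with h1 | h1
  · exact Units.ext (by rw [Units.val_pow_eq_pow_val, h1, Units.val_one])
  exfalso
  have hT1 : T = -1 := by
    have h2 : (2 : R) * (T + 1) = 0 := by
      rw [h1] at hw2
      linear_combination -hw2
    rcases mul_eq_zero.1 h2 with h3 | h3
    · exact absurd h3 L.two_ne
    · linear_combination h3
  have h2 := prl4_two L.two_nu
  let ψ : Rˣ →* IsLocalRing.ResidueField R :=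
    (IsLocalRing.residue R : R →* IsLocalRing.ResidueField R).comp (Units.coeHom R)
  have hψ : ∀ u : Rˣ, ψ u = IsLocalRing.residue R u := fun u => rfl
  have hψ0 : ∀ u : Rˣ, ψ u ≠ 0 := fun u => (u.isUnit.map (IsLocalRing.residue R)).ne_zero
  have hD : ∀ a, 0 < a → a < 2 * M → ψ (L.D a) = 1 := fun a h0 ha =>
    prl4_dvd L.two_nu (L.D_cong h0 ha)
  have hw : ψ L.w ^ 2 = 1 := by
    rw [hψ, ← map_pow]
    exact prl4_dvd L.two_nu ⟨_, hw2⟩
  have hend : ψ (L.U 1 (2 * M - 2)) = 1 := by
    have := congrArg ψ (L.U_end (c := 1) one_pos (by omega))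
    rw [map_inv, map_mul, map_pow, mul_one, hw, hD 2 (by omega) (by omega)] at this
    simpa using this
  have hsym : ∀ a, 0 < a → a + 2 < 2 * M → ψ (L.U 1 (2 * M - 2 - a)) = ψ (L.U 1 a) := by
    intro a h0 ha
    have := congrArg ψ (L.U_sym (c := 1) h0 (by omega))
    rw [map_div, map_mul, map_mul, map_pow, mul_one, hw, hD a h0 (by omega),
      hD (a + 2) (by omega) ha] at this
    simpa using this
  have hz2 : L.z 2 = 1 := L.z_two (by omega)
  have hdn : ψ (L.z (2 * M - 2)) = ψ (L.z (2 * M)) := by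
    have := congrArg ψ (L.down (a := 2) two_pos (by omega))
    rw [map_mul, map_mul, map_mul, map_pow, hw, hD 2 (by omega) (by omega), hz2, map_one,
      neg_one_sq, one_mul, one_mul] at this
    simpa using this
  have hup : ψ (L.z (2 + 2 * M)) = ψ (L.z (2 * M)) := by
    have := congrArg ψ (L.up (a := 2) two_pos (by omega))
    rw [map_mul, map_mul, map_mul, map_pow, hw, hD 2 (by omega) (by omega), hz2, map_one] at this
    simpa using this
  have hmid : ψ (L.U 1 (M - 1)) = 1 := by
    refine prl4_sq h2 ?_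
    have e1 := congrArg ψ (L.z_dbl (M - 1))
    have e2 := congrArg ψ (L.z_dbl (M + 1))
    rw [map_mul, map_pow, hD _ (by omega) (by omega), one_mul] at e1 e2
    rw [show 2 * (M - 1) = 2 * M - 2 by omega, hdn] at e1
    rw [show 2 * (M + 1) = 2 + 2 * M by omega, hup] at e2
    unfold Loc.U
    rw [show 2 * 1 + (M - 1) = M + 1 by omega, mul_one, hz2, mul_one, map_div, div_pow, ← e1, ← e2,
      div_self (hψ0 _)]
  have hpairs : ∑ a ∈ (Ioo 0 (2 * M - 2)).erase (M - 1), ψ (L.U 1 a) = 0 := by
    refine Finset.sum_involution (fun a _ => 2 * M - 2 - a) ?_ ?_ ?_ ?_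
    · intro a ha
      rw [mem_erase, mem_Ioo] at ha
      rw [hsym a ha.2.1 (by omega), ← two_mul, h2, zero_mul]
    · intro a ha _
      rw [mem_erase, mem_Ioo] at ha
      omega
    · intro a ha
      rw [mem_erase, mem_Ioo] at ha ⊢
      omega
    · intro a ha
      rw [mem_erase, mem_Ioo] at ha
      omega
  have hsplit : Ioo 0 (2 * M - 1) =
      insert (2 * M - 2) (insert (M - 1) ((Ioo 0 (2 * M - 2)).erase (M - 1))) := by
    ext a
    simp only [mem_insert, mem_erase, mem_Ioo]
    omega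
  have hres : IsLocalRing.residue R T = 0 := by
    rw [hT, map_sum]
    simp only [← hψ]
    rw [hsplit, sum_insert (by simp only [mem_insert, mem_erase, mem_Ioo]; omega),
      sum_insert (notMem_erase _ _), hpairs, hend, hmid, add_zero, one_add_one_eq_two, h2]
  rw [hT1, map_neg, map_one, neg_eq_zero] at hres
  exact one_ne_zero hres

end Pool.Agent.P.MP_111ca2_co.PR
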