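import Pool.Agent.P.MP_111ca2_co.PrL2

/-! Local system: the key identity. -/

namespace Pool.Agent.P.MP_111ca2_co.PR

open Finset

theorem prl5_split {R : Type} [AddCommMonoid R] (f : ℕ → R) {a b c : ℕ} (h1 : a < b) (h2 : b < c) :
    ∑ i ∈ Ioo a c, f i = ∑ i ∈ Ioo a b, f i + f b + ∑ i ∈ Ioo b c, f i := by
  have h : Ioo a c = insert b (Ioo a b ∪ Ioo b c) := by
    ext x
    simp only [mem_Ioo, mem_insert, mem_union]
    omega
  have hb : b ∉ Ioo a b ∪ Ioo b c := by
    simp only [mem_Ioo, mem_union]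
    omega
  have hd : Disjoint (Ioo a b) (Ioo b c) := by
    rw [disjoint_left]
    intro x hx hy
    simp only [mem_Ioo] at hx hy
    omega
  rw [h, sum_insert hb, sum_union hd]
  abel

theorem prl5_refl {R : Type} [AddCommMonoid R] (f : ℕ → R) (d : ℕ) :
    ∑ i ∈ Ioo d (2 * d), f i = ∑ i ∈ Ioo 0 d, f (2 * d - i) := by
  refine sum_nbij' (fun i => 2 * d - i) (fun i => 2 * d - i) ?_ ?_ ?_ ?_ ?_
  · intro x hx
    simp only [mem_Ioo] at hx ⊢
    omega
  · intro x hx
    simp only [mem_Ioo] at hx ⊢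
    omega
  · intro x hx
    simp only [mem_Ioo] at hx ⊢
    omega
  · intro x hx
    simp only [mem_Ioo] at hx ⊢
    omega
  · intro x hx
    simp only [mem_Ioo] at hx
    congr 1
    omega

theorem prl5_shift {R : Type} [AddCommMonoid R] (f : ℕ → R) (d c : ℕ) :
    ∑ i ∈ Ioo d (d + c), f i = ∑ i ∈ Ioo 0 c, f (d + i) := by
  refine sum_nbij' (fun i => i - d) (fun i => d + i) ?_ ?_ ?_ ?_ ?_
  · intro x hx
    simp only [mem_Ioo] at hx ⊢
    omega
  · intro x hx
    simp only [mem_Ioo] at hx ⊢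
    omega
  · intro x hx
    simp only [mem_Ioo] at hx ⊢
    omega
  · intro x hx
    simp only [mem_Ioo] at hx ⊢
    omega
  · intro x hx
    simp only [mem_Ioo] at hx
    congr 1
    omega

theorem Loc.key {R : Type} [CommRing R] [IsDomain R] {M : ℕ} (L : Loc R (2 * M)) (hw : L.w ^ 2 = 1)
    {c : ℕ} (h0 : 0 < c) (hc : c < M) : L.Key M c := by
  have hw2 : L.w ^ (2 * c) = 1 := by rw [pow_mul, hw, one_pow]
  have s1 := L.star1 h0 (by omega : c < 2 * M)
  have s2 := L.star2 h0 (by omega : c < 2 * M)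
  rw [hw2, one_mul] at s2
  have e1 : ∑ j ∈ Ioo 0 c, (-1) ^ j * (L.Z c j : R) = ∑ a ∈ Ioo 0 (2 * M - c), (L.U c a : R) := by
    apply mul_left_cancel₀ L.two_ne
    linear_combination s1 - s2
  have p1 := prl5_split (fun a => (L.U c a : R)) (a := 0) (b := 2 * (M - c)) (c := 2 * M - c)
    (by omega) (by omega)
  have p2 := prl5_split (fun a => (L.U c a : R)) (a := 0) (b := M - c) (c := 2 * (M - c))
    (by omega) (by omega)
  have p3 := prl5_refl (fun a => (L.U c a : R)) (M - c)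
  have p4 := prl5_shift (fun a => (L.U c a : R)) (2 * (M - c)) c
  have q0 : 2 * (M - c) + c = 2 * M - c := by omega
  rw [q0] at p4
  have a3 : ∑ i ∈ Ioo 0 (M - c), (L.U c (2 * (M - c) - i) : R) =
      ∑ i ∈ Ioo 0 (M - c), (L.U c i : R) * ((L.D i / L.D (i + 2 * c) : Rˣ) : R) := by
    refine sum_congr rfl fun i hi => ?_
    rw [mem_Ioo] at hi
    have h := L.U_sym (c := c) (a := i) hi.1 (by omega)
    have q : 2 * (M - c) - i = 2 * M - 2 * c - i := by omega
    rw [q, h, hw2, one_mul, mul_div_assoc, Units.val_mul]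
  have a4 : ∑ j ∈ Ioo 0 c, (L.U c (2 * (M - c) + j) : R) =
      ∑ j ∈ Ioo 0 c, (-1) ^ j * (((L.Z c j * L.D j * L.D (2 * c - j))⁻¹ : Rˣ) : R) := by
    refine sum_congr rfl fun j hj => ?_
    rw [mem_Ioo] at hj
    have h := L.U_top (c := c) (j := 2 * c - j) (by omega) (by omega) (by omega)
    have q : 2 * (M - c) + j = 2 * M - (2 * c - j) := by omega
    have q' : 2 * c - (2 * c - j) = j := by omega
    have hz : L.Z c (2 * c - j) = L.Z c j := by
      unfold Loc.Z
      rw [q', mul_comm]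
    have hs : (-1 : Rˣ) ^ (2 * c - j) = (-1) ^ j := by
      have h1 : (-1 : Rˣ) ^ (2 * c - j) * (-1) ^ j = 1 := by
        rw [← pow_add, show 2 * c - j + j = 2 * c by omega, pow_mul, neg_one_sq, one_pow]
      have h2 : (-1 : Rˣ) ^ j * (-1) ^ j = 1 := by
        rw [← pow_add, ← two_mul, pow_mul, neg_one_sq, one_pow]
      exact mul_right_cancel (h1.trans h2.symm)
    rw [q, h, hw2, one_mul, hz, q', hs, mul_right_comm (L.Z c j), Units.val_mul]
    simp only [Units.val_pow_eq_pow_val, Units.val_neg, Units.val_one]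
  have a1 : (L.U c (M - c) : R) = (-(L.w : R)) ^ c * (((L.D (2 * c))⁻¹ : Rˣ) : R) := by
    rw [L.U_mid hw h0 hc, div_eq_mul_inv, Units.val_mul]
    simp only [Units.val_pow_eq_pow_val, Units.val_neg]
  have a2 : (L.U c (2 * (M - c)) : R) = (((L.D (2 * c))⁻¹ : Rˣ) : R) := by
    have h := L.U_end (c := c) h0 (by omega)
    have q : 2 * (M - c) = 2 * M - 2 * c := by omega
    rw [q, h, hw2, one_mul]
  unfold Loc.Key
  simp only [mul_sub, mul_add, mul_one, sum_sub_distrib, sum_add_distrib]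
  linear_combination e1 + p1 + p2 + p3 + p4 + a3 + a4 + a1 + a2

end Pool.Agent.P.MP_111ca2_co.PR
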