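import Pool.Agent.P.MP_111ca2_co.PrL5

/-! Local system: congruences modulo `2`. -/

namespace Pool.Agent.P.MP_111ca2_co.PR

open Finset

variable {R : Type} [CommRing R] [IsDomain R] {M : ℕ} (L : Loc R (2 * M))

/-- reduction modulo `2` -/
abbrev prl6_pi (R : Type) [CommRing R] : R →+* R ⧸ Ideal.span {(2 : R)} :=
  Ideal.Quotient.mk _

/-- reduction of units modulo `2` -/
def prl6_phi (R : Type) [CommRing R] : Rˣ →* (R ⧸ Ideal.span {(2 : R)})ˣ :=
  Units.map (prl6_pi R : R →* R ⧸ Ideal.span {(2 : R)})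

omit [IsDomain R] in
theorem prl6_coe (u : Rˣ) : prl6_pi R (u : R) = (prl6_phi R u : R ⧸ Ideal.span {(2 : R)}) := rfl

omit [IsDomain R] in
theorem prl6_two : (2 : R ⧸ Ideal.span {(2 : R)}) = 0 := by
  have : prl6_pi R 2 = 0 := Ideal.Quotient.eq_zero_iff_mem.2 (Ideal.mem_span_singleton_self _)
  rwa [map_ofNat] at this

omit [IsDomain R] in
theorem prl6_iff (u : Rˣ) : prl6_phi R u = 1 ↔ (2 : R) ∣ (u : R) - 1 := by
  rw [Units.ext_iff, ← prl6_coe, ← Ideal.mem_span_singleton, ← Ideal.Quotient.eq]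
  simp

omit [IsDomain R] in
theorem prl6_neg : prl6_phi R (-1) = 1 := by
  rw [prl6_iff]
  exact ⟨-1, by simp; ring⟩

omit [IsDomain R] in
theorem prl6_D {a : ℕ} (h0 : 0 < a) (ha : a < 2 * M) : prl6_phi R (L.D a) = 1 :=
  (prl6_iff _).2 (L.D_cong h0 ha)

theorem prl6_w (hw : L.w ^ 2 = 1) : prl6_phi R L.w = 1 := by
  have h : (L.w : R) * L.w = 1 := by
    have := congrArg (fun u : Rˣ => (u : R)) hw
    simpa [sq] using this
  rw [prl6_iff]
  rcases mul_self_eq_one_iff.1 h with h1 | h1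
  · rw [h1]; simp
  · rw [h1]; exact ⟨-1, by ring⟩

omit [IsDomain R] in
theorem prl6_dbl {a : ℕ} (h0 : 0 < a) (ha : a < 2 * M) :
    prl6_phi R (L.z (2 * a)) = prl6_phi R (L.z a) ^ 2 := by
  rw [L.z_dbl, map_mul, prl6_D L h0 ha, one_mul, map_pow]

omit [IsDomain R] in
theorem prl6_neg_one : (-1 : R ⧸ Ideal.span {(2 : R)}) = 1 := by
  have := prl6_two (R := R)
  linear_combination -this

theorem prl6_key (hw : L.w ^ 2 = 1) {c : ℕ} (h0 : 0 < c) (hc : c < M) :
    ∑ j ∈ Ioo 0 c, ((prl6_phi R (L.Z c j) : R ⧸ Ideal.span {(2 : R)}) +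
      ((prl6_phi R (L.Z c j))⁻¹ : (R ⧸ Ideal.span {(2 : R)})ˣ)) = 0 := by
  have hk := congrArg (prl6_pi R) (L.key hw h0 hc)
  have h2 := prl6_two (R := R)
  simp only [map_sum, map_add, map_mul, map_sub, map_pow, map_neg, map_one, prl6_coe, map_inv,
    map_div, prl6_w L hw] at hk
  rw [prl6_neg_one] at hk
  have e1 : ∑ i ∈ Ioo 0 (M - c), (prl6_phi R (L.U c i) : R ⧸ Ideal.span {(2 : R)}) *
      (1 + ((prl6_phi R (L.D i) / prl6_phi R (L.D (i + 2 * c)) :
        (R ⧸ Ideal.span {(2 : R)})ˣ) : R ⧸ Ideal.span {(2 : R)})) = 0 := by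
    refine sum_eq_zero fun i hi => ?_
    rw [mem_Ioo] at hi
    rw [prl6_D L hi.1 (by omega), prl6_D L (by omega) (by omega)]
    simp only [div_one, Units.val_one]
    linear_combination (prl6_phi R (L.U c i) : R ⧸ Ideal.span {(2 : R)}) * h2
  rw [e1, Units.val_one, prl6_neg_one] at hk
  have e2 : (1 + 1 ^ c : R ⧸ Ideal.span {(2 : R)}) = 0 := by
    rw [one_pow]; linear_combination h2
  rw [e2, zero_mul, zero_add] at hk
  rw [← hk]
  refine sum_congr rfl fun j hj => ?_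
  rw [mem_Ioo] at hj
  rw [prl6_D L hj.1 (by omega), prl6_D L (by omega) (by omega), one_pow, one_mul, mul_one, mul_one]
  linear_combination
    (((prl6_phi R (L.Z c j))⁻¹ : (R ⧸ Ideal.span {(2 : R)})ˣ) : R ⧸ Ideal.span {(2 : R)}) * h2

theorem prl6_ind (hw : L.w ^ 2 = 1) (c : ℕ) (hc : c < M) :
    ∀ j, 0 < j → j ≤ 2 * c → prl6_phi R (L.z j) ^ 2 = 1 := by
  induction c with
  | zero => intro j h0 hj; omega
  | succ c ih =>
    have ih := ih (by omega)
    have h1 : prl6_phi R (L.z 1) = 1 := by rw [L.z1, map_one]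
    have hc1 : prl6_phi R (L.z (c + 1)) ^ 2 = 1 := by
      rcases Nat.eq_zero_or_pos c with rfl | hpos
      · rw [zero_add, h1, one_pow]
      · exact ih _ (by omega) (by omega)
    have htop : prl6_phi R (L.z (2 * (c + 1))) = 1 := by
      rw [prl6_dbl L (by omega) (by omega), hc1]
    intro j h0 hj
    by_cases hj1 : j ≤ 2 * c
    · exact ih j h0 hj1
    by_cases hj2 : j = 2 * (c + 1)
    · rw [hj2, htop, one_pow]
    have hj3 : j = 2 * (c + 1) - 1 := by omega
    rcases Nat.eq_zero_or_pos c with rfl | hpos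
    · have : j = 1 := by omega
      rw [this, h1, one_pow]
    have hk := prl6_key L hw (c := c + 1) (by omega) hc
    have h2 := prl6_two (R := R)
    rw [sum_eq_single_of_mem 1 (by rw [mem_Ioo]; omega)] at hk
    · have hZ : prl6_phi R (L.Z (c + 1) 1) = prl6_phi R (L.z j) := by
        rw [Loc.Z, map_div, map_mul, h1, htop, one_mul, div_one, hj3]
      rw [hZ] at hk
      ext
      have hm := (prl6_phi R (L.z j)).mul_inv
      rw [Units.val_pow_eq_pow_val, Units.val_one]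
      linear_combination (prl6_phi R (L.z j) : R ⧸ Ideal.span {(2 : R)}) * hk - hm - h2
    · intro i hi hi1
      rw [mem_Ioo] at hi
      have hsq : prl6_phi R (L.Z (c + 1) i) ^ 2 = 1 := by
        rw [Loc.Z, map_div, map_mul, htop, div_one, mul_pow, ih i hi.1 (by omega),
          ih _ (by omega) (by omega), one_mul]
      have hinv : (prl6_phi R (L.Z (c + 1) i))⁻¹ = prl6_phi R (L.Z (c + 1) i) := by
        rw [inv_eq_iff_mul_eq_one, ← sq, hsq]
      rw [hinv]
      linear_combination (prl6_phi R (L.Z (c + 1) i) : R ⧸ Ideal.span {(2 : R)}) * h2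

theorem prl6_all (hM : 2 ≤ M) (hw : L.w ^ 2 = 1) {j : ℕ} (h0 : 0 < j) (hj : j < 2 * (2 * M)) :
    prl6_phi R (L.z j) ^ 2 = 1 := by
  have hA := prl6_ind L hw (M - 1) (by omega)
  have htop : prl6_phi R (L.z (2 * M)) = 1 := by
    rw [prl6_dbl L (by omega) (by omega), hA M (by omega) (by omega)]
  have hB : ∀ a, 0 < a → a < 2 * M → prl6_phi R (L.z a) ^ 2 = 1 := by
    intro a ha0 ha
    by_cases h : a ≤ 2 * (M - 1)
    · exact hA a ha0 h
    have ha1 : a = 2 * M - 1 := by omega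
    have hd := congrArg (prl6_phi R) (L.down (a := 1) (by omega) (by omega))
    simp only [map_mul, map_pow, prl6_w L hw, prl6_neg, htop, L.z1,
      prl6_D L (a := 1) (by omega) (by omega), one_pow, one_mul, mul_one] at hd
    rw [ha1, hd, one_pow]
  rcases lt_trichotomy j (2 * M) with h | h | h
  · exact hB j h0 h
  · rw [h, htop, one_pow]
  · obtain ⟨a, rfl⟩ : ∃ a, j = a + 2 * M := ⟨j - 2 * M, by omega⟩
    rw [L.up (a := a) (by omega) (by omega)]
    simp only [map_mul, map_pow, prl6_w L hw, htop, prl6_D L (a := a) (by omega) (by omega),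
      one_pow, one_mul, mul_one]
    exact hB a (by omega) (by omega)

theorem Loc.sq_cong (hM : 2 ≤ M) (hw : L.w ^ 2 = 1) {j : ℕ} (h0 : 0 < j) (hj : j < 2 * (2 * M)) :
    (2 : R) ∣ (L.z j : R) ^ 2 - 1 := by
  have h := prl6_all L hM hw h0 hj
  rw [← map_pow, prl6_iff, Units.val_pow_eq_pow_val] at h
  exact h

theorem Loc.even_cong (hM : 2 ≤ M) (hw : L.w ^ 2 = 1) {a : ℕ} (h0 : 0 < a) (ha : a < 2 * M) :
    (2 : R) ∣ (L.z (2 * a) : R) - 1 := by
  rw [← prl6_iff, prl6_dbl L h0 ha]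
  exact prl6_all L hM hw h0 (by omega)

end Pool.Agent.P.MP_111ca2_co.PR
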