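import Pool.Agent.P.MP_111ca2_co.PrL6

/-! Local system: congruences modulo `2 λ`. -/

namespace Pool.Agent.P.MP_111ca2_co.PR

open Finset

theorem prl7_mul {R : Type} [CommRing R] {d : R} {u v : Rˣ} (hu : d ∣ (u : R) - 1)
    (hv : d ∣ (v : R) - 1) : d ∣ ((u * v : Rˣ) : R) - 1 := by
  have e : ((u * v : Rˣ) : R) - 1 = ((u : R) - 1) * v + ((v : R) - 1) := by
    rw [Units.val_mul]; ring
  rw [e]
  exact dvd_add (hu.mul_right _) hv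

theorem prl7_inv {R : Type} [CommRing R] {d : R} {u : Rˣ} (hu : d ∣ (u : R) - 1) :
    d ∣ ((u⁻¹ : Rˣ) : R) - 1 := by
  have e : ((u⁻¹ : Rˣ) : R) - 1 = ((u : R) - 1) * -((u⁻¹ : Rˣ) : R) := by
    linear_combination u.mul_inv
  rw [e]
  exact hu.mul_right _

theorem prl7_div {R : Type} [CommRing R] {d : R} {u v : Rˣ} (hu : d ∣ (u : R) - 1)
    (hv : d ∣ (v : R) - 1) : d ∣ ((u / v : Rˣ) : R) - 1 := by
  rw [div_eq_mul_inv]
  exact prl7_mul hu (prl7_inv hv)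

theorem prl7_sq {R : Type} [CommRing R] {d : R} {u : Rˣ} (hu : d ∣ (u : R) - 1) :
    d ∣ ((u ^ 2 : Rˣ) : R) - 1 := by
  rw [sq]
  exact prl7_mul hu hu

theorem prl7_alt {R : Type} [CommRing R] {a : ℕ} (h0 : 0 < a) :
    (-1 : R) ^ a + 2 * ∑ j ∈ Ioo 0 a, (-1 : R) ^ j = -1 := by
  induction a, h0 using Nat.le_induction with
  | base =>
    have e : Ioo 0 (Nat.succ 0) = (∅ : Finset ℕ) := by decide
    rw [e]
    simp
  | succ a ha ih =>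
    have e : Ioo 0 (a + 1) = insert a (Ioo 0 a) := by
      ext j
      simp only [mem_Ioo, mem_insert]
      omega
    rw [e, sum_insert (by simp), pow_succ]
    linear_combination ih

theorem prl7_fam {R : Type} [CommRing R] [IsDomain R] [ValuationRing R] (f : ℕ → R) (r : R)
    (s : Finset ℕ) : ∃ l : R, l ∣ r ∧ (∀ j ∈ s, l ∣ f j) ∧ (l = r ∨ ∃ j ∈ s, l = f j) := by
  induction s using Finset.induction_on with
  | empty => exact ⟨r, dvd_rfl, by simp, Or.inl rfl⟩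
  | insert a s ha ih =>
    obtain ⟨l, h1, h2, h3⟩ := ih
    rcases ValuationRing.dvd_total l (f a) with h | h
    · refine ⟨l, h1, fun j hj => ?_, h3.imp_right fun ⟨j, hj, e⟩ => ⟨j, mem_insert_of_mem hj, e⟩⟩
      rcases mem_insert.1 hj with rfl | hj
      · exact h
      · exact h2 j hj
    · refine ⟨f a, h.trans h1, fun j hj => ?_, Or.inr ⟨a, mem_insert_self _ _, rfl⟩⟩
      rcases mem_insert.1 hj with rfl | hj
      · exact dvd_rfl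
      · exact h.trans (h2 j hj)

theorem prl7_term {R : Type} [CommRing R] {l : R} (h2 : l ∣ 2) {x y s D D' : Rˣ} (j : ℕ)
    (hx : l ∣ (x : R) - 1) (hy : l ∣ (y : R) - 1) (hx2 : (2 : R) ∣ (x : R) ^ 2 - 1)
    (hy2 : (2 : R) ∣ (y : R) ^ 2 - 1) (hs : (2 : R) ∣ (s : R) - 1) (hD : 2 * l ∣ (D : R) - 1)
    (hD' : 2 * l ∣ (D' : R) - 1) :
    2 * l ∣ (-1) ^ j * (((x * y / s : Rˣ) : R) - ((x * y / s * D * D')⁻¹ : Rˣ)) -
      (((x : R) - 1) ^ 2 + ((y : R) - 1) ^ 2) := by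
  set Z : Rˣ := x * y / s with hZ
  have e0 : (((Z * D * D')⁻¹ : Rˣ) : R) = ((Z⁻¹ : Rˣ) : R) * (((D * D')⁻¹ : Rˣ) : R) := by
    rw [← Units.val_mul, mul_assoc, mul_inv]
  have a1 : 2 * l ∣ (((D * D')⁻¹ : Rˣ) : R) - 1 := prl7_inv (prl7_mul hD hD')
  have a2 : l ∣ ((Z⁻¹ : Rˣ) : R) - 1 := prl7_inv (prl7_div (prl7_mul hx hy) (h2.trans hs))
  have e1 : (Z : R) ^ 2 = (x : R) ^ 2 * (y : R) ^ 2 * (((s ^ 2)⁻¹ : Rˣ) : R) := by
    rw [← Units.val_pow_eq_pow_val, ← Units.val_pow_eq_pow_val, ← Units.val_pow_eq_pow_val,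
      ← Units.val_mul, ← Units.val_mul, hZ, div_pow, mul_pow, div_eq_mul_inv]
  have a3 : 2 * l ∣ (((s ^ 2)⁻¹ : Rˣ) : R) - 1 := by
    refine prl7_inv ?_
    have e : ((s ^ 2 : Rˣ) : R) - 1 = ((s : R) - 1) * ((s : R) - 1) + 2 * ((s : R) - 1) := by
      rw [Units.val_pow_eq_pow_val]; ring
    rw [e]
    exact dvd_add (mul_dvd_mul hs (h2.trans hs)) (mul_dvd_mul_left _ (h2.trans hs))
  have a4 : 2 * l ∣ (Z : R) ^ 2 - (x : R) ^ 2 * (y : R) ^ 2 := by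
    rw [e1, ← mul_sub_one]
    exact a3.mul_left _
  have a5 : 2 * l ∣ (x : R) ^ 2 * (y : R) ^ 2 - 1 - (((x : R) - 1) ^ 2 + ((y : R) - 1) ^ 2) := by
    have e : (x : R) ^ 2 * (y : R) ^ 2 - 1 - (((x : R) - 1) ^ 2 + ((y : R) - 1) ^ 2) =
        ((x : R) ^ 2 - 1) * ((y : R) ^ 2 - 1) + (2 * ((x : R) - 1) + 2 * ((y : R) - 1)) := by ring
    rw [e]
    exact dvd_add (mul_dvd_mul hx2 (h2.trans hy2))
      (dvd_add (mul_dvd_mul_left _ hx) (mul_dvd_mul_left _ hy))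
  have a6 : (2 : R) ∣ ((x : R) - 1) ^ 2 + ((y : R) - 1) ^ 2 := by
    have e : ((x : R) - 1) ^ 2 + ((y : R) - 1) ^ 2 =
        ((x : R) ^ 2 - 1) + ((y : R) ^ 2 - 1) - 2 * ((x : R) + y - 2) := by ring
    rw [e]
    exact dvd_sub (dvd_add hx2 hy2) (dvd_mul_right _ _)
  have a7 : (2 : R) ∣ (Z : R) ^ 2 - 1 := by
    have e : (Z : R) ^ 2 - 1 = ((Z : R) ^ 2 - (x : R) ^ 2 * (y : R) ^ 2) +
        ((x : R) ^ 2 * (y : R) ^ 2 - 1 - (((x : R) - 1) ^ 2 + ((y : R) - 1) ^ 2)) +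
        (((x : R) - 1) ^ 2 + ((y : R) - 1) ^ 2) := by ring
    rw [e]
    exact dvd_add (dvd_add ((dvd_mul_right _ _).trans a4) ((dvd_mul_right _ _).trans a5)) a6
  have a8 : l ∣ (-1 : R) ^ j - 1 := by
    refine h2.trans ?_
    rcases neg_one_pow_eq_or R j with h | h <;> rw [h]
    · simp
    · exact ⟨-1, by ring⟩
  have e : (-1) ^ j * ((Z : R) - ((Z⁻¹ : Rˣ) : R) * (((D * D')⁻¹ : Rˣ) : R)) -
      (((x : R) - 1) ^ 2 + ((y : R) - 1) ^ 2) =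
      (-1) ^ j * (((Z : R) ^ 2 - 1) * (((Z⁻¹ : Rˣ) : R) - 1) +
        ((Z : R) ^ 2 - (x : R) ^ 2 * (y : R) ^ 2) +
        ((x : R) ^ 2 * (y : R) ^ 2 - 1 - (((x : R) - 1) ^ 2 + ((y : R) - 1) ^ 2)) -
        ((Z⁻¹ : Rˣ) : R) * ((((D * D')⁻¹ : Rˣ) : R) - 1)) +
      (((x : R) - 1) ^ 2 + ((y : R) - 1) ^ 2) * ((-1) ^ j - 1) := by
    linear_combination (-(-1) ^ j * (Z : R)) * Z.mul_inv
  rw [e0, e]
  exact dvd_add (Dvd.dvd.mul_left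
    (dvd_sub (dvd_add (dvd_add (mul_dvd_mul a7 a2) a4) a5) (a1.mul_left _)) _) (mul_dvd_mul a6 a8)

theorem Loc.exists_lam {R : Type} [CommRing R] [IsDomain R] [ValuationRing R] {m : ℕ} (L : Loc R m) :
    ∃ l : R, l ∣ 2 ∧ (∀ j, 0 < j → j < 2 * m → l ∣ (L.z j : R) - 1) ∧
      (l = 2 ∨ ∃ j, 0 < j ∧ j < 2 * m ∧ l = (L.z j : R) - 1) := by
  obtain ⟨l, h1, h2, h3⟩ := prl7_fam (fun j => (L.z j : R) - 1) 2 (Ioo 0 (2 * m))
  exact ⟨l, h1, fun j a b => h2 j (mem_Ioo.2 ⟨a, b⟩),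
    h3.imp_right fun ⟨j, hj, e⟩ => ⟨j, (mem_Ioo.1 hj).1, (mem_Ioo.1 hj).2, e⟩⟩

theorem Loc.D_cong2 {R : Type} [CommRing R] {m : ℕ} (L : Loc R m) {l : R} (h2 : l ∣ 2)
    (hl : ∀ j, 0 < j → j < 2 * m → l ∣ (L.z j : R) - 1) {a : ℕ} (h0 : 0 < a) (ha : a < m) :
    2 * l ∣ (L.D a : R) - 1 := by
  have h := L.star0 h0 ha
  have e : (L.D a : R) - 1 = -(2 * ∑ j ∈ Ioo 0 a,
      (-1) ^ j * (((L.z j * L.z (2 * a - j) / L.z a ^ 2 : Rˣ) : R) - 1)) := by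
    simp only [mul_sub, sum_sub_distrib, mul_one]
    linear_combination h - prl7_alt (R := R) h0
  rw [e, dvd_neg]
  refine mul_dvd_mul_left _ (dvd_sum fun j hj => Dvd.dvd.mul_left ?_ _)
  obtain ⟨b1, b2⟩ := mem_Ioo.1 hj
  exact prl7_div (prl7_mul (hl j b1 (by omega)) (hl _ (by omega) (by omega)))
    (prl7_sq (hl a h0 (by omega)))

theorem Loc.key2 {R : Type} [CommRing R] [IsDomain R] {M : ℕ} (L : Loc R (2 * M)) (hM : 2 ≤ M)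
    (hw : L.w ^ 2 = 1) {l : R} (h2 : l ∣ 2)
    (hl : ∀ j, 0 < j → j < 2 * (2 * M) → l ∣ (L.z j : R) - 1) {c : ℕ} (h0 : 0 < c) (hc : c < M) :
    2 * l ∣ ∑ j ∈ Ioo 0 c, (((L.z j : R) - 1) ^ 2 + ((L.z (2 * c - j) : R) - 1) ^ 2) -
      (1 + (-(L.w : R)) ^ c + 2 * ((M - c - 1 : ℕ) : R)) := by
  have hk := L.key hw h0 hc
  unfold Loc.Key at hk
  have a1 : 2 * l ∣ ∑ j ∈ Ioo 0 c,
      ((-1) ^ j * ((L.Z c j : R) - ((L.Z c j * L.D j * L.D (2 * c - j))⁻¹ : Rˣ)) -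
        (((L.z j : R) - 1) ^ 2 + ((L.z (2 * c - j) : R) - 1) ^ 2)) := by
    refine dvd_sum fun j hj => ?_
    obtain ⟨b1, b2⟩ := mem_Ioo.1 hj
    exact prl7_term h2 j (hl j b1 (by omega)) (hl _ (by omega) (by omega))
      (L.sq_cong hM hw b1 (by omega)) (L.sq_cong hM hw (by omega) (by omega))
      (L.even_cong hM hw h0 (by omega)) (L.D_cong2 h2 hl b1 (by omega))
      (L.D_cong2 h2 hl (by omega) (by omega))
  have a2 : 2 * l ∣ (((L.D (2 * c))⁻¹ : Rˣ) : R) - 1 :=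
    prl7_inv (L.D_cong2 h2 hl (by omega) (by omega))
  have a3 : 2 * l ∣ ∑ i ∈ Ioo 0 (M - c),
      ((L.U c i : R) * (1 + (L.D i / L.D (i + 2 * c) : Rˣ)) - 2) := by
    refine dvd_sum fun i hi => ?_
    obtain ⟨b1, b2⟩ := mem_Ioo.1 hi
    have e : (L.U c i : R) * (1 + (L.D i / L.D (i + 2 * c) : Rˣ)) - 2 =
        (L.U c i : R) * (((L.D i / L.D (i + 2 * c) : Rˣ) : R) - 1) + 2 * ((L.U c i : R) - 1) := by
      ring
    rw [e]
    refine dvd_add (Dvd.dvd.mul_left (prl7_div (L.D_cong2 h2 hl b1 (by omega))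
      (L.D_cong2 h2 hl (by omega) (by omega))) _) (mul_dvd_mul_left _ ?_)
    exact prl7_div (prl7_mul (hl i b1 (by omega)) (hl _ (by omega) (by omega)))
      (hl _ (by omega) (by omega))
  rw [sum_sub_distrib, hk] at a1
  rw [sum_sub_distrib, sum_const, Nat.card_Ioo, Nat.sub_zero, nsmul_eq_mul] at a3
  have key := dvd_sub (dvd_add (a2.mul_left (1 + (-(L.w : R)) ^ c)) a3) a1
  refine (dvd_iff_dvd_of_dvd_sub ?_).1 key
  refine ⟨0, ?_⟩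
  ring

end Pool.Agent.P.MP_111ca2_co.PR
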