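import Pool.Agent.P.MP_111ca2_co.PrL7

/-! Local system: `m` twice an odd number. -/

namespace Pool.Agent.P.MP_111ca2_co.PR

open Finset

variable {R : Type} [CommRing R] [IsDomain R] [ValuationRing R]

theorem Loc.odd_half_false {M : ℕ} (L : Loc R (2 * M)) (hM : Odd M) (h3 : 3 ≤ M)
    (hw : L.w ^ 2 = 1) : False := by
  obtain ⟨t, ht⟩ := hM
  have hw1 : L.w = -1 := by
    have h : (-L.w) ^ (2 * t + 1) = 1 :=
      (congrArg (fun n => (-L.w) ^ n) ht).symm.trans (L.neg_w_pow (by omega))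
    rw [pow_succ, pow_mul, neg_sq, hw, one_pow, one_mul] at h
    exact neg_eq_iff_eq_neg.1 h
  obtain ⟨l, h2, hl, hlam⟩ := L.exists_lam
  have hnu : ¬ IsUnit l := by
    intro hu
    rcases hlam with h | ⟨j, hj0, hj, h⟩
    · exact L.two_nu (h ▸ hu)
    · obtain ⟨y, hy⟩ := L.sq_cong (by omega) hw hj0 hj
      have h3 : (2 : R) ∣ l ^ 2 := ⟨y - l, by rw [h]; linear_combination hy⟩
      exact L.two_nu (isUnit_of_dvd_unit h3 (hu.pow 2))
  obtain ⟨e, he⟩ := id h2
  have hk := L.key2 (by omega) hw h2 hl (c := 2) (by omega) (by omega)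
  have hI : Ioo 0 2 = {1} := by decide
  have hc : ((M - 2 - 1 : ℕ) : R) = 2 * ((t - 1 : ℕ) : R) := by
    have : M - 2 - 1 = 2 * (t - 1) := by omega
    rw [this]
    push_cast
    ring
  rw [hI, sum_singleton, L.z1, hw1, hc] at hk
  have hk3 : 2 * l ∣ ((L.z 3 : R) - 1) ^ 2 - 2 := by
    obtain ⟨y, hy⟩ := hk
    refine ⟨y + e * ((t - 1 : ℕ) : R), ?_⟩
    simp only [Units.val_one, Units.val_neg] at hy
    linear_combination hy + 2 * ((t - 1 : ℕ) : R) * he
  let π := Ideal.Quotient.mk (Ideal.span {2 * l})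
  have hπ : ∀ x : R, π x = 0 ↔ 2 * l ∣ x := fun x => by
    rw [Ideal.Quotient.eq_zero_iff_mem, Ideal.mem_span_singleton]
  have hD : ∀ a, 0 < a → a < 2 * M → π (L.D a) = 1 := fun a h0 ha => by
    have h := (hπ _).2 (L.D_cong2 h2 hl h0 ha)
    rwa [map_sub, map_one, sub_eq_zero] at h
  have hz : ∀ b, 0 < b → b < 2 * M → π (L.z (2 * b)) = 1 + π (((L.z b : R) - 1) ^ 2) := by
    intro b h0 hb
    obtain ⟨y, hy⟩ := hl b h0 (by omega)
    have h1 : π (2 * ((L.z b : R) - 1)) = 0 := (hπ _).2 ⟨y, by rw [hy]; ring⟩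
    rw [L.z_dbl b, Units.val_mul, map_mul, hD b h0 hb, one_mul, Units.val_pow_eq_pow_val]
    have h4 : (L.z b : R) ^ 2 = 1 + ((L.z b : R) - 1) ^ 2 + 2 * ((L.z b : R) - 1) := by ring
    rw [h4, map_add, h1, add_zero, map_add, map_one]
  have hz4 : ∀ a, 0 < a → a < M → π (L.z (2 * (2 * a))) = 1 := by
    intro a h0 ha
    obtain ⟨y, hy⟩ := L.even_cong (by omega) hw h0 (show a < 2 * M by omega)
    have h1 : π (((L.z (2 * a) : R) - 1) ^ 2) = 0 :=
      (hπ _).2 ⟨e * y ^ 2, by rw [hy]; linear_combination 2 * y ^ 2 * he⟩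
    rw [hz (2 * a) (by omega) (by omega), h1, add_zero]
  have hdown : ∀ a, 0 < a → a < M →
      π (L.z (2 * a)) * π (L.z (2 * M - 2 * a)) = π (L.z (2 * M)) := by
    intro a h0 ha
    have h := L.down (a := 2 * a) (by omega) (by omega)
    rw [pow_mul, hw, one_pow, mul_one, pow_mul, neg_sq, one_pow, one_pow, one_mul] at h
    rw [← h, Units.val_mul, Units.val_mul, map_mul, map_mul, hD (2 * a) (by omega) (by omega),
      mul_one]
  have hm : π (L.z (2 * M)) = 1 := by
    have h := hdown 1 (by omega) (by omega)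
    have h1 : 2 * M - 2 * 1 = 2 * (2 * t) := by omega
    rw [h1, hz4 t (by omega) (by omega), mul_one, mul_one, L.z_two (by omega)] at h
    rw [← h, Units.val_one, map_one]
  have h6 : π (L.z (2 * 3)) = 1 := by
    rcases eq_or_lt_of_le h3 with h | h
    · exact (congrArg (fun n => π (L.z (2 * n))) h).trans hm
    · have h' := hdown 3 (by omega) h
      have h1 : 2 * M - 2 * 3 = 2 * (2 * (t - 1)) := by omega
      rwa [h1, hz4 (t - 1) (by omega) (by omega), mul_one, hm] at h'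
  rw [hz 3 (by omega) (by omega), add_eq_left, hπ] at h6
  have h7 : 2 * l ∣ 2 * 1 := by
    have h := dvd_sub h6 hk3
    rwa [sub_sub_cancel, ← mul_one (2 : R), mul_assoc, one_mul] at h
  exact hnu (isUnit_of_dvd_one ((mul_dvd_mul_iff_left L.two_ne).1 h7))

end Pool.Agent.P.MP_111ca2_co.PR
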