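import Pool.Agent.P.MP_111ca2_co.PrL7

/-! Local system: `m` divisible by four, all units are `1` modulo `2`. -/

namespace Pool.Agent.P.MP_111ca2_co.PR

open Finset

variable {R : Type} [CommRing R] [IsDomain R] [ValuationRing R]

theorem Loc.even_half {M : ℕ} (L : Loc R (2 * M)) (hM : Even M) (h2 : 2 ≤ M) (hw : L.w ^ 2 = 1) :
    L.w = 1 ∧ ∀ j, 0 < j → j < 2 * (2 * M) → (2 : R) ∣ (L.z j : R) - 1 := by
  obtain ⟨l, hl2, hl, hlor⟩ := L.exists_lam
  have h4 : 2 * l ∣ 4 := by
    obtain ⟨y, hy⟩ := hl2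
    exact ⟨y, by linear_combination 2 * hy⟩
  have hnu : ¬ IsUnit l := by
    intro hu
    rcases hlor with h | ⟨j, j0, j1, h⟩
    · exact L.two_nu (h ▸ hu)
    · obtain ⟨y, hy⟩ := L.sq_cong h2 hw j0 j1
      have h1 : (2 : R) ∣ l ^ 2 := ⟨y - l, by rw [h]; linear_combination hy⟩
      exact L.two_nu (isUnit_of_dvd_unit h1 (hu.pow 2))
  have hw' : (L.w : R) * L.w = 1 := by
    rw [← sq, ← Units.val_pow_eq_pow_val, hw, Units.val_one]
  obtain ⟨t, ht⟩ := hM
  have hw1 : (L.w : R) = 1 := by
    rcases mul_self_eq_one_iff.1 hw' with h | h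
    · exact h
    · exfalso
      have h1 := L.key2 h2 hw hl2 hl (c := 1) one_pos (by omega)
      have e1 : Ioo 0 1 = (∅ : Finset ℕ) := by decide
      have e2 : M - 1 - 1 = 2 * (t - 1) := by omega
      rw [e1, sum_empty, h, e2] at h1
      obtain ⟨y, hy⟩ := h1
      obtain ⟨u, hu⟩ := h4
      push_cast at hy
      have h3 : (2 : R) * (l * (-y - u * ((t - 1 : ℕ) : R))) = 2 * 1 := by
        linear_combination hy + ((t - 1 : ℕ) : R) * hu
      exact hnu (IsUnit.of_mul_eq_one _ (mul_left_cancel₀ L.two_ne h3))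
  have hwu : L.w = 1 := Units.ext hw1
  refine ⟨hwu, ?_⟩
  have hsq : ∀ x : R, (2 : R) ∣ x → 2 * l ∣ x ^ 2 := by
    rintro x ⟨y, rfl⟩
    exact h4.trans ⟨y ^ 2, by ring⟩
  have hev : ∀ a, 0 < a → a < 2 * M → 2 * l ∣ ((L.z (2 * a) : R) - 1) ^ 2 :=
    fun a a0 a1 => hsq _ (L.even_cong h2 hw a0 a1)
  have low : ∀ j, 0 < j → j < 2 * M - 1 → 2 * l ∣ ((L.z j : R) - 1) ^ 2 := by
    intro j
    induction j using Nat.strong_induction_on with
    | _ j ih =>
      intro j0 j1
      rcases Nat.even_or_odd' j with ⟨a, rfl | rfl⟩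
      · exact hev a (by omega) (by omega)
      · rcases Nat.eq_zero_or_pos a with rfl | a0
        · simp [L.z1]
        · have h1 := L.key2 h2 hw hl2 hl (c := a + 1) (by omega) (by omega)
          have hK : 2 * l ∣
              (1 + (-(L.w : R)) ^ (a + 1) + 2 * ((M - (a + 1) - 1 : ℕ) : R)) := by
            refine h4.trans ?_
            rw [hw1]
            rcases Nat.even_or_odd' a with ⟨b, rfl | rfl⟩
            · have e2 : M - (2 * b + 1) - 1 = 2 * (t - b - 1) := by omega
              rw [e2, Odd.neg_one_pow ⟨b, rfl⟩]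
              exact ⟨((t - b - 1 : ℕ) : R), by push_cast; ring⟩
            · have e2 : M - (2 * b + 1 + 1) - 1 = 2 * (t - b - 2) + 1 := by omega
              rw [e2, Even.neg_one_pow ⟨b + 1, by ring⟩]
              exact ⟨((t - b - 2 : ℕ) : R) + 1, by push_cast; ring⟩
          have h3 := (dvd_sub_left hK).1 h1
          have hm : 1 ∈ Ioo 0 (a + 1) := by simp [a0]
          rw [← add_sum_erase _ _ hm] at h3
          have h5 : 2 * l ∣ ∑ j ∈ (Ioo 0 (a + 1)).erase 1,
              (((L.z j : R) - 1) ^ 2 + ((L.z (2 * (a + 1) - j) : R) - 1) ^ 2) := by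
            refine dvd_sum fun i hi => ?_
            rw [mem_erase, mem_Ioo] at hi
            exact dvd_add (ih i (by omega) (by omega) (by omega))
              (ih _ (by omega) (by omega) (by omega))
          have h6 := (dvd_add_left h5).1 h3
          have e3 : 2 * (a + 1) - 1 = 2 * a + 1 := by omega
          simpa [L.z1, e3] using h6
  have hM2 : (2 : R) ∣ (L.z (2 * M) : R) - 1 := L.even_cong h2 hw (by omega) (by omega)
  have mid : ∀ j, 0 < j → j < 2 * M → 2 * l ∣ ((L.z j : R) - 1) ^ 2 := by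
    intro j j0 j1
    rcases lt_or_ge j (2 * M - 1) with h | h
    · exact low j j0 h
    · have e : j = 2 * M - 1 := by omega
      have h1 := L.down (a := 1) one_pos (by omega)
      rw [L.z1, hwu, L.D_one (by omega), ← e] at h1
      have h3 := congrArg Units.val h1
      simp only [one_mul, mul_one, pow_one, Units.val_mul, Units.val_neg,
        Units.val_one] at h3
      obtain ⟨y, hy⟩ := hM2
      exact hsq _ ⟨-y - 1, by rw [h3]; linear_combination -hy⟩
  have all : ∀ j, 0 < j → j < 2 * (2 * M) → 2 * l ∣ ((L.z j : R) - 1) ^ 2 := by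
    intro j j0 j1
    rcases lt_trichotomy j (2 * M) with h | h | h
    · exact mid j j0 h
    · rw [h]
      exact hsq _ hM2
    · obtain ⟨a, rfl⟩ : ∃ a, j = a + 2 * M := ⟨j - 2 * M, by omega⟩
      have a0 : 0 < a := by omega
      have a1 : a < 2 * M := by omega
      have h1 := L.up a0 a1
      rw [hwu, one_pow, one_mul] at h1
      have h3 := congrArg Units.val h1
      simp only [Units.val_mul] at h3
      obtain ⟨y, hy⟩ := hM2
      obtain ⟨u, hu⟩ := L.D_cong a0 a1
      have h5 := mid a a0 a1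
      have e : ((L.z (a + 2 * M) : R) - 1) ^ 2 = ((L.z a : R) - 1) ^ 2 +
          4 * ((L.z a * (y + u + 2 * y * u)) * ((L.z a : R) - 1) +
            (L.z a * (y + u + 2 * y * u)) ^ 2) := by
        have e1 : (L.z (2 * M) : R) = 1 + 2 * y := by linear_combination hy
        have e2 : (L.D a : R) = 1 + 2 * u := by linear_combination hu
        rw [h3, e1, e2]
        ring
      rw [e]
      exact dvd_add h5 (h4.mul_right _)
  rcases hlor with h | ⟨j, j0, j1, h⟩
  · exact h ▸ hl
  · have h0 : l ≠ 0 := by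
      rintro rfl
      exact L.two_ne (zero_dvd_iff.1 hl2)
    have h1 := all j j0 j1
    rw [← h, sq] at h1
    have h3 : (2 : R) ∣ l := (mul_dvd_mul_iff_right h0).1 h1
    exact fun i i0 i1 => h3.trans (hl i i0 i1)

end Pool.Agent.P.MP_111ca2_co.PR
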