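import Pool.Agent.P.MP_111ca2_co.PrL1

/-! Local system: congruences modulo `4` and `8`. -/

namespace Pool.Agent.P.MP_111ca2_co.PR

open Finset

theorem prl9a_Ioo_succ {a : ℕ} (ha : 0 < a) : Ioo 0 (a + 1) = insert a (Ioo 0 a) := by
  ext j
  simp only [mem_Ioo, mem_insert]
  omega

theorem prl9a_alt {R : Type} [CommRing R] {a : ℕ} (ha : 0 < a) :
    (-1 : R) ^ a + 2 * ∑ j ∈ Ioo 0 a, (-1 : R) ^ j = -1 := by
  induction a with
  | zero => omega
  | succ a ih =>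
    rcases Nat.eq_zero_or_pos a with h | h
    · subst h
      have : Ioo 0 (0 + 1) = (∅ : Finset ℕ) := by
        ext j
        simp only [mem_Ioo, notMem_empty, iff_false]
        omega
      rw [this]
      simp
    · rw [prl9a_Ioo_succ h, sum_insert (by simp), pow_succ]
      linear_combination ih h

theorem prl9a_range {R : Type} [CommRing R] (f : ℕ → R) {a : ℕ} (ha : 0 < a) :
    ∑ j ∈ range a, f j = f 0 + ∑ j ∈ Ioo 0 a, f j := by
  have : range a = insert 0 (Ioo 0 a) := by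
    ext j
    simp only [mem_Ioo, mem_insert, mem_range]
    omega
  rw [this, sum_insert (by simp)]

theorem prl9a_QQ {R : Type} [CommRing R] (ν : ℕ → R) {a : ℕ} (ha : 0 < a) :
    QQ ν a = ν 0 + ν a + ∑ j ∈ Ioo 0 a, (ν j + ν (2 * a - j)) := by
  have h1 : ∑ j ∈ Ioo 0 a, ν (2 * a - j) = ∑ j ∈ Ioo 0 a, ν (a + j) := by
    refine sum_nbij' (fun j => a - j) (fun j => a - j) ?_ ?_ ?_ ?_ ?_
    · intro j hj
      simp only [mem_Ioo] at hj ⊢
      omega
    · intro j hj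
      simp only [mem_Ioo] at hj ⊢
      omega
    · intro j hj
      simp only [mem_Ioo] at hj ⊢
      omega
    · intro j hj
      simp only [mem_Ioo] at hj ⊢
      omega
    · intro j hj
      simp only [mem_Ioo] at hj
      congr 1
      omega
  unfold QQ
  rw [two_mul a, sum_range_add, prl9a_range ν ha, prl9a_range (fun j => ν (a + j)) ha,
    sum_add_distrib, ← two_mul a, h1]
  simp only [add_zero]
  ring

theorem prl9a_sign {R : Type} [CommRing R] (a : ℕ) :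
    ∃ g : R, (-1 : R) ^ a = 1 + 2 * a + 4 * g := by
  induction a with
  | zero => exact ⟨0, by simp⟩
  | succ a ih =>
    obtain ⟨g, hg⟩ := ih
    refine ⟨-1 - a - g, ?_⟩
    rw [pow_succ, hg]
    push_cast
    ring

variable {R : Type} [CommRing R] [IsDomain R] {M : ℕ} (L : Loc R (2 * M)) (hw : L.w = 1)
  (ν : ℕ → R) (h0 : ν 0 = 0) (hν : ∀ j, 0 < j → j < 2 * (2 * M) → (L.z j : R) = 1 + 2 * ν j)

include hw h0 hν

omit hw in
theorem Loc.nu_D {a : ℕ} (ha0 : 0 < a) (ha : a < 2 * M) :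
    ∃ e : R, (L.D a : R) = 1 + 4 * e ∧ (2 : R) ∣ e - (QQ ν a + ν a) := by
  have hs := L.star0 ha0 ha
  set u : R := (((L.z a ^ 2)⁻¹ : Rˣ) : R) with hu
  have hza := hν a ha0 (by omega)
  have hu1 : u * (1 + 2 * ν a) ^ 2 = 1 := by
    rw [← hza, hu, ← Units.val_pow_eq_pow_val, ← Units.val_mul, inv_mul_cancel, Units.val_one]
  set t : ℕ → R := fun j => ν j * ν (2 * a - j) -
    (ν a + ν a ^ 2) * u * ((1 + 2 * ν j) * (1 + 2 * ν (2 * a - j))) with ht
  have hT : ∀ j ∈ Ioo 0 a, (-1 : R) ^ j * ((L.z j * L.z (2 * a - j) / L.z a ^ 2 : Rˣ) : R) =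
      (-1) ^ j + 2 * ((-1) ^ j * (ν j + ν (2 * a - j))) + 4 * ((-1) ^ j * t j) := by
    intro j hj
    simp only [mem_Ioo] at hj
    rw [div_eq_mul_inv, Units.val_mul, Units.val_mul, ← hu, hν j hj.1 (by omega),
      hν (2 * a - j) (by omega) (by omega)]
    simp only [ht]
    linear_combination ((-1 : R) ^ j * ((1 + 2 * ν j) * (1 + 2 * ν (2 * a - j)))) * hu1
  rw [sum_congr rfl hT, sum_add_distrib, sum_add_distrib, ← mul_sum, ← mul_sum] at hs
  have halt := prl9a_alt (R := R) ha0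
  refine ⟨-(∑ j ∈ Ioo 0 a, (-1) ^ j * (ν j + ν (2 * a - j))) - 2 * ∑ j ∈ Ioo 0 a, (-1) ^ j * t j,
    by linear_combination hs - halt, ?_⟩
  have hd : (2 : R) ∣ ∑ j ∈ Ioo 0 a, ((-1) ^ j * (ν j + ν (2 * a - j)) + (ν j + ν (2 * a - j))) := by
    refine dvd_sum fun j _ => ?_
    obtain ⟨g, hg⟩ := prl9a_sign (R := R) j
    exact ⟨(1 + j + 2 * g) * (ν j + ν (2 * a - j)), by rw [hg]; ring⟩
  obtain ⟨k, hk⟩ := hd
  rw [sum_add_distrib] at hk
  rw [prl9a_QQ ν ha0, h0]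
  exact ⟨-k - (∑ j ∈ Ioo 0 a, (-1) ^ j * t j) - ν a, by linear_combination -hk⟩

omit hw in
theorem Loc.nu_even {a : ℕ} (ha : a < 2 * M) : (2 : R) ∣ ν (2 * a) := by
  rcases Nat.eq_zero_or_pos a with h | h
  · subst h
    simp [h0]
  obtain ⟨e, he, -⟩ := L.nu_D ν h0 hν h ha
  have h1 := congrArg (fun x : Rˣ => (x : R)) (L.z_dbl a)
  simp only [Units.val_mul, Units.val_pow_eq_pow_val] at h1
  rw [he, hν a h (by omega), hν (2 * a) (by omega) (by omega)] at h1
  refine ⟨e + (ν a + ν a ^ 2) * (1 + 4 * e), ?_⟩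
  apply mul_left_cancel₀ L.two_ne
  linear_combination h1

theorem Loc.nu_rfx {a : ℕ} (ha0 : 0 < a) (ha : a < 2 * M) :
    (2 : R) ∣ ν a + ν (2 * M - a) - a := by
  obtain ⟨e, he, -⟩ := L.nu_D ν h0 hν ha0 ha
  obtain ⟨f, hf⟩ := L.nu_even ν h0 hν (a := M) (by omega)
  obtain ⟨g, hg⟩ := prl9a_sign (R := R) a
  have h1 := congrArg (fun x : Rˣ => (x : R)) (L.down ha0 ha)
  simp only [hw, one_pow, mul_one, Units.val_mul, Units.val_pow_eq_pow_val, Units.val_neg,
    Units.val_one] at h1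
  rw [he, hν a ha0 (by omega), hν (2 * M - a) (by omega) (by omega),
    hν (2 * M) (by omega) (by omega), hf, hg] at h1
  refine ⟨g + f * (1 + 2 * a + 4 * g) - ν a * ν (2 * M - a) -
    e * ((1 + 2 * ν a) * (1 + 2 * ν (2 * M - a))), ?_⟩
  apply mul_left_cancel₀ L.two_ne
  linear_combination h1

theorem Loc.nu_per {a : ℕ} (ha : a < 2 * M) : (2 : R) ∣ ν (a + 2 * M) - ν a := by
  obtain ⟨f, hf⟩ := L.nu_even ν h0 hν (a := M) (by omega)
  rcases Nat.eq_zero_or_pos a with h | h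
  · subst h
    rw [zero_add, h0, sub_zero]
    exact ⟨f, hf⟩
  obtain ⟨e, he, -⟩ := L.nu_D ν h0 hν h ha
  have h1 := congrArg (fun x : Rˣ => (x : R)) (L.up h ha)
  simp only [hw, one_pow, one_mul, Units.val_mul] at h1
  rw [he, hν a h (by omega), hν (a + 2 * M) (by omega) (by omega),
    hν (2 * M) (by omega) (by omega), hf] at h1
  refine ⟨(e + f + 4 * e * f) * (1 + 2 * ν a), ?_⟩
  apply mul_left_cancel₀ L.two_ne
  linear_combination h1

end Pool.Agent.P.MP_111ca2_co.PR
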