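import Pool.Agent.P.MP_111ca2_co.PrL9a
import Pool.Agent.P.MP_111ca2_co.PrL5

/-! Local system: the key identity modulo `8`. -/

namespace Pool.Agent.P.MP_111ca2_co.PR

open Finset

theorem prl9b_inv {R : Type} [CommRing R] (u : Rˣ) (k t : R) (h : (u : R) = 1 + k * t) :
    ((u⁻¹ : Rˣ) : R) = 1 + k * (-(t * (u⁻¹ : Rˣ))) := by
  have h1 : (u : R) * (u⁻¹ : Rˣ) = 1 := Units.mul_inv u
  linear_combination h1 - ((u⁻¹ : Rˣ) : R) * h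

theorem prl9b_sign {R : Type} [CommRing R] (j : ℕ) : ∃ s : R, (-1 : R) ^ j = 1 + 2 * s := by
  rcases neg_one_pow_eq_or R j with h | h
  · exact ⟨0, by rw [h]; ring⟩
  · exact ⟨-1, by rw [h]; ring⟩

variable {R : Type} [CommRing R] [IsDomain R] {M : ℕ} (L : Loc R (2 * M)) (hw : L.w = 1)
  (ν : ℕ → R) (h0 : ν 0 = 0) (hν : ∀ j, 0 < j → j < 2 * (2 * M) → (L.z j : R) = 1 + 2 * ν j)

include hw h0 hν

omit hw in
theorem prl9b_dbl {a : ℕ} (ha0 : 0 < a) (ha : a < 2 * M) :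
    ∃ x y : R, (L.z (2 * a) : R) = 1 + 4 * x ∧ x = QQ ν a + ν a ^ 2 + 2 * y := by
  obtain ⟨e, he, f, hf⟩ := L.nu_D ν h0 hν ha0 ha
  have hz := hν a ha0 (by omega)
  have h1 : L.z (2 * a) = L.D a * L.z a ^ 2 := by
    unfold Loc.D
    rw [div_mul_cancel]
  have h2 : (L.z (2 * a) : R) = (L.D a : R) * (L.z a : R) ^ 2 := by
    rw [h1, Units.val_mul, Units.val_pow_eq_pow_val]
  refine ⟨e + ν a + ν a ^ 2 + 4 * e * (ν a + ν a ^ 2), f + ν a + 2 * e * (ν a + ν a ^ 2), ?_, ?_⟩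
  · rw [h2, he, hz]; ring
  · linear_combination hf

omit hw in
theorem prl9b_left {c j : ℕ} (hc : c < M) (hj0 : 0 < j) (hj : j < c) :
    (8 : R) ∣ (-1) ^ j * ((L.Z c j : R) - ((L.Z c j * L.D j * L.D (2 * c - j))⁻¹ : Rˣ)) -
      4 * (QQ ν j + ν j ^ 2 + (QQ ν (2 * c - j) + ν (2 * c - j) ^ 2)) := by
  obtain ⟨x1, y1, hx1, hy1⟩ := prl9b_dbl L ν h0 hν hj0 (by omega : j < 2 * M)
  obtain ⟨x2, y2, hx2, hy2⟩ :=
    prl9b_dbl L ν h0 hν (by omega : 0 < 2 * c - j) (by omega : 2 * c - j < 2 * M)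
  obtain ⟨x3, y3, hx3, -⟩ := prl9b_dbl L ν h0 hν (by omega : 0 < c) (by omega : c < 2 * M)
  obtain ⟨e1, he1, -⟩ := L.nu_D ν h0 hν hj0 (by omega : j < 2 * M)
  obtain ⟨e2, he2, -⟩ :=
    L.nu_D ν h0 hν (by omega : 0 < 2 * c - j) (by omega : 2 * c - j < 2 * M)
  have hz1 := hν j hj0 (by omega)
  have hz2 := hν (2 * c - j) (by omega) (by omega)
  have hi3 := prl9b_inv (L.z (2 * c)) 4 x3 hx3
  obtain ⟨s, hs⟩ := prl9b_sign (R := R) j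
  obtain ⟨x4, hx4⟩ : ∃ x4 : R, (((L.z (2 * c))⁻¹ : Rˣ) : R) = 1 + 4 * x4 := ⟨_, hi3⟩
  have hZ : (L.Z c j : R) = (1 + 2 * ν j) * (1 + 2 * ν (2 * c - j)) * (1 + 4 * x4) := by
    unfold Loc.Z
    rw [div_eq_mul_inv, Units.val_mul, Units.val_mul, hz1, hz2, hx4]
  obtain ⟨t, ht⟩ : ∃ t : R, ((L.Z c j * L.D j * L.D (2 * c - j) : Rˣ) : R) = 1 + 2 * t := by
    refine ⟨(ν j + ν (2 * c - j) + 2 * ν j * ν (2 * c - j)) * ((1 + 4 * x4) * (1 + 4 * e1) *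
      (1 + 4 * e2)) + 2 * (x4 + e1 + e2 + 4 * (x4 * e1 + x4 * e2 + e1 * e2) + 16 * x4 * e1 * e2),
      ?_⟩
    rw [Units.val_mul, Units.val_mul, hZ, he1, he2]; ring
  obtain ⟨t', ht'⟩ : ∃ t' : R,
      (((L.Z c j * L.D j * L.D (2 * c - j))⁻¹ : Rˣ) : R) = 1 + 2 * t' :=
    ⟨_, prl9b_inv _ 2 t ht⟩
  have hu : L.Z c j = L.z (2 * j) * L.z (2 * (2 * c - j)) * (L.z (2 * c))⁻¹ * (L.z (2 * c))⁻¹ *
      (L.Z c j * L.D j * L.D (2 * c - j))⁻¹ := by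
    rw [eq_mul_inv_iff_mul_eq]
    unfold Loc.Z Loc.D
    apply Additive.ofMul.injective
    simp only [ofMul_mul, ofMul_inv, ofMul_div, ofMul_pow]
    abel
  have hu' : (L.Z c j : R) =
      (1 + 4 * x1) * (1 + 4 * x2) * (1 + 4 * x4) * (1 + 4 * x4) * (1 + 2 * t') := by
    rw [← hx1, ← hx2, ← hx4, ← ht']
    exact (congrArg (fun u : Rˣ => (u : R)) hu).trans (by simp only [Units.val_mul])
  have hq : QQ ν j + ν j ^ 2 + (QQ ν (2 * c - j) + ν (2 * c - j) ^ 2) =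
      x1 + x2 - 2 * (y1 + y2) := by
    rw [hy1, hy2]; ring
  rw [hu', ht', hs, hq]
  refine ⟨(1 + 2 * s) * (1 + 2 * t') * (2 * x1 * x2 + (1 + 4 * x1) * (1 + 4 * x2) *
    (x4 + 2 * x4 ^ 2)) + (x1 + x2) * (s + t' + 2 * s * t') + (y1 + y2), ?_⟩
  ring

omit hw in
theorem prl9b_right {c i : ℕ} (hc0 : 0 < c) (hi0 : 0 < i) (hi : i < M - c) :
    (8 : R) ∣ (L.U c i : R) * (1 + (L.D i / L.D (i + 2 * c) : Rˣ)) -
      (2 + 4 * (QQ ν i + QQ ν (i + 2 * c))) := by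
  obtain ⟨x3, y3, hx3, -⟩ := prl9b_dbl L ν h0 hν hc0 (by omega : c < 2 * M)
  obtain ⟨e1, he1, f1, hf1⟩ := L.nu_D ν h0 hν hi0 (by omega : i < 2 * M)
  obtain ⟨e2, he2, f2, hf2⟩ :=
    L.nu_D ν h0 hν (by omega : 0 < i + 2 * c) (by omega : i + 2 * c < 2 * M)
  have hz1 := hν i hi0 (by omega)
  have hz2 := hν (i + 2 * c) (by omega) (by omega)
  have hi2 := prl9b_inv (L.z (i + 2 * c)) 2 _ hz2
  obtain ⟨a, ha⟩ : ∃ a : R, (((L.z (i + 2 * c))⁻¹ : Rˣ) : R) = 1 + 2 * a := ⟨_, hi2⟩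
  have hi2' : (((L.z (i + 2 * c))⁻¹ : Rˣ) : R) = 1 + 2 * (-(ν (i + 2 * c) * (1 + 2 * a))) := by
    rw [← ha]; exact hi2
  have hd2 := prl9b_inv (L.D (i + 2 * c)) 4 _ he2
  obtain ⟨b, hb⟩ : ∃ b : R, (((L.D (i + 2 * c))⁻¹ : Rˣ) : R) = 1 + 4 * b := ⟨_, hd2⟩
  have hd2' : (((L.D (i + 2 * c))⁻¹ : Rˣ) : R) = 1 + 4 * (-(e2 * (1 + 4 * b))) := by
    rw [← hb]; exact hd2
  have hU : (L.U c i : R) =
      (1 + 2 * ν i) * (1 + 4 * x3) * (1 + 2 * (-(ν (i + 2 * c) * (1 + 2 * a)))) := by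
    unfold Loc.U
    rw [div_eq_mul_inv, Units.val_mul, Units.val_mul, hz1, hx3, add_comm (2 * c) i, hi2']
  have hD : ((L.D i / L.D (i + 2 * c) : Rˣ) : R) =
      (1 + 4 * e1) * (1 + 4 * (-(e2 * (1 + 4 * b)))) := by
    rw [div_eq_mul_inv, Units.val_mul, he1, hd2']
  obtain ⟨k, hk⟩ : ∃ k : R, (L.U c i : R) = 1 + 2 * (ν i + ν (i + 2 * c)) + 4 * k :=
    ⟨x3 * ((1 + 2 * ν i) * (1 - 2 * (ν (i + 2 * c) * (1 + 2 * a)))) - ν (i + 2 * c) -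
      ν (i + 2 * c) * a - ν i * (ν (i + 2 * c) * (1 + 2 * a)), by rw [hU]; ring⟩
  obtain ⟨l, hl⟩ : ∃ l : R, ((L.D i / L.D (i + 2 * c) : Rˣ) : R) = 1 + 4 * (e1 + e2) + 8 * l :=
    ⟨-e2 - 2 * e2 * b - 2 * e1 * (e2 * (1 + 4 * b)), by rw [hD]; ring⟩
  have hq : QQ ν i + QQ ν (i + 2 * c) =
      e1 + e2 - (ν i + ν (i + 2 * c)) - 2 * (f1 + f2) := by
    linear_combination -hf1 - hf2
  rw [hk, hl, hq]
  refine ⟨l + (ν i + ν (i + 2 * c)) + (ν i + ν (i + 2 * c)) * (e1 + e2 + 2 * l) +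
    k * (1 + 2 * (e1 + e2) + 4 * l) + (f1 + f2), ?_⟩
  ring

theorem Loc.key3 (hM : Even M) {c : ℕ} (hc0 : 0 < c) (hc : c < M) :
    (2 : R) ∣ EL ν c - ER ν M c := by
  have hK : L.Key M c := L.key (by rw [hw, one_pow]) hc0 hc
  unfold Loc.Key at hK
  have hL : (8 : R) ∣ ∑ j ∈ Ioo 0 c, (-1) ^ j * ((L.Z c j : R) -
      ((L.Z c j * L.D j * L.D (2 * c - j))⁻¹ : Rˣ)) - 4 * EL ν c := by
    unfold EL
    rw [mul_sum, ← sum_sub_distrib]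
    refine dvd_sum fun j hj => ?_
    rw [mem_Ioo] at hj
    exact prl9b_left L ν h0 hν hc hj.1 hj.2
  have hR : (8 : R) ∣ ∑ i ∈ Ioo 0 (M - c), (L.U c i : R) * (1 + (L.D i / L.D (i + 2 * c) : Rˣ)) -
      (2 * ((M - c - 1 : ℕ) : R) + 4 * ∑ i ∈ Ioo 0 (M - c), (QQ ν i + QQ ν (i + 2 * c))) := by
    have h1 : 2 * ((M - c - 1 : ℕ) : R) = ∑ i ∈ Ioo 0 (M - c), (2 : R) := by
      rw [sum_const, Nat.card_Ioo, nsmul_eq_mul, Nat.sub_zero, mul_comm]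
    rw [h1, mul_sum, ← sum_add_distrib, ← sum_sub_distrib]
    refine dvd_sum fun i hi => ?_
    rw [mem_Ioo] at hi
    exact prl9b_right L ν h0 hν hc0 hi.1 hi.2
  obtain ⟨e, he, -⟩ := L.nu_D ν h0 hν (by omega : 0 < 2 * c) (by omega : 2 * c < 2 * M)
  obtain ⟨b, hb⟩ : ∃ b : R, (((L.D (2 * c))⁻¹ : Rˣ) : R) = 1 + 4 * b :=
    ⟨_, prl9b_inv _ 4 e he⟩
  have hC : (8 : R) ∣ (1 + (-(L.w : R)) ^ c) * ((L.D (2 * c))⁻¹ : Rˣ) +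
      2 * ((M - c - 1 : ℕ) : R) - 4 * (((M - c) / 2 : ℕ) : R) := by
    rw [hb, hw, Units.val_one]
    obtain ⟨m, hm⟩ := hM
    rcases Nat.even_or_odd c with ⟨d, hd⟩ | ⟨d, hd⟩
    · have h1 : (-1 : R) ^ c = 1 := Even.neg_one_pow ⟨d, hd⟩
      have h2 : ((M - c - 1 : ℕ) : R) + 1 = 2 * (((M - c) / 2 : ℕ) : R) := by
        have : M - c - 1 + 1 = 2 * ((M - c) / 2) := by omega
        exact_mod_cast congrArg (Nat.cast : ℕ → R) this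
      exact ⟨b, by rw [h1]; linear_combination 2 * h2⟩
    · have h1 : (-1 : R) ^ c = -1 := Odd.neg_one_pow ⟨d, hd⟩
      have h2 : ((M - c - 1 : ℕ) : R) = 2 * (((M - c) / 2 : ℕ) : R) := by
        have : M - c - 1 = 2 * ((M - c) / 2) := by omega
        exact_mod_cast congrArg (Nat.cast : ℕ → R) this
      exact ⟨0, by rw [h1]; linear_combination 2 * h2⟩
  obtain ⟨a1, h1⟩ := hL
  obtain ⟨a2, h2⟩ := hR
  obtain ⟨a3, h3⟩ := hC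
  refine ⟨a2 + a3 - a1, ?_⟩
  have h4 : (4 : R) ≠ 0 := by
    have : (4 : R) = 2 * 2 := by ring
    rw [this]
    exact mul_ne_zero L.two_ne L.two_ne
  apply mul_left_cancel₀ h4
  unfold ER
  linear_combination hK - h1 + h2 + h3

end Pool.Agent.P.MP_111ca2_co.PR
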