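import Pool.Agent.P.MP_111ca2_co.PrL9b

/-! Local system: passage to the residue field. -/

namespace Pool.Agent.P.MP_111ca2_co.PR

open Finset

variable {R : Type} [CommRing R] [IsDomain R] [ValuationRing R]

theorem prl9c_QQ {S T : Type} [CommRing S] [CommRing T] (f : S →+* T) (ν : ℕ → S) (μ : ℕ → T)
    (N : ℕ) (h : ∀ j, j < N → μ j = f (ν j)) {a : ℕ} (ha : 2 * a ≤ N) :
    QQ μ a = f (QQ ν a) := by
  unfold QQ
  rw [map_sum]
  refine Finset.sum_congr rfl fun j hj => h j ?_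
  have := Finset.mem_range.1 hj
  omega

theorem prl9c_EL {S T : Type} [CommRing S] [CommRing T] (f : S →+* T) (ν : ℕ → S) (μ : ℕ → T)
    (M : ℕ) (h : ∀ j, j < 4 * M → μ j = f (ν j)) {c : ℕ} (hc : c < M) :
    EL μ c = f (EL ν c) := by
  unfold EL
  rw [map_sum]
  refine Finset.sum_congr rfl fun j hj => ?_
  have hj' := Finset.mem_Ioo.1 hj
  rw [prl9c_QQ f ν μ (4 * M) h (a := j) (by omega),
    prl9c_QQ f ν μ (4 * M) h (a := 2 * c - j) (by omega), h j (by omega),
    h (2 * c - j) (by omega)]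
  simp only [map_add, map_pow]

theorem prl9c_ER {S T : Type} [CommRing S] [CommRing T] (f : S →+* T) (ν : ℕ → S) (μ : ℕ → T)
    (M : ℕ) (h : ∀ j, j < 4 * M → μ j = f (ν j)) {c : ℕ} (hc : c < M) :
    ER μ M c = f (ER ν M c) := by
  unfold ER
  rw [map_add, map_natCast, map_sum]
  congr 1
  refine Finset.sum_congr rfl fun i hi => ?_
  have hi' := Finset.mem_Ioo.1 hi
  rw [prl9c_QQ f ν μ (4 * M) h (a := i) (by omega),
    prl9c_QQ f ν μ (4 * M) h (a := i + 2 * c) (by omega), map_add]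

theorem Loc.exists_res {M : ℕ} (L : Loc R (2 * M)) (hM : Even M) (h0 : 0 < M) (hw : L.w = 1)
    (hz : ∀ j, 0 < j → j < 2 * (2 * M) → (2 : R) ∣ (L.z j : R) - 1) :
    Nonempty (Res (IsLocalRing.ResidueField R) M) := by
  classical
  have hex : ∀ j : ℕ, ∃ x : R, (j = 0 → x = 0) ∧
      (0 < j → j < 2 * (2 * M) → (L.z j : R) = 1 + 2 * x) := by
    intro j
    by_cases hj : 0 < j ∧ j < 2 * (2 * M)
    · obtain ⟨x, hx⟩ := hz j hj.1 hj.2
      exact ⟨x, fun h => absurd hj.1 (by omega), fun _ _ => by linear_combination hx⟩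
    · exact ⟨0, fun _ => rfl, fun h1 h2 => absurd ⟨h1, h2⟩ hj⟩
  choose ν hν using hex
  have hν0 : ν 0 = 0 := (hν 0).1 rfl
  have hν1 : ∀ j, 0 < j → j < 2 * (2 * M) → (L.z j : R) = 1 + 2 * ν j := fun j => (hν j).2
  set f : R →+* IsLocalRing.ResidueField R := IsLocalRing.residue R with hf
  have h2 : f 2 = 0 := by
    rw [hf, IsLocalRing.residue_eq_zero_iff, IsLocalRing.mem_maximalIdeal]
    exact L.two_nu
  have h2' : (2 : IsLocalRing.ResidueField R) = 0 := by
    rw [← map_ofNat f 2]; exact h2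
  have hd : ∀ x : R, (2 : R) ∣ x → f x = 0 := by
    rintro x ⟨y, rfl⟩
    rw [map_mul, h2, zero_mul]
  have hμ : ∀ j, j < 4 * M → f (ν (j % (2 * M))) = f (ν j) := by
    intro j hj
    by_cases h1 : j < 2 * M
    · rw [Nat.mod_eq_of_lt h1]
    · obtain ⟨a, rfl⟩ : ∃ a, j = a + 2 * M := ⟨j - 2 * M, by omega⟩
      have ha : a < 2 * M := by omega
      rw [Nat.add_mod_right, Nat.mod_eq_of_lt ha]
      have := hd _ (L.nu_per hw ν hν0 hν1 ha)
      rw [map_sub, sub_eq_zero] at this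
      exact this.symm
  refine ⟨⟨fun a => f (ν (a % (2 * M))), h2', ?_, ?_, ?_, ?_⟩⟩
  · intro a
    have ha : a % M < 2 * M := by
      have := Nat.mod_lt a h0
      omega
    show f (ν (2 * a % (2 * M))) = 0
    rw [Nat.mul_mod_mul_left]
    exact hd _ (L.nu_even ν hν0 hν1 ha)
  · intro a
    show f (ν ((a + 2 * M) % (2 * M))) = f (ν (a % (2 * M)))
    rw [Nat.add_mod_right]
  · intro a ha
    show f (ν (a % (2 * M))) + f (ν ((2 * M - a) % (2 * M))) = a
    rcases Nat.eq_zero_or_pos a with rfl | ha0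
    · simp [hν0]
    rcases ha.eq_or_lt with rfl | ha1
    · simp [hν0, h2']
    · rw [hμ a (by omega), hμ (2 * M - a) (by omega)]
      have := hd _ (L.nu_rfx hw ν hν0 hν1 ha0 ha1)
      rw [map_sub, map_add, map_natCast, sub_eq_zero] at this
      exact this
  · intro c hc0 hc
    rw [prl9c_EL f ν _ M hμ hc, prl9c_ER f ν _ M hμ hc]
    have := hd _ (L.key3 hw ν hν0 hν1 hM hc0 hc)
    rw [map_sub, sub_eq_zero] at this
    exact this

end Pool.Agent.P.MP_111ca2_co.PR
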