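import Pool.Agent.P.MP_111ca2_co.PrDefs

/-! Residual system: the doubling formula. -/

namespace Pool.Agent.P.MP_111ca2_co.PR

open Finset

namespace Res

variable {k : Type} [Field k] {M : ℕ} (T : Res k M)

theorem prla_zero : QQ T.ν 0 = 0 := by simp [QQ]

theorem prla_step (a : ℕ) : QQ T.ν (a + 1) = QQ T.ν a + T.ν (2 * a + 1) := by
  unfold QQ
  rw [show 2 * (a + 1) = 2 * a + 1 + 1 by ring, sum_range_succ, sum_range_succ, T.even, add_zero]

theorem prla_half : ∀ a ≤ M, QQ T.ν (M - a) = QQ T.ν M + QQ T.ν a + a := by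
  intro a
  induction a with
  | zero => intro _; simp [T.prla_zero]
  | succ a ih =>
    intro ha
    have h1 := ih (by omega)
    have h2 := T.prla_step (M - (a + 1))
    rw [show M - (a + 1) + 1 = M - a by omega,
      show 2 * (M - (a + 1)) + 1 = 2 * M - (2 * a + 1) by omega] at h2
    have h3 := T.rfx (2 * a + 1) (by omega)
    have h4 := T.prla_step a
    push_cast at h3 ⊢
    linear_combination h1 - h2 - h4 - h3 - (2 * (a : k) + 1 - a) * T.two + (a : k) * T.two
      - (a : k) * T.two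

theorem prla_top (hM : Even M) : QQ T.ν M = ((M / 2 : ℕ) : k) := by
  obtain ⟨N, rfl⟩ := hM
  have h1 := T.prla_half N (by omega)
  rw [Nat.add_sub_cancel] at h1
  rw [show (N + N) / 2 = N by omega]
  linear_combination -h1 - (N : k) * T.two

theorem Q_add (hM : Even M) (a : ℕ) : QQ T.ν (a + M) = QQ T.ν a + ((M / 2 : ℕ) : k) := by
  induction a with
  | zero => rw [zero_add, T.prla_zero, zero_add, T.prla_top hM]
  | succ a ih =>
    rw [show a + 1 + M = a + M + 1 by ring, T.prla_step, T.prla_step, ih,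
      show 2 * (a + M) + 1 = 2 * a + 1 + 2 * M by ring, T.per]
    ring

theorem Q_rfx (hM : Even M) {a : ℕ} (ha : a ≤ 2 * M) : QQ T.ν (2 * M - a) = QQ T.ν a + a := by
  rcases le_total a M with h | h
  · rw [show 2 * M - a = M - a + M by omega, T.Q_add hM, T.prla_half a h, T.prla_top hM]
    linear_combination ((M / 2 : ℕ) : k) * T.two
  · obtain ⟨b, rfl⟩ := Nat.exists_eq_add_of_le' h
    rw [show 2 * M - (b + M) = M - b by omega, T.Q_add hM, T.prla_half b (by omega),
      T.prla_top hM]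
    obtain ⟨N, rfl⟩ := hM
    push_cast
    linear_combination -(N : k) * T.two

theorem prla_ioo (f : ℕ → k) {c : ℕ} (h0 : 0 < c) :
    ∑ j ∈ Ioo 0 c, f j = ∑ j ∈ range c, f j - f 0 := by
  rw [show Ioo 0 c = Ico 1 c by ext j; simp only [mem_Ioo, mem_Ico]; omega,
    sum_Ico_eq_sub _ (show 1 ≤ c from h0), sum_range_one]

theorem prla_fold (f : ℕ → k) {c : ℕ} (h0 : 0 < c) :
    ∑ j ∈ Ioo 0 c, f (2 * c - j) = ∑ j ∈ range (2 * c), f j - ∑ j ∈ range c, f j - f c := by
  rw [show Ioo 0 c = Ico 1 c by ext j; simp only [mem_Ioo, mem_Ico]; omega,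
    sum_Ico_reflect f 1 (show c ≤ 2 * c + 1 by omega), show 2 * c + 1 - c = c + 1 by omega,
    Nat.add_sub_cancel, sum_Ico_eq_sub _ (show c + 1 ≤ 2 * c by omega), sum_range_succ]
  ring

theorem prla_shift (f : ℕ → k) {d : ℕ} (h0 : 0 < d) (e : ℕ) :
    ∑ j ∈ Ioo 0 d, f (j + e) = ∑ j ∈ range (d + e), f j - ∑ j ∈ range e, f j - f e := by
  rw [show Ioo 0 d = Ico 1 d by ext j; simp only [mem_Ioo, mem_Ico]; omega,
    sum_Ico_add' f 1 d e, sum_Ico_eq_sub _ (show 1 + e ≤ d + e by omega), add_comm 1 e,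
    sum_range_succ]
  ring

theorem prla_sq (n : ℕ) : ∑ j ∈ range n, T.ν j ^ 2 = (∑ j ∈ range n, T.ν j) ^ 2 := by
  induction n with
  | zero => simp
  | succ n ih =>
    rw [sum_range_succ, sum_range_succ, ih]
    linear_combination -((∑ j ∈ range n, T.ν j) * T.ν n) * T.two

theorem prla_mid (hM : Even M) : ∀ c ≤ M,
    ∑ j ∈ range (M + c), QQ T.ν j + ∑ j ∈ range (M - c), QQ T.ν j =
      QQ T.ν c + (((M - c) / 2 : ℕ) : k) + ((M / 2 : ℕ) : k) := by
  intro c
  induction c with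
  | zero =>
    intro _
    rw [add_zero, Nat.sub_zero, T.prla_zero]
    linear_combination (∑ j ∈ range M, QQ T.ν j - ((M / 2 : ℕ) : k)) * T.two
  | succ c ih =>
    intro hc
    have h1 := ih (by omega)
    have h2 := sum_range_succ (fun j => QQ T.ν j) (M - (c + 1))
    rw [show M - (c + 1) + 1 = M - c by omega, T.prla_half (c + 1) hc, T.prla_top hM] at h2
    have h3 := T.Q_add hM c
    have h4 : (M - (c + 1)) / 2 + (M - c) / 2 + (c + 1) = 2 * (M / 2) := by
      obtain ⟨N, rfl⟩ := hM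
      omega
    have h5 := congrArg (Nat.cast : ℕ → k) h4
    rw [← add_assoc, sum_range_succ, add_comm M c] at *
    generalize (M - (c + 1)) / 2 = u at *
    generalize (M - c) / 2 = v at *
    generalize M / 2 = N at *
    push_cast at h2 h5 ⊢
    linear_combination h1 - h2 + h3 - h5 +
      (QQ T.ν c - QQ T.ν (c + 1) + (v : k) - (N : k)) * T.two

theorem Q_dbl (hM : Even M) {c : ℕ} (h0 : 0 < c) (hc : c < M) :
    QQ T.ν (2 * c) = ((M / 2 : ℕ) : k) + (QQ T.ν c + T.ν c) ^ 2 := by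
  have h1 := T.E c h0 hc
  unfold EL ER at h1
  simp only [sum_add_distrib] at h1
  rw [prla_ioo (QQ T.ν) h0, prla_ioo (fun j => T.ν j ^ 2) h0, prla_fold (QQ T.ν) h0,
    prla_fold (fun j => T.ν j ^ 2) h0, prla_ioo (QQ T.ν) (show 0 < M - c by omega),
    prla_shift (QQ T.ν) (show 0 < M - c by omega), T.prla_sq (2 * c),
    show M - c + 2 * c = M + c by omega, T.prla_zero] at h1
  have h2 := T.prla_mid hM c hc.le
  have h3 : T.ν 0 = 0 := T.even 0
  have h4 : ∑ j ∈ range (2 * c), T.ν j = QQ T.ν c := rfl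
  rw [h3, h4] at h1
  generalize ∑ j ∈ range (2 * c), QQ T.ν j = F at *
  linear_combination h1 + h2 + (-F + QQ T.ν c + (((M - c) / 2 : ℕ) : k)
    - (QQ T.ν c + T.ν c) * QQ T.ν c - 0) * T.two

end Res

end Pool.Agent.P.MP_111ca2_co.PR
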