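import Pool.Agent.P.MP_111ca2_co.PrLa

/-! Residual system: halving the period once. -/

namespace Pool.Agent.P.MP_111ca2_co.PR

open Finset

namespace Res

variable {k : Type} [Field k] {M : ℕ} (T : Res k M)

include T in
theorem prlb_sq {x y : k} (h : x ^ 2 = y ^ 2) : x = y := by
  have : (x - y) ^ 2 = 0 := by linear_combination h + (y ^ 2 - x * y) * T.two
  exact sub_eq_zero.1 (pow_eq_zero_iff (two_ne_zero) |>.1 this)

theorem prlb_refl (hM : Even M) {c : ℕ} (h0 : 0 < c) (hc : c < M) :
    T.ν (M - c) = T.ν c + c + ((M / 2 : ℕ) : k) := by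
  have a := T.Q_dbl hM h0 hc
  have b := T.Q_dbl hM (c := M - c) (by omega) (by omega)
  have d := T.Q_rfx hM (a := 2 * c) (by omega)
  have e := T.Q_rfx hM (a := c) (by omega)
  have f := T.Q_add hM (M - c)
  rw [show M - c + M = 2 * M - c by omega, e] at f
  rw [show 2 * (M - c) = 2 * M - 2 * c by omega, d, a] at b
  push_cast at b
  have g : QQ T.ν c + T.ν c = QQ T.ν (M - c) + T.ν (M - c) :=
    T.prlb_sq (by linear_combination b - (c : k) * T.two)
  linear_combination -g + f - (c : k) * T.two

theorem four_dvd (hM : Even M) (h4 : 4 ≤ M) : 4 ∣ M ∧ (∀ a, T.ν (a + M) = T.ν a) ∧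
    ∀ c, QQ T.ν (2 * c) = (QQ T.ν c + T.ν c) ^ 2 := by
  obtain ⟨r, rfl⟩ : ∃ r, M = 2 * r := by obtain ⟨r, h⟩ := hM; exact ⟨r, by omega⟩
  have h0 : ((2 * r / 2 : ℕ) : k) = 0 := by
    have a := T.prlb_refl hM (c := 2) (by omega) (by omega)
    have b := T.even 1
    rw [show 2 * r - 2 = 2 * (r - 1) by omega, T.even] at a
    rw [mul_one] at b
    rw [b] at a
    push_cast at a
    linear_combination -a - T.two
  have hr : 2 ∣ r := by
    by_contra h
    obtain ⟨t, rfl⟩ : ∃ t, r = 2 * t + 1 := ⟨r / 2, by omega⟩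
    rw [Nat.mul_div_cancel_left _ (by norm_num)] at h0
    push_cast at h0
    exact one_ne_zero (α := k) (by linear_combination h0 - (t : k) * T.two)
  have p1 : ∀ a, a < 2 * r → T.ν (a + 2 * r) = T.ν a := by
    intro a ha
    rcases Nat.eq_zero_or_pos a with rfl | h
    · rw [zero_add, T.even]
      exact (T.even 0).symm
    · have x := T.prlb_refl hM (c := 2 * r - a) (by omega) (by omega)
      have y := T.rfx (2 * r - a) (by omega)
      rw [show 2 * r - (2 * r - a) = a by omega, h0] at x
      rw [show 2 * (2 * r) - (2 * r - a) = a + 2 * r by omega] at y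
      linear_combination y - x - T.ν (2 * r - a) * T.two
  have p2 : ∀ a, T.ν (a + 2 * r) = T.ν a := by
    intro a
    induction a using Nat.strong_induction_on with
    | _ a ih =>
      by_cases ha : a < 2 * r
      · exact p1 a ha
      · obtain ⟨b, rfl⟩ : ∃ b, a = b + 2 * r := ⟨a - 2 * r, by omega⟩
        rw [ih b (by omega), show b + 2 * r + 2 * r = b + 2 * (2 * r) by ring, T.per]
  refine ⟨by omega, p2, fun c => ?_⟩
  induction c using Nat.strong_induction_on with
  | _ c ih =>
    rcases Nat.eq_zero_or_pos c with rfl | h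
    · have := T.even 0
      simp only [mul_zero] at this
      simp [QQ, this]
    by_cases hc : c < 2 * r
    · rw [T.Q_dbl hM h hc, h0, zero_add]
    · obtain ⟨b, rfl⟩ : ∃ b, c = b + 2 * r := ⟨c - 2 * r, by omega⟩
      rw [show 2 * (b + 2 * r) = 2 * b + 2 * r + 2 * r by ring, T.Q_add hM, T.Q_add hM, T.Q_add hM,
        h0, p2, ih b (by omega)]
      ring

end Res

end Pool.Agent.P.MP_111ca2_co.PR
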