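import Pool.Agent.P.MP_111ca2_co.PrDefs

/-! Residual system: descent on the period. -/

namespace Pool.Agent.P.MP_111ca2_co.PR

open Finset

namespace Res

variable {k : Type} [Field k] {M : ℕ} (T : Res k M)

theorem prlc_sum (two : (2 : k) = 0) (b : ℕ) :
    ∑ j ∈ range (2 * b), ((j + 1 : ℕ) : k) = (b : k) := by
  induction b with
  | zero => simp
  | succ b ih =>
    rw [show 2 * (b + 1) = 2 * b + 1 + 1 by ring, sum_range_succ, sum_range_succ, ih]
    push_cast
    linear_combination (2 * (b : k) + 1) * two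

theorem prlc_sq (two : (2 : k) = 0) {x y : k} (h : x ^ 2 = y ^ 2) : x = y := by
  have h1 : (x - y) ^ 2 = 0 := by linear_combination h + (y ^ 2 - x * y) * two
  exact sub_eq_zero.1 (pow_eq_zero_iff (two_ne_zero) |>.1 h1)

theorem descent (hQ : ∀ c, QQ T.ν (2 * c) = (QQ T.ν c + T.ν c) ^ 2) (B : ℕ) (h0 : 0 < B)
    (h4 : 4 ∣ B) (hB : B ∣ 2 * M) (hM : 0 < M) (hp : ∀ a, T.ν (a + B) = T.ν a) : False := by
  induction B using Nat.strong_induction_on with
  | _ B ih =>
  obtain ⟨b, rfl⟩ := h4
  have hb : 0 < b := by omega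
  have two := T.two
  have hpt : ∀ t a, T.ν (a + 4 * b * t) = T.ν a := by
    intro t
    induction t with
    | zero => intro a; simp
    | succ t iht =>
      intro a
      rw [show a + 4 * b * (t + 1) = a + 4 * b * t + 4 * b by ring, hp, iht]
  have hr : ∀ j, j ≤ 4 * b → T.ν j + T.ν (4 * b - j) = j := by
    intro j hj
    obtain ⟨r, hr⟩ := hB
    obtain ⟨r, rfl⟩ : ∃ r', r = r' + 1 := by
      refine ⟨r - 1, ?_⟩
      rcases Nat.eq_zero_or_pos r with h | h
      · subst h; omega
      · omega
    have e1 : 2 * M = 4 * b * r + 4 * b := by rw [hr]; ring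
    have h1 := T.rfx j (by omega)
    rw [show 2 * M - j = (4 * b - j) + 4 * b * r by omega, hpt] at h1
    exact h1
  have z0 : T.ν 0 = 0 := by simpa using T.even 0
  have hS : ∑ j ∈ range (4 * b), T.ν j = (b : k) := by
    rw [show 4 * b = 2 * b + 2 * b by ring, sum_range_add]
    have a1 : ∑ j ∈ range (2 * b), T.ν j = ∑ j ∈ range (2 * b), T.ν (j + 1) := by
      have h1 := sum_range_succ T.ν (2 * b)
      have h2 := sum_range_succ' T.ν (2 * b)
      rw [T.even, add_zero] at h1
      rw [z0, add_zero] at h2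
      rw [← h1, h2]
    have a2 : ∑ j ∈ range (2 * b), T.ν (2 * b + j) =
        ∑ j ∈ range (2 * b), T.ν (4 * b - (j + 1)) := by
      rw [← sum_range_reflect]
      refine sum_congr rfl fun j hj => ?_
      have := mem_range.1 hj
      congr 1
      omega
    rw [a1, a2, ← sum_add_distrib, ← prlc_sum two b]
    refine sum_congr rfl fun j hj => ?_
    have := mem_range.1 hj
    exact hr (j + 1) (by omega)
  have hQQ : ∀ c, QQ T.ν (c + 2 * b) = QQ T.ν c + (b : k) := by
    intro c
    unfold QQ
    rw [show 2 * (c + 2 * b) = 4 * b + 2 * c by ring, sum_range_add, hS, add_comm]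
    congr 1
    refine sum_congr rfl fun j _ => ?_
    rw [add_comm, hp]
  have key : ∀ c, T.ν (c + 2 * b) = T.ν c - (b : k) := by
    intro c
    have h1 := hQ c
    have h2 := hQ (c + 2 * b)
    rw [show 2 * (c + 2 * b) = (2 * c + 2 * b) + 2 * b by ring, hQQ, hQQ, hQQ, h1] at h2
    have h3 : (QQ T.ν c + T.ν c) ^ 2 = (QQ T.ν c + (b : k) + T.ν (c + 2 * b)) ^ 2 := by
      linear_combination h2 - (b : k) * two
    have h4 := prlc_sq two h3
    linear_combination -h4
  have hb0 : (b : k) = 0 := by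
    have h1 := key 0
    rw [zero_add, T.even, z0] at h1
    linear_combination h1
  obtain ⟨m, hm | hm⟩ := Nat.even_or_odd' b
  · refine ih (2 * b) (by omega) (by omega) ⟨m, by omega⟩ (Dvd.dvd.trans ⟨2, by ring⟩ hB) ?_
    intro a
    rw [key, hb0, sub_zero]
  · rw [hm] at hb0
    push_cast at hb0
    have : (1 : k) = 0 := by linear_combination hb0 - (m : k) * two
    exact one_ne_zero this

end Res

end Pool.Agent.P.MP_111ca2_co.PR
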