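import Pool.Agent.P.MP_111ca2_co.PrL3
import Pool.Agent.P.MP_111ca2_co.PrL4
import Pool.Agent.P.MP_111ca2_co.PrL8a
import Pool.Agent.P.MP_111ca2_co.PrL8b
import Pool.Agent.P.MP_111ca2_co.PrL9c
import Pool.Agent.P.MP_111ca2_co.PrLb
import Pool.Agent.P.MP_111ca2_co.PrLc

/-! The local system has no solution for `m` other than `1, 2, 4`. -/

namespace Pool.Agent.P.MP_111ca2_co.PR

open Finset

variable {R : Type} [CommRing R] [IsDomain R] [ValuationRing R]

theorem Loc.false_of {m : ℕ} (L : Loc R m) (h0 : 0 < m) (h1 : m ≠ 1) (h2 : m ≠ 2) (h4 : m ≠ 4) :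
    False := by
  rcases Nat.even_or_odd m with ⟨M, hM⟩ | hm
  · obtain rfl : m = 2 * M := by omega
    have hw := L.w_sq (by omega)
    rcases Nat.even_or_odd M with he | ho
    · have hM4 : 4 ≤ M := by obtain ⟨r, hr⟩ := he; omega
      obtain ⟨hw1, hz⟩ := L.even_half he (by omega) hw
      obtain ⟨T⟩ := L.exists_res he (by omega) hw1 hz
      obtain ⟨a, b, c⟩ := T.four_dvd he hM4
      exact T.descent c M (by omega) a (dvd_mul_left _ _) (by omega) b
    · exact L.odd_half_false ho (by obtain ⟨r, hr⟩ := ho; omega) hw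
  · exact L.odd_false hm (by obtain ⟨r, hr⟩ := hm; omega)

end Pool.Agent.P.MP_111ca2_co.PR
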