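import Pool.Agent.P.MP_111ca2_co.PrU2a

/-! The system in the ultrapower. -/

namespace Pool.Agent.P.MP_111ca2_co.PR

open Finset

noncomputable def pru2b_phi : (ℕ → ℂ) →+* Om := Filter.Germ.coeRingHom _

theorem pru2b_phi_apply (f : ℕ → ℂ) : pru2b_phi f = (f : Om) := rfl

theorem pru2b_phi_div (f g : ℕ → ℂ) : pru2b_phi (f / g) = pru2b_phi f / pru2b_phi g := by
  simp only [pru2b_phi_apply]
  exact Filter.Germ.coe_div f g

theorem pru2b_cst (z : ℂ) : cst z = pru2b_phi (fun _ => z) := rfl

noncomputable def pru2b_gs {m : ℕ} [NeZero m] (q : ℕ → ℕ) (hq : ∀ i, i < q i)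
    (A : ∀ i, Act m (q i)) : GS Om m where
  g a := pru2b_phi (fun i => (A i).g a)
  s a := pru2b_phi (fun i => (A i).s a)
  W a := pru2b_phi (fun i => (A i).W a)
  τ := pru2b_phi (fun i => (A i).τ)
  τ0 := by
    have h : pru2b_phi (fun i => (A i).τ) * pru2b_phi (fun i => ((A i).τ)⁻¹) = 1 := by
      rw [← map_mul, ← map_one pru2b_phi]
      congr 1
      funext i
      exact mul_inv_cancel₀ (A i).τ0
    exact left_ne_zero_of_mul_eq_one h
  g0 := by
    have h : (2 : ℕ → ℂ) * (fun i => (A i).g 0) = -1 := by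
      funext i
      exact (A i).g0
    have := congrArg pru2b_phi h
    rwa [map_mul, map_neg, map_one, map_ofNat] at this
  s_add a b := by
    rw [← map_mul]
    congr 1
    funext i
    exact (A i).s_add a b
  s_one := by
    have h : (fun i => (A i).s 1) = -1 := by
      funext i
      exact (A i).s_one
    rw [h, map_neg, map_one]
  W_add a b := by
    rw [← map_mul]
    congr 1
    funext i
    exact (A i).W_add a b
  W_m := by
    have h : (fun i => (A i).W (m : ZMod (2 * m))) = 1 := by
      funext i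
      exact (A i).W_m
    rw [h, map_one]
  rfx a ha := by
    rw [← map_mul, ← map_mul]
    congr 1
    funext i
    exact (A i).rfx a ha
  dup a := by
    rw [← map_mul, ← map_mul, ← map_mul]
    congr 1
    funext i
    exact (A i).dup a
  eqn u hu := by
    simp only [← map_mul]
    rw [← map_sum, ← map_zero pru2b_phi]
    congr 1
    funext i
    rw [Finset.sum_apply]
    exact (A i).eqn u hu

theorem pru2b_jac {m : ℕ} [NeZero m] (q : ℕ → ℕ) (hq : ∀ i, i < q i)
    (A : ∀ i, Act m (q i)) (a b : ZMod (2 * m)) :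
    (pru2b_gs q hq A).Jac a b = pru2b_phi (fun i => (A i).toGS.Jac a b) := by
  unfold GS.Jac
  split_ifs with h1 h2
  · have h : (fun i => 2 * (A i).toGS.jj a b) =
        (2 : ℕ → ℂ) * ((fun i => (A i).g a) * (fun i => (A i).g b) / (fun i => (A i).g (a + b))) := by
      funext i
      rfl
    rw [h, map_mul, pru2b_phi_div, map_mul, map_ofNat]
    rfl
  · have h : (fun i => -(A i).s a) = -(fun i => (A i).s a) := rfl
    rw [h, map_neg]
    rfl
  · have h : (fun i => 4 * (A i).τ - 2) = (4 : ℕ → ℂ) * (fun i => (A i).τ) - 2 := by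
      funext i
      rfl
    rw [h, map_sub, map_mul, map_ofNat, map_ofNat]
    rfl

theorem exists_ult {m : ℕ} [NeZero m] (q : ℕ → ℕ) (hq : ∀ i, i < q i) (A : ∀ i, Act m (q i)) :
    Nonempty (Ult Om m) := by
  obtain ⟨O, B, h1, h2, h3, h4⟩ := om_sub q hq
  have hτ : (pru2b_gs q hq A).τ = ((fun i => (q i : ℂ) / 4 : ℕ → ℂ) : Om) := by
    have h : (fun i => (A i).τ) = (fun i => (q i : ℂ) / 4 : ℕ → ℂ) := by
      funext i
      exact (A i).hτ
    show pru2b_phi (fun i => (A i).τ) = _
    rw [h]
    rfl
  refine ⟨{ toGS := pru2b_gs q hq A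
            O := O
            B := B
            inv_mem := by rw [hτ]; exact h1
            τ_mem := by rw [hτ]; exact h2
            sep := by rw [hτ]; exact h3
            ε := fun k => cst (ZMod.stdAddChar k)
            ε_add := fun a b => by rw [← map_mul, AddChar.map_add_eq_mul]
            ε_zero := by rw [AddChar.map_zero_eq_one, map_one]
            ε_sum := fun b hb => ?_
            int := fun a b => ?_ }⟩
  · rw [← map_sum]
    have h := AddChar.sum_mulShift (ψ := (ZMod.stdAddChar : AddChar (ZMod (2 * m)) ℂ)) b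
      (ZMod.isPrimitive_stdAddChar (2 * m))
    rw [if_neg hb] at h
    rw [h, Nat.cast_zero, map_zero]
  · choose N hN1 hN2 using fun i => (A i).int a b
    refine ⟨fun k => ((fun i => (N i k : ℂ) : ℕ → ℂ) : Om), fun k => ?_, fun t => ?_⟩
    · rw [hτ]
      exact h4 (fun i => N i k) (fun i => hN1 i k)
    · rw [pru2b_jac]
      simp only [pru2b_cst, ← pru2b_phi_apply, ← map_mul]
      rw [← map_sum]
      congr 1
      funext i
      rw [Finset.sum_apply]
      exact hN2 i t

end Pool.Agent.P.MP_111ca2_co.PR
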