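import Pool.Agent.P.MP_111ca2_co.PrGlob
import Pool.Agent.P.MP_111ca2_co.PrU2b
import Pool.Agent.P.MP_111ca2_co.PrA4

/-! Finiteness for each index other than `2, 4, 8`. -/

namespace Pool.Agent.P.MP_111ca2_co.PR

open Finset

theorem bound_act (m : ℕ) [NeZero m] (h1 : m ≠ 1) (h2 : m ≠ 2) (h4 : m ≠ 4) :
    ∃ Q : ℕ, ∀ q, Nonempty (Act m q) → q ≤ Q := by
  by_contra h
  push Not at h
  choose q hq hlt using h
  obtain ⟨S⟩ := exists_ult q hlt fun i => (hq i).some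
  exact S.false_of h1 h2 h4

theorem finite_exc (n : ℕ) (h2 : n ≠ 2) (h4 : n ≠ 4) (h8 : n ≠ 8) :
    ∃ Q : ℕ, ∀ (K : Type) [Field K] [Finite K], n ∣ Nat.card K - 1 → 2 ≤ n → n < Nat.card K - 1 →
      (∃ lam : ℕ, ∀ g : K, g ≠ 0 →
        {x : K × K | (∃ y : K, y ≠ 0 ∧ x.1 = y ^ n) ∧ (∃ y : K, y ≠ 0 ∧ x.2 = y ^ n) ∧
          x.1 - x.2 = g}.ncard = lam) → Nat.card K ≤ Q := by
  classical
  have key : ∀ (K : Type) [Field K] [Finite K], n ∣ Nat.card K - 1 → 2 ≤ n → n < Nat.card K - 1 →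
      (∃ lam : ℕ, ∀ g : K, g ≠ 0 →
        {x : K × K | (∃ y : K, y ≠ 0 ∧ x.1 = y ^ n) ∧ (∃ y : K, y ≠ 0 ∧ x.2 = y ^ n) ∧
          x.1 - x.2 = g}.ncard = lam) →
      ∃ m : ℕ, n = 2 * m ∧ ∀ [NeZero m], Nonempty (Act m (Nat.card K)) := by
    intro K _ _ hn hn2 hlt ⟨lam, hl⟩
    have := Fintype.ofFinite K
    rw [Nat.card_eq_fintype_card] at *
    obtain ⟨k, hk⟩ := hn
    have hk1 : 1 < k := by
      by_contra h
      interval_cases k <;> omega
    have hq : Fintype.card K = n * k + 1 := by omega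
    simp only [ncard_eq_rr (by omega) (by omega) hq] at hl
    obtain ⟨h2K, hko⟩ := neg_one_pow_ne hn2 hk1 hq hl
    have hodd : Odd (Fintype.card K) := by
      rw [Nat.odd_iff]
      refine FiniteField.odd_card_of_char_ne_two fun h => h2K ?_
      exact_mod_cast (ringChar.spec K 2).2 (h ▸ dvd_rfl)
    have hev : Even n := by
      rw [hq, Nat.odd_add_one, Nat.not_odd_iff_even, Nat.even_mul] at hodd
      exact hodd.resolve_right (Nat.not_even_iff_odd.2 hko)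
    obtain ⟨m, hm⟩ := hev
    obtain rfl : n = 2 * m := by omega
    exact ⟨m, rfl, exists_act h2K hko hq hl⟩
  by_cases h : ∃ m : ℕ, 0 < m ∧ n = 2 * m
  · obtain ⟨m, hm, rfl⟩ := h
    have : NeZero m := ⟨hm.ne'⟩
    obtain ⟨Q, hQ⟩ := bound_act m (by omega) (by omega) (by omega)
    refine ⟨Q, fun K _ _ a b c d => ?_⟩
    obtain ⟨m', hm', h'⟩ := key K a b c d
    obtain rfl : m = m' := by omega
    exact hQ _ h'
  · refine ⟨0, fun K _ _ a b c d => ?_⟩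
    obtain ⟨m, hm, -⟩ := key K a b c d
    exact absurd ⟨m, by omega, hm⟩ h

end Pool.Agent.P.MP_111ca2_co.PR
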