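import Pool.Agent.P.MP_111ca2_co.PrDefs

/-! Bounded rank of a ring generated by an algebraic element. -/

namespace Pool.Agent.P.MP_111ca2_co.PR

open Finset Polynomial

variable {Ω : Type} [Field Ω] [CharZero Ω]

theorem rank_bound {τ e : Ω} (he : IsAlgebraic (Algebra.adjoin ℚ {τ}) e) :
    ∃ d : ℕ, ∀ u : Fin (d + 1) → Ω, (∀ i, u i ∈ Algebra.adjoin ℚ {τ, e}) →
      ∃ p : Fin (d + 1) → ℚ[X], (∃ i, p i ≠ 0) ∧ ∑ i, aeval τ (p i) * u i = 0 := by
  classical
  let F : IntermediateField ℚ Ω := IntermediateField.adjoin ℚ {τ}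
  have hle : Algebra.adjoin ℚ {τ} ≤ F.toSubalgebra := IntermediateField.algebra_adjoin_le_adjoin ℚ _
  have heF : IsAlgebraic F e := IsAlgebraic.tower_top_of_subalgebra_le hle he
  let N : Subalgebra F Ω := Algebra.adjoin F {e}
  have : Module.Finite F N := Algebra.finite_adjoin_simple_of_isIntegral heF.isIntegral
  refine ⟨Module.finrank F N, fun u hu => ?_⟩
  have hsub : Algebra.adjoin ℚ {τ, e} ≤ N.restrictScalars ℚ := by
    refine Algebra.adjoin_le ?_
    rintro x (rfl | rfl)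
    · exact N.algebraMap_mem ⟨x, IntermediateField.mem_adjoin_simple_self ℚ x⟩
    · exact Algebra.self_mem_adjoin_singleton F x
  let w : Fin (Module.finrank F N + 1) → N := fun i => ⟨u i, hsub (hu i)⟩
  have hdep : ¬ LinearIndependent F w := fun h => by
    have := h.fintype_card_le_finrank
    rw [Fintype.card_fin] at this
    omega
  obtain ⟨c, hc, i0, hi0⟩ := Fintype.not_linearIndependent_iff.1 hdep
  have hc' : ∑ i, (c i : Ω) * u i = 0 := by
    have h1 := congrArg N.val hc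
    rw [map_sum, map_zero] at h1
    exact h1
  have hrs : ∀ i, ∃ r s : ℚ[X], aeval τ s ≠ 0 ∧ aeval τ r = (c i : Ω) * aeval τ s := by
    intro i
    obtain ⟨r, s, h1⟩ := (IntermediateField.mem_adjoin_simple_iff ℚ (c i : Ω)).1 (c i).2
    by_cases hs : aeval τ s = 0
    · refine ⟨0, 1, by simp, ?_⟩
      rw [h1, hs, div_zero, zero_mul, map_zero]
    · exact ⟨r, s, hs, by rw [h1, div_mul_cancel₀ _ hs]⟩
  choose r s hs hr using hrs
  have hp : ∀ i, aeval τ (r i * ∏ j ∈ univ.erase i, s j) = (c i : Ω) * ∏ j, aeval τ (s j) := by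
    intro i
    rw [map_mul, map_prod, hr, mul_assoc,
      mul_prod_erase univ (fun j => aeval τ (s j)) (mem_univ i)]
  refine ⟨fun i => r i * ∏ j ∈ univ.erase i, s j, ⟨i0, fun h0 => ?_⟩, ?_⟩
  · have h1 := hp i0
    simp only at h0
    rw [h0, map_zero] at h1
    have h2 : (c i0 : Ω) ≠ 0 := fun h => hi0 (Subtype.ext h)
    exact mul_ne_zero h2 (prod_ne_zero_iff.2 fun j _ => hs j) h1.symm
  · simp only [hp]
    calc ∑ i, (c i : Ω) * (∏ j, aeval τ (s j)) * u i
        = (∏ j, aeval τ (s j)) * ∑ i, (c i : Ω) * u i := by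
          rw [mul_sum]
          exact sum_congr rfl fun i _ => by ring
      _ = 0 := by rw [hc', mul_zero]

end Pool.Agent.P.MP_111ca2_co.PR
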