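import Pool.Agent.P.MP_111ca2_co.PrDefs

/-! Leading coefficients of a polynomial relation. -/

namespace Pool.Agent.P.MP_111ca2_co.PR

open Finset Polynomial

variable {Ω : Type} [Field Ω] [CharZero Ω]

theorem pru1b_split (O : Subalgebra ℚ Ω) {τ : Ω} (h0 : τ ≠ 0) (hτ : τ⁻¹ ∈ O)
    (p : ℚ[X]) (δ : ℕ) (hδ : p.natDegree ≤ δ) :
    ∃ r ∈ O, algebraMap ℚ Ω (p.coeff δ) * τ = aeval τ p * (τ * τ⁻¹ ^ δ) - r := by
  refine ⟨∑ k ∈ range δ, p.coeff k • τ⁻¹ ^ (δ - 1 - k),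
    O.sum_mem fun k _ => O.smul_mem (O.pow_mem hτ _) _, ?_⟩
  rw [aeval_eq_sum_range' (Nat.lt_succ_of_le hδ), sum_range_succ, add_mul, sum_mul]
  have h1 : ∀ k ∈ range δ, p.coeff k • τ ^ k * (τ * τ⁻¹ ^ δ) = p.coeff k • τ⁻¹ ^ (δ - 1 - k) := by
    intro k hk
    have hk' : k < δ := mem_range.mp hk
    obtain ⟨j, rfl⟩ : ∃ j, δ = k + 1 + j := ⟨δ - 1 - k, by omega⟩
    have hj : k + 1 + j - 1 - k = j := by omega
    rw [hj, smul_mul_assoc]
    congr 1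
    rw [pow_add, pow_add, inv_pow, inv_pow, inv_pow]
    have := pow_ne_zero k h0
    have := pow_ne_zero j h0
    field_simp
  rw [sum_congr rfl h1, add_sub_cancel_left, Algebra.smul_def, inv_pow]
  have := pow_ne_zero δ h0
  field_simp

theorem lead_rel {ι : Type} [Fintype ι] (O : Subalgebra ℚ Ω) {τ : Ω} (h0 : τ ≠ 0) (hτ : τ⁻¹ ∈ O)
    (x : ι → Ω) (hx : ∀ i, x i ∈ O) (p : ι → ℚ[X]) (hp : ∃ i, p i ≠ 0)
    (h : ∑ i, aeval τ (p i) * x i = 0) :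
    ∃ c : ι → ℚ, (∃ i, c i ≠ 0) ∧ (∑ i, c i • x i) * τ ∈ O := by
  classical
  obtain ⟨i0, hi0⟩ := hp
  obtain ⟨j, hj, hmax⟩ := exists_max_image (univ.filter fun i => p i ≠ 0)
    (fun i => (p i).natDegree) ⟨i0, by simp [hi0]⟩
  have hj0 : p j ≠ 0 := (mem_filter.mp hj).2
  have hle : ∀ i, (p i).natDegree ≤ (p j).natDegree := by
    intro i
    by_cases hi : p i = 0
    · simp [hi]
    · exact hmax i (by simp [hi])
  refine ⟨fun i => (p i).coeff (p j).natDegree, ⟨j, ?_⟩, ?_⟩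
  · exact leadingCoeff_ne_zero.mpr hj0
  · choose r hr hr' using fun i => pru1b_split O h0 hτ (p i) (p j).natDegree (hle i)
    have h2 : (∑ i, (p i).coeff (p j).natDegree • x i) * τ = -∑ i, r i * x i := by
      have h3 : ∀ i, (p i).coeff (p j).natDegree • x i * τ =
          aeval τ (p i) * x i * (τ * τ⁻¹ ^ (p j).natDegree) - r i * x i := by
        intro i
        rw [Algebra.smul_def]
        linear_combination x i * hr' i
      rw [sum_mul, sum_congr rfl fun i _ => h3 i, sum_sub_distrib, ← sum_mul, h, zero_mul,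
        zero_sub]
    rw [h2]
    exact O.neg_mem (O.sum_mem fun i _ => O.mul_mem (hr i) (hx i))

theorem trans_of_sep (O B : Subalgebra ℚ Ω) {τ : Ω} (h0 : τ ≠ 0) (hτ : τ⁻¹ ∈ O)
    (sep : ∀ x ∈ B, x * τ ∈ O → x = 0) : Transcendental ℚ τ := by
  rintro ⟨q, hq, hq0⟩
  obtain ⟨c, ⟨i, hi⟩, hc⟩ := lead_rel (ι := Unit) O h0 hτ (fun _ => 1) (fun _ => O.one_mem)
    (fun _ => q) ⟨(), hq⟩ (by simp [hq0])
  have h1 : (∑ i, c i • (1 : Ω)) = c () • (1 : Ω) := by simp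
  rw [h1] at hc
  have h2 := sep _ (B.smul_mem B.one_mem (c ())) hc
  rcases smul_eq_zero.mp h2 with h3 | h3
  · exact hi h3
  · exact one_ne_zero h3

end Pool.Agent.P.MP_111ca2_co.PR
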