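import Pool.Agent.P.MP_111ca2_co.PrU1a
import Pool.Agent.P.MP_111ca2_co.PrU1b

/-! The argument of Runge. -/

namespace Pool.Agent.P.MP_111ca2_co.PR

open Finset Polynomial

variable {Ω : Type} [Field Ω] [CharZero Ω]

/-- elements of the ring of order at most `L` -/
def pru1c_V (O : Subalgebra ℚ Ω) (τ e : Ω) (L : ℕ) : Submodule ℚ Ω where
  carrier := {u | u ∈ Algebra.adjoin ℚ {τ, e} ∧ u * τ⁻¹ ^ L ∈ O}
  add_mem' := fun ha hb => ⟨add_mem ha.1 hb.1, by rw [add_mul]; exact add_mem ha.2 hb.2⟩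
  zero_mem' := ⟨zero_mem _, by rw [zero_mul]; exact zero_mem _⟩
  smul_mem' := fun c x hx => ⟨Subalgebra.smul_mem _ hx.1 c, by
    rw [smul_mul_assoc]; exact Subalgebra.smul_mem _ hx.2 c⟩

/-- small elements -/
def pru1c_W (O : Subalgebra ℚ Ω) (τ : Ω) : Submodule ℚ Ω where
  carrier := {x | x * τ ∈ O}
  add_mem' := fun {a b} ha hb => by
    show (a + b) * τ ∈ O
    rw [add_mul]
    exact add_mem ha hb
  zero_mem' := by
    show (0 : Ω) * τ ∈ O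
    rw [zero_mul]
    exact zero_mem _
  smul_mem' := fun c x hx => by
    show (c • x) * τ ∈ O
    rw [smul_mul_assoc]
    exact Subalgebra.smul_mem _ hx c

/-- the leading term -/
noncomputable def pru1c_pi (O : Subalgebra ℚ Ω) (τ : Ω) (L : ℕ) : Ω →ₗ[ℚ] Ω ⧸ pru1c_W O τ :=
  (pru1c_W O τ).mkQ ∘ₗ LinearMap.mulRight ℚ (τ⁻¹ ^ L)

/-- the leading terms of order `L` -/
noncomputable def pru1c_I (O : Subalgebra ℚ Ω) (τ e : Ω) (L : ℕ) : Submodule ℚ (Ω ⧸ pru1c_W O τ) :=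
  (pru1c_V O τ e L).map (pru1c_pi O τ L)

theorem pru1c_pi_eq_zero {O : Subalgebra ℚ Ω} {τ : Ω} {L : ℕ} {u : Ω} :
    pru1c_pi O τ L u = 0 ↔ u * τ⁻¹ ^ L * τ ∈ O :=
  Submodule.Quotient.mk_eq_zero (pru1c_W O τ)

theorem pru1c_shift {τ : Ω} (h0 : τ ≠ 0) (u : Ω) (K j : ℕ) :
    τ ^ j * u * τ⁻¹ ^ (K + j) = u * τ⁻¹ ^ K := by
  rw [pow_add]
  have : τ ^ j * τ⁻¹ ^ j = 1 := by rw [← mul_pow, mul_inv_cancel₀ h0, one_pow]
  linear_combination (u * τ⁻¹ ^ K) * this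

theorem pru1c_pi_shift (O : Subalgebra ℚ Ω) {τ : Ω} (h0 : τ ≠ 0) (u : Ω) (K j : ℕ) :
    pru1c_pi O τ (K + j) (τ ^ j * u) = pru1c_pi O τ K u :=
  congrArg (pru1c_W O τ).mkQ (pru1c_shift h0 u K j)

theorem pru1c_tau_mem (τ e : Ω) : τ ∈ Algebra.adjoin ℚ {τ, e} :=
  Algebra.subset_adjoin (Set.mem_insert _ _)

theorem pru1c_V_shift {O : Subalgebra ℚ Ω} {τ e : Ω} (h0 : τ ≠ 0) {u : Ω} {K : ℕ}
    (hu : u ∈ pru1c_V O τ e K) (j : ℕ) : τ ^ j * u ∈ pru1c_V O τ e (K + j) :=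
  ⟨mul_mem (pow_mem (pru1c_tau_mem τ e) j) hu.1, by rw [pru1c_shift h0]; exact hu.2⟩

theorem pru1c_I_mono (O : Subalgebra ℚ Ω) {τ : Ω} (e : Ω) (h0 : τ ≠ 0) (K j : ℕ) :
    pru1c_I O τ e K ≤ pru1c_I O τ e (K + j) := by
  rintro _ ⟨u, hu, rfl⟩
  exact ⟨τ ^ j * u, pru1c_V_shift h0 hu j, pru1c_pi_shift O h0 u K j⟩

theorem pru1c_rank (O : Subalgebra ℚ Ω) {τ e : Ω} (h0 : τ ≠ 0) (hτ : τ⁻¹ ∈ O)
    (he : IsAlgebraic (Algebra.adjoin ℚ {τ}) e) :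
    ∃ d : ℕ, ∀ L, Module.rank ℚ (pru1c_I O τ e L) < (d + 1 : ℕ) := by
  obtain ⟨d, hd⟩ := rank_bound he
  refine ⟨d, fun L => lt_of_not_ge fun hle => ?_⟩
  obtain ⟨v, hv⟩ := Module.le_rank_iff.1 hle
  choose u hu hπ using fun i => (v i).2
  obtain ⟨p, hp, hrel⟩ := hd u fun i => (hu i).1
  obtain ⟨c, ⟨i, hi⟩, hc⟩ := lead_rel O h0 hτ (fun i => u i * τ⁻¹ ^ L) (fun i => (hu i).2) p hp (by
    have := congrArg (· * τ⁻¹ ^ L) hrel
    simpa only [Finset.sum_mul, zero_mul, mul_assoc] using this)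
  refine hi (Fintype.linearIndependent_iff.1 hv c (Subtype.ext ?_) i)
  have h1 : pru1c_pi O τ L (∑ i, c i • u i) = 0 := by
    rw [pru1c_pi_eq_zero]
    simpa only [Finset.sum_mul, smul_mul_assoc] using hc
  rw [map_sum] at h1
  simp only [map_smul, hπ] at h1
  simpa using h1

theorem pru1c_stab (O : Subalgebra ℚ Ω) {τ e : Ω} (h0 : τ ≠ 0) (hτ : τ⁻¹ ∈ O)
    (he : IsAlgebraic (Algebra.adjoin ℚ {τ}) e) :
    (∀ L, (pru1c_I O τ e L).FG) ∧ ∃ L₀, ∀ j, pru1c_I O τ e (L₀ + j) = pru1c_I O τ e L₀ := by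
  obtain ⟨d, hd⟩ := pru1c_rank O h0 hτ he
  have hfin : ∀ L, Module.Finite ℚ (pru1c_I O τ e L) := fun L =>
    Module.rank_lt_aleph0_iff.1 ((hd L).trans (Cardinal.natCast_lt_aleph0))
  refine ⟨fun L => Module.Finite.iff_fg.1 (hfin L), ?_⟩
  have hb : BddAbove (Set.range fun L => Module.finrank ℚ (pru1c_I O τ e L)) := by
    refine ⟨d + 1, ?_⟩
    rintro _ ⟨L, rfl⟩
    exact Module.finrank_le_of_rank_le (hd L).le
  obtain ⟨L₀, hL₀⟩ := Nat.sSup_mem (Set.range_nonempty _) hb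
  refine ⟨L₀, fun j => (Submodule.eq_of_le_of_finrank_le (pru1c_I_mono O e h0 L₀ j) ?_).symm⟩
  exact (le_csSup hb ⟨L₀ + j, rfl⟩).trans hL₀.ge

theorem pru1c_gen (O : Subalgebra ℚ Ω) (τ e : Ω) (K : ℕ) (h : (pru1c_I O τ e K).FG) :
    ∃ s : Set Ω, s.Finite ∧ s ⊆ pru1c_V O τ e K ∧
      ∀ y ∈ pru1c_I O τ e K, ∃ v ∈ Submodule.span ℚ s, pru1c_pi O τ K v = y := by
  obtain ⟨n, t, ht⟩ := Submodule.fg_iff_exists_fin_generating_family.1 h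
  have h1 : ∀ i, t i ∈ pru1c_I O τ e K := fun i => ht ▸ Submodule.subset_span ⟨i, rfl⟩
  choose g hg hg' using h1
  refine ⟨Set.range g, Set.finite_range g, by rintro _ ⟨i, rfl⟩; exact hg i, fun y hy => ?_⟩
  rw [← ht] at hy
  obtain ⟨c, rfl⟩ := (Submodule.mem_span_range_iff_exists_fun ℚ).1 hy
  refine ⟨∑ i, c i • g i, Submodule.sum_mem _ fun i _ =>
    Submodule.smul_mem _ _ (Submodule.subset_span ⟨i, rfl⟩), ?_⟩
  simp only [map_sum, map_smul, hg']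

theorem pru1c_cover (O : Subalgebra ℚ Ω) {τ e : Ω} (h0 : τ ≠ 0) (hτ : τ⁻¹ ∈ O)
    (heO : e * τ⁻¹ ∈ O) {u : Ω} (hu : u ∈ Algebra.adjoin ℚ {τ, e}) :
    ∃ L : ℕ, u * τ⁻¹ ^ L ∈ O := by
  induction hu using Algebra.adjoin_induction with
  | mem x hx =>
    rcases hx with rfl | rfl
    · exact ⟨1, by rw [pow_one, mul_inv_cancel₀ h0]; exact one_mem _⟩
    · exact ⟨1, by rw [pow_one]; exact heO⟩
  | algebraMap r => exact ⟨0, by rw [pow_zero, mul_one]; exact O.algebraMap_mem r⟩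
  | add x y _ _ hx hy =>
    obtain ⟨a, ha⟩ := hx
    obtain ⟨b, hb⟩ := hy
    refine ⟨a + b, ?_⟩
    have : (x + y) * τ⁻¹ ^ (a + b) = x * τ⁻¹ ^ a * τ⁻¹ ^ b + y * τ⁻¹ ^ b * τ⁻¹ ^ a := by ring
    rw [this]
    exact add_mem (mul_mem ha (pow_mem hτ b)) (mul_mem hb (pow_mem hτ a))
  | mul x y _ _ hx hy =>
    obtain ⟨a, ha⟩ := hx
    obtain ⟨b, hb⟩ := hy
    refine ⟨a + b, ?_⟩
    have : x * y * τ⁻¹ ^ (a + b) = x * τ⁻¹ ^ a * (y * τ⁻¹ ^ b) := by ring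
    rw [this]
    exact mul_mem ha hb

theorem runge (O B : Subalgebra ℚ Ω) {τ e : Ω} (h0 : τ ≠ 0) (hτ : τ⁻¹ ∈ O) (hB : τ ∈ B)
    (sep : ∀ x ∈ B, x * τ ∈ O → x = 0) (heB : e ∈ B) (heO : e * τ⁻¹ ∈ O)
    (he : IsAlgebraic (Algebra.adjoin ℚ {τ}) e) : IsIntegral (Algebra.adjoin ℚ {τ}) e := by
  obtain ⟨hfg, L₀, hL₀⟩ := pru1c_stab O h0 hτ he
  choose s hs hsV hsI using fun K => pru1c_gen O τ e K (hfg K)
  obtain ⟨M, hM⟩ : ∃ M : Submodule (Algebra.adjoin ℚ {τ}) Ω,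
      M = Submodule.span _ (⋃ K ∈ Set.Iic L₀, s K) := ⟨_, rfl⟩
  have hRB : Algebra.adjoin ℚ {τ, e} ≤ B := Algebra.adjoin_le (by
    rintro x (rfl | rfl)
    exacts [hB, heB])
  have hMR : ∀ x ∈ M, x ∈ Algebra.adjoin ℚ {τ, e} := by
    intro x hx
    rw [hM] at hx
    induction hx using Submodule.span_induction with
    | mem x hx =>
      obtain ⟨K, -, hK⟩ := Set.mem_iUnion₂.1 hx
      exact (hsV K hK).1
    | zero => exact zero_mem _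
    | add x y _ _ hx hy => exact add_mem hx hy
    | smul a x _ hx =>
      exact mul_mem (Algebra.adjoin_mono (Set.singleton_subset_iff.2 (Set.mem_insert _ _)) a.2) hx
  have step : ∀ L, ∀ u ∈ pru1c_V O τ e L, ∃ w ∈ M, (u - w) * τ⁻¹ ^ L * τ ∈ O := by
    intro L u hu
    obtain ⟨K, j, hK, rfl, hI⟩ : ∃ K j, K ≤ L₀ ∧ L = K + j ∧
        pru1c_I O τ e (K + j) = pru1c_I O τ e K := by
      rcases le_total L L₀ with h | h
      · exact ⟨L, 0, h, rfl, rfl⟩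
      · obtain ⟨j, rfl⟩ := Nat.exists_eq_add_of_le h
        exact ⟨L₀, j, le_rfl, rfl, hL₀ j⟩
    obtain ⟨v, hv, hvπ⟩ := hsI K (pru1c_pi O τ (K + j) u) (hI ▸ ⟨u, hu, rfl⟩)
    have hvM : v ∈ M := by
      rw [hM]
      exact Submodule.span_mono (Set.subset_biUnion_of_mem (u := s) (Set.mem_Iic.2 hK))
        (Submodule.span_subset_span ℚ _ _ hv)
    refine ⟨τ ^ j * v, M.smul_mem
      (⟨τ ^ j, pow_mem (Algebra.self_mem_adjoin_singleton ℚ τ) j⟩ : Algebra.adjoin ℚ {τ}) hvM, ?_⟩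
    rw [← pru1c_pi_eq_zero, map_sub, pru1c_pi_shift O h0, hvπ, sub_self]
  have hVM : ∀ L, ∀ u ∈ pru1c_V O τ e L, u ∈ M := by
    intro L
    induction L with
    | zero =>
      intro u hu
      obtain ⟨w, hw, h⟩ := step 0 u hu
      rw [pow_zero, mul_one] at h
      have := sep _ (hRB (sub_mem hu.1 (hMR w hw))) h
      rwa [sub_eq_zero.1 this]
    | succ L ih =>
      intro u hu
      obtain ⟨w, hw, h⟩ := step (L + 1) u hu
      have h1 : (u - w) * τ⁻¹ ^ (L + 1) * τ = (u - w) * τ⁻¹ ^ L := by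
        rw [pow_succ, mul_assoc, mul_assoc, inv_mul_cancel₀ h0, mul_one]
      rw [h1] at h
      have h2 := add_mem (ih _ ⟨sub_mem hu.1 (hMR w hw), h⟩) hw
      rwa [sub_add_cancel] at h2
  have hRM : ∀ u ∈ Algebra.adjoin ℚ {τ, e}, u ∈ M := fun u hu => by
    obtain ⟨L, hL⟩ := pru1c_cover O h0 hτ heO hu
    exact hVM L u ⟨hu, hL⟩
  refine isIntegral_of_smul_mem_submodule M ?_ ?_ e fun x hx => hRM _ ?_
  · intro h
    have := hRM 1 (one_mem _)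
    rw [h] at this
    exact one_ne_zero ((Submodule.mem_bot _).1 this)
  · rw [hM]
    exact Submodule.fg_span ((Set.finite_Iic L₀).biUnion fun K _ => hs K)
  · exact mul_mem (Algebra.subset_adjoin (Set.mem_insert_of_mem _ rfl)) (hMR x hx)

end Pool.Agent.P.MP_111ca2_co.PR
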