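import Pool.Agent.P.MP_111ca2_co.PrDefs

/-! Bounded germs and germs with bounded denominator. -/

namespace Pool.Agent.P.MP_111ca2_co.PR

open Finset

theorem pru2a_alg (r : ℚ) : algebraMap ℚ Om r = ((fun _ => (r : ℂ) : ℕ → ℂ) : Om) := by
  have h1 : algebraMap ℚ Om r = (r : Om) := eq_ratCast _ r
  have h2 : cst (r : ℂ) = (r : Om) := map_ratCast cst r
  rw [h1, ← h2]
  rfl

/-- bounded germs -/
noncomputable def pru2aO : Subalgebra ℚ Om where
  carrier := {x | ∃ C : ℝ, x.LiftPred (fun z => ‖z‖ ≤ C)}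
  mul_mem' := by
    intro x y
    induction x using Filter.Germ.inductionOn with | _ f =>
    induction y using Filter.Germ.inductionOn with | _ g =>
    rintro ⟨C, hC⟩ ⟨D, hD⟩
    refine ⟨C * D, ?_⟩
    rw [← Filter.Germ.coe_mul]
    rw [Filter.Germ.liftPred_coe] at hC hD ⊢
    filter_upwards [hC, hD] with i h1 h2
    rw [Pi.mul_apply, norm_mul]
    exact mul_le_mul h1 h2 (norm_nonneg _) ((norm_nonneg _).trans h1)
  add_mem' := by
    intro x y
    induction x using Filter.Germ.inductionOn with | _ f =>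
    induction y using Filter.Germ.inductionOn with | _ g =>
    rintro ⟨C, hC⟩ ⟨D, hD⟩
    refine ⟨C + D, ?_⟩
    rw [← Filter.Germ.coe_add]
    rw [Filter.Germ.liftPred_coe] at hC hD ⊢
    filter_upwards [hC, hD] with i h1 h2
    rw [Pi.add_apply]
    exact (norm_add_le _ _).trans (add_le_add h1 h2)
  algebraMap_mem' := by
    intro r
    refine ⟨‖(r : ℂ)‖, ?_⟩
    rw [pru2a_alg, Filter.Germ.liftPred_coe]
    exact Filter.Eventually.of_forall fun _ => le_rfl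

/-- germs with bounded denominator -/
noncomputable def pru2aB : Subalgebra ℚ Om where
  carrier := {x | ∃ N : ℕ, N ≠ 0 ∧ x.LiftPred (fun z => ∃ k : ℤ, (N : ℂ) * z = k)}
  mul_mem' := by
    intro x y
    induction x using Filter.Germ.inductionOn with | _ f =>
    induction y using Filter.Germ.inductionOn with | _ g =>
    rintro ⟨C, hC0, hC⟩ ⟨D, hD0, hD⟩
    refine ⟨C * D, mul_ne_zero hC0 hD0, ?_⟩
    rw [← Filter.Germ.coe_mul]
    rw [Filter.Germ.liftPred_coe] at hC hD ⊢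
    filter_upwards [hC, hD] with i h1 h2
    obtain ⟨k, hk⟩ := h1
    obtain ⟨l, hl⟩ := h2
    refine ⟨k * l, ?_⟩
    rw [Pi.mul_apply]
    push_cast
    rw [← hk, ← hl]
    ring
  add_mem' := by
    intro x y
    induction x using Filter.Germ.inductionOn with | _ f =>
    induction y using Filter.Germ.inductionOn with | _ g =>
    rintro ⟨C, hC0, hC⟩ ⟨D, hD0, hD⟩
    refine ⟨C * D, mul_ne_zero hC0 hD0, ?_⟩
    rw [← Filter.Germ.coe_add]
    rw [Filter.Germ.liftPred_coe] at hC hD ⊢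
    filter_upwards [hC, hD] with i h1 h2
    obtain ⟨k, hk⟩ := h1
    obtain ⟨l, hl⟩ := h2
    refine ⟨D * k + C * l, ?_⟩
    rw [Pi.add_apply]
    push_cast
    rw [← hk, ← hl]
    ring
  algebraMap_mem' := by
    intro r
    refine ⟨r.den, r.den_nz, ?_⟩
    rw [pru2a_alg, Filter.Germ.liftPred_coe]
    refine Filter.Eventually.of_forall fun _ => ⟨r.num, ?_⟩
    have h : (r.den : ℚ) * r = r.num := by
      rw [mul_comm]; exact Rat.mul_den_eq_num r
    exact_mod_cast congrArg (fun t : ℚ => (t : ℂ)) h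

theorem pru2a_memO (f : ℕ → ℂ) :
    (f : Om) ∈ pru2aO ↔ ∃ C : ℝ, ∀ᶠ i in (Filter.hyperfilter ℕ : Filter ℕ), ‖f i‖ ≤ C := Iff.rfl

theorem pru2a_memB (f : ℕ → ℂ) :
    (f : Om) ∈ pru2aB ↔ ∃ N : ℕ, N ≠ 0 ∧
      ∀ᶠ i in (Filter.hyperfilter ℕ : Filter ℕ), ∃ k : ℤ, (N : ℂ) * f i = k := Iff.rfl

theorem om_sub (q : ℕ → ℕ) (hq : ∀ i, i < q i) : ∃ O B : Subalgebra ℚ Om,
    ((fun i => (q i : ℂ) / 4 : ℕ → ℂ) : Om)⁻¹ ∈ O ∧ ((fun i => (q i : ℂ) / 4 : ℕ → ℂ) : Om) ∈ B ∧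
    (∀ x ∈ B, x * ((fun i => (q i : ℂ) / 4 : ℕ → ℂ) : Om) ∈ O → x = 0) ∧
    ∀ N : ℕ → ℤ, (∀ i, |N i| ≤ q i) → ((fun i => (N i : ℂ) : ℕ → ℂ) : Om) ∈ B ∧
      ((fun i => (N i : ℂ) : ℕ → ℂ) : Om) * ((fun i => (q i : ℂ) / 4 : ℕ → ℂ) : Om)⁻¹ ∈ O := by
  have hq1 : ∀ i, (1 : ℝ) ≤ q i := fun i => by
    have := hq i
    exact_mod_cast (by omega : 1 ≤ q i)
  have hn : ∀ i, ‖(q i : ℂ) / 4‖ = (q i : ℝ) / 4 := fun i => by
    rw [norm_div, Complex.norm_natCast]
    norm_num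
  refine ⟨pru2aO, pru2aB, ?_, ?_, ?_, ?_⟩
  · rw [← Filter.Germ.coe_inv, pru2a_memO]
    refine ⟨4, Filter.Eventually.of_forall fun i => ?_⟩
    rw [Pi.inv_apply, norm_inv, hn, inv_div, div_le_iff₀ (by linarith [hq1 i])]
    linarith [hq1 i]
  · rw [pru2a_memB]
    refine ⟨4, by norm_num, Filter.Eventually.of_forall fun i => ⟨q i, ?_⟩⟩
    push_cast
    ring
  · intro x
    induction x using Filter.Germ.inductionOn with | _ f =>
    intro hB hO
    rw [pru2a_memB] at hB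
    rw [← Filter.Germ.coe_mul, pru2a_memO] at hO
    obtain ⟨N, hN0, hN⟩ := hB
    obtain ⟨C, hC⟩ := hO
    obtain ⟨M, hM⟩ := exists_nat_gt (4 * N * C)
    have hev : ∀ᶠ i in (Filter.hyperfilter ℕ : Filter ℕ), M ≤ i :=
      Nat.hyperfilter_le_atTop (Filter.eventually_ge_atTop M)
    rw [← Filter.Germ.coe_zero, Filter.Germ.coe_eq]
    filter_upwards [hN, hC, hev] with i h1 h2 h3
    obtain ⟨k, hk⟩ := h1
    rw [Pi.mul_apply, norm_mul, hn] at h2
    have hqi : (M : ℝ) < q i := by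
      have := hq i
      exact_mod_cast (by omega : M < q i)
    have hk1 : ‖(k : ℂ)‖ < 1 := by
      rw [← hk, norm_mul, Complex.norm_natCast]
      have hN' : (0 : ℝ) ≤ N := Nat.cast_nonneg N
      have h4 : (N : ℝ) * (‖f i‖ * ((q i : ℝ) / 4)) ≤ N * C := mul_le_mul_of_nonneg_left h2 hN'
      by_contra hcon
      have h5 : (1 : ℝ) ≤ N * ‖f i‖ := not_lt.mp hcon
      have h6 : (q i : ℝ) / 4 ≤ N * ‖f i‖ * ((q i : ℝ) / 4) :=
        le_mul_of_one_le_left (by linarith [hq1 i]) h5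
      nlinarith
    rw [Complex.norm_intCast] at hk1
    have hk0 : k = 0 := by
      have : |k| < 1 := by exact_mod_cast hk1
      exact Int.abs_lt_one_iff.mp this
    rw [hk0, Int.cast_zero] at hk
    have hN' : (N : ℂ) ≠ 0 := Nat.cast_ne_zero.mpr hN0
    exact (mul_eq_zero.mp hk).resolve_left hN'
  · intro N hN
    refine ⟨?_, ?_⟩
    · rw [pru2a_memB]
      refine ⟨1, one_ne_zero, Filter.Eventually.of_forall fun i => ⟨N i, ?_⟩⟩
      simp
    · rw [← Filter.Germ.coe_inv, ← Filter.Germ.coe_mul, pru2a_memO]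
      refine ⟨4, Filter.Eventually.of_forall fun i => ?_⟩
      rw [Pi.mul_apply, Pi.inv_apply, norm_mul, norm_inv, hn, Complex.norm_intCast, inv_div]
      have h1 : |(N i : ℝ)| ≤ q i := by exact_mod_cast hN i
      have h2 : (0 : ℝ) < q i := by linarith [hq1 i]
      rw [← mul_div_assoc, div_le_iff₀ h2]
      linarith

end Pool.Agent.P.MP_111ca2_co.PR
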