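import Pool.Agent.P.MP_111ca2_co.Chk
import Pool.Agent.P.MP_111ca2_co.Luc

/-! Digit automaton checker: meaning of states and the one-digit steps. -/

namespace Pool.Agent.P.MP_111ca2_co

noncomputable section

@[simp] theorem frc_eq {α : Type} (n : ℕ) (f : ℕ → α) : frc n f = f n := by cases n <;> rfl

theorem frcL_eq {α β : Type} (h : β → (β → α) → α) (hh : ∀ x k, h x k = k x) (l : List β)
    (k : List β → α) : frcL h l k = k l := by
  induction l generalizing k with
  | nil => rfl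
  | cons x r ih =>
    show h x (fun y => frcL h r fun r => k (y :: r)) = _
    rw [hh, ih]

theorem frc2_eq {α : Type} (x : N2) (k : N2 → α) : frc2 x k = k x := by simp [frc2]
theorem frc3_eq {α : Type} (x : N3) (k : N3 → α) : frc3 x k = k x := by simp [frc3]
@[simp] theorem frcL2 {α : Type} (l : List N2) (k : List N2 → α) : frcL frc2 l k = k l :=
  frcL_eq _ frc2_eq _ _
@[simp] theorem frcL3 {α : Type} (l : List N3) (k : List N3 → α) : frcL frc3 l k = k l :=
  frcL_eq _ frc3_eq _ _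
@[simp] theorem frcE1_eq {α : Type} (x : E1) (k : E1 → α) : frcE1 x k = k x := by simp [frcE1]
theorem frcE2_eq {α : Type} (x : E2) (k : E2 → α) : frcE2 x k = k x := by simp [frcE2]
theorem frcTW_eq {α : Type} (x : TW) (k : TW → α) : frcTW x k = k x := by simp [frcTW]
@[simp] theorem frcLE1 {α : Type} (l : List E1) (k : List E1 → α) : frcL frcE1 l k = k l :=
  frcL_eq _ frcE1_eq _ _
@[simp] theorem frcLE2 {α : Type} (l : List E2) (k : List E2 → α) : frcL frcE2 l k = k l :=
  frcL_eq _ frcE2_eq _ _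
@[simp] theorem frcLTW {α : Type} (l : List TW) (k : List TW → α) : frcL frcTW l k = k l :=
  frcL_eq _ frcTW_eq _ _

theorem stB_eq {α : Type} (P : Par) (e d : ℕ) (d2 : List E2) (w : List TW)
    (k : List E2 → List TW → α) :
    stB P e d d2 w k = k (d2.map (st2 P e d)) (stw P.od (incs P e d d2) w) := by simp [stB]

theorem carry_div (p s K a : ℕ) (hp : 0 < p) :
    (s * K + a) / p = s * (K / p) + (s * (K % p) + a) / p := by
  have : s * K + a = p * (s * (K / p)) + (s * (K % p) + a) := by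
    conv_lhs => rw [← Nat.div_add_mod K p]
    ring
  rw [this, Nat.mul_add_div hp]

theorem carry_mod (p s K a : ℕ) : (s * K + a) % p = (s * (K % p) + a) % p := by
  have : s * K + a = p * (s * (K / p)) + (s * (K % p) + a) := by
    conv_lhs => rw [← Nat.div_add_mod K p]
    ring
  rw [this, Nat.mul_add_mod]

theorem div_pow_succ (x p i : ℕ) : x / p ^ (i + 1) = x / p ^ i / p := by
  rw [Nat.div_div_eq_div_mul, pow_succ]

/-! ### entries modulo `p` -/

def Sem1 (p K : ℕ) (x : E1) : Prop := ∃ y ∈ x.2.2, ¬ p ∣ (x.1 * K + x.2.1).choose (y.1 * K + y.2)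

theorem mem_st1l (p n0 e : ℕ) (l : List N2) (y : N2) (hy : y ∈ l) (h : (y.1 * e + y.2) % p ≤ n0) :
    (y.1, (y.1 * e + y.2) / p) ∈ st1l p n0 e l := by
  induction l with
  | nil => simp at hy
  | cons x r ih =>
    show _ ∈ frc (x.1 * e + x.2) fun y =>
      bif Nat.ble (y % p) n0 then (x.1, y / p) :: st1l p n0 e r else st1l p n0 e r
    rw [frc_eq]
    rcases List.mem_cons.1 hy with rfl | hy
    · rw [Nat.ble_eq_true_of_le h]; simp
    · cases Nat.ble ((x.1 * e + x.2) % p) n0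
      · exact ih hy
      · exact List.mem_cons_of_mem _ (ih hy)

theorem sem1_step (p K : ℕ) (hp : p.Prime) (x : E1) (h : Sem1 p K x) :
    Sem1 p (K / p) (st1 p (K % p) x) := by
  obtain ⟨y, hy, hd⟩ := h
  have := Fact.mk hp
  have hl := Choose.choose_modEq_choose_mod_mul_choose_div_nat (n := x.1 * K + x.2.1)
    (k := y.1 * K + y.2) (p := p)
  rw [hl.dvd_iff dvd_rfl, carry_mod p x.1, carry_mod p y.1, carry_div p x.1 _ _ hp.pos,
    carry_div p y.1 _ _ hp.pos] at hd
  refine ⟨(y.1, (y.1 * (K % p) + y.2) / p), ?_, fun h => hd (h.mul_left _)⟩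
  simp only [st1, frc_eq]
  refine mem_st1l _ _ _ _ _ hy ?_
  by_contra hc
  exact hd (by rw [Nat.choose_eq_zero_of_lt (not_le.1 hc)]; simp)

theorem sem1_ne (p K : ℕ) (x : E1) (h : Sem1 p K x) : x.2.2.isEmpty = false := by
  obtain ⟨y, hy, _⟩ := h
  cases hx : x.2.2 with
  | nil => rw [hx] at hy; simp at hy
  | cons _ _ => rfl

theorem zr1_sound (p : ℕ) (hp : p.Prime) (r : ℕ) (x : E1) (h : Sem1 p 0 x) : zr1 p r x = false := by
  induction r generalizing x with
  | zero => rfl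
  | succ r ih =>
    show frcE1 (st1 p 0 x) (fun y => y.2.2.isEmpty || zr1 p r y) = false
    have := sem1_step p 0 hp x h
    rw [Nat.zero_div, Nat.zero_mod] at this
    rw [frcE1_eq, sem1_ne _ _ _ this, ih _ this]; rfl

/-! ### entries modulo the square of `p` -/

abbrev RR (P : Par) := ZMod (P.p * P.p)

theorem pp_zero (P : Par) : ((P.p : RR P) * (P.p : RR P)) = 0 := by
  exact_mod_cast ZMod.natCast_self (P.p * P.p)

theorem ch_eq (n k : ℕ) : ch n k = n.choose k := (Nat.choose_eq_descFactorial_div_factorial n k).symm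

theorem ok_g (P : Par) (h : P.ok = true) : (P.g : RR P) ^ P.od = 1 := by
  simp only [Par.ok, Bool.and_eq_true, Nat.beq_eq] at h
  have := (ZMod.natCast_mod (P.g ^ P.od) (P.p * P.p)).symm
  rw [h.1.1] at this
  exact_mod_cast this

theorem ok_lg (P : Par) (h : P.ok = true) (L : ℕ) (hL : L < P.od) :
    P.lg (P.g ^ L % (P.p * P.p)) = L := by
  simp only [Par.ok, Bool.and_eq_true, Nat.beq_eq, List.all_eq_true, List.mem_range] at h
  exact h.1.2 L hL

theorem ok_cd (P : Par) (h : P.ok = true) (n0 m0 N M : ℕ) (h1 : n0 < P.p) (h2 : m0 < P.p)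
    (h3 : N < P.p) (h4 : M < P.p) :
    (cval P (cel P.p (P.row n0 N) m0 M) : RR P) = (n0.choose m0 : RR P) + N * ((n0 + P.p).choose m0 : RR P)
      + M * ((n0 + P.p).choose (m0 + P.p) : RR P) - N * (n0.choose m0 : RR P)
      - M * ((n0 + P.p).choose m0 : RR P) := by
  simp only [Par.ok, Bool.and_eq_true, Nat.beq_eq, List.all_eq_true, List.mem_range, frc_eq, ch_eq] at h
  have := (ZMod.natCast_eq_natCast_iff' _ _ _).2 (h.2 n0 h1 m0 h2 N h3 M h4)
  push_cast at this
  linear_combination this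

theorem choose_step (P : Par) (hp : P.p.Prime) (h : P.ok = true) (K : ℕ) (x : E2) (y : N3) :
    ((x.1 * K + x.2.1).choose (y.1 * K + y.2.1) : RR P) =
      (cval P (tcd P.p (erow P (K % P.p) (K / P.p % P.p) x) (K % P.p) (K / P.p % P.p) y) : RR P) *
      ((x.1 * (K / P.p) + (x.1 * (K % P.p) + x.2.1) / P.p).choose
        (y.1 * (K / P.p) + (y.1 * (K % P.p) + y.2.1) / P.p) : RR P) := by
  have hm := fun z => Nat.mod_lt z hp.pos
  rw [lucas_dig P.p hp (pp_zero P), tcd, frc_eq, erow, ok_cd P h _ _ _ _ (hm _) (hm _) (hm _) (hm _),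
    carry_mod P.p x.1 K, carry_mod P.p y.1 K, carry_div P.p x.1 K _ hp.pos,
    carry_div P.p y.1 K _ hp.pos, carry_mod P.p x.1 (K / P.p), carry_mod P.p y.1 (K / P.p), mul_comm]

def trm (P : Par) (S a K : ℕ) (y : N3) : RR P :=
  (P.p : RR P) ^ y.2.2 * ((S * K + a).choose (y.1 * K + y.2.1) : RR P)

/-- the successor of a term -/
def nxt (p e c : ℕ) (y : N3) : N3 := (y.1, (y.1 * e + y.2.1) / p, y.2.2 + (c - 1) % 2)

theorem st2l_cons (p row e d : ℕ) (x : N3) (r : List N3) :
    st2l p row e d (x :: r) =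
      if tcd p row e d x ≠ 0 ∧ x.2.2 + (tcd p row e d x - 1) % 2 ≤ 1 then
        nxt p e (tcd p row e d x) x :: st2l p row e d r else st2l p row e d r := by
  show frc (tcd p row e d x) (fun c => bif Nat.beq c 0 then st2l p row e d r else
    bif Nat.ble (x.2.2 + (c - 1) % 2) 1 then
      (x.1, (x.1 * e + x.2.1) / p, x.2.2 + (c - 1) % 2) :: st2l p row e d r else st2l p row e d r) = _
  rw [frc_eq]
  by_cases h0 : tcd p row e d x = 0
  · simp [h0]
  · have : Nat.beq (tcd p row e d x) 0 = false := by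
      cases hb : Nat.beq (tcd p row e d x) 0
      · rfl
      · exact absurd (Nat.eq_of_beq_eq_true hb) h0
    rw [this]
    by_cases h1 : x.2.2 + (tcd p row e d x - 1) % 2 ≤ 1
    · rw [Nat.ble_eq_true_of_le h1, if_pos ⟨h0, h1⟩]; rfl
    · have : Nat.ble (x.2.2 + (tcd p row e d x - 1) % 2) 1 = false := by
        cases hb : Nat.ble (x.2.2 + (tcd p row e d x - 1) % 2) 1
        · rfl
        · exact absurd (Nat.le_of_ble_eq_true hb) h1
      rw [this, if_neg (fun h => h1 h.2)]; rfl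

theorem trm_step (P : Par) (hp : P.p.Prime) (h : P.ok = true) (K : ℕ) (x : E2) (y : N3) (c : ℕ)
    (hc : c = tcd P.p (erow P (K % P.p) (K / P.p % P.p) x) (K % P.p) (K / P.p % P.p) y) :
    trm P x.1 x.2.1 K y = if c ≠ 0 ∧ y.2.2 + (c - 1) % 2 ≤ 1 then
      (P.g : RR P) ^ ((c - 1) / 2) *
        trm P x.1 ((x.1 * (K % P.p) + x.2.1) / P.p) (K / P.p) (nxt P.p (K % P.p) c y) else 0 := by
  rw [trm, choose_step P hp h, ← hc]
  by_cases h0 : c = 0
  · simp [h0, cval]
  · have hb : Nat.beq c 0 = false := by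
      cases hb : Nat.beq c 0
      · rfl
      · exact absurd (Nat.eq_of_beq_eq_true hb) h0
    have hv : (cval P c : RR P) = (P.p : RR P) ^ ((c - 1) % 2) * (P.g : RR P) ^ ((c - 1) / 2) := by
      simp [cval, hb]
    rw [hv]
    split_ifs with h1
    · simp only [trm, nxt, pow_add]; ring
    · obtain ⟨m, hm⟩ : ∃ m, y.2.2 + (c - 1) % 2 = m + 2 := ⟨y.2.2 + (c - 1) % 2 - 2, by omega⟩
      have : (P.p : RR P) ^ y.2.2 * (P.p : RR P) ^ ((c - 1) % 2) = 0 := by
        rw [← pow_add, hm, pow_add, pow_two, pp_zero, mul_zero]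
      rw [← mul_assoc, ← mul_assoc, this, zero_mul, zero_mul]

def cdg (P : Par) (k S t j : ℕ) : ℕ :=
  cel P.p (P.row (S * k / P.p ^ j % P.p) (S * k / P.p ^ (j + 1) % P.p)) (t * k / P.p ^ j % P.p)
    (t * k / P.p ^ (j + 1) % P.p)

def Lf (P : Par) (k : ℕ) : ℕ → ℕ → ℕ → ℕ
  | 0, _, _ => 0
  | j + 1, S, t => Lf P k j S t + (cdg P k S t j - 1) / 2

def msum (P : Par) (F : ℕ → ℕ → ℕ) (S a K : ℕ) (l : List N3) : RR P :=
  (l.map fun y => (cf (P.p * P.p) S y.1 : RR P) * (P.g : RR P) ^ F S y.1 * trm P S a K y).sum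

def osp (P : Par) (S a K : ℕ) (l : List N3) : Ideal (RR P) :=
  Ideal.span {z | ∃ y ∈ l, z = trm P S a K y}

def Sem2 (P : Par) (k i : ℕ) (x : E2) : Prop :=
  x.1 * k / P.p ^ i = x.1 * (k / P.p ^ i) + x.2.1 ∧
  (∀ y ∈ x.2.2.1, y.1 * k / P.p ^ i = y.1 * (k / P.p ^ i) + y.2.1) ∧
  2 + msum P (Lf P k i) x.1 x.2.1 (k / P.p ^ i) x.2.2.1 ∈ osp P x.1 x.2.1 (k / P.p ^ i) x.2.2.2

theorem tcd_true (P : Par) (hp : P.p.Prime) (k i : ℕ) (x : E2) (y : N3)
    (hx : x.1 * k / P.p ^ i = x.1 * (k / P.p ^ i) + x.2.1)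
    (hy : y.1 * k / P.p ^ i = y.1 * (k / P.p ^ i) + y.2.1) :
    tcd P.p (erow P (k / P.p ^ i % P.p) (k / P.p ^ i / P.p % P.p) x) (k / P.p ^ i % P.p)
      (k / P.p ^ i / P.p % P.p) y = cdg P k x.1 y.1 i := by
  rw [tcd, frc_eq, erow, cdg, div_pow_succ, div_pow_succ, hx, hy, carry_mod P.p x.1 (k / P.p ^ i),
    carry_mod P.p y.1 (k / P.p ^ i), carry_div P.p x.1 (k / P.p ^ i) _ hp.pos,
    carry_div P.p y.1 (k / P.p ^ i) _ hp.pos,
    carry_mod P.p x.1 (k / P.p ^ i / P.p), carry_mod P.p y.1 (k / P.p ^ i / P.p)]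

theorem osp_step (P : Par) (hp : P.p.Prime) (h : P.ok = true) (K : ℕ) (x : E2) (l : List N3) :
    osp P x.1 x.2.1 K l ≤ osp P x.1 ((x.1 * (K % P.p) + x.2.1) / P.p) (K / P.p)
      (st2l P.p (erow P (K % P.p) (K / P.p % P.p) x) (K % P.p) (K / P.p % P.p) l) := by
  rw [osp, Ideal.span_le]
  rintro z ⟨y, hy, rfl⟩
  rw [trm_step P hp h K x y _ rfl]
  split_ifs with h1
  · refine Ideal.mul_mem_left _ _ (Ideal.subset_span ⟨_, ?_, rfl⟩)
    induction l with
    | nil => simp at hy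
    | cons a r ih =>
      rw [st2l_cons]
      rcases List.mem_cons.1 hy with rfl | hy
      · rw [if_pos h1]; exact List.mem_cons_self
      · split_ifs
        · exact List.mem_cons_of_mem _ (ih hy)
        · exact ih hy
  · exact Ideal.zero_mem _

theorem main_step (P : Par) (hp : P.p.Prime) (h : P.ok = true) (k i : ℕ) (x : E2)
    (hx : x.1 * k / P.p ^ i = x.1 * (k / P.p ^ i) + x.2.1) (l : List N3)
    (hl : ∀ y ∈ l, y.1 * k / P.p ^ i = y.1 * (k / P.p ^ i) + y.2.1) :
    (∀ y ∈ st2l P.p (erow P (k / P.p ^ i % P.p) (k / P.p ^ i / P.p % P.p) x) (k / P.p ^ i % P.p)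
      (k / P.p ^ i / P.p % P.p) l, y.1 * k / P.p ^ (i + 1) = y.1 * (k / P.p ^ i / P.p) + y.2.1) ∧
    msum P (Lf P k i) x.1 x.2.1 (k / P.p ^ i) l =
      msum P (Lf P k (i + 1)) x.1 ((x.1 * (k / P.p ^ i % P.p) + x.2.1) / P.p) (k / P.p ^ i / P.p)
        (st2l P.p (erow P (k / P.p ^ i % P.p) (k / P.p ^ i / P.p % P.p) x) (k / P.p ^ i % P.p)
          (k / P.p ^ i / P.p % P.p) l) := by
  induction l with
  | nil => exact ⟨fun y hy => absurd hy List.not_mem_nil, rfl⟩
  | cons a r ih =>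
    obtain ⟨i1, i2⟩ := ih fun y hy => hl y (List.mem_cons_of_mem _ hy)
    have ha := hl a List.mem_cons_self
    have ht := trm_step P hp h (k / P.p ^ i) x a _ rfl
    rw [st2l_cons]
    simp only [msum, List.map_cons, List.sum_cons] at i2 ⊢
    rw [ht, i2]
    split_ifs with h1
    · refine ⟨fun y hy => ?_, ?_⟩
      · rcases List.mem_cons.1 hy with rfl | hy
        · simp only [nxt]
          rw [div_pow_succ, ha, carry_div _ _ _ _ hp.pos]
        · exact i1 y hy
      · simp only [List.map_cons, List.sum_cons, Lf, pow_add]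
        rw [tcd_true P hp k i x a hx ha]
        simp only [nxt]
        ring
    · exact ⟨i1, by simp⟩

theorem sem2_step (P : Par) (hp : P.p.Prime) (h : P.ok = true) (k i : ℕ) (x : E2)
    (hx : Sem2 P k i x) :
    Sem2 P k (i + 1) (st2 P (k / P.p ^ i % P.p) (k / P.p ^ (i + 1) % P.p) x) := by
  obtain ⟨h1, h2, h3⟩ := hx
  obtain ⟨m1, m2⟩ := main_step P hp h k i x h1 _ h2
  simp only [Sem2, st2, frc_eq, div_pow_succ k]
  refine ⟨by rw [div_pow_succ, h1, carry_div _ _ _ _ hp.pos], m1, ?_⟩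
  rw [← m2]
  exact osp_step P hp h _ x _ h3

/-! ### linear relations between the logarithms -/

def tsum (F : ℕ → ℕ → ℕ) (tm : List N3) : ℕ := (tm.map fun y => y.2.2 * F y.1 y.2.1).sum

theorem look_mem (S t v : ℕ) (l : List N3) (h : look S t l = some v) : (S, t, v) ∈ l := by
  induction l with
  | nil => cases h
  | cons x r ih =>
    change (bif Nat.beq x.2.1 t && Nat.beq x.1 S then some x.2.2 else look S t r) = some v at h
    cases hb : (Nat.beq x.2.1 t && Nat.beq x.1 S)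
    · rw [hb] at h; exact List.mem_cons_of_mem _ (ih h)
    · rw [hb] at h
      simp only [Bool.and_eq_true, Nat.beq_eq] at hb
      have : x = (S, t, v) := by
        obtain ⟨a, b, c⟩ := x
        simp only [cond_true, Option.some.injEq] at h hb
        rw [hb.1, hb.2, h]
      rw [this]; exact List.mem_cons_self

theorem evT_spec (D : ℕ → ℕ → ℕ) (m : ℕ) (env : List N3)
    (he : ∀ z ∈ env, z.2.2 ≡ D z.1 z.2.1 [MOD m]) (tm : List N3) :
    ∀ v, evT env tm = some v → v ≡ tsum D tm [MOD m] := by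
  induction tm with
  | nil => intro v h; cases h; rfl
  | cons x r ih =>
    intro v h
    change ((look x.1 x.2.1 env).bind fun a => (evT env r).map fun b => x.2.2 * a + b) = some v at h
    simp only [Option.bind_eq_some_iff, Option.map_eq_some_iff] at h
    obtain ⟨a, ha, b, hb, rfl⟩ := h
    simp only [tsum, List.map_cons, List.sum_cons]
    exact ((he _ (look_mem _ _ _ _ ha)).mul_left _).add (ih b hb)

theorem tsum_succ (P : Par) (k i : ℕ) (tm : List N3) :
    tsum (Lf P k (i + 1)) tm = tsum (Lf P k i) tm + tsum (fun S t => (cdg P k S t i - 1) / 2) tm := by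
  induction tm with
  | nil => rfl
  | cons x r ih =>
    simp only [tsum, List.map_cons, List.sum_cons, Lf] at ih ⊢
    rw [ih]; ring

theorem incs_true (P : Par) (hp : P.p.Prime) (k i : ℕ) (l : List E2) (hl : ∀ x ∈ l, Sem2 P k i x) :
    ∀ z ∈ incs P (k / P.p ^ i % P.p) (k / P.p ^ (i + 1) % P.p) l,
      z.2.2 = (cdg P k z.1 z.2.1 i - 1) / 2 := by
  induction l with
  | nil => intro z hz; cases hz
  | cons x r ih =>
    intro z hz
    change z ∈ frc (erow P _ _ x) (fun row => x.2.2.1.map (fun y => (x.1, y.1, (tcd P.p row _ _ y - 1) / 2))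
      ++ incs P _ _ r) at hz
    rw [frc_eq, List.mem_append, List.mem_map] at hz
    rcases hz with ⟨y, hy, rfl⟩ | hz
    · obtain ⟨h1, h2, _⟩ := hl x List.mem_cons_self
      simp only
      rw [div_pow_succ k, tcd_true P hp k i x y h1 (h2 y hy)]
    · exact ih (fun x hx => hl x (List.mem_cons_of_mem _ hx)) z hz

def SemB (P : Par) (k i : ℕ) (d2 : List E2) (w : List TW) : Prop :=
  (∀ x ∈ d2, Sem2 P k i x) ∧ ∀ x ∈ w, tsum (Lf P k i) x.1 ≡ x.2 [MOD P.od]

theorem semB_step (P : Par) (hp : P.p.Prime) (h : P.ok = true) (k i : ℕ) (d2 : List E2) (w : List TW)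
    (hs : SemB P k i d2 w) (e d : ℕ) (he : k / P.p ^ i % P.p = e) (hd : k / P.p ^ (i + 1) % P.p = d) :
    SemB P k (i + 1) (d2.map (st2 P e d)) (stw P.od (incs P e d d2) w) := by
  subst he hd
  refine ⟨fun x hx => ?_, fun x hx => ?_⟩
  · obtain ⟨y, hy, rfl⟩ := List.mem_map.1 hx
    exact sem2_step P hp h k i y (hs.1 y hy)
  · simp only [stw, List.mem_filterMap, Option.map_eq_some_iff] at hx
    obtain ⟨y, hy, v, hv, rfl⟩ := hx
    have := evT_spec (fun S t => (cdg P k S t i - 1) / 2) P.od _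
      (fun z hz => by rw [incs_true P hp k i d2 hs.1 z hz]) _ v hv
    simp only
    rw [tsum_succ]
    exact ((hs.2 y hy).add this.symm).trans (Nat.mod_modEq _ _).symm

end

end Pool.Agent.P.MP_111ca2_co
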